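import Mathlib

/-!
# The algebra of uniformly continuous holomorphic functions on the unit ball

Definitions for MP_b0899f_an.
-/

set_option linter.unusedSectionVars false

namespace Pool.Agent.helper68.Gl

open Metric Set

noncomputable section

/-- Extension by zero of a function defined on the open unit ball. -/
def extZ {X : Type*} [NormedAddCommGroup X] (f : ball (0 : X) 1 → ℂ) : X → ℂ :=
  open Classical in fun x => if h : x ∈ ball (0 : X) 1 then f ⟨x, h⟩ else 0

/-- A function on the open unit ball is holomorphic: it is complex analytic at every point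
of the ball. -/
def HolOnBall {X : Type*} [NormedAddCommGroup X] [NormedSpace ℂ X]
    (f : ball (0 : X) 1 → ℂ) : Prop :=
  AnalyticOnNhd ℂ (extZ f) (ball (0 : X) 1)

section basic

variable {X : Type*} [NormedAddCommGroup X] [NormedSpace ℂ X]

lemma extZ_of_mem {f : ball (0 : X) 1 → ℂ} {x : X} (h : x ∈ ball (0 : X) 1) :
    extZ f x = f ⟨x, h⟩ := by
  simp only [extZ, h, dif_pos]

lemma extZ_coe {f : ball (0 : X) 1 → ℂ} (x : ball (0 : X) 1) : extZ f x = f x := by
  rw [extZ_of_mem x.2]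

/-- Membership predicate for functions on the whole space. -/
def Mem (f : X → ℂ) : Prop :=
  AnalyticOnNhd ℂ f (ball (0 : X) 1) ∧ UniformContinuousOn f (ball (0 : X) 1)

lemma holOnBall_iff {f : X → ℂ} :
    HolOnBall (fun x : ball (0 : X) 1 => f x) ↔ AnalyticOnNhd ℂ f (ball (0 : X) 1) := by
  have key : ∀ x ∈ ball (0 : X) 1, extZ (fun x : ball (0 : X) 1 => f x) =ᶠ[nhds x] f := by
    intro x hx
    filter_upwards [isOpen_ball.mem_nhds hx] with y hy
    rw [extZ_of_mem hy]
  constructor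
  · intro h x hx
    exact (h x hx).congr (key x hx)
  · intro h x hx
    exact (h x hx).congr (key x hx).symm

/-- A uniformly continuous function on the unit ball is bounded. -/
lemma bounded_of_uc {f : ball (0 : X) 1 → ℂ} (hf : UniformContinuous f) :
    ∃ C : ℝ, ∀ x, ‖f x‖ ≤ C := by
  obtain ⟨δ, hδ, h⟩ := Metric.uniformContinuous_iff.1 hf 1 one_pos
  obtain ⟨n, hn⟩ := exists_nat_gt (1 / δ)
  have hn0 : (0 : ℝ) < n := lt_trans (by positivity) hn
  have hmem : ∀ (x : ball (0 : X) 1) (k : ℕ), k ≤ n →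
      ((k / n : ℝ) : ℂ) • (x : X) ∈ ball (0 : X) 1 := by
    intro x k hk
    have hx := x.2
    rw [mem_ball_zero_iff] at hx ⊢
    rw [norm_smul, Complex.norm_real, Real.norm_of_nonneg (by positivity)]
    have h1 : (k / n : ℝ) ≤ 1 := by
      rw [div_le_one hn0]; exact_mod_cast hk
    calc (k / n : ℝ) * ‖(x : X)‖ ≤ 1 * ‖(x : X)‖ := by gcongr
      _ < 1 := by simpa using hx
  refine ⟨‖f ⟨0, by simp⟩‖ + n, fun x => ?_⟩
  have key : ∀ (k : ℕ) (hk : k ≤ n),
      ‖f ⟨((k / n : ℝ) : ℂ) • (x : X), hmem x k hk⟩‖ ≤ ‖f ⟨0, by simp⟩‖ + k := by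
    intro k
    induction k with
    | zero =>
      intro hk
      have : (⟨(((0 : ℕ) / n : ℝ) : ℂ) • (x : X), hmem x 0 hk⟩ : ball (0 : X) 1)
          = ⟨0, by simp⟩ := by
        apply Subtype.ext
        simp
      rw [this]; simp
    | succ k ih =>
      intro hk
      have h1 := ih (by omega)
      have h2 : dist (⟨(((k + 1 : ℕ) / n : ℝ) : ℂ) • (x : X), hmem x (k + 1) hk⟩ :
          ball (0 : X) 1) ⟨((k / n : ℝ) : ℂ) • (x : X), hmem x k (by omega)⟩ < δ := by
        rw [Subtype.dist_eq, dist_eq_norm, ← sub_smul, norm_smul]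
        have e : ((((k + 1 : ℕ) / n : ℝ) : ℂ) - ((k / n : ℝ) : ℂ)) = ((1 / n : ℝ) : ℂ) := by
          push_cast; ring
        rw [e, Complex.norm_real, Real.norm_of_nonneg (by positivity)]
        have hx := x.2
        rw [mem_ball_zero_iff] at hx
        calc (1 / n : ℝ) * ‖(x : X)‖ ≤ (1 / n : ℝ) * 1 := by gcongr
          _ < δ := by
            rw [mul_one, div_lt_iff₀ hn0]
            rw [div_lt_iff₀ hδ] at hn
            linarith
      have h3 := h h2
      rw [dist_eq_norm] at h3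
      have h4 := norm_le_norm_add_norm_sub' (f ⟨(((k + 1 : ℕ) / n : ℝ) : ℂ) • (x : X), hmem x (k + 1) hk⟩)
        (f ⟨((k / n : ℝ) : ℂ) • (x : X), hmem x k (by omega)⟩)
      have h5 : ‖f ⟨0, by simp⟩‖ + ((k + 1 : ℕ) : ℝ) = ‖f ⟨0, by simp⟩‖ + k + 1 := by
        push_cast; ring
      rw [h5]
      linarith
  have h5 := key n le_rfl
  have : (⟨((n / n : ℝ) : ℂ) • (x : X), hmem x n le_rfl⟩ : ball (0 : X) 1) = x := by
    apply Subtype.ext
    have e : ((n : ℝ) / n : ℝ) = 1 := div_self hn0.ne'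
    simp only [e, Complex.ofReal_one, one_smul]
  rwa [this] at h5

lemma uc_mul {f g : ball (0 : X) 1 → ℂ} (hf : UniformContinuous f) (hg : UniformContinuous g) :
    UniformContinuous (f * g) := by
  obtain ⟨C, hC⟩ := bounded_of_uc hf
  obtain ⟨D, hD⟩ := bounded_of_uc hg
  have hC0 : 0 ≤ C := (norm_nonneg _).trans (hC ⟨0, by simp⟩)
  have hD0 : 0 ≤ D := (norm_nonneg _).trans (hD ⟨0, by simp⟩)
  rw [Metric.uniformContinuous_iff] at hf hg ⊢
  intro ε hε
  obtain ⟨δ1, hδ1, h1⟩ := hf (ε / (2 * (D + 1))) (by positivity)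
  obtain ⟨δ2, hδ2, h2⟩ := hg (ε / (2 * (C + 1))) (by positivity)
  refine ⟨min δ1 δ2, lt_min hδ1 hδ2, fun x y hxy => ?_⟩
  have e1 := h1 (lt_of_lt_of_le hxy (min_le_left _ _))
  have e2 := h2 (lt_of_lt_of_le hxy (min_le_right _ _))
  rw [dist_eq_norm] at e1 e2 ⊢
  simp only [Pi.mul_apply]
  have e : f x * g x - f y * g y = (f x - f y) * g x + f y * (g x - g y) := by ring
  rw [e]
  calc ‖(f x - f y) * g x + f y * (g x - g y)‖
      ≤ ‖f x - f y‖ * ‖g x‖ + ‖f y‖ * ‖g x - g y‖ := by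
        refine (norm_add_le _ _).trans ?_
        rw [norm_mul, norm_mul]
    _ ≤ (ε / (2 * (D + 1))) * D + C * (ε / (2 * (C + 1))) := by
        gcongr
        · exact hD x
        · exact hC y
    _ < ε := by
        have a1 : (ε / (2 * (D + 1))) * D < ε / 2 := by
          rw [div_mul_eq_mul_div, div_lt_div_iff₀ (by positivity) (by positivity)]
          nlinarith
        have a2 : C * (ε / (2 * (C + 1))) < ε / 2 := by
          rw [mul_div_assoc', div_lt_div_iff₀ (by positivity) (by positivity)]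
          nlinarith
        linarith

lemma extZ_add (f g : ball (0 : X) 1 → ℂ) : extZ (f + g) = extZ f + extZ g := by
  funext x
  by_cases h : x ∈ ball (0 : X) 1
  · simp only [Pi.add_apply, extZ_of_mem h]
  · simp [extZ, h]

lemma extZ_mul (f g : ball (0 : X) 1 → ℂ) : extZ (f * g) = extZ f * extZ g := by
  funext x
  by_cases h : x ∈ ball (0 : X) 1
  · simp only [Pi.mul_apply, extZ_of_mem h]
  · simp [extZ, h]

lemma au_mul_mem {f g : ball (0 : X) 1 → ℂ} (hf : HolOnBall f ∧ UniformContinuous f)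
    (hg : HolOnBall g ∧ UniformContinuous g) : HolOnBall (f * g) ∧ UniformContinuous (f * g) := by
  obtain ⟨hf, hf'⟩ := hf
  obtain ⟨hg, hg'⟩ := hg
  refine ⟨?_, uc_mul hf' hg'⟩
  unfold HolOnBall at *
  rw [extZ_mul]
  exact hf.mul hg

lemma au_add_mem {f g : ball (0 : X) 1 → ℂ} (hf : HolOnBall f ∧ UniformContinuous f)
    (hg : HolOnBall g ∧ UniformContinuous g) : HolOnBall (f + g) ∧ UniformContinuous (f + g) := by
  obtain ⟨hf, hf'⟩ := hf
  obtain ⟨hg, hg'⟩ := hg
  refine ⟨?_, hf'.add hg'⟩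
  unfold HolOnBall at *
  rw [extZ_add]
  exact hf.add hg

lemma au_algebraMap_mem (c : ℂ) : HolOnBall (algebraMap ℂ (ball (0 : X) 1 → ℂ) c) ∧
    UniformContinuous (algebraMap ℂ (ball (0 : X) 1 → ℂ) c) := by
  refine ⟨?_, uniformContinuous_const⟩
  exact (holOnBall_iff (f := fun _ : X => c)).2 (fun x _ => analyticAt_const)

end basic

/-- The algebra `A_u(B)` of all holomorphic uniformly continuous functions on the open unit
ball of `X`. -/
def Au (X : Type*) [NormedAddCommGroup X] [NormedSpace ℂ X] :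
    Subalgebra ℂ (ball (0 : X) 1 → ℂ) where
  carrier := {f | HolOnBall f ∧ UniformContinuous f}
  mul_mem' := au_mul_mem
  add_mem' := au_add_mem
  algebraMap_mem' := au_algebraMap_mem

/-- Evaluation at the centre of the ball. -/
def delta0 (X : Type*) [NormedAddCommGroup X] [NormedSpace ℂ X] : Au X →ₐ[ℂ] ℂ :=
  (Pi.evalAlgHom ℂ (fun _ : ball (0 : X) 1 => ℂ) ⟨0, mem_ball_self one_pos⟩).comp (Au X).val

/-- Two elements of the spectrum of `A_u(B)` lie in the same Gleason part:
`‖φ - ψ‖ < 2` in the dual norm. -/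
def SamePart {X : Type*} [NormedAddCommGroup X] [NormedSpace ℂ X]
    (φ ψ : Au X →ₐ[ℂ] ℂ) : Prop :=
  ∃ c : ℝ, c < 2 ∧ ∀ f : Au X, (∀ x, ‖(f : ball (0 : X) 1 → ℂ) x‖ ≤ 1) → ‖φ f - ψ f‖ ≤ c

end

end Pool.Agent.helper68.Gl
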