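import Pool.Agent.helper68.Gl.Geo
import Pool.Agent.helper68.Gl.Defs

/-!
# The polynomials `Σ_N (Q_N)^k`
-/

set_option linter.unusedSectionVars false

namespace Pool.Agent.helper68.Gl

open Finset Function
open scoped ComplexConjugate ENNReal

noncomputable section

/-- Power mean inequality. -/
lemma power_mean (N : ℕ) (u : Fin N → ℝ) (hu : ∀ j, 0 ≤ u j) {θ : ℝ} (h0 : 0 < θ) (h1 : θ ≤ 1) :
    (N : ℝ) ^ (θ - 1) * ∑ j, u j ^ θ ≤ (∑ j, u j) ^ θ := by
  rcases Nat.eq_zero_or_pos N with rfl | hN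
  · simp [Real.zero_rpow h0.ne']
  have hN' : (0 : ℝ) < N := by exact_mod_cast hN
  have h := (Real.concaveOn_rpow h0.le h1).le_map_sum (t := Finset.univ)
    (w := fun _ : Fin N => 1 / (N : ℝ)) (p := u) (fun _ _ => by positivity)
    (by rw [Finset.sum_const, Finset.card_univ, Fintype.card_fin, nsmul_eq_mul]; field_simp)
    (fun j _ => hu j)
  simp only [smul_eq_mul, ← Finset.mul_sum] at h
  have hS : 0 ≤ ∑ j, u j := Finset.sum_nonneg fun j _ => hu j
  rw [Real.mul_rpow (by positivity) hS] at h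
  have e : (N : ℝ) ^ (θ - 1) = (N : ℝ) ^ θ * (1 / N) := by
    rw [Real.rpow_sub_one hN'.ne']; ring
  rw [e, mul_assoc]
  calc (N : ℝ) ^ θ * (1 / N * ∑ j, u j ^ θ) ≤ (N : ℝ) ^ θ * ((1 / N) ^ θ * (∑ j, u j) ^ θ) := by
        gcongr
    _ = (∑ j, u j) ^ θ := by
        rw [← mul_assoc, ← Real.mul_rpow (by positivity) (by positivity)]
        rw [mul_one_div_cancel hN'.ne', Real.one_rpow, one_mul]

variable {p : ℝ≥0∞} [Fact (1 ≤ p)]

/-- coordinate functional -/
def crd (m : ℕ) : LP p →L[ℂ] ℂ := lp.evalCLM ℂ (fun _ : ℕ => ℂ) p m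

lemma crd_apply (m : ℕ) (x : LP p) : crd m x = x m := rfl

variable {d n : ℕ} (c : (Fin d → Fin n) → ℂ)

/-- The `d`-linear form `Q_N`. -/
def QM (p : ℝ≥0∞) [Fact (1 ≤ p)] (c : (Fin d → Fin n) → ℂ) (N : ℕ) :
    ContinuousMultilinearMap ℂ (fun _ : Fin d => LP p) ℂ :=
  (((N : ℝ) ^ ((d : ℝ) / p.toReal - 1) : ℝ) : ℂ) • ∑ j : Fin N, ∑ r : Fin d → Fin n,
    c r • (ContinuousMultilinearMap.mkPiAlgebra ℂ (Fin d) ℂ).compContinuousLinearMap
      (fun s => crd (enc N j (r s)))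

lemma QM_apply (N : ℕ) (v : Fin d → LP p) :
    QM p c N v = (((N : ℝ) ^ ((d : ℝ) / p.toReal - 1) : ℝ) : ℂ) *
      ∑ j : Fin N, ∑ r : Fin d → Fin n, c r * ∏ s, v s (enc N j (r s)) := by
  simp only [QM, _root_.smul_apply, _root_.sum_apply, smul_eq_mul,
    ContinuousMultilinearMap.compContinuousLinearMap_apply,
    ContinuousMultilinearMap.mkPiAlgebra_apply, crd_apply]

lemma QM_bound (hd : 1 ≤ d) (hdp : (d : ℝ) ≤ p.toReal) (N : ℕ) (v : Fin d → LP p) {S : ℝ}
    (hS : ∑ s, mass n N (v s) ≤ S) :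
    ‖QM p c N v‖ ≤ (∑ r, ‖c r‖) * S ^ ((d : ℝ) / p.toReal) := by
  have hd0 : (0 : ℝ) < d := by exact_mod_cast hd
  have hp : 0 < p.toReal := lt_of_lt_of_le hd0 hdp
  set θ : ℝ := (d : ℝ) / p.toReal with hθ
  have hθ0 : 0 < θ := by positivity
  have hθ1 : θ ≤ 1 := by rw [hθ, div_le_one hp]; exact hdp
  set C : ℝ := ∑ r, ‖c r‖ with hC
  have hC0 : 0 ≤ C := Finset.sum_nonneg fun _ _ => norm_nonneg _
  set u : Fin N → ℝ := fun j => ∑ s, ∑ i : Fin n, ‖v s (enc N j i)‖ ^ p.toReal with hu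
  have hu0 : ∀ j, 0 ≤ u j := fun j =>
    Finset.sum_nonneg fun _ _ => Finset.sum_nonneg fun _ _ => by positivity
  have husum : ∑ j, u j = ∑ s, mass n N (v s) := by
    simp only [hu, mass]
    rw [Finset.sum_comm]
  have hterm : ∀ j : Fin N, ‖∑ r : Fin d → Fin n, c r * ∏ s, v s (enc N j (r s))‖
      ≤ C * u j ^ θ := by
    intro j
    refine (norm_sum_le _ _).trans ?_
    rw [hC, Finset.sum_mul]
    refine Finset.sum_le_sum fun r _ => ?_
    rw [norm_mul, norm_prod]
    have hs : ∀ s : Fin d, ‖v s (enc N j (r s))‖ ≤ u j ^ (1 / p.toReal) := by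
      intro s
      rw [← Real.rpow_le_rpow_iff (norm_nonneg _) (Real.rpow_nonneg (hu0 j) _) hp,
        ← Real.rpow_mul (hu0 j), one_div_mul_cancel hp.ne', Real.rpow_one]
      have h1 : ‖v s (enc N j (r s))‖ ^ p.toReal ≤ ∑ i : Fin n, ‖v s (enc N j i)‖ ^ p.toReal :=
        Finset.single_le_sum (f := fun i : Fin n => ‖v s (enc N j i)‖ ^ p.toReal)
          (fun _ _ => by positivity) (mem_univ (r s))
      refine h1.trans ?_
      exact Finset.single_le_sum (f := fun s => ∑ i : Fin n, ‖v s (enc N j i)‖ ^ p.toReal)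
        (fun _ _ => Finset.sum_nonneg fun _ _ => by positivity) (mem_univ s)
    have hprod : ∏ s : Fin d, ‖v s (enc N j (r s))‖ ≤ u j ^ θ := by
      refine (Finset.prod_le_prod (fun _ _ => norm_nonneg _) fun s _ => hs s).trans ?_
      rw [Finset.prod_const, Finset.card_univ, Fintype.card_fin, ← Real.rpow_natCast,
        ← Real.rpow_mul (hu0 j)]
      apply le_of_eq
      congr 1
      rw [hθ]; ring
    gcongr
  rw [QM_apply, norm_mul, Complex.norm_real, Real.norm_of_nonneg (by positivity)]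
  calc (N : ℝ) ^ (θ - 1) * ‖∑ j : Fin N, ∑ r : Fin d → Fin n, c r * ∏ s, v s (enc N j (r s))‖
      ≤ (N : ℝ) ^ (θ - 1) * ∑ j : Fin N, C * u j ^ θ := by
        gcongr
        exact (norm_sum_le _ _).trans (Finset.sum_le_sum fun j _ => hterm j)
    _ = C * ((N : ℝ) ^ (θ - 1) * ∑ j : Fin N, u j ^ θ) := by
        rw [← Finset.mul_sum]; ring
    _ ≤ C * (∑ j, u j) ^ θ := by
        gcongr
        exact power_mean N u hu0 hθ0 hθ1
    _ ≤ C * S ^ θ := by
        have : 0 ≤ ∑ j, u j := Finset.sum_nonneg fun j _ => hu0 j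
        gcongr
        rw [husum]; exact hS

lemma diag_bound (hd : 1 ≤ d) (hdp : (d : ℝ) ≤ p.toReal)
    (hQ : ∀ v : Fin n → ℂ, ‖∑ r, c r * ∏ s, v (r s)‖ ≤ (∑ i, ‖v i‖ ^ p.toReal) ^
      ((d : ℝ) / p.toReal)) (N : ℕ) (x : LP p) :
    ‖QM p c N (fun _ => x)‖ ≤ (mass n N x) ^ ((d : ℝ) / p.toReal) := by
  have hd0 : (0 : ℝ) < d := by exact_mod_cast hd
  have hp : 0 < p.toReal := lt_of_lt_of_le hd0 hdp
  set θ : ℝ := (d : ℝ) / p.toReal with hθ
  have hθ0 : 0 < θ := by positivity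
  have hθ1 : θ ≤ 1 := by rw [hθ, div_le_one hp]; exact hdp
  rw [QM_apply, norm_mul, Complex.norm_real, Real.norm_of_nonneg (by positivity)]
  calc (N : ℝ) ^ (θ - 1) * ‖∑ j : Fin N, ∑ r : Fin d → Fin n, c r * ∏ s, x (enc N j (r s))‖
      ≤ (N : ℝ) ^ (θ - 1) * ∑ j : Fin N, (∑ i : Fin n, ‖x (enc N j i)‖ ^ p.toReal) ^ θ := by
        gcongr
        refine (norm_sum_le _ _).trans (Finset.sum_le_sum fun j _ => ?_)
        exact hQ (fun i => x (enc N j i))
    _ ≤ (∑ j : Fin N, ∑ i : Fin n, ‖x (enc N j i)‖ ^ p.toReal) ^ θ :=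
        power_mean N _ (fun j => Finset.sum_nonneg fun _ _ => by positivity) hθ0 hθ1

/-- The product of `k` copies of `Q_N` in different variables. -/
def TM (p : ℝ≥0∞) [Fact (1 ≤ p)] (c : (Fin d → Fin n) → ℂ) (k N : ℕ) :
    MultilinearMap ℂ (fun _ : Fin k × Fin d => LP p) ℂ where
  toFun v := ∏ l, QM p c N (fun s => v (l, s))
  map_update_add' := by
    intro dec v ls x y
    obtain ⟨l0, s0⟩ := ls
    have hu : ∀ z : LP p, ∏ l, QM p c N (fun s => update v (l0, s0) z (l, s))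
        = QM p c N (update (fun s => v (l0, s)) s0 z) *
          ∏ l ∈ univ.erase l0, QM p c N (fun s => v (l, s)) := by
      intro z
      rw [← Finset.mul_prod_erase _ _ (mem_univ l0)]
      congr 1
      · congr 1
        funext s
        by_cases hs : s = s0
        · subst hs; simp
        · rw [update_of_ne hs, update_of_ne]
          intro h; exact hs (Prod.ext_iff.1 h).2
      · refine Finset.prod_congr rfl fun l hl => ?_
        congr 1
        funext s
        rw [update_of_ne]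
        intro h; exact (Finset.ne_of_mem_erase hl) (Prod.ext_iff.1 h).1
    rw [hu, hu, hu, ContinuousMultilinearMap.map_update_add, add_mul]
  map_update_smul' := by
    intro dec v ls a x
    obtain ⟨l0, s0⟩ := ls
    have hu : ∀ z : LP p, ∏ l, QM p c N (fun s => update v (l0, s0) z (l, s))
        = QM p c N (update (fun s => v (l0, s)) s0 z) *
          ∏ l ∈ univ.erase l0, QM p c N (fun s => v (l, s)) := by
      intro z
      rw [← Finset.mul_prod_erase _ _ (mem_univ l0)]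
      congr 1
      · congr 1
        funext s
        by_cases hs : s = s0
        · subst hs; simp
        · rw [update_of_ne hs, update_of_ne]
          intro h; exact hs (Prod.ext_iff.1 h).2
      · refine Finset.prod_congr rfl fun l hl => ?_
        congr 1
        funext s
        rw [update_of_ne]
        intro h; exact (Finset.ne_of_mem_erase hl) (Prod.ext_iff.1 h).1
    rw [hu, hu, ContinuousMultilinearMap.map_update_smul, smul_eq_mul, smul_eq_mul, mul_assoc]

lemma TM_apply (k N : ℕ) (v : Fin k × Fin d → LP p) :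
    TM p c k N v = ∏ l, QM p c N (fun s => v (l, s)) := rfl

/-- Bound on unit vectors. -/
lemma TM_bound (hd : 1 ≤ d) (hdp : (d : ℝ) ≤ p.toReal) {k : ℕ} (hk : p.toReal ≤ k * d)
    (v : Fin k × Fin d → LP p) (hv : ∀ ls, ‖v ls‖ ≤ 1) (N : ℕ) :
    ‖TM p c k N v‖ ≤ (∑ r, ‖c r‖) ^ k *
      ((k * d : ℝ) ^ ((d : ℝ) / p.toReal * k - 1) * ∑ ls, mass n N (v ls)) := by
  have hd0 : (0 : ℝ) < d := by exact_mod_cast hd
  have hp : 0 < p.toReal := lt_of_lt_of_le hd0 hdp
  set θ : ℝ := (d : ℝ) / p.toReal with hθ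
  have hθ0 : 0 < θ := by positivity
  have hθk : 1 ≤ θ * k := by
    rw [hθ, div_mul_eq_mul_div, le_div_iff₀ hp]
    linarith
  set S : ℝ := ∑ ls, mass n N (v ls) with hS
  have hS0 : 0 ≤ S := Finset.sum_nonneg fun _ _ => mass_nonneg N _
  have hS1 : S ≤ k * d := by
    have : ∀ ls ∈ (univ : Finset (Fin k × Fin d)), mass n N (v ls) ≤ 1 := by
      intro ls _
      refine (mass_le hp N _).trans ?_
      exact Real.rpow_le_one (norm_nonneg _) (hv ls) hp.le
    refine (Finset.sum_le_sum this).trans (le_of_eq ?_)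
    simp
  have h1 : ∀ l : Fin k, ‖QM p c N (fun s => v (l, s))‖ ≤ (∑ r, ‖c r‖) * S ^ θ := by
    intro l
    refine QM_bound c hd hdp N _ ?_
    rw [hS, Fintype.sum_prod_type]
    exact Finset.single_le_sum (f := fun l => ∑ s, mass n N (v (l, s)))
      (fun _ _ => Finset.sum_nonneg fun _ _ => mass_nonneg N _) (mem_univ l)
  rw [TM_apply, norm_prod]
  refine (Finset.prod_le_prod (fun _ _ => norm_nonneg _) fun l _ => h1 l).trans ?_
  rw [Finset.prod_const, Finset.card_univ, Fintype.card_fin, mul_pow, ← Real.rpow_natCast (S ^ θ),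
    ← Real.rpow_mul hS0]
  have hC0 : 0 ≤ ∑ r, ‖c r‖ := Finset.sum_nonneg fun _ _ => norm_nonneg _
  have e : S ^ (θ * k) = S ^ (θ * k - 1) * S := by
    have := Real.rpow_add_one' hS0 (y := θ * k - 1) (by linarith)
    rw [← this]
    congr 1
    ring
  rw [e]
  have : S ^ (θ * k - 1) ≤ (k * d : ℝ) ^ (θ * k - 1) :=
    Real.rpow_le_rpow hS0 hS1 (by linarith)
  gcongr

lemma TM_summable (hd : 1 ≤ d) (hdp : (d : ℝ) ≤ p.toReal) {k : ℕ} (hk : p.toReal ≤ k * d)
    (v : Fin k × Fin d → LP p) :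
    Summable (fun N => ‖TM p c k N v‖) ∧ ∑' N, ‖TM p c k N v‖ ≤
      ((∑ r, ‖c r‖) ^ k * ((k * d : ℝ) ^ ((d : ℝ) / p.toReal * k - 1) * (k * d))) *
        ∏ ls, ‖v ls‖ := by
  have hd0 : (0 : ℝ) < d := by exact_mod_cast hd
  have hp : 0 < p.toReal := lt_of_lt_of_le hd0 hdp
  have hC0 : 0 ≤ ∑ r, ‖c r‖ := Finset.sum_nonneg fun _ _ => norm_nonneg _
  set A : ℝ := (∑ r, ‖c r‖) ^ k * ((k * d : ℝ) ^ ((d : ℝ) / p.toReal * k - 1)) with hA
  have hA0 : 0 ≤ A := by positivity
  set u : Fin k × Fin d → LP p := fun ls => ((‖v ls‖⁻¹ : ℝ) : ℂ) • v ls with hu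
  have hun : ∀ ls, ‖u ls‖ ≤ 1 := by
    intro ls
    simp only [hu]
    rw [norm_smul, Complex.norm_real, Real.norm_of_nonneg (by positivity)]
    by_cases h : ‖v ls‖ = 0
    · rw [h]; simp
    · rw [inv_mul_cancel₀ h]
  have hvu : v = fun ls => (‖v ls‖ : ℂ) • u ls := by
    funext ls
    simp only [hu]
    by_cases h : ‖v ls‖ = 0
    · rw [norm_eq_zero.1 h]; simp
    · rw [smul_smul, ← Complex.ofReal_mul, mul_inv_cancel₀ h]; simp
  have hscale : ∀ N, ‖TM p c k N v‖ = (∏ ls, ‖v ls‖) * ‖TM p c k N u‖ := by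
    intro N
    conv_lhs => rw [hvu]
    rw [MultilinearMap.map_smul_univ, norm_smul, norm_prod]
    simp
  have hb : ∀ N, ‖TM p c k N u‖ ≤ A * ∑ ls, mass n N (u ls) := by
    intro N
    have := TM_bound c hd hdp hk u hun N
    rw [hA, mul_assoc]
    exact this
  have hsm : Summable fun N => A * ∑ ls, mass n N (u ls) :=
    (summable_sum fun ls _ => summable_mass hp (u ls)).mul_left A
  have hsu : Summable fun N => ‖TM p c k N u‖ :=
    Summable.of_nonneg_of_le (fun _ => norm_nonneg _) hb hsm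
  have hts : ∑' N, ‖TM p c k N u‖ ≤ A * (k * d) := by
    refine (Summable.tsum_le_tsum hb hsu hsm).trans ?_
    rw [tsum_mul_left, Summable.tsum_finsetSum fun ls _ => summable_mass hp (u ls)]
    gcongr
    have : ∀ ls ∈ (univ : Finset (Fin k × Fin d)), ∑' N, mass n N (u ls) ≤ 1 := by
      intro ls _
      refine (tsum_mass_le hp _).trans ?_
      exact Real.rpow_le_one (norm_nonneg _) (hun ls) hp.le
    refine (Finset.sum_le_sum this).trans (le_of_eq ?_)
    simp
  constructor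
  · simp only [hscale]
    exact hsu.mul_left _
  · simp only [hscale]
    rw [tsum_mul_left, mul_comm]
    have : 0 ≤ ∏ ls, ‖v ls‖ := Finset.prod_nonneg fun _ _ => norm_nonneg _
    calc (∑' N, ‖TM p c k N u‖) * ∏ ls, ‖v ls‖ ≤ (A * (k * d)) * ∏ ls, ‖v ls‖ := by gcongr
      _ = _ := by rw [hA]; ring

/-- The sum of all the multilinear maps. -/
def SM (c : (Fin d → Fin n) → ℂ) (hd : 1 ≤ d) (hdp : (d : ℝ) ≤ p.toReal) {k : ℕ}
    (hk : p.toReal ≤ k * d) :
    ContinuousMultilinearMap ℂ (fun _ : Fin k × Fin d => LP p) ℂ :=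
  MultilinearMap.mkContinuous
    { toFun := fun v => ∑' N, TM p c k N v
      map_update_add' := by
        intro dec v i x y
        simp only [MultilinearMap.map_update_add]
        exact Summable.tsum_add (TM_summable c hd hdp hk _).1.of_norm
          (TM_summable c hd hdp hk _).1.of_norm
      map_update_smul' := by
        intro dec v i a x
        simp only [MultilinearMap.map_update_smul, smul_eq_mul]
        exact tsum_mul_left }
    ((∑ r, ‖c r‖) ^ k * ((k * d : ℝ) ^ ((d : ℝ) / p.toReal * k - 1) * (k * d)))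
    (fun v => by
      refine (norm_tsum_le_tsum_norm (TM_summable c hd hdp hk v).1).trans ?_
      exact (TM_summable c hd hdp hk v).2)

lemma SM_apply (hd : 1 ≤ d) (hdp : (d : ℝ) ≤ p.toReal) {k : ℕ}
    (hk : p.toReal ≤ k * d) (v : Fin k × Fin d → LP p) :
    SM c hd hdp hk v = ∑' N, TM p c k N v := rfl

/-- The polynomial `Σ_N (Q_N)^k`. -/
def pol (p : ℝ≥0∞) [Fact (1 ≤ p)] (c : (Fin d → Fin n) → ℂ) (k : ℕ) (x : LP p) : ℂ :=
  ∑' N, (QM p c N (fun _ => x)) ^ k

lemma pol_eq (hd : 1 ≤ d) (hdp : (d : ℝ) ≤ p.toReal) {k : ℕ}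
    (hk : p.toReal ≤ k * d) (x : LP p) : pol p c k x = SM c hd hdp hk (fun _ => x) := by
  rw [SM_apply, pol]
  refine tsum_congr fun N => ?_
  rw [TM_apply, Finset.prod_const, Finset.card_univ, Fintype.card_fin]

lemma mem_pol (hd : 1 ≤ d) (hdp : (d : ℝ) ≤ p.toReal) {k : ℕ}
    (hk : p.toReal ≤ k * d) : Mem (pol p c k) := by
  have e : pol p c k = fun x => SM c hd hdp hk (fun _ => x) := by
    funext x; exact pol_eq c hd hdp hk x
  rw [e]
  constructor
  · intro x _
    have h1 : AnalyticAt ℂ (fun x : LP p => fun _ : Fin k × Fin d => x) x :=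
      (ContinuousLinearMap.pi fun _ : Fin k × Fin d => ContinuousLinearMap.id ℂ (LP p)).analyticAt x
    exact AnalyticAt.comp (g := SM c hd hdp hk) (f := fun x : LP p => fun _ : Fin k × Fin d => x)
      ((SM c hd hdp hk).analyticAt) h1
  · set T := SM c hd hdp hk (p := p) with hT
    rw [Metric.uniformContinuousOn_iff]
    intro ε hε
    set D : ℝ := ‖T‖ * Fintype.card (Fin k × Fin d) with hD
    have hD0 : 0 ≤ D := by positivity
    refine ⟨ε / (D + 1), by positivity, fun x hx y hy hxy => ?_⟩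
    rw [Metric.mem_ball, dist_zero_right] at hx hy
    rw [dist_eq_norm] at hxy ⊢
    have h := T.norm_image_sub_le (fun _ => x) (fun _ => y)
    have n1 : ∀ z : LP p, ‖(fun _ : Fin k × Fin d => z)‖ ≤ ‖z‖ := fun z =>
      pi_norm_le_iff_of_nonneg (norm_nonneg _) |>.2 fun _ => le_rfl
    have n2 : ‖(fun _ : Fin k × Fin d => x) - (fun _ : Fin k × Fin d => y)‖ ≤ ‖x - y‖ :=
      n1 (x - y)
    have n3 : max ‖(fun _ : Fin k × Fin d => x)‖ ‖(fun _ : Fin k × Fin d => y)‖ ≤ 1 :=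
      max_le ((n1 x).trans hx.le) ((n1 y).trans hy.le)
    calc ‖T (fun _ => x) - T (fun _ => y)‖ ≤ D * 1 * ‖x - y‖ := by
          refine h.trans ?_
          gcongr
          exact pow_le_one₀ (le_max_of_le_left (norm_nonneg _)) n3
      _ ≤ (D + 1) * ‖x - y‖ := by
          gcongr
          linarith
      _ < (D + 1) * (ε / (D + 1)) := by gcongr
      _ = ε := by field_simp

lemma norm_pol_le (hd : 1 ≤ d) (hdp : (d : ℝ) ≤ p.toReal) {k : ℕ}
    (hk : p.toReal ≤ k * d)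
    (hQ : ∀ v : Fin n → ℂ, ‖∑ r, c r * ∏ s, v (r s)‖ ≤ (∑ i, ‖v i‖ ^ p.toReal) ^
      ((d : ℝ) / p.toReal)) {x : LP p} (hx : ‖x‖ ≤ 1) : ‖pol p c k x‖ ≤ 1 := by
  have hd0 : (0 : ℝ) < d := by exact_mod_cast hd
  have hp : 0 < p.toReal := lt_of_lt_of_le hd0 hdp
  have hθk : 1 ≤ (d : ℝ) / p.toReal * k := by
    rw [div_mul_eq_mul_div, le_div_iff₀ hp]
    linarith
  have hxp : ‖x‖ ^ p.toReal ≤ 1 := Real.rpow_le_one (norm_nonneg _) hx hp.le
  have hb : ∀ N, ‖(QM p c N (fun _ => x)) ^ k‖ ≤ mass n N x := by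
    intro N
    rw [norm_pow]
    calc ‖QM p c N (fun _ => x)‖ ^ k ≤ ((mass n N x) ^ ((d : ℝ) / p.toReal)) ^ k := by
          gcongr
          exact diag_bound c hd hdp hQ N x
      _ = (mass n N x) ^ ((d : ℝ) / p.toReal * k) := by
          rw [← Real.rpow_natCast, ← Real.rpow_mul (mass_nonneg N x)]
      _ ≤ (mass n N x) ^ (1 : ℝ) :=
          Real.rpow_le_rpow_of_exponent_ge' (mass_nonneg N x) ((mass_le hp N x).trans hxp)
            zero_le_one hθk
      _ = mass n N x := Real.rpow_one _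
  have hs : Summable fun N => ‖(QM p c N (fun _ => x)) ^ k‖ :=
    Summable.of_nonneg_of_le (fun _ => norm_nonneg _) hb (summable_mass hp x)
  refine (norm_tsum_le_tsum_norm hs).trans ?_
  refine (Summable.tsum_le_tsum hb hs (summable_mass hp x)).trans ?_
  exact (tsum_mass_le hp x).trans hxp

end

end Pool.Agent.helper68.Gl
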