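import Pool.Agent.helper68.Gl.L1c

/-!
# Elementary form of the definitions, and the translation

The statements of the results for MP_b0899f_an use the definitions of this file (and `HolOnBall`
of `Defs`).
-/

namespace Pool.Agent.helper68.Gl

open Metric Set
open scoped ENNReal

noncomputable section

/-- The set `A_u(B)` of holomorphic uniformly continuous complex functions on the open unit ball
of `X`. -/
def AuBall (X : Type) [NormedAddCommGroup X] [NormedSpace ℂ X] : Type :=
  {f : ball (0 : X) 1 → ℂ // HolOnBall f ∧ UniformContinuous f}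

/-- A point of the spectrum of `A_u(B)`: a nonzero multiplicative linear functional. -/
structure SpecAu (X : Type) [NormedAddCommGroup X] [NormedSpace ℂ X] where
  /-- the functional -/
  val : AuBall X → ℂ
  map_add : ∀ f g h : AuBall X, (∀ x, h.1 x = f.1 x + g.1 x) → val h = val f + val g
  map_smul : ∀ (c : ℂ) (f h : AuBall X), (∀ x, h.1 x = c * f.1 x) → val h = c * val f
  map_mul : ∀ f g h : AuBall X, (∀ x, h.1 x = f.1 x * g.1 x) → val h = val f * val g
  nonzero : ∃ f : AuBall X, val f ≠ 0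

/-- The constant function one. -/
def oneAu (X : Type) [NormedAddCommGroup X] [NormedSpace ℂ X] : AuBall X :=
  ⟨fun _ => 1, au_algebraMap_mem 1⟩

/-- Evaluation at the centre of the ball. -/
def evalZero (X : Type) [NormedAddCommGroup X] [NormedSpace ℂ X] : SpecAu X where
  val f := f.1 ⟨0, mem_ball_self one_pos⟩
  map_add _ _ _ h := h _
  map_smul _ _ _ h := h _
  map_mul _ _ _ h := h _
  nonzero := ⟨oneAu X, one_ne_zero⟩

/-- Two points of the spectrum lie in the same Gleason part: the dual norm of `φ - ψ` is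
smaller than `2`. -/
def SameGleason {X : Type} [NormedAddCommGroup X] [NormedSpace ℂ X] (φ ψ : SpecAu X) : Prop :=
  ∃ c : ℝ, c < 2 ∧ ∀ f : AuBall X, (∀ x, ‖f.1 x‖ ≤ 1) → ‖φ.val f - ψ.val f‖ ≤ c

section translation

variable {X : Type} [NormedAddCommGroup X] [NormedSpace ℂ X]

lemma SpecAu.ext' {φ ψ : SpecAu X} (h : ∀ f, φ.val f = ψ.val f) : φ = ψ := by
  cases φ; cases ψ
  congr
  funext f
  exact h f

/-- The algebra homomorphism attached to a point of the spectrum. -/
def SpecAu.toAlg (φ : SpecAu X) : Au X →ₐ[ℂ] ℂ :=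
  AlgHom.ofLinearMap
    { toFun := fun f => φ.val ⟨f.1, f.2⟩
      map_add' := fun f g => φ.map_add _ _ _ (fun _ => rfl)
      map_smul' := fun c f => φ.map_smul _ _ _ (fun _ => rfl) }
    (by
      obtain ⟨f, hf⟩ := φ.nonzero
      have h := φ.map_mul (⟨(1 : Au X).1, (1 : Au X).2⟩) f f (fun x => (one_mul (f.1 x)).symm)
      change φ.val ⟨(1 : Au X).1, (1 : Au X).2⟩ = 1
      exact (mul_right_cancel₀ hf (by rw [one_mul]; exact h.symm)))
    (fun f g => φ.map_mul _ _ _ (fun _ => rfl))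

lemma SpecAu.toAlg_apply (φ : SpecAu X) (f : Au X) : φ.toAlg f = φ.val ⟨f.1, f.2⟩ := rfl

/-- The point of the spectrum attached to an algebra homomorphism. -/
def SpecAu.ofAlg (φ : Au X →ₐ[ℂ] ℂ) : SpecAu X where
  val f := φ (⟨f.1, f.2⟩ : Au X)
  map_add f g h hh := by
    have : (⟨h.1, h.2⟩ : Au X) = ⟨f.1, f.2⟩ + ⟨g.1, g.2⟩ := by
      apply Subtype.ext; funext x; exact hh x
    rw [this, _root_.map_add]
  map_smul c f h hh := by
    have : (⟨h.1, h.2⟩ : Au X) = c • (⟨f.1, f.2⟩ : Au X) := by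
      apply Subtype.ext; funext x; exact hh x
    rw [this, _root_.map_smul]; rfl
  map_mul f g h hh := by
    have : (⟨h.1, h.2⟩ : Au X) = ⟨f.1, f.2⟩ * ⟨g.1, g.2⟩ := by
      apply Subtype.ext; funext x; exact hh x
    rw [this, _root_.map_mul]
  nonzero := ⟨oneAu X, by
    have : (⟨(oneAu X).1, (oneAu X).2⟩ : Au X) = 1 := rfl
    rw [this, _root_.map_one]; exact one_ne_zero⟩

lemma SpecAu.ofAlg_val (φ : Au X →ₐ[ℂ] ℂ) (f : AuBall X) :
    (SpecAu.ofAlg φ).val f = φ (⟨f.1, f.2⟩ : Au X) := rfl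

lemma sameGleason_iff (φ ψ : SpecAu X) : SameGleason φ ψ ↔ SamePart φ.toAlg ψ.toAlg := by
  constructor
  · rintro ⟨c, hc, h⟩
    exact ⟨c, hc, fun f hf => h ⟨f.1, f.2⟩ hf⟩
  · rintro ⟨c, hc, h⟩
    exact ⟨c, hc, fun f hf => h ⟨f.1, f.2⟩ hf⟩

lemma evalZero_toAlg : (evalZero X).toAlg = delta0 X := rfl

theorem singleton_parts (hX : ConjApprox X) {φ ψ : SpecAu X} (h : SameGleason φ ψ)
    (h0 : ¬ SameGleason φ (evalZero X)) : φ = ψ := by
  rw [sameGleason_iff] at h h0
  rw [evalZero_toAlg] at h0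
  have := singleton_of_conjApprox hX h h0
  apply SpecAu.ext'
  intro f
  exact congrArg (fun χ : Au X →ₐ[ℂ] ℂ => χ ⟨f.1, f.2⟩) this

end translation

end

end Pool.Agent.helper68.Gl
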