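import Mathlib

/-!
# Expectations with respect to finite product measures

Concentration for functions which are almost Lipschitz in the Hamming distance.
-/

set_option linter.unusedSectionVars false

namespace Pool.Agent.helper68.Gl

open Finset Function

noncomputable section

section gen

variable {Ω : Type*} [Fintype Ω]

/-- Expectation of a real function for a weight on a finite set. -/
def ER (W : Ω → ℝ) (F : Ω → ℝ) : ℝ := ∑ ω, W ω * F ω

/-- Expectation of a complex function for a weight on a finite set. -/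
def EC (W : Ω → ℝ) (F : Ω → ℂ) : ℂ := ∑ ω, (W ω : ℂ) * F ω

variable {W : Ω → ℝ} (hW : ∀ ω, 0 ≤ W ω) (hW1 : ∑ ω, W ω = 1)

lemma ER_add (F G : Ω → ℝ) : ER W (fun ω => F ω + G ω) = ER W F + ER W G := by
  simp only [ER, mul_add, Finset.sum_add_distrib]

lemma ER_sub (F G : Ω → ℝ) : ER W (fun ω => F ω - G ω) = ER W F - ER W G := by
  simp only [ER, mul_sub, Finset.sum_sub_distrib]

lemma ER_mul_left (c : ℝ) (F : Ω → ℝ) : ER W (fun ω => c * F ω) = c * ER W F := by
  simp only [ER, Finset.mul_sum]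
  exact Finset.sum_congr rfl fun _ _ => by ring

lemma EC_add (F G : Ω → ℂ) : EC W (fun ω => F ω + G ω) = EC W F + EC W G := by
  simp only [EC, mul_add, Finset.sum_add_distrib]

lemma EC_sub (F G : Ω → ℂ) : EC W (fun ω => F ω - G ω) = EC W F - EC W G := by
  simp only [EC, mul_sub, Finset.sum_sub_distrib]

lemma EC_mul_left (c : ℂ) (F : Ω → ℂ) : EC W (fun ω => c * F ω) = c * EC W F := by
  simp only [EC, Finset.mul_sum]
  exact Finset.sum_congr rfl fun _ _ => by ring

include hW1 in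
lemma ER_const (c : ℝ) : ER W (fun _ => c) = c := by
  simp only [ER, ← Finset.sum_mul, hW1, one_mul]

include hW1 in
lemma EC_const (c : ℂ) : EC W (fun _ => c) = c := by
  simp only [EC, ← Finset.sum_mul]
  rw [← Complex.ofReal_sum, hW1]; simp

include hW in
lemma ER_mono {F G : Ω → ℝ} (h : ∀ ω, F ω ≤ G ω) : ER W F ≤ ER W G :=
  Finset.sum_le_sum fun ω _ => mul_le_mul_of_nonneg_left (h ω) (hW ω)

include hW in
lemma norm_EC_le (F : Ω → ℂ) : ‖EC W F‖ ≤ ER W (fun ω => ‖F ω‖) := by
  refine (norm_sum_le _ _).trans (le_of_eq ?_)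
  refine Finset.sum_congr rfl fun ω _ => ?_
  rw [norm_mul, Complex.norm_real, Real.norm_of_nonneg (hW ω)]

include hW hW1 in
lemma norm_EC_le_of_le {F : Ω → ℂ} {M : ℝ} (h : ∀ ω, ‖F ω‖ ≤ M) : ‖EC W F‖ ≤ M := by
  refine (norm_EC_le hW F).trans ?_
  rw [← ER_const hW1 M]
  exact ER_mono hW h

lemma EC_re (F : Ω → ℂ) : (EC W F).re = ER W (fun ω => (F ω).re) := by
  simp [EC, ER]

lemma EC_im (F : Ω → ℂ) : (EC W F).im = ER W (fun ω => (F ω).im) := by
  simp [EC, ER]

include hW1 in
lemma ER_var (F : Ω → ℝ) :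
    ER W (fun ω => (F ω - ER W F) ^ 2) = ER W (fun ω => F ω ^ 2) - (ER W F) ^ 2 := by
  have : (fun ω => (F ω - ER W F) ^ 2)
      = fun ω => (F ω ^ 2 - (2 * ER W F) * F ω) + (ER W F) ^ 2 := by
    funext ω; ring
  rw [this, ER_add, ER_sub, ER_mul_left, ER_const hW1]
  ring

include hW hW1 in
lemma ER_var_le_of_osc {F : Ω → ℝ} {c : ℝ} (h : ∀ ω ω', |F ω - F ω'| ≤ c) :
    ER W (fun ω => (F ω - ER W F) ^ 2) ≤ c ^ 2 := by
  have h1 : ∀ ω, |F ω - ER W F| ≤ c := by
    intro ω
    have e : F ω - ER W F = ER W (fun ω' => F ω - F ω') := by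
      rw [ER_sub, ER_const hW1]
    rw [e, abs_le]
    constructor
    · rw [← ER_const hW1 (-c)]
      exact ER_mono hW fun ω' => (abs_le.1 (h ω ω')).1
    · calc ER W (fun ω' => F ω - F ω') ≤ ER W (fun _ => c) :=
          ER_mono hW fun ω' => (abs_le.1 (h ω ω')).2
        _ = c := ER_const hW1 c
  calc ER W (fun ω => (F ω - ER W F) ^ 2) ≤ ER W (fun _ => c ^ 2) := by
        refine ER_mono hW fun ω => ?_
        rw [← sq_abs]
        exact pow_le_pow_left₀ (abs_nonneg _) (h1 ω) 2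
    _ = c ^ 2 := ER_const hW1 _

end gen

section prod

variable {Z : Type*} [Fintype Z]

/-- Product weight. -/
def PW (w : Z → ℝ) (N : ℕ) (ω : Fin N → Z) : ℝ := ∏ j, w (ω j)

variable {w : Z → ℝ} (hw : ∀ a, 0 ≤ w a) (hw1 : ∑ a, w a = 1)

include hw in
lemma PW_nonneg (N : ℕ) (ω : Fin N → Z) : 0 ≤ PW w N ω :=
  Finset.prod_nonneg fun j _ => hw _

include hw1 in
lemma PW_sum (N : ℕ) : ∑ ω, PW w N ω = 1 := by
  have := Finset.prod_univ_sum (fun _ : Fin N => (Finset.univ : Finset Z)) (fun _ a => w a)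
  simp only [hw1, Finset.prod_const_one, Fintype.piFinset_univ] at this
  exact this.symm

lemma ER_cons (N : ℕ) (F : (Fin (N + 1) → Z) → ℝ) :
    ER (PW w (N + 1)) F = ∑ a, w a * ER (PW w N) (fun ω => F (Fin.cons a ω)) := by
  unfold ER
  rw [← (Fin.consEquiv (fun _ => Z)).sum_comp, Fintype.sum_prod_type]
  refine Finset.sum_congr rfl fun a _ => ?_
  rw [Finset.mul_sum]
  refine Finset.sum_congr rfl fun ω _ => ?_
  have : (Fin.consEquiv (fun _ : Fin (N + 1) => Z)) (a, ω) = Fin.cons a ω := rfl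
  rw [this, PW, Fin.prod_univ_succ]
  simp only [Fin.cons_zero, Fin.cons_succ, PW]
  ring

include hw hw1 in
/-- Bounded differences inequality for the variance. -/
lemma var_le (N : ℕ) : ∀ (F : (Fin N → Z) → ℝ) {c : ℝ},
    (∀ ω j a, |F ω - F (update ω j a)| ≤ c) →
    ER (PW w N) (fun ω => (F ω - ER (PW w N) F) ^ 2) ≤ N * c ^ 2 := by
  induction N with
  | zero =>
    intro F c _
    rw [ER_var (PW_sum hw1 0)]
    simp [ER, PW]
  | succ N ih =>
    intro F c h
    rw [ER_var (PW_sum hw1 (N + 1)), ER_cons, ER_cons]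
    set g : Z → ℝ := fun a => ER (PW w N) (fun ω => F (Fin.cons a ω)) with hg
    have h1 : ∀ a, ER (PW w N) (fun ω => F (Fin.cons a ω) ^ 2) - g a ^ 2 ≤ N * c ^ 2 := by
      intro a
      have := ih (fun ω => F (Fin.cons a ω)) (c := c) (fun ω j b => by
        rw [Fin.cons_update]
        exact h _ _ _)
      rwa [ER_var (PW_sum hw1 N)] at this
    have h2 : ∀ a b, |g a - g b| ≤ c := by
      intro a b
      rw [hg]
      simp only
      rw [← ER_sub, abs_le]
      have hb : ∀ ω : Fin N → Z,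
          |F (Fin.cons a ω : Fin (N + 1) → Z) - F (Fin.cons b ω : Fin (N + 1) → Z)| ≤ c := by
        intro ω
        have := h (Fin.cons a ω : Fin (N + 1) → Z) 0 b
        rwa [Fin.update_cons_zero] at this
      constructor
      · rw [← ER_const (PW_sum hw1 N) (-c)]
        exact ER_mono (PW_nonneg hw N) fun ω => (abs_le.1 (hb ω)).1
      · calc _ ≤ ER (PW w N) (fun _ => c) :=
            ER_mono (PW_nonneg hw N) fun ω => (abs_le.1 (hb ω)).2
          _ = c := ER_const (PW_sum hw1 N) c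
    have h3 := ER_var_le_of_osc (W := w) hw hw1 h2
    rw [ER_var hw1] at h3
    have h4 : ∑ a, w a * ER (PW w N) (fun ω => F (Fin.cons a ω) ^ 2)
        ≤ ∑ a, w a * (g a ^ 2 + N * c ^ 2) :=
      Finset.sum_le_sum fun a _ => mul_le_mul_of_nonneg_left (by linarith [h1 a]) (hw a)
    have h5 : ∑ a, w a * (g a ^ 2 + N * c ^ 2) = ER w (fun a => g a ^ 2) + N * c ^ 2 := by
      simp only [mul_add, Finset.sum_add_distrib, ← Finset.sum_mul, hw1, one_mul]
      rfl
    have h6 : (∑ a, w a * g a) = ER w g := rfl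
    rw [h6]
    push_cast
    linarith

/-- Concentration for almost Lipschitz functions. -/
lemma var_le_of_almost_lipschitz [Nonempty Z] (hw : ∀ a, 0 ≤ w a) (hw1 : ∑ a, w a = 1)
    [DecidableEq Z] (N : ℕ) (F : (Fin N → Z) → ℝ)
    {ε K : ℝ} (hK : 0 ≤ K) (h : ∀ ω ω', F ω ≤ F ω' + ε + K * hammingDist ω ω') :
    ER (PW w N) (fun ω => (F ω - ER (PW w N) F) ^ 2) ≤ 2 * (N * K ^ 2) + 2 * ε ^ 2 := by
  set G : (Fin N → Z) → ℝ := fun ω => ⨅ ω', F ω' + K * hammingDist ω ω' with hG
  have hbdd : ∀ ω : Fin N → Z, BddBelow (Set.range fun ω' => F ω' + K * hammingDist ω ω') :=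
    fun ω => (Set.finite_range _).bddBelow
  have hGF : ∀ ω, G ω ≤ F ω := by
    intro ω
    refine (ciInf_le (hbdd ω) ω).trans ?_
    simp
  have hFG : ∀ ω, F ω ≤ G ω + ε := by
    intro ω
    have : F ω - ε ≤ G ω := le_ciInf fun ω' => by linarith [h ω ω']
    linarith
  have hGl : ∀ ω ω', G ω ≤ G ω' + K * hammingDist ω ω' := by
    intro ω ω'
    have : G ω - K * hammingDist ω ω' ≤ G ω' := by
      refine le_ciInf fun η => ?_
      have h1 := ciInf_le (hbdd ω) η
      have h2 : (hammingDist ω η : ℝ) ≤ hammingDist ω ω' + hammingDist ω' η := by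
        exact_mod_cast hammingDist_triangle ω ω' η
      have h3 := mul_le_mul_of_nonneg_left h2 hK
      have h4 : G ω ≤ F η + K * hammingDist ω η := h1
      linarith
    linarith
  have hup : ∀ (ω : Fin N → Z) (j : Fin N) (a : Z), hammingDist ω (update ω j a) ≤ 1 := by
    intro ω j a
    unfold hammingDist
    rw [← Finset.card_singleton j]
    refine Finset.card_le_card fun i hi => ?_
    rw [Finset.mem_filter] at hi
    rw [Finset.mem_singleton]
    by_contra hij
    exact hi.2 (by rw [update_of_ne hij])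
  have hGd : ∀ ω j a, |G ω - G (update ω j a)| ≤ K := by
    intro ω j a
    have h1 := hGl ω (update ω j a)
    have h2 := hGl (update ω j a) ω
    rw [hammingDist_comm] at h2
    have h3 : K * (hammingDist ω (update ω j a) : ℝ) ≤ K * 1 := by
      gcongr
      exact_mod_cast hup ω j a
    rw [abs_le]
    constructor <;> linarith
  have h1 := var_le hw hw1 N G hGd
  set W := PW w N with hWdef
  have hW0 : ∀ ω, 0 ≤ W ω := PW_nonneg hw N
  have hWs : ∑ ω, W ω = 1 := PW_sum hw1 N
  set D : (Fin N → Z) → ℝ := fun ω => F ω - G ω with hD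
  have hosc : ∀ ω ω', |D ω - D ω'| ≤ ε := by
    intro ω ω'
    have a1 := hGF ω
    have a2 := hGF ω'
    have a3 := hFG ω
    have a4 := hFG ω'
    rw [abs_le]
    constructor <;> simp only [hD] <;> linarith
  have h2 := ER_var_le_of_osc hW0 hWs hosc
  have hE : ER W F = ER W G + ER W D := by
    rw [← ER_add]
    congr 1
    funext ω
    simp [hD]
  calc ER W (fun ω => (F ω - ER W F) ^ 2)
      ≤ ER W (fun ω => 2 * (G ω - ER W G) ^ 2 + 2 * (D ω - ER W D) ^ 2) := by
        refine ER_mono hW0 fun ω => ?_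
        rw [hE]
        have : F ω = G ω + D ω := by simp [hD]
        rw [this]
        nlinarith [sq_nonneg ((G ω - ER W G) - (D ω - ER W D))]
    _ = 2 * ER W (fun ω => (G ω - ER W G) ^ 2) + 2 * ER W (fun ω => (D ω - ER W D) ^ 2) := by
        rw [ER_add, ER_mul_left, ER_mul_left]
    _ ≤ _ := by gcongr

/-- Concentration for complex almost Lipschitz functions. -/
lemma cvar_le [Nonempty Z] (hw : ∀ a, 0 ≤ w a) (hw1 : ∑ a, w a = 1)
    [DecidableEq Z] (N : ℕ) (F : (Fin N → Z) → ℂ)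
    {ε K : ℝ} (hK : 0 ≤ K) (h : ∀ ω ω', ‖F ω - F ω'‖ ≤ ε + K * hammingDist ω ω') :
    ER (PW w N) (fun ω => ‖F ω - EC (PW w N) F‖ ^ 2) ≤ 4 * (N * K ^ 2) + 4 * ε ^ 2 := by
  have h1 := var_le_of_almost_lipschitz hw hw1 N (fun ω => (F ω).re) hK (fun ω ω' => by
    have h1 := h ω ω'
    have h2 := (le_abs_self _).trans (Complex.abs_re_le_norm (F ω - F ω'))
    rw [Complex.sub_re] at h2
    linarith)
  have h2 := var_le_of_almost_lipschitz hw hw1 N (fun ω => (F ω).im) hK (fun ω ω' => by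
    have h1 := h ω ω'
    have h2 := (le_abs_self _).trans (Complex.abs_im_le_norm (F ω - F ω'))
    rw [Complex.sub_im] at h2
    linarith)
  have e : ER (PW w N) (fun ω => ‖F ω - EC (PW w N) F‖ ^ 2)
      = ER (PW w N) (fun ω => ((F ω).re - ER (PW w N) (fun ω => (F ω).re)) ^ 2)
      + ER (PW w N) (fun ω => ((F ω).im - ER (PW w N) (fun ω => (F ω).im)) ^ 2) := by
    rw [← ER_add]
    congr 1
    funext ω
    rw [← Complex.normSq_eq_norm_sq, Complex.normSq_apply, Complex.sub_re, Complex.sub_im,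
      EC_re, EC_im]
    ring
  rw [e]
  linarith

/-- Almost multiplicativity of the expectation. -/
lemma cov_le {Ω : Type*} [Fintype Ω] {W : Ω → ℝ} (hW : ∀ ω, 0 ≤ W ω) (hW1 : ∑ ω, W ω = 1)
    (F G : Ω → ℂ) {M V η : ℝ} (hG : ∀ ω, ‖G ω‖ ≤ M)
    (hV : ER W (fun ω => ‖F ω - EC W F‖ ^ 2) ≤ V) (hη : 0 < η) :
    ‖EC W (fun ω => F ω * G ω) - EC W F * EC W G‖ ≤ M * (η + V / η) := by
  have hM : 0 ≤ M := by
    by_contra hM
    push Not at hM
    have hE : IsEmpty Ω := ⟨fun ω => by linarith [hG ω, norm_nonneg (G ω)]⟩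
    simp at hW1
  have e : EC W (fun ω => F ω * G ω) - EC W F * EC W G
      = EC W (fun ω => (F ω - EC W F) * G ω) := by
    rw [← EC_mul_left, ← EC_sub]
    congr 1
    funext ω
    ring
  rw [e]
  refine (norm_EC_le hW _).trans ?_
  calc ER W (fun ω => ‖(F ω - EC W F) * G ω‖)
      ≤ ER W (fun ω => M * (η + (1 / η) * ‖F ω - EC W F‖ ^ 2)) := by
        refine ER_mono hW fun ω => ?_
        rw [norm_mul, mul_comm]
        set x := ‖F ω - EC W F‖
        have hx : x ≤ η + (1 / η) * x ^ 2 := by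
          by_cases hxη : x ≤ η
          · have : 0 ≤ (1 / η) * x ^ 2 := by positivity
            linarith
          · push Not at hxη
            have : x ≤ (1 / η) * x ^ 2 := by
              rw [one_div, inv_mul_eq_div, le_div_iff₀ hη]
              nlinarith
            linarith
        calc ‖G ω‖ * x ≤ M * x := by gcongr; exact hG ω
          _ ≤ _ := by gcongr
    _ = M * (η + (1 / η) * ER W (fun ω => ‖F ω - EC W F‖ ^ 2)) := by
        rw [ER_mul_left, ER_add, ER_const hW1, ER_mul_left]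
    _ ≤ M * (η + V / η) := by
        have : (1 / η) * ER W (fun ω => ‖F ω - EC W F‖ ^ 2) ≤ V / η := by
          rw [one_div, inv_mul_eq_div]
          gcongr
        gcongr

end prod

end

end Pool.Agent.helper68.Gl
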