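import Pool.Agent.helper68.Gl.Inst2

/-!
# The case `2 < p < 3`: conclusion
-/

set_option linter.unusedSectionVars false

namespace Pool.Agent.helper68.Gl

open Finset Function
open scoped ComplexConjugate ENNReal

noncomputable section

lemma norms_eq_imp {v : ℂ × ℂ} (h : ∀ i j, ‖v.1 + ch i * v.2‖ = ‖v.1 + ch j * v.2‖) :
    v.1 = 0 ∨ v.2 = 0 := by
  have hexp : ∀ w : ℂ, ‖w‖ = 1 → ‖v.1 + w * v.2‖ ^ 2
      = ‖v.1‖ ^ 2 + ‖v.2‖ ^ 2 + 2 * (conj v.1 * v.2 * w).re := by
    intro w hw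
    have e1 : ‖v.1 + w * v.2‖ ^ 2 = ‖v.1‖ ^ 2 + ‖w * v.2‖ ^ 2 + 2 * (v.1 * conj (w * v.2)).re := by
      rw [← Complex.normSq_eq_norm_sq, ← Complex.normSq_eq_norm_sq, ← Complex.normSq_eq_norm_sq,
        Complex.normSq_add]
    rw [e1, norm_mul, hw, one_mul]
    congr 2
    rw [← Complex.conj_re]
    congr 1
    rw [map_mul, Complex.conj_conj]
    ring
  set c : ℂ := conj v.1 * v.2 with hc
  have h01 := h 0 1
  have h02 := h 0 2
  rw [ch_zero, ch_one] at h01
  rw [ch_zero, ch_two] at h02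
  have a0 := hexp 1 norm_one
  have a1 := hexp om norm_om
  have a2 := hexp (om ^ 2) (by rw [norm_pow, norm_om, one_pow])
  rw [← h01, a0] at a1
  rw [← h02, a0] at a2
  have r1 : (c * om).re = -(1 / 2) * c.re - Real.sqrt 3 / 2 * c.im := by
    rw [Complex.mul_re]; simp only [om]; ring
  have r2 : (c * om ^ 2).re = -(1 / 2) * c.re + Real.sqrt 3 / 2 * c.im := by
    rw [om_sq, Complex.mul_re]; ring
  rw [r1, mul_one] at a1
  rw [r2, mul_one] at a2
  have h3 : 0 < Real.sqrt 3 := Real.sqrt_pos.2 (by norm_num)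
  have him : Real.sqrt 3 * c.im = 0 := by linarith
  have hci : c.im = 0 := by
    rcases mul_eq_zero.1 him with h | h
    · exact absurd h h3.ne'
    · exact h
  have hcr : c.re = 0 := by
    rw [hci] at a1
    linarith
  have hc0 : c = 0 := Complex.ext hcr hci
  rw [hc] at hc0
  rcases mul_eq_zero.1 hc0 with h | h
  · left
    simpa using h
  · right; exact h

lemma qev_two {n : ℕ} (A : Fin n → Fin n → ℂ) (v : Fin n → ℂ) :
    qev (fun r : Fin 2 → Fin n => A (r 0) (r 1)) v = ∑ i, ∑ j, A i j * (v i * v j) := by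
  unfold qev
  rw [← (finTwoArrowEquiv (Fin n)).symm.sum_comp, Fintype.sum_prod_type]
  refine Finset.sum_congr rfl fun i _ => Finset.sum_congr rfl fun j _ => ?_
  rw [Fin.prod_univ_two]
  simp

lemma isPrimitiveRoot_I : IsPrimitiveRoot Complex.I 4 := by
  have := Complex.isPrimitiveRoot_exp 4 (by norm_num)
  convert this using 1
  have : (2 * Real.pi * Complex.I / (4 : ℕ) : ℂ) = Real.pi / 2 * Complex.I := by
    push_cast; ring
  rw [this, Complex.exp_pi_div_two_mul_I]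

/-- The criterion is satisfied for `2 < p < 3`. -/
theorem shared_two {p : ℝ≥0∞} [Fact (1 ≤ p)] (hp2 : 2 < p.toReal) (hp3 : p.toReal < 3) :
    Shared (LP p) := by
  set P : ℝ := p.toReal with hP
  have hP0 : 0 < P := by linarith
  obtain ⟨q, hPq⟩ : ∃ q : ℝ, P.HolderConjugate q :=
    ⟨_, Real.HolderConjugate.conjExponent (by linarith)⟩
  have hq1 : 1 < q := hPq.symm.lt
  have hq0 : 0 < q := by linarith
  have hqP : q * P = P + q := by
    have := hPq.mul_eq_add
    linarith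
  have hq2 : q < 2 := by
    by_contra hc
    push Not at hc
    nlinarith
  obtain ⟨v, hv, hmax⟩ := exists_max hP0 hq0
  obtain ⟨hv1, hv2, hy0⟩ := max_nondeg hp2 hPq hv hmax
  set y : Fin 3 → ℂ := fun j => v.1 + ch j * v.2 with hy
  have hyn : ∀ j, 0 < ‖y j‖ := fun j => norm_pos_iff.2 (hy0 j)
  set G0 : ℝ := GG q v with hG0
  have hG0y : G0 = ∑ j, ‖y j‖ ^ q := rfl
  have hG : 0 < G0 := by
    rw [hG0y]
    exact Finset.sum_pos (fun j _ => Real.rpow_pos_of_pos (hyn j) q) ⟨0, mem_univ _⟩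
  set w : Fin 3 → ℂ := fun j => ((‖y j‖ ^ (q - 2) / G0 ^ P⁻¹ : ℝ) : ℂ) * conj (y j) with hw
  have hwn : ∀ j, ‖w j‖ ^ P = ‖y j‖ ^ q / G0 := by
    intro j
    have e1 : ‖w j‖ = ‖y j‖ ^ (q - 1) / G0 ^ P⁻¹ := by
      simp only [hw]
      rw [norm_mul, RCLike.norm_conj, Complex.norm_real, Real.norm_of_nonneg (by positivity),
        div_mul_eq_mul_div]
      congr 1
      have := Real.rpow_add_one (hyn j).ne' (q - 2)
      rw [← this]
      congr 1
      ring
    rw [e1, Real.div_rpow (by positivity) (by positivity), ← Real.rpow_mul (norm_nonneg _),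
      Real.rpow_inv_rpow hG.le hP0.ne']
    congr 2
    linarith
  have hwsum : ∑ j, ‖w j‖ ^ P = 1 := by
    simp only [hwn]
    rw [← Finset.sum_div, ← hG0y, div_self hG.ne']
  have hwy : ∑ j, w j * y j = ((G0 ^ q⁻¹ : ℝ) : ℂ) := by
    have e1 : ∀ j, w j * y j = ((‖y j‖ ^ q / G0 ^ P⁻¹ : ℝ) : ℂ) := by
      intro j
      simp only [hw]
      rw [mul_assoc, mul_comm (conj (y j)), Complex.mul_conj, Complex.normSq_eq_norm_sq,
        ← Complex.ofReal_mul]
      congr 1
      rw [div_mul_eq_mul_div]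
      congr 1
      rw [← Real.rpow_natCast, ← Real.rpow_add (hyn j)]
      congr 1
      push_cast
      ring
    simp only [e1]
    rw [← Complex.ofReal_sum, ← Finset.sum_div, ← hG0y]
    congr 1
    rw [div_eq_iff (by positivity), ← Real.rpow_add hG]
    have : q⁻¹ + P⁻¹ = 1 := by
      rw [add_comm]; exact hPq.inv_add_inv_eq_one
    rw [this, Real.rpow_one]
  set h : ℝ := (1 / 2 : ℝ) ^ P⁻¹ with hh
  have hh0 : 0 < h := by positivity
  have hhP : h ^ P = 1 / 2 := Real.rpow_inv_rpow (by norm_num) hP0.ne'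
  set η : Fin 4 → ℂ := fun b => Complex.I ^ (b : ℕ) with hη
  have hηn : ∀ b, ‖η b‖ = 1 := fun b => by simp [hη]
  have hη0 : ∀ b, η b ≠ 0 := fun a h => by
    have := hηn a
    rw [h, norm_zero] at this
    exact zero_ne_one this
  have hηc : ∀ b, conj (η b) = (η b)⁻¹ := fun a => by
    rw [Complex.inv_def, Complex.normSq_eq_norm_sq, hηn]
    simp
  set g : Fin 3 → Fin 5 → ℂ := fun k => ![v.1, ch k * v.2, w (k + 0), w (k + 1), w (k + 2)]
    with hg
  set e : Fin 5 → ℤ := ![1, 1, -1, -1, -1] with he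
  set z : Fin 3 × Fin 4 → Fin 5 → ℂ := fun x i => ((h : ℂ) * g x.1 i) * (η x.2) ^ (e i) with hz
  set σ : Fin 3 × Fin 4 → ℂ := fun x => conj (ch x.1) * η x.2 with hσ
  set C : ℂ := (((2 : ℝ) ^ (2 / P) / G0 ^ q⁻¹ : ℝ) : ℂ) with hC
  set A : Fin 5 → Fin 5 → ℂ := ![![0, 0, 0, 0, 0], ![0, 0, 0, 0, 0], ![C, C * ch 0, 0, 0, 0],
    ![C, C * ch 1, 0, 0, 0], ![C, C * ch 2, 0, 0, 0]] with hA
  have hQ : ∀ u : Fin 5 → ℂ, qev (fun r : Fin 2 → Fin 5 => A (r 0) (r 1)) u
      = C * (u 2 * (u 0 + ch 0 * u 1) + u 3 * (u 0 + ch 1 * u 1) + u 4 * (u 0 + ch 2 * u 1)) := by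
    intro u
    rw [qev_two]
    simp only [Fin.sum_univ_five, hA, Matrix.cons_val_zero, Matrix.cons_val_one,
      Matrix.cons_val]
    ring
  have hshift : ∀ (k : Fin 3) (F : Fin 3 → ℝ), F (k + 0) + F (k + 1) + F (k + 2) = ∑ j, F j := by
    intro k F
    rw [← Equiv.sum_comp (Equiv.addLeft k) F, Fin.sum_univ_three]
    rfl
  have hsum_split : ∀ (F : Fin 3 → ℂ) (H : Fin 4 → ℂ),
      ∑ x : Fin 3 × Fin 4, F x.1 * H x.2 = (∑ k, F k) * ∑ b, H b := by
    intro F H
    rw [Fintype.sum_prod_type, Finset.sum_mul_sum]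
  have hprim := isPrimitiveRoot_I
  refine shared_of_data (z := z) (σ := σ) (d := 2) (m := 1) (by linarith) ?_ ?_ ?_ (by norm_num)
    (by push_cast; linarith) (fun r : Fin 2 → Fin 5 => A (r 0) (r 1)) ?_ ?_
    (le_refl 1) (by push_cast; linarith) (Pi.single (fun _ => 2) 1) ?_ ?_
  · rintro ⟨k, b⟩
    have e1 : ∀ i, ‖z (k, b) i‖ ^ P = 1 / 2 * ‖g k i‖ ^ P := by
      intro i
      simp only [hz]
      rw [norm_mul, norm_mul, norm_zpow, hηn, one_zpow, mul_one, Complex.norm_real,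
        Real.norm_of_nonneg hh0.le, Real.mul_rpow hh0.le (norm_nonneg _), hhP]
    change ∑ i, ‖z (k, b) i‖ ^ P = 1
    rw [Finset.sum_congr rfl fun i _ => e1 i, ← Finset.mul_sum, Fin.sum_univ_five]
    simp only [hg, Matrix.cons_val_zero, Matrix.cons_val_one, Matrix.cons_val]
    have e2 := hshift k (fun j => ‖w j‖ ^ P)
    rw [hwsum] at e2
    have e3 : ‖ch k * v.2‖ = ‖v.2‖ := by rw [norm_mul, norm_ch, one_mul]
    rw [e3]
    linarith
  · rintro ⟨k, b⟩
    simp only [hσ]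
    rw [norm_mul, RCLike.norm_conj, norm_ch, hηn, one_mul]
  · -- the kill condition
    intro k hk r
    have hk3 : k < 3 := by
      have : (k : ℝ) < 3 := by linarith
      exact_mod_cast this
    have hterm : ∀ x : Fin 3 × Fin 4, conj (σ x) * ∏ l, z x (r l)
        = (ch x.1 * ∏ l, ((h : ℂ) * g x.1 (r l))) * (η x.2) ^ (-1 + ∑ l, e (r l)) := by
      intro x
      simp only [hσ, hz]
      rw [Finset.prod_mul_distrib, zpow_add₀ (hη0 x.2), map_mul, Complex.conj_conj, hηc]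
      have h2 : ∏ l, (η x.2) ^ (e (r l)) = (η x.2) ^ (∑ l, e (r l)) := by
        have : ∀ s : Finset (Fin k), ∏ l ∈ s, (η x.2) ^ (e (r l))
            = (η x.2) ^ (∑ l ∈ s, e (r l)) := by
          intro s
          induction s using Finset.induction with
          | empty => simp
          | insert b s hb ih => rw [Finset.prod_insert hb, Finset.sum_insert hb, ih,
              zpow_add₀ (hη0 x.2)]
        exact this _
      rw [h2, zpow_neg_one]
      ring
    simp only [hterm]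
    rw [hsum_split (fun k => ch k * ∏ l, ((h : ℂ) * g k (r l)))
      (fun b => (η b) ^ (-1 + ∑ l, e (r l)))]
    have hzero : ¬ ((4 : ℕ) : ℤ) ∣ (-1 + ∑ l, e (r l)) →
        (∑ k, ch k * ∏ l, ((h : ℂ) * g k (r l))) * ∑ b, (η b) ^ (-1 + ∑ l, e (r l)) = 0 := by
      intro hnd
      rw [sum_zpow_eq_zero hprim hnd, mul_zero]
    interval_cases k
    · apply hzero
      simp only [Finset.univ_eq_empty, Finset.sum_empty]
      norm_num
    · have hs : ∑ l : Fin 1, e (r l) = e (r 0) := by simp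
      have hpr : ∀ k, ∏ l : Fin 1, ((h : ℂ) * g k (r l)) = (h : ℂ) * g k (r 0) := by
        intro k; simp
      rw [hs] at hzero ⊢
      simp only [hpr] at hzero ⊢
      generalize r 0 = i at hzero ⊢
      fin_cases i
      · rw [show (∑ k, ch k * ((h : ℂ) * g k ((fun i => i) ⟨0, by norm_num⟩)))
          = (∑ k, ch k) * ((h : ℂ) * v.1) from ?_, ch_sum]
        · ring
        · rw [Finset.sum_mul]; rfl
      · rw [show (∑ k, ch k * ((h : ℂ) * g k ((fun i => i) ⟨1, by norm_num⟩)))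
          = (∑ k, ch k * ch k) * ((h : ℂ) * v.2) from ?_, ch_sq_sum]
        · ring
        · rw [Finset.sum_mul]
          refine Finset.sum_congr rfl fun k _ => ?_
          change ch k * ((h : ℂ) * (ch k * v.2)) = _
          ring
      · exact hzero (by simp [he])
      · exact hzero (by simp [he])
      · exact hzero (by simp [he])
    · apply hzero
      rw [Fin.sum_univ_two]
      have hodd : ∀ i, e i = 1 ∨ e i = -1 := by intro i; fin_cases i <;> simp [he]
      rcases hodd (r 0) with h0 | h0 <;> rcases hodd (r 1) with h1 | h1 <;> rw [h0, h1] <;>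
        norm_num
  · -- the bound on Q
    intro u
    rw [hQ]
    set B : ℝ := ‖u 2‖ ^ P + ‖u 3‖ ^ P + ‖u 4‖ ^ P with hB
    set D : ℝ := ‖u 0‖ ^ P + ‖u 1‖ ^ P with hD
    have hB0 : 0 ≤ B := by positivity
    have hD0 : 0 ≤ D := by positivity
    have hGG : GG q (u 0, u 1) ≤ G0 * D ^ (q / P) := by
      rcases hD0.lt_or_eq with hpos | hzero
      · set l : ℝ := D ^ (-P⁻¹) with hl
        have hl0 : 0 < l := by positivity
        have hlP : l ^ P = D⁻¹ := by
          rw [hl, ← Real.rpow_mul hpos.le, neg_mul, inv_mul_cancel₀ hP0.ne', Real.rpow_neg_one]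
        have hlq : l ^ q * D ^ (q / P) = 1 := by
          rw [hl, ← Real.rpow_mul hpos.le, ← Real.rpow_add hpos]
          rw [show -P⁻¹ * q + q / P = 0 by ring, Real.rpow_zero]
        have hm := hmax ((l : ℂ) * u 0, (l : ℂ) * u 1) (by
          simp only [norm_mul, Complex.norm_real, Real.norm_of_nonneg hl0.le]
          rw [Real.mul_rpow hl0.le (norm_nonneg _), Real.mul_rpow hl0.le (norm_nonneg _),
            ← mul_add, ← hD, hlP, inv_mul_cancel₀ hpos.ne'])
        have hsc : GG q ((l : ℂ) * u 0, (l : ℂ) * u 1) = l ^ q * GG q (u 0, u 1) := by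
          unfold GG
          rw [Finset.mul_sum]
          refine Finset.sum_congr rfl fun j _ => ?_
          simp only
          rw [← Real.mul_rpow hl0.le (norm_nonneg _)]
          congr 1
          rw [show (l : ℂ) * u 0 + ch j * ((l : ℂ) * u 1) = (l : ℂ) * (u 0 + ch j * u 1) by ring,
            norm_mul, Complex.norm_real, Real.norm_of_nonneg hl0.le]
        rw [hsc] at hm
        calc GG q (u 0, u 1) = (l ^ q * GG q (u 0, u 1)) * D ^ (q / P) := by
              rw [mul_right_comm, hlq, one_mul]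
          _ ≤ G0 * D ^ (q / P) := by gcongr
      · have h0 : ‖u 0‖ ^ P = 0 := by
          have a1 : 0 ≤ ‖u 0‖ ^ P := by positivity
          have a2 : 0 ≤ ‖u 1‖ ^ P := by positivity
          linarith
        have h1 : ‖u 1‖ ^ P = 0 := by
          have a1 : 0 ≤ ‖u 0‖ ^ P := by positivity
          have a2 : 0 ≤ ‖u 1‖ ^ P := by positivity
          linarith
        have h0' : u 0 = 0 := norm_eq_zero.1 ((Real.rpow_eq_zero (norm_nonneg _) hP0.ne').1 h0)
        have h1' : u 1 = 0 := norm_eq_zero.1 ((Real.rpow_eq_zero (norm_nonneg _) hP0.ne').1 h1)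
        have : GG q (u 0, u 1) = 0 := by
          unfold GG
          simp [h0', h1', Real.zero_rpow hq0.ne']
        rw [this]
        positivity
    have hGG0 : 0 ≤ GG q (u 0, u 1) := by unfold GG; positivity
    have hholder := Real.inner_le_Lp_mul_Lq_of_nonneg (Finset.univ : Finset (Fin 3)) hPq
      (f := ![‖u 2‖, ‖u 3‖, ‖u 4‖]) (g := fun j => ‖u 0 + ch j * u 1‖)
      (fun i _ => by fin_cases i <;> simp) (fun i _ => norm_nonneg _)
    have e1 : ∑ i, (![‖u 2‖, ‖u 3‖, ‖u 4‖] : Fin 3 → ℝ) i * ‖u 0 + ch i * u 1‖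
        = ‖u 2‖ * ‖u 0 + ch 0 * u 1‖ + ‖u 3‖ * ‖u 0 + ch 1 * u 1‖ + ‖u 4‖ * ‖u 0 + ch 2 * u 1‖ := by
      rw [Fin.sum_univ_three]; rfl
    have e2 : ∑ i, ((![‖u 2‖, ‖u 3‖, ‖u 4‖] : Fin 3 → ℝ) i) ^ P = B := by
      rw [Fin.sum_univ_three]; rfl
    have e3 : ∑ i : Fin 3, ‖u 0 + ch i * u 1‖ ^ q = GG q (u 0, u 1) := rfl
    rw [e1, e2, e3] at hholder
    have hn : ‖u 2 * (u 0 + ch 0 * u 1) + u 3 * (u 0 + ch 1 * u 1) + u 4 * (u 0 + ch 2 * u 1)‖
        ≤ B ^ (1 / P) * (GG q (u 0, u 1)) ^ (1 / q) := by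
      refine (norm_add₃_le).trans ?_
      rw [norm_mul, norm_mul, norm_mul]
      exact hholder
    have hGq : (GG q (u 0, u 1)) ^ (1 / q) ≤ G0 ^ q⁻¹ * D ^ (1 / P) := by
      calc (GG q (u 0, u 1)) ^ (1 / q) ≤ (G0 * D ^ (q / P)) ^ (1 / q) := by gcongr
        _ = G0 ^ q⁻¹ * D ^ (1 / P) := by
          rw [Real.mul_rpow hG.le (by positivity), ← Real.rpow_mul hD0, one_div]
          congr 2
          field_simp
    have hC' : ‖C‖ = (2 : ℝ) ^ (2 / P) / G0 ^ q⁻¹ := by
      rw [hC, Complex.norm_real, Real.norm_of_nonneg (by positivity)]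
    rw [norm_mul, hC', Fin.sum_univ_five]
    have hSum : ‖u 0‖ ^ P + ‖u 1‖ ^ P + ‖u 2‖ ^ P + ‖u 3‖ ^ P + ‖u 4‖ ^ P = D + B := by
      rw [hD, hB]; ring
    rw [hSum]
    have hGpos : 0 < G0 ^ q⁻¹ := by positivity
    calc (2 : ℝ) ^ (2 / P) / G0 ^ q⁻¹ *
          ‖u 2 * (u 0 + ch 0 * u 1) + u 3 * (u 0 + ch 1 * u 1) + u 4 * (u 0 + ch 2 * u 1)‖
        ≤ (2 : ℝ) ^ (2 / P) / G0 ^ q⁻¹ * (B ^ (1 / P) * (G0 ^ q⁻¹ * D ^ (1 / P))) := by
          have := hn.trans (mul_le_mul_of_nonneg_left hGq (by positivity))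
          gcongr
      _ = (2 : ℝ) ^ (2 / P) * (B ^ (1 / P) * D ^ (1 / P)) := by
          field_simp
      _ = (4 * (B * D)) ^ (1 / P) := by
          have h4 : ((4 : ℝ)) ^ (1 / P) = (2 : ℝ) ^ (2 / P) := by
            have h5 : (4 : ℝ) = (2 : ℝ) ^ (2 : ℝ) := by norm_num
            calc (4 : ℝ) ^ (1 / P) = ((2 : ℝ) ^ (2 : ℝ)) ^ (1 / P) := by rw [← h5]
              _ = (2 : ℝ) ^ (2 * (1 / P)) := (Real.rpow_mul (by norm_num) _ _).symm
              _ = (2 : ℝ) ^ (2 / P) := by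
                congr 1
                ring
          have h6 : (4 * (B * D)) ^ (1 / P) = (4 : ℝ) ^ (1 / P) * (B * D) ^ (1 / P) :=
            Real.mul_rpow (by norm_num) (mul_nonneg hB0 hD0)
          rw [h6, h4, Real.mul_rpow hB0 hD0]
      _ ≤ ((D + B) ^ (2 : ℕ)) ^ (1 / P) := by
          apply Real.rpow_le_rpow (by positivity) _ (by positivity)
          nlinarith [sq_nonneg (D - B)]
      _ = (D + B) ^ (((2 : ℕ) : ℝ) / P) := by
          rw [← Real.rpow_natCast, ← Real.rpow_mul (by positivity)]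
          congr 1
          ring
  · rintro ⟨k, b⟩
    rw [hQ]
    have hηe : (η b) ^ (-1 : ℤ) * (η b) ^ (1 : ℤ) = 1 := by
      rw [← zpow_add₀ (hη0 b)]; simp
    have e0 : z (k, b) 0 = ((h : ℂ) * v.1) * (η b) ^ (1 : ℤ) := rfl
    have e1 : z (k, b) 1 = ((h : ℂ) * (ch k * v.2)) * (η b) ^ (1 : ℤ) := rfl
    have e2 : z (k, b) 2 = ((h : ℂ) * w (k + 0)) * (η b) ^ (-1 : ℤ) := rfl
    have e3 : z (k, b) 3 = ((h : ℂ) * w (k + 1)) * (η b) ^ (-1 : ℤ) := rfl
    have e4 : z (k, b) 4 = ((h : ℂ) * w (k + 2)) * (η b) ^ (-1 : ℤ) := rfl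
    have hyk : ∀ j, y (k + j) = v.1 + ch k * ch j * v.2 := by
      intro j
      simp only [hy]
      rw [ch_add]
    have hsh : w (k + 0) * y (k + 0) + w (k + 1) * y (k + 1) + w (k + 2) * y (k + 2)
        = ((G0 ^ q⁻¹ : ℝ) : ℂ) := by
      rw [← hwy, ← Equiv.sum_comp (Equiv.addLeft k) (fun j => w j * y j), Fin.sum_univ_three]
      rfl
    have hCh : C * (h : ℂ) ^ 2 * ((G0 ^ q⁻¹ : ℝ) : ℂ) = 1 := by
      rw [hC, ← Complex.ofReal_pow, ← Complex.ofReal_mul, ← Complex.ofReal_mul,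
        ← Complex.ofReal_one]
      congr 1
      have hGpos : 0 < G0 ^ q⁻¹ := by positivity
      have h22 : (2 : ℝ) ^ (2 / P) * h ^ 2 = 1 := by
        rw [hh, ← Real.rpow_natCast, ← Real.rpow_mul (by norm_num), one_div,
          Real.inv_rpow (by norm_num), show P⁻¹ * ((2 : ℕ) : ℝ) = 2 / P by push_cast; ring]
        exact mul_inv_cancel₀ (by positivity)
      calc (2 : ℝ) ^ (2 / P) / G0 ^ q⁻¹ * h ^ 2 * G0 ^ q⁻¹ = (2 : ℝ) ^ (2 / P) * h ^ 2 := by
            field_simp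
        _ = 1 := h22
    rw [e0, e1, e2, e3, e4]
    have y0 := hyk 0
    have y1 := hyk 1
    have y2 := hyk 2
    calc C * ((h : ℂ) * w (k + 0) * η b ^ (-1 : ℤ) * ((h : ℂ) * v.1 * η b ^ (1 : ℤ)
            + ch 0 * ((h : ℂ) * (ch k * v.2) * η b ^ (1 : ℤ)))
          + (h : ℂ) * w (k + 1) * η b ^ (-1 : ℤ) * ((h : ℂ) * v.1 * η b ^ (1 : ℤ)
            + ch 1 * ((h : ℂ) * (ch k * v.2) * η b ^ (1 : ℤ)))
          + (h : ℂ) * w (k + 2) * η b ^ (-1 : ℤ) * ((h : ℂ) * v.1 * η b ^ (1 : ℤ)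
            + ch 2 * ((h : ℂ) * (ch k * v.2) * η b ^ (1 : ℤ))))
        = C * (h : ℂ) ^ 2 * ((η b) ^ (-1 : ℤ) * (η b) ^ (1 : ℤ)) *
          (w (k + 0) * (v.1 + ch k * ch 0 * v.2) + w (k + 1) * (v.1 + ch k * ch 1 * v.2)
            + w (k + 2) * (v.1 + ch k * ch 2 * v.2)) := by ring
      _ = 1 := by rw [← y0, ← y1, ← y2, hsh, hηe, mul_one, hCh]
  · simp only [qev_single, Finset.prod_const, Finset.card_univ, Fintype.card_fin, one_mul,
      pow_one]
    have e2 : ∀ x : Fin 3 × Fin 4, z x 2 = ((h : ℂ) * w (x.1 + 0)) * (η x.2) ^ (-1 : ℤ) :=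
      fun x => rfl
    simp only [e2]
    rw [hsum_split (fun k => (h : ℂ) * w (k + 0)) (fun b => (η b) ^ (-1 : ℤ)),
      sum_zpow_eq_zero hprim (by norm_num), mul_zero]
  · simp only [qev_single, Finset.prod_const, Finset.card_univ, Fintype.card_fin, one_mul,
      pow_one]
    have e2 : ∀ x : Fin 3 × Fin 4, σ x * z x 2 = (conj (ch x.1) * ((h : ℂ) * w x.1)) * 1 := by
      intro x
      have e3 : z x 2 = ((h : ℂ) * w (x.1 + 0)) * (η x.2) ^ (-1 : ℤ) := rfl
      have hne := hη0 x.2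
      rw [e3, add_zero, zpow_neg_one, mul_one]
      simp only [hσ]
      field_simp
    simp only [e2]
    rw [hsum_split (fun k => conj (ch k) * ((h : ℂ) * w k)) (fun _ => 1)]
    apply mul_ne_zero
    swap
    · simp
    intro hsum
    set t : Fin 3 → ℂ := fun k => ch k * y k with ht
    have htn : ∀ k, ‖t k‖ = ‖y k‖ := by
      intro k
      simp only [ht]
      rw [norm_mul, norm_ch, one_mul]
    have ht0 : ∀ k, t k ≠ 0 := fun k => mul_ne_zero (ch_ne k) (hy0 k)
    have htsum : ∑ k, t k = 0 := by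
      have : ∀ k, t k = ch k * v.1 + ch k * ch k * v.2 := by
        intro k; simp only [ht, hy]; ring
      simp only [this]
      rw [Finset.sum_add_distrib, ← Finset.sum_mul, ← Finset.sum_mul, ch_sum, ch_sq_sum]
      ring
    have hts : ∑ k, ((‖t k‖ ^ (q - 2) : ℝ) : ℂ) * t k = 0 := by
      have h1 : ∀ k, conj (ch k) * ((h : ℂ) * w k)
          = ((h / G0 ^ P⁻¹ : ℝ) : ℂ) * conj (((‖t k‖ ^ (q - 2) : ℝ) : ℂ) * t k) := by
        intro k
        rw [htn]
        simp only [hw, ht]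
        rw [map_mul, map_mul, Complex.conj_ofReal]
        push_cast
        ring
      simp only [h1] at hsum
      rw [← Finset.mul_sum, ← map_sum] at hsum
      have hne : ((h / G0 ^ P⁻¹ : ℝ) : ℂ) ≠ 0 := by
        have : h / G0 ^ P⁻¹ ≠ 0 := by positivity
        exact_mod_cast this
      have h2 := (mul_eq_zero.1 hsum).resolve_left hne
      exact (map_eq_zero _).1 h2
    have hrig := triple_rigid (by linarith : q - 2 < 0) t ht0 htsum hts
    have := norms_eq_imp (v := v) (fun i j => by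
      have := hrig i j
      rwa [htn, htn] at this)
    rcases this with h | h
    · exact hv1 h
    · exact hv2 h

end

end Pool.Agent.helper68.Gl
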