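import Pool.Agent.helper68.Gl.Kill
import Pool.Agent.helper68.Gl.Stmt

/-!
# Characters of `A_u(B_{ℓ_p})` from product measures
-/

set_option linter.unusedSectionVars false

namespace Pool.Agent.helper68.Gl

open Finset Function Filter Topology Metric
open scoped ComplexConjugate ENNReal

noncomputable section

/-- Limit along a free ultrafilter. -/
def ulim (u : ℕ → ℂ) : ℂ := limUnder (hyperfilter ℕ : Filter ℕ) u

lemma ulim_spec {u : ℕ → ℂ} {C : ℝ} (h : ∀ N, ‖u N‖ ≤ C) :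
    Tendsto u (hyperfilter ℕ : Filter ℕ) (𝓝 (ulim u)) := by
  have hc : IsCompact (closedBall (0 : ℂ) C) := isCompact_closedBall _ _
  obtain ⟨x, -, hx⟩ := hc.ultrafilter_le_nhds ((hyperfilter ℕ).map u) (by
    rw [le_principal_iff]
    exact Filter.mem_map.2 (Filter.univ_mem' fun N => by
      rw [Set.mem_preimage, mem_closedBall_zero_iff]; exact h N))
  have : Tendsto u (hyperfilter ℕ : Filter ℕ) (𝓝 x) := hx
  exact tendsto_nhds_limUnder ⟨x, this⟩

lemma ulim_eq {u : ℕ → ℂ} {l : ℂ} (h : Tendsto u (hyperfilter ℕ : Filter ℕ) (𝓝 l)) :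
    ulim u = l := h.limUnder_eq

lemma ulim_eq_of_atTop {u : ℕ → ℂ} {l : ℂ} (h : Tendsto u atTop (𝓝 l)) :
    ulim u = l := ulim_eq (h.mono_left Nat.hyperfilter_le_atTop)

variable {p : ℝ≥0∞} [Fact (1 ≤ p)] {Z : Type} [Fintype Z] [Nonempty Z] [DecidableEq Z] {n : ℕ}
  (z : Z → Fin n → ℂ) (σ : Z → ℂ)

/-- radii -/
def rho (N : ℕ) : ℝ := 1 - 1 / ((N : ℝ) + 1)

lemma rho_nonneg (N : ℕ) : 0 ≤ rho N := by
  unfold rho
  have : 1 / ((N : ℝ) + 1) ≤ 1 := by
    rw [div_le_one (by positivity)]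
    have : (0 : ℝ) ≤ N := Nat.cast_nonneg N
    linarith
  linarith

lemma rho_lt_one (N : ℕ) : rho N < 1 := by
  unfold rho
  have : 0 < 1 / ((N : ℝ) + 1) := by positivity
  linarith

lemma tendsto_rho : Tendsto rho atTop (𝓝 1) := by
  have h := tendsto_one_div_add_atTop_nhds_zero_nat (𝕜 := ℝ)
  have h2 := (tendsto_const_nhds (x := (1 : ℝ))).sub h
  rw [sub_zero] at h2
  exact h2

/-- scaling factors -/
def cc (p : ℝ≥0∞) (N : ℕ) : ℝ := rho N * (N : ℝ) ^ (-p.toReal⁻¹)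

lemma cc_nonneg (N : ℕ) : 0 ≤ cc p N := mul_nonneg (rho_nonneg N) (by positivity)

lemma cc_le (N : ℕ) : cc p N ≤ (N : ℝ) ^ (-p.toReal⁻¹) := by
  unfold cc
  calc rho N * (N : ℝ) ^ (-p.toReal⁻¹) ≤ 1 * (N : ℝ) ^ (-p.toReal⁻¹) := by
        gcongr
        exact (rho_lt_one N).le
    _ = _ := one_mul _

/-- the random points -/
def xx (p : ℝ≥0∞) [Fact (1 ≤ p)] (N : ℕ) (ω : Fin N → Z) : LP p :=
  ((cc p N : ℝ) : ℂ) • emb p N (fun j => z (ω j))

lemma norm_emb_le (hp : 0 < p.toReal) {N : ℕ} {y : Fin N → Fin n → ℂ} {S : ℝ}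
    (h : ∑ j, ∑ i, ‖y j i‖ ^ p.toReal ≤ S) : ‖emb p N y‖ ≤ S ^ (p.toReal⁻¹) := by
  have hS : 0 ≤ S := le_trans (Finset.sum_nonneg fun _ _ => Finset.sum_nonneg fun _ _ => by
    positivity) h
  rw [Real.le_rpow_inv_iff_of_pos (norm_nonneg _) hS hp, norm_emb hp]
  exact h

lemma scale_mul (q : ℝ) (N : ℕ) (x : ℝ) (hx : 0 ≤ x) :
    (N : ℝ) ^ (-q) * x ^ q = (x / N) ^ q := by
  rw [Real.rpow_neg (Nat.cast_nonneg N), Real.div_rpow hx (Nat.cast_nonneg N), div_eq_mul_inv,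
    mul_comm]

variable {z} in
lemma norm_xx_le (hp : 0 < p.toReal) (hz : ∀ a, ∑ i, ‖z a i‖ ^ p.toReal = 1) (N : ℕ)
    (ω : Fin N → Z) : ‖xx z p N ω‖ ≤ rho N := by
  have h1 : ‖emb p N (fun j => z (ω j))‖ ≤ (N : ℝ) ^ (p.toReal⁻¹) := by
    apply norm_emb_le hp
    simp only [hz]
    simp
  rw [xx, norm_smul, Complex.norm_real, Real.norm_of_nonneg (cc_nonneg N), cc]
  calc rho N * (N : ℝ) ^ (-p.toReal⁻¹) * ‖emb p N (fun j => z (ω j))‖
      ≤ rho N * (N : ℝ) ^ (-p.toReal⁻¹) * (N : ℝ) ^ (p.toReal⁻¹) := by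
        have := rho_nonneg N
        gcongr
    _ = rho N * ((N : ℝ) / N) ^ (p.toReal⁻¹) := by
        rw [mul_assoc, scale_mul _ _ _ (Nat.cast_nonneg N)]
    _ ≤ rho N * 1 := by
        have := rho_nonneg N
        gcongr
        exact Real.rpow_le_one (by positivity) (div_self_le_one _) (by positivity)
    _ = rho N := mul_one _

variable {z} in
lemma xx_mem (hp : 0 < p.toReal) (hz : ∀ a, ∑ i, ‖z a i‖ ^ p.toReal = 1) (N : ℕ)
    (ω : Fin N → Z) : xx z p N ω ∈ ball (0 : LP p) 1 := by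
  rw [mem_ball_zero_iff]
  exact (norm_xx_le hp hz N ω).trans_lt (rho_lt_one N)

variable {z} in
lemma dist_xx_le (hp : 0 < p.toReal) (hz : ∀ a, ∑ i, ‖z a i‖ ^ p.toReal = 1) (N : ℕ)
    (ω ω' : Fin N → Z) :
    ‖xx z p N ω - xx z p N ω'‖ ≤ 2 * ((hammingDist ω ω' : ℝ) / N) ^ (p.toReal⁻¹) := by
  set y : Fin N → Fin n → ℂ := fun j i => if ω j ≠ ω' j then z (ω j) i else 0 with hy
  set y' : Fin N → Fin n → ℂ := fun j i => if ω j ≠ ω' j then z (ω' j) i else 0 with hy'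
  have e : emb p N (fun j => z (ω j)) - emb p N (fun j => z (ω' j)) = emb p N y - emb p N y' := by
    rw [← emb_sub, ← emb_sub]
    congr 1
    funext j i
    by_cases h : ω j = ω' j
    · simp [hy, hy', h]
    · simp [hy, hy', h]
  have hn : ∀ (η : Fin N → Z), ∑ j, ∑ i, ‖(if ω j ≠ ω' j then z (η j) i else 0)‖ ^ p.toReal
      ≤ (hammingDist ω ω' : ℝ) := by
    intro η
    have : ∀ j, ∑ i, ‖(if ω j ≠ ω' j then z (η j) i else 0)‖ ^ p.toReal
        = if ω j ≠ ω' j then 1 else 0 := by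
      intro j
      by_cases h : ω j = ω' j
      · simp [h, Real.zero_rpow hp.ne']
      · simp only [ne_eq, h, not_false_eq_true, if_true]
        exact hz _
    simp only [this]
    rw [Finset.sum_boole]
    exact le_of_eq rfl
  have h1 : ‖emb p N y‖ ≤ (hammingDist ω ω' : ℝ) ^ (p.toReal⁻¹) := norm_emb_le hp (hn ω)
  have h2 : ‖emb p N y'‖ ≤ (hammingDist ω ω' : ℝ) ^ (p.toReal⁻¹) := norm_emb_le hp (hn ω')
  rw [xx, xx, ← smul_sub, e, norm_smul, Complex.norm_real, Real.norm_of_nonneg (cc_nonneg N)]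
  calc cc p N * ‖emb p N y - emb p N y'‖
      ≤ (N : ℝ) ^ (-p.toReal⁻¹) * ((hammingDist ω ω' : ℝ) ^ (p.toReal⁻¹)
        + (hammingDist ω ω' : ℝ) ^ (p.toReal⁻¹)) := by
        gcongr
        · exact cc_le N
        · exact (norm_sub_le _ _).trans (add_le_add h1 h2)
    _ = 2 * ((N : ℝ) ^ (-p.toReal⁻¹) * (hammingDist ω ω' : ℝ) ^ (p.toReal⁻¹)) := by ring
    _ = _ := by rw [scale_mul _ _ _ (Nat.cast_nonneg _)]

variable {z} in
lemma almost_lipschitz (hp : 0 < p.toReal) (hz : ∀ a, ∑ i, ‖z a i‖ ^ p.toReal = 1)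
    {g : LP p → ℂ} (hg : UniformContinuousOn g (ball 0 1)) {M : ℝ}
    (hM : ∀ x ∈ ball (0 : LP p) 1, ‖g x‖ ≤ M) {ε : ℝ} (hε : 0 < ε) :
    ∃ K : ℝ, 0 ≤ K ∧ ∀ (N : ℕ) (ω ω' : Fin N → Z),
      ‖g (xx z p N ω) - g (xx z p N ω')‖ ≤ ε + K / N * hammingDist ω ω' := by
  have hM0 : 0 ≤ M := (norm_nonneg _).trans (hM 0 (mem_ball_self one_pos))
  obtain ⟨δ, hδ, h⟩ := Metric.uniformContinuousOn_iff.1 hg ε hε
  refine ⟨2 * M / (δ / 2) ^ p.toReal, by positivity, fun N ω ω' => ?_⟩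
  have m1 := xx_mem hp hz N ω
  have m2 := xx_mem hp hz N ω'
  have hd := dist_xx_le hp hz N ω ω'
  by_cases hc : 2 * ((hammingDist ω ω' : ℝ) / N) ^ (p.toReal⁻¹) < δ
  · have h1 := h _ m1 _ m2 (by rw [dist_eq_norm]; exact hd.trans_lt hc)
    rw [dist_eq_norm] at h1
    have : 0 ≤ 2 * M / (δ / 2) ^ p.toReal / N * hammingDist ω ω' := by positivity
    linarith
  · push Not at hc
    have h1 : (δ / 2) ^ p.toReal ≤ (hammingDist ω ω' : ℝ) / N := by
      rw [← Real.le_rpow_inv_iff_of_pos (by positivity) (by positivity) hp]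
      linarith
    have h2 : ‖g (xx z p N ω) - g (xx z p N ω')‖ ≤ 2 * M := by
      refine (norm_sub_le _ _).trans ?_
      linarith [hM _ m1, hM _ m2]
    have h3 : 2 * M ≤ 2 * M / (δ / 2) ^ p.toReal / N * hammingDist ω ω' := by
      have e : 2 * M / (δ / 2) ^ p.toReal / N * hammingDist ω ω'
          = 2 * M / (δ / 2) ^ p.toReal * ((hammingDist ω ω' : ℝ) / N) := by ring
      rw [e]
      calc 2 * M = 2 * M / (δ / 2) ^ p.toReal * (δ / 2) ^ p.toReal := by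
            rw [div_mul_cancel₀]
            positivity
        _ ≤ _ := by gcongr
    linarith

/-- The mean of `g` at the random points. -/
def ME (w : Z → ℝ) (g : LP p → ℂ) (N : ℕ) : ℂ := EC (PW w N) (fun ω => g (xx z p N ω))

variable {z} in
lemma norm_ME_le (hp : 0 < p.toReal) (hz : ∀ a, ∑ i, ‖z a i‖ ^ p.toReal = 1)
    {w : Z → ℝ} (hw : ∀ a, 0 ≤ w a) (hw1 : ∑ a, w a = 1) {g : LP p → ℂ} {M : ℝ}
    (hM : ∀ x ∈ ball (0 : LP p) 1, ‖g x‖ ≤ M) (N : ℕ) : ‖ME z w g N‖ ≤ M :=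
  norm_EC_le_of_le (PW_nonneg hw N) (PW_sum hw1 N) fun ω => hM _ (xx_mem hp hz N ω)

variable {z} in
lemma ME_mul (hp : 0 < p.toReal) (hz : ∀ a, ∑ i, ‖z a i‖ ^ p.toReal = 1)
    {w : Z → ℝ} (hw : ∀ a, 0 ≤ w a) (hw1 : ∑ a, w a = 1) {f g : LP p → ℂ}
    (hf : UniformContinuousOn f (ball 0 1)) {M₁ : ℝ} (hM₁ : ∀ x ∈ ball (0 : LP p) 1, ‖f x‖ ≤ M₁)
    {M : ℝ} (hM : ∀ x ∈ ball (0 : LP p) 1, ‖g x‖ ≤ M) :
    Tendsto (fun N => ME z w (fun x => f x * g x) N - ME z w f N * ME z w g N) atTop (𝓝 0) := by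
  have hM0 : 0 ≤ M := (norm_nonneg _).trans (hM 0 (mem_ball_self one_pos))
  rw [Metric.tendsto_atTop]
  intro e he
  set ε : ℝ := e / (8 * (M + 1)) with hε
  have hε0 : 0 < ε := by positivity
  obtain ⟨K, hK, hl⟩ := almost_lipschitz hp hz hf hM₁ hε0
  obtain ⟨N₀, hN₀⟩ := exists_nat_gt (4 * K ^ 2 / ε ^ 2)
  refine ⟨max N₀ 1, fun N hN => ?_⟩
  have hN1 : 1 ≤ N := le_trans (le_max_right _ _) hN
  have hN0 : (0 : ℝ) < N := by exact_mod_cast hN1
  have hNN : 4 * K ^ 2 / ε ^ 2 < N :=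
    lt_of_lt_of_le hN₀ (by exact_mod_cast le_trans (le_max_left _ _) hN)
  have hv := cvar_le hw hw1 N (fun ω => f (xx z p N ω)) (ε := ε) (K := K / N) (by positivity)
    (fun ω ω' => hl N ω ω')
  have hv2 : 4 * ((N : ℝ) * (K / N) ^ 2) + 4 * ε ^ 2 ≤ 5 * ε ^ 2 := by
    have e1 : 4 * ((N : ℝ) * (K / N) ^ 2) = 4 * K ^ 2 / N := by
      field_simp
    rw [e1]
    have : 4 * K ^ 2 / N ≤ ε ^ 2 := by
      rw [div_le_iff₀ hN0]
      rw [div_lt_iff₀ (by positivity)] at hNN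
      linarith
    linarith
  have hc := cov_le (PW_nonneg hw N) (PW_sum hw1 N) (fun ω => f (xx z p N ω))
    (fun ω => g (xx z p N ω)) (fun ω => hM _ (xx_mem hp hz N ω)) (hv.trans hv2) hε0
  rw [dist_zero_right]
  refine lt_of_le_of_lt hc ?_
  have e2 : ε + 5 * ε ^ 2 / ε = 6 * ε := by field_simp; ring
  rw [e2]
  calc M * (6 * ε) ≤ (M + 1) * (6 * ε) := by gcongr; linarith
    _ = 6 / 8 * e := by rw [hε]; field_simp
    _ < e := by linarith

lemma exists_bound_ext {X : Type} [NormedAddCommGroup X] [NormedSpace ℂ X] (f : AuBall X) :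
    ∃ C : ℝ, ∀ x ∈ ball (0 : X) 1, ‖extZ f.1 x‖ ≤ C := by
  obtain ⟨C, hC⟩ := bounded_of_uc f.2.2
  exact ⟨C, fun x hx => by rw [extZ_of_mem hx]; exact hC _⟩

lemma uc_ext {X : Type} [NormedAddCommGroup X] [NormedSpace ℂ X] (f : AuBall X) :
    UniformContinuousOn (extZ f.1) (ball 0 1) := (mem_ext (⟨f.1, f.2⟩ : Au X)).2

variable {z} in
/-- The character attached to weights. -/
def chr (hp : 0 < p.toReal) (hz : ∀ a, ∑ i, ‖z a i‖ ^ p.toReal = 1)
    {w : Z → ℝ} (hw : ∀ a, 0 ≤ w a) (hw1 : ∑ a, w a = 1) : SpecAu (LP p) where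
  val f := ulim (ME z w (extZ f.1))
  map_add := by
    intro f g h hh
    obtain ⟨Cf, hf⟩ := exists_bound_ext f
    obtain ⟨Cg, hg⟩ := exists_bound_ext g
    have e : ME z w (extZ h.1) = fun N => ME z w (extZ f.1) N + ME z w (extZ g.1) N := by
      funext N
      unfold ME
      rw [← EC_add]
      congr 1
      funext ω
      have hm := xx_mem hp hz N ω
      rw [extZ_of_mem hm, extZ_of_mem hm, extZ_of_mem hm, hh]
    rw [e]
    exact ulim_eq ((ulim_spec (norm_ME_le hp hz hw hw1 hf)).add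
      (ulim_spec (norm_ME_le hp hz hw hw1 hg)))
  map_smul := by
    intro c f h hh
    obtain ⟨Cf, hf⟩ := exists_bound_ext f
    have e : ME z w (extZ h.1) = fun N => c * ME z w (extZ f.1) N := by
      funext N
      unfold ME
      rw [← EC_mul_left]
      congr 1
      funext ω
      have hm := xx_mem hp hz N ω
      rw [extZ_of_mem hm, extZ_of_mem hm, hh]
    rw [e]
    exact ulim_eq ((ulim_spec (norm_ME_le hp hz hw hw1 hf)).const_mul c)
  map_mul := by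
    intro f g h hh
    obtain ⟨Cf, hf⟩ := exists_bound_ext f
    obtain ⟨Cg, hg⟩ := exists_bound_ext g
    have e : ME z w (extZ h.1) = fun N => (ME z w (fun x => extZ f.1 x * extZ g.1 x) N
        - ME z w (extZ f.1) N * ME z w (extZ g.1) N)
        + ME z w (extZ f.1) N * ME z w (extZ g.1) N := by
      funext N
      rw [sub_add_cancel]
      unfold ME
      congr 1
      funext ω
      have hm := xx_mem hp hz N ω
      simp only
      rw [extZ_of_mem hm, extZ_of_mem hm, extZ_of_mem hm, hh]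
    rw [e]
    have h1 := (ME_mul hp hz hw hw1 (uc_ext f) hf hg).mono_left Nat.hyperfilter_le_atTop
    have h2 := (ulim_spec (norm_ME_le hp hz hw hw1 hf)).mul
      (ulim_spec (norm_ME_le hp hz hw hw1 hg))
    have h3 := h1.add h2
    rw [zero_add] at h3
    exact ulim_eq h3
  nonzero := by
    refine ⟨oneAu _, ?_⟩
    have e : ME z w (extZ (oneAu (LP p)).1) = fun N => 1 := by
      funext N
      unfold ME
      rw [← EC_const (PW_sum hw1 N) 1]
      congr 1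
      funext ω
      rw [extZ_of_mem (xx_mem hp hz N ω)]
      rfl
    rw [e, ulim_eq tendsto_const_nhds]
    exact one_ne_zero

variable {z} in
lemma chr_val (hp : 0 < p.toReal) (hz : ∀ a, ∑ i, ‖z a i‖ ^ p.toReal = 1)
    {w : Z → ℝ} (hw : ∀ a, 0 ≤ w a) (hw1 : ∑ a, w a = 1) (f : AuBall (LP p)) :
    (chr hp hz hw hw1).val f = ulim (ME z w (extZ f.1)) := rfl

end

end Pool.Agent.helper68.Gl
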