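import Pool.Agent.helper68.Gl.General

set_option linter.unusedSectionVars false

namespace Pool.Agent.helper68.Gl

open Metric Set Filter Topology
open scoped ComplexConjugate NNReal ENNReal

noncomputable section

variable {X : Type*} [NormedAddCommGroup X] [NormedSpace ℂ X]

/-- Conjugating a continuous multilinear map with a conjugation of the space. -/
def conjMulti (c : X ≃ₗᵢ⋆[ℂ] X) {n : ℕ} (p : ContinuousMultilinearMap ℂ (fun _ : Fin n => X) ℂ) :
    ContinuousMultilinearMap ℂ (fun _ : Fin n => X) ℂ where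
  toFun v := conj (p (fun i => c (v i)))
  map_update_add' := by
    intro dec v i x y
    have h : ∀ z : X, (fun j => c (Function.update v i z j))
        = Function.update (fun j => c (v j)) i (c z) := by
      intro z
      funext j
      by_cases hj : j = i
      · subst hj; simp
      · simp [Function.update_of_ne hj]
    have e := Subsingleton.elim dec (instDecidableEqFin n)
    subst e
    rw [h, h, h, map_add, p.map_update_add, map_add]
  map_update_smul' := by
    intro dec v i a x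
    have h : ∀ z : X, (fun j => c (Function.update v i z j))
        = Function.update (fun j => c (v j)) i (c z) := by
      intro z
      funext j
      by_cases hj : j = i
      · subst hj; simp
      · simp [Function.update_of_ne hj]
    have e := Subsingleton.elim dec (instDecidableEqFin n)
    subst e
    rw [h, h, map_smulₛₗ, p.map_update_smul, smul_eq_mul, map_mul, smul_eq_mul]
    simp
  cont := by
    have h1 : Continuous fun v : Fin n → X => fun i => c (v i) :=
      continuous_pi fun i => c.continuous.comp (continuous_apply i)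
    exact Complex.continuous_conj.comp (p.cont.comp h1)

lemma conjMulti_apply (c : X ≃ₗᵢ⋆[ℂ] X) {n : ℕ}
    (p : ContinuousMultilinearMap ℂ (fun _ : Fin n => X) ℂ) (v : Fin n → X) :
    conjMulti c p v = conj (p (fun i => c (v i))) := rfl

lemma conjMulti_norm_le (c : X ≃ₗᵢ⋆[ℂ] X) {n : ℕ}
    (p : ContinuousMultilinearMap ℂ (fun _ : Fin n => X) ℂ) : ‖conjMulti c p‖ ≤ ‖p‖ := by
  refine ContinuousMultilinearMap.opNorm_le_bound (norm_nonneg _) (fun v => ?_)
  rw [conjMulti_apply, RCLike.norm_conj]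
  refine (p.le_opNorm _).trans (le_of_eq ?_)
  congr 1
  exact Finset.prod_congr rfl fun i _ => c.norm_map _

lemma analyticAt_conj (c : X ≃ₗᵢ⋆[ℂ] X) {f : X → ℂ} {u : X} (hf : AnalyticAt ℂ f (c u)) :
    AnalyticAt ℂ (fun v => conj (f (c v))) u := by
  obtain ⟨p, r, hp⟩ := hf
  refine ⟨fun n => conjMulti c (p n), r, ?_⟩
  constructor
  · refine ENNReal.le_of_forall_nnreal_lt (fun r' hr' => ?_)
    obtain ⟨C, -, hC⟩ := p.norm_mul_pow_le_of_lt_radius (lt_of_lt_of_le hr' hp.r_le)
    refine FormalMultilinearSeries.le_radius_of_bound _ C (fun n => ?_)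
    refine le_trans ?_ (hC n)
    have := conjMulti_norm_le c (p n)
    gcongr
  · exact hp.r_pos
  · intro y hy
    have hy' : c y ∈ Metric.eball (0 : X) r := by
      rw [Metric.mem_eball, edist_zero_right] at hy ⊢
      have : ‖c y‖ₑ = ‖y‖ₑ := by
        rw [← ofReal_norm, ← ofReal_norm, c.norm_map]
      rwa [this]
    have h := hp.hasSum hy'
    rw [← map_add] at h
    exact h.map (starRingEnd ℂ) Complex.continuous_conj

lemma mem_dilate {f : X → ℂ} (hf : Mem f) {s : ℝ} (h0 : 0 ≤ s) (h1 : s ≤ 1) :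
    Mem (fun x => f ((s : ℂ) • x)) := by
  have hmaps : ∀ x ∈ ball (0 : X) 1, (s : ℂ) • x ∈ ball (0 : X) 1 := by
    intro x hx
    rw [mem_ball_zero_iff] at hx ⊢
    rw [norm_smul, Complex.norm_real, Real.norm_of_nonneg h0]
    calc s * ‖x‖ ≤ 1 * ‖x‖ := by gcongr
      _ < 1 := by simpa using hx
  refine ⟨fun x hx => ?_, ?_⟩
  · have h2 : AnalyticAt ℂ (fun x : X => (s : ℂ) • x) x :=
      ((s : ℂ) • ContinuousLinearMap.id ℂ X).analyticAt x
    exact (hf.1 _ (hmaps x hx)).comp h2
  · rw [Metric.uniformContinuousOn_iff]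
    intro ε hε
    obtain ⟨δ, hδ, hd⟩ := Metric.uniformContinuousOn_iff.1 hf.2 ε hε
    refine ⟨δ, hδ, fun x hx y hy hxy => hd _ (hmaps x hx) _ (hmaps y hy) ?_⟩
    rw [dist_eq_norm] at hxy ⊢
    rw [← smul_sub, norm_smul, Complex.norm_real, Real.norm_of_nonneg h0]
    calc s * ‖x - y‖ ≤ 1 * ‖x - y‖ := by gcongr
      _ < δ := by simpa using hxy

lemma dilate_close {f : X → ℂ} (hf : Mem f) {ε : ℝ} (hε : 0 < ε) :
    ∃ s : ℝ, 0 < s ∧ s < 1 ∧ ∀ x ∈ ball (0 : X) 1, ‖f ((s : ℂ) • x) - f x‖ ≤ ε := by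
  obtain ⟨δ, hδ, hd⟩ := Metric.uniformContinuousOn_iff.1 hf.2 ε hε
  set t : ℝ := min (1 / 2) (δ / 2) with ht
  have ht0 : 0 < t := lt_min (by norm_num) (by positivity)
  have ht1 : t ≤ 1 / 2 := min_le_left _ _
  have ht2 : t ≤ δ / 2 := min_le_right _ _
  refine ⟨1 - t, by linarith, by linarith, fun x hx => ?_⟩
  have hx' := hx
  rw [mem_ball_zero_iff] at hx'
  have h1 : ((1 - t : ℝ) : ℂ) • x ∈ ball (0 : X) 1 := by
    rw [mem_ball_zero_iff, norm_smul, Complex.norm_real, Real.norm_of_nonneg (by linarith)]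
    calc (1 - t) * ‖x‖ ≤ 1 * ‖x‖ := by gcongr; linarith
      _ < 1 := by simpa using hx'
  have h2 := hd _ h1 _ hx ?_
  · rw [dist_eq_norm] at h2; exact h2.le
  · rw [dist_eq_norm]
    have : ((1 - t : ℝ) : ℂ) • x - x = ((-t : ℝ) : ℂ) • x := by
      have e : ((1 - t : ℝ) : ℂ) = ((-t : ℝ) : ℂ) + 1 := by push_cast; ring
      rw [e, add_smul, one_smul, add_sub_cancel_right]
    rw [this, norm_smul, Complex.norm_real, norm_neg, Real.norm_of_nonneg ht0.le]
    calc t * ‖x‖ ≤ t * 1 := by gcongr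
      _ < δ := by linarith

/-- The conjugate of `g` composed with a map `U`. -/
lemma mem_conj_comp (c : X ≃ₗᵢ⋆[ℂ] X) {g : X → ℂ} (hg : Mem g) {U : X → X}
    (hU : AnalyticOnNhd ℂ U (ball (0 : X) 1)) (hU' : UniformContinuousOn U (ball (0 : X) 1))
    {r : ℝ} (hr : 0 ≤ r) (hr1 : r ≤ 1) (hb : ∀ x ∈ ball (0 : X) 1, r * ‖U x‖ < 1) :
    Mem (fun x => conj (g ((r : ℂ) • c (U x)))) := by
  have hmaps : ∀ x ∈ ball (0 : X) 1, (r : ℂ) • U x ∈ ball (0 : X) 1 := by
    intro x hx
    rw [mem_ball_zero_iff, norm_smul, Complex.norm_real, Real.norm_of_nonneg hr]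
    exact hb x hx
  have hmaps' : ∀ x ∈ ball (0 : X) 1, (r : ℂ) • c (U x) ∈ ball (0 : X) 1 := by
    intro x hx
    rw [mem_ball_zero_iff, norm_smul, Complex.norm_real, Real.norm_of_nonneg hr, c.norm_map]
    exact hb x hx
  have hc : ∀ x, c ((r : ℂ) • U x) = (r : ℂ) • c (U x) := by
    intro x
    rw [map_smulₛₗ, Complex.conj_ofReal]
  refine ⟨fun x hx => ?_, ?_⟩
  · have h1 : AnalyticAt ℂ (fun v => conj (g (c v))) ((r : ℂ) • U x) := by
      apply analyticAt_conj
      rw [hc]
      exact hg.1 _ (hmaps' x hx)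
    have h2 : AnalyticAt ℂ (fun x : X => (r : ℂ) • U x) x :=
      analyticAt_const.smul (hU x hx)
    have h3 := AnalyticAt.fun_comp (f := fun x : X => (r : ℂ) • U x) h1 h2
    refine h3.congr (Eventually.of_forall fun y => ?_)
    simp only [hc]
  · rw [Metric.uniformContinuousOn_iff]
    intro ε hε
    obtain ⟨δ, hδ, hd⟩ := Metric.uniformContinuousOn_iff.1 hg.2 ε hε
    obtain ⟨δ', hδ', hd'⟩ := Metric.uniformContinuousOn_iff.1 hU' δ hδ
    refine ⟨δ', hδ', fun x hx y hy hxy => ?_⟩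
    have h1 := hd' x hx y hy hxy
    rw [dist_eq_norm, ← map_sub, RCLike.norm_conj, ← dist_eq_norm]
    refine hd _ (hmaps' x hx) _ (hmaps' y hy) ?_
    rw [dist_eq_norm] at h1 ⊢
    rw [← smul_sub, norm_smul, Complex.norm_real, Real.norm_of_nonneg hr, ← map_sub, c.norm_map]
    calc r * ‖U x - U y‖ ≤ 1 * ‖U x - U y‖ := by gcongr
      _ < δ := by simpa using h1

end

end Pool.Agent.helper68.Gl
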