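import Pool.Agent.helper68.Gl.Prod

/-!
# Product measures depending on a complex parameter
-/

set_option linter.unusedSectionVars false

namespace Pool.Agent.helper68.Gl

open Finset Function
open scoped ComplexConjugate

noncomputable section

variable {Z : Type*} [Fintype Z]

lemma EC_coord {w : Z → ℝ} (hw1 : ∑ a, w a = 1) (N : ℕ) (j : Fin N) (g : Z → ℂ) :
    EC (PW w N) (fun ω => g (ω j)) = EC w g := by
  have h := Finset.prod_univ_sum (fun _ : Fin N => (Finset.univ : Finset Z))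
    (fun i a => (w a : ℂ) * (if i = j then g a else 1))
  simp only [Fintype.piFinset_univ] at h
  have h1 : (∏ i : Fin N, ∑ a : Z, (w a : ℂ) * (if i = j then g a else 1)) = EC w g := by
    rw [Finset.prod_eq_single j]
    · simp [EC]
    · intro i _ hij
      simp only [hij, if_false, mul_one]
      rw [← Complex.ofReal_sum, hw1]; simp
    · simp
  rw [← h1, h]
  unfold EC PW
  refine Finset.sum_congr rfl fun ω _ => ?_
  rw [Finset.prod_mul_distrib]
  congr 1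
  · push_cast; rfl
  · rw [Finset.prod_eq_single j]
    · simp
    · intro i _ hij; simp [hij]
    · simp

lemma EC_sum {Ω ι : Type*} [Fintype Ω] (W : Ω → ℝ) (s : Finset ι) (F : ι → Ω → ℂ) :
    EC W (fun ω => ∑ i ∈ s, F i ω) = ∑ i ∈ s, EC W (F i) := by
  unfold EC
  simp only [Finset.mul_sum]
  rw [Finset.sum_comm]

/-- The average of a function of the coordinates. -/
def avg (N : ℕ) (g : Z → ℂ) (ω : Fin N → Z) : ℂ := (∑ j, g (ω j)) / N

lemma EC_avg {w : Z → ℝ} (hw1 : ∑ a, w a = 1) {N : ℕ} (hN : N ≠ 0) (g : Z → ℂ) :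
    EC (PW w N) (avg N g) = EC w g := by
  have : avg N g = fun ω => (1 / (N : ℂ)) * ∑ j, g (ω j) := by
    funext ω; rw [avg]; ring
  rw [this, EC_mul_left, EC_sum]
  simp only [EC_coord hw1]
  rw [Finset.sum_const, Finset.card_univ, Fintype.card_fin, nsmul_eq_mul]
  have : (N : ℂ) ≠ 0 := by exact_mod_cast hN
  field_simp

lemma avg_lipschitz [DecidableEq Z] (N : ℕ) {g : Z → ℂ} {C : ℝ} (hg : ∀ a, ‖g a‖ ≤ C)
    (ω ω' : Fin N → Z) : ‖avg N g ω - avg N g ω'‖ ≤ 2 * C / N * hammingDist ω ω' := by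
  rw [avg, avg, ← sub_div, ← Finset.sum_sub_distrib, norm_div, Complex.norm_natCast]
  have h : ‖∑ j, (g (ω j) - g (ω' j))‖ ≤ 2 * C * hammingDist ω ω' := by
    have e : ∑ j, (g (ω j) - g (ω' j)) = ∑ j ∈ univ.filter (fun j => ω j ≠ ω' j),
        (g (ω j) - g (ω' j)) := by
      symm
      apply Finset.sum_subset (Finset.filter_subset _ _)
      intro j _ hj
      rw [Finset.mem_filter, not_and, not_not] at hj
      rw [hj (mem_univ _), sub_self]
    rw [e]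
    refine (norm_sum_le _ _).trans ?_
    have : ∀ j ∈ univ.filter (fun j => ω j ≠ ω' j), ‖g (ω j) - g (ω' j)‖ ≤ 2 * C := by
      intro j _
      refine (norm_sub_le _ _).trans ?_
      linarith [hg (ω j), hg (ω' j)]
    refine (Finset.sum_le_sum this).trans ?_
    rw [Finset.sum_const, nsmul_eq_mul, hammingDist, mul_comm]
  calc ‖∑ j, (g (ω j) - g (ω' j))‖ / (N : ℝ) ≤ (2 * C * hammingDist ω ω') / N := by gcongr
    _ = _ := by ring

/-- Weak law of large numbers. -/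
lemma avg_var [Nonempty Z] [DecidableEq Z] {w : Z → ℝ} (hw : ∀ a, 0 ≤ w a)
    (hw1 : ∑ a, w a = 1) {N : ℕ} (hN : N ≠ 0) {g : Z → ℂ} {C : ℝ} (hC : 0 ≤ C)
    (hg : ∀ a, ‖g a‖ ≤ C) :
    ER (PW w N) (fun ω => ‖avg N g ω - EC w g‖ ^ 2) ≤ 16 * C ^ 2 / N := by
  have h := cvar_le hw hw1 N (avg N g) (ε := 0) (K := 2 * C / N) (by positivity)
    (fun ω ω' => by rw [zero_add]; exact avg_lipschitz N hg ω ω')
  rw [EC_avg hw1 hN] at h
  refine h.trans (le_of_eq ?_)
  have : (N : ℝ) ≠ 0 := by exact_mod_cast hN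
  field_simp
  ring

/-- Resampling one coordinate. -/
lemma sum_erase_eq {w : Z → ℝ} (hw1 : ∑ a, w a = 1) (N : ℕ) (j : Fin N)
    (s : Z → ℂ) (F : (Fin N → Z) → ℂ) :
    ∑ ω : Fin N → Z, (∏ i ∈ univ.erase j, (w (ω i) : ℂ)) * s (ω j) * F ω
      = EC (PW w N) (fun ω => ∑ a, s a * F (update ω j a)) := by
  symm
  unfold EC
  simp only [Finset.mul_sum]
  rw [← Fintype.sum_prod_type']
  set e : (Fin N → Z) × Z → (Fin N → Z) × Z := fun x => (update x.1 j x.2, x.1 j) with he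
  have hinv : Function.Involutive e := by
    rintro ⟨ω, a⟩
    simp [he]
  rw [← Equiv.sum_comp (hinv.toPerm e)]
  rw [Fintype.sum_prod_type]
  refine Finset.sum_congr rfl fun ω _ => ?_
  have h1 : ∀ a : Z, (PW w N (update ω j a) : ℂ) = w a * ∏ i ∈ univ.erase j, (w (ω i) : ℂ) := by
    intro a
    rw [PW, Complex.ofReal_prod, ← Finset.mul_prod_erase _ _ (mem_univ j), update_self]
    congr 1
    refine Finset.prod_congr rfl fun i hi => ?_
    rw [update_of_ne (Finset.ne_of_mem_erase hi)]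
  have h2 : ∀ a : Z, (PW w N ((hinv.toPerm e) (ω, a)).1 : ℂ) *
      (s ((hinv.toPerm e) (ω, a)).2 * F (update ((hinv.toPerm e) (ω, a)).1 j
        ((hinv.toPerm e) (ω, a)).2))
      = w a * ((∏ i ∈ univ.erase j, (w (ω i) : ℂ)) * s (ω j) * F ω) := by
    intro a
    have e1 : (hinv.toPerm e) (ω, a) = (update ω j a, ω j) := rfl
    rw [e1]
    simp only [update_idem, update_eq_self, h1]
    ring
  rw [Finset.sum_congr rfl fun a _ => h2 a, ← Finset.sum_mul, ← Complex.ofReal_sum, hw1]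
  simp

/-- The real-linear map `v ↦ α v + β v̄`. -/
def LL (α β : ℂ) : ℂ →L[ℝ] ℂ :=
  α • (ContinuousLinearMap.id ℝ ℂ) + β • (Complex.conjCLE : ℂ →L[ℝ] ℂ)

lemma LL_apply (α β v : ℂ) : LL α β v = α * v + β * conj v := rfl

variable (σ : Z → ℂ)

/-- The weights. -/
def wt (ζ : ℂ) (a : Z) : ℝ := (1 + 2 * (ζ * σ a).re) / Fintype.card Z

lemma wt_cast (ζ : ℂ) (a : Z) :
    (wt σ ζ a : ℂ) = (1 + (ζ * σ a + conj ζ * conj (σ a))) / Fintype.card Z := by
  have : (2 * (ζ * σ a).re : ℂ) = ζ * σ a + conj ζ * conj (σ a) := by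
    rw [← map_mul, Complex.add_conj]; push_cast; ring
  unfold wt
  push_cast
  rw [this]

lemma wt_nonneg {ζ : ℂ} (hσ : ∀ a, ‖σ a‖ ≤ 1) (hζ : ‖ζ‖ ≤ 1 / 2) (a : Z) : 0 ≤ wt σ ζ a := by
  have h1 : |(ζ * σ a).re| ≤ 1 / 2 := by
    refine (Complex.abs_re_le_norm _).trans ?_
    rw [norm_mul]
    calc ‖ζ‖ * ‖σ a‖ ≤ 1 / 2 * 1 := by
          gcongr
          exact hσ a
      _ = 1 / 2 := by norm_num
  unfold wt
  have h2 := (abs_le.1 h1).1
  apply div_nonneg _ (Nat.cast_nonneg _)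
  linarith

lemma wt_sum [Nonempty Z] (hσ0 : ∑ a, σ a = 0) (ζ : ℂ) : ∑ a, wt σ ζ a = 1 := by
  unfold wt
  rw [← Finset.sum_div, Finset.sum_add_distrib]
  have h1 : ∑ a, 2 * (ζ * σ a).re = 0 := by
    rw [← Finset.mul_sum, ← Complex.re_sum, ← Finset.mul_sum, hσ0]
    simp
  rw [h1]
  simp

/-- The expectation of `F` as a function of the parameter. -/
def hh (N : ℕ) (F : (Fin N → Z) → ℂ) (ζ : ℂ) : ℂ := EC (PW (wt σ ζ) N) F

/-- Holomorphic and antiholomorphic derivatives. -/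
def hd (s : Z → ℂ) (N : ℕ) (F : (Fin N → Z) → ℂ) (ζ : ℂ) : ℂ :=
  ∑ ω : Fin N → Z, F ω * ∑ j, (∏ i ∈ univ.erase j, (wt σ ζ (ω i) : ℂ)) *
    (s (ω j) / Fintype.card Z)

lemma continuous_wt (a : Z) : Continuous fun ζ => (wt σ ζ a : ℂ) := by
  simp only [wt_cast]
  have : Continuous fun ζ : ℂ => conj ζ := Complex.continuous_conj
  fun_prop

lemma continuous_hd (s : Z → ℂ) (N : ℕ) (F : (Fin N → Z) → ℂ) : Continuous (hd σ s N F) := by
  unfold hd
  refine continuous_finsetSum _ fun ω _ => continuous_const.mul ?_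
  refine continuous_finsetSum _ fun j _ => Continuous.mul ?_ continuous_const
  exact continuous_finsetProd _ fun i _ => continuous_wt σ _

lemma hasFDerivAt_wt (a : Z) (ζ : ℂ) :
    HasFDerivAt (𝕜 := ℝ) (fun ζ => (wt σ ζ a : ℂ))
      (LL (σ a / Fintype.card Z) (conj (σ a) / Fintype.card Z)) ζ := by
  have h : (fun ζ => (wt σ ζ a : ℂ)) = fun ζ => (1 / (Fintype.card Z : ℂ)) +
      LL (σ a / Fintype.card Z) (conj (σ a) / Fintype.card Z) ζ := by
    funext ζ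
    rw [wt_cast, LL_apply]
    ring
  rw [h]
  exact ((LL _ _).hasFDerivAt).const_add _

lemma hasFDerivAt_hh (N : ℕ) (F : (Fin N → Z) → ℂ) (ζ : ℂ) :
    HasFDerivAt (𝕜 := ℝ) (hh σ N F) (LL (hd σ σ N F ζ) (hd σ (fun a => conj (σ a)) N F ζ)) ζ := by
  have h1 : ∀ ω : Fin N → Z, HasFDerivAt (𝕜 := ℝ) (fun ζ => ∏ j, (wt σ ζ (ω j) : ℂ))
      (∑ j, (∏ i ∈ univ.erase j, (wt σ ζ (ω i) : ℂ)) •
        LL (σ (ω j) / Fintype.card Z) (conj (σ (ω j)) / Fintype.card Z)) ζ := by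
    intro ω
    exact HasFDerivAt.finsetProd fun i _ => hasFDerivAt_wt σ (ω i) ζ
  have h2 : HasFDerivAt (𝕜 := ℝ) (fun ζ => ∑ ω : Fin N → Z, F ω * ∏ j, (wt σ ζ (ω j) : ℂ))
      (∑ ω : Fin N → Z, F ω • (∑ j, (∏ i ∈ univ.erase j, (wt σ ζ (ω i) : ℂ)) •
        LL (σ (ω j) / Fintype.card Z) (conj (σ (ω j)) / Fintype.card Z))) ζ := by
    apply HasFDerivAt.fun_sum
    intro ω _
    exact (h1 ω).const_mul (F ω)
  have e1 : hh σ N F = fun ζ => ∑ ω : Fin N → Z, F ω * ∏ j, (wt σ ζ (ω j) : ℂ) := by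
    funext ζ
    unfold hh EC PW
    refine Finset.sum_congr rfl fun ω _ => ?_
    rw [Complex.ofReal_prod, mul_comm]
  rw [e1]
  refine h2.congr_fderiv ?_
  ext1 v
  simp only [_root_.sum_apply, smul_apply, LL_apply, hd,
    smul_eq_mul]
  rw [Finset.sum_mul, Finset.sum_mul, ← Finset.sum_add_distrib]
  refine Finset.sum_congr rfl fun ω _ => ?_
  rw [mul_assoc, mul_assoc, ← mul_add, Finset.sum_mul, Finset.sum_mul, ← Finset.sum_add_distrib]
  congr 1
  refine Finset.sum_congr rfl fun j _ => ?_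
  ring

/-- Bound for the antiholomorphic derivative. -/
lemma norm_hd_le [Nonempty Z] (hσ : ∀ a, ‖σ a‖ ≤ 1) (hσ0 : ∑ a, σ a = 0) {ζ : ℂ}
    (hζ : ‖ζ‖ ≤ 1 / 2) (s : Z → ℂ) (N : ℕ) (F : (Fin N → Z) → ℂ) {κ : ℝ}
    (h : ∀ ω j, ‖∑ a, s a * F (update ω j a)‖ ≤ κ) :
    ‖hd σ s N F ζ‖ ≤ N * κ / Fintype.card Z := by
  have e : hd σ s N F ζ = ∑ j : Fin N, EC (PW (wt σ ζ) N)
      (fun ω => ∑ a, (s a / Fintype.card Z) * F (update ω j a)) := by
    simp only [← sum_erase_eq (wt_sum σ hσ0 ζ)]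
    rw [Finset.sum_comm]
    unfold hd
    refine Finset.sum_congr rfl fun ω _ => ?_
    rw [Finset.mul_sum]
    refine Finset.sum_congr rfl fun j _ => ?_
    ring
  rw [e]
  refine (norm_sum_le _ _).trans ?_
  have h1 : ∀ j ∈ (univ : Finset (Fin N)), ‖EC (PW (wt σ ζ) N)
      (fun ω => ∑ a, (s a / Fintype.card Z) * F (update ω j a))‖ ≤ κ / Fintype.card Z := by
    intro j _
    apply norm_EC_le_of_le (PW_nonneg (wt_nonneg σ hσ hζ) N) (PW_sum (wt_sum σ hσ0 ζ) N)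
    intro ω
    have e2 : ∑ a, (s a / Fintype.card Z) * F (update ω j a)
        = (∑ a, s a * F (update ω j a)) / Fintype.card Z := by
      rw [Finset.sum_div]
      exact Finset.sum_congr rfl fun a _ => by ring
    rw [e2, norm_div, Complex.norm_natCast]
    gcongr
    exact h ω j
  refine (Finset.sum_le_sum h1).trans (le_of_eq ?_)
  rw [Finset.sum_const, Finset.card_univ, Fintype.card_fin, nsmul_eq_mul]
  ring

end

end Pool.Agent.helper68.Gl
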