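import Pool.Agent.helper68.Gl.Reduce

set_option linter.unusedSectionVars false

namespace Pool.Agent.helper68.Gl

open Metric Set Filter Topology
open scoped ComplexConjugate NNReal ENNReal

noncomputable section

variable {X : Type*} [NormedAddCommGroup X] [NormedSpace ℂ X]

/-- Directional derivative bound. -/
lemma fderiv_apply_le {F : X → ℂ} {R : ℝ} (hF : AnalyticOnNhd ℂ F (ball 0 R))
    (hb : ∀ x ∈ ball (0 : X) R, ‖F x‖ ≤ 1) {y v : X} {ρ : ℝ} (hρ : 0 < ρ)
    (h : ∀ t : ℂ, ‖t‖ < ρ → y + t • v ∈ ball (0 : X) R) :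
    ‖fderiv ℂ F y v‖ ≤ 2 / ρ := by
  have hy : y ∈ ball (0 : X) R := by simpa using h 0 (by simpa using hρ)
  have hline : ∀ t : ℂ, HasDerivAt (fun t : ℂ => y + t • v) v t := by
    intro t
    simpa using ((hasDerivAt_id t).smul_const v).const_add y
  have hd : HasDerivAt (fun t : ℂ => F (y + t • v)) (fderiv ℂ F y v) 0 := by
    have h1 : HasFDerivAt F (fderiv ℂ F y) (y + (0 : ℂ) • v) := by
      have := (hF y hy).differentiableAt.hasFDerivAt
      simpa using this
    exact h1.comp_hasDerivAt (0 : ℂ) (hline 0)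
  have h2 : DifferentiableOn ℂ (fun t : ℂ => F (y + t • v)) (ball 0 ρ) := by
    intro t ht
    have ht' : y + t • v ∈ ball (0 : X) R := h t (by simpa using ht)
    exact ((hF _ ht').differentiableAt.comp t
      (hline t).differentiableAt).differentiableWithinAt
  have h3 : MapsTo (fun t : ℂ => F (y + t • v)) (ball 0 ρ)
      (closedBall ((fun t : ℂ => F (y + t • v)) 0) 2) := by
    intro t ht
    rw [mem_closedBall_iff_norm]
    refine (norm_sub_le _ _).trans ?_
    have h4 := hb _ (h t (by simpa using ht))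
    have h5 := hb _ (h 0 (by simpa using hρ))
    simp only at h4 h5 ⊢
    linarith
  have h6 := Complex.norm_deriv_le_div_of_mapsTo_ball h2 h3 hρ
  rwa [hd.deriv] at h6

lemma fderiv_le {F : X → ℂ} {R : ℝ} (hF : AnalyticOnNhd ℂ F (ball 0 R))
    (hb : ∀ x ∈ ball (0 : X) R, ‖F x‖ ≤ 1) {y : X} {ρ : ℝ} (hρ : 0 < ρ)
    (h : ‖y‖ + ρ ≤ R) : ‖fderiv ℂ F y‖ ≤ 2 / ρ := by
  have hsub : ball y ρ ⊆ ball (0 : X) R := by
    apply ball_subset_ball'
    rw [dist_zero_right]; linarith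
  refine Complex.norm_fderiv_le_div_of_mapsTo_ball (R₁ := ρ)
    (fun z hz => (hF z (hsub hz)).differentiableAt.differentiableWithinAt) ?_ hρ
  intro z hz
  rw [mem_closedBall_iff_norm]
  refine (norm_sub_le _ _).trans ?_
  have h4 := hb _ (hsub hz)
  have h5 := hb _ (hsub (mem_ball_self hρ))
  linarith

/-- The derivative is Lipschitz on the unit ball. -/
lemma fderiv_lipschitz {F : X → ℂ} {R : ℝ} (hR : 1 < R) (hF : AnalyticOnNhd ℂ F (ball 0 R))
    (hb : ∀ x ∈ ball (0 : X) R, ‖F x‖ ≤ 1) :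
    ∃ L : ℝ, 0 < L ∧ ∀ y ∈ ball (0 : X) 1, ∀ z ∈ ball (0 : X) 1,
      ‖fderiv ℂ F y - fderiv ℂ F z‖ ≤ L * ‖y - z‖ := by
  set R' : ℝ := (1 + R) / 2 with hR'
  have h1 : 1 < R' := by rw [hR']; linarith
  have h2 : R' < R := by rw [hR']; linarith
  have hd : 0 < R - R' := by linarith
  have hd' : 0 < R' - 1 := by linarith
  set L1 : ℝ := 2 / (R - R') with hL1
  have hL1p : 0 < L1 := by positivity
  have hsub : ball (0 : X) R' ⊆ ball (0 : X) R := ball_subset_ball h2.le
  have hlip : ∀ y ∈ ball (0 : X) R', ∀ z ∈ ball (0 : X) R', ‖F z - F y‖ ≤ L1 * ‖z - y‖ := by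
    intro y hy z hz
    refine (convex_ball (0 : X) R').norm_image_sub_le_of_norm_fderiv_le (𝕜 := ℂ)
      (fun x hx => (hF x (hsub hx)).differentiableAt) (fun x hx => ?_) hy hz
    refine fderiv_le hF hb hd ?_
    rw [mem_ball_zero_iff] at hx
    linarith
  refine ⟨2 * L1 / (R' - 1), by positivity, fun y hy z hz => ?_⟩
  rw [mem_ball_zero_iff] at hy hz
  have hys : ∀ w ∈ ball (0 : X) (R' - 1), y + w ∈ ball (0 : X) R' := by
    intro w hw
    rw [mem_ball_zero_iff] at hw ⊢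
    refine (norm_add_le _ _).trans_lt (by linarith)
  have hzs : ∀ w ∈ ball (0 : X) (R' - 1), z + w ∈ ball (0 : X) R' := by
    intro w hw
    rw [mem_ball_zero_iff] at hw ⊢
    refine (norm_add_le _ _).trans_lt (by linarith)
  have hder : HasFDerivAt (fun w => F (y + w) - F (z + w)) (fderiv ℂ F y - fderiv ℂ F z) 0 := by
    have e1 : HasFDerivAt F (fderiv ℂ F y) (y + 0) := by
      rw [add_zero]
      exact (hF y (by rw [mem_ball_zero_iff]; linarith)).differentiableAt.hasFDerivAt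
    have e2 : HasFDerivAt F (fderiv ℂ F z) (z + 0) := by
      rw [add_zero]
      exact (hF z (by rw [mem_ball_zero_iff]; linarith)).differentiableAt.hasFDerivAt
    have f1 : HasFDerivAt (fun w => F (y + w)) (fderiv ℂ F y) 0 := by
      have := e1.comp (0 : X) ((hasFDerivAt_id (𝕜 := ℂ) (0 : X)).const_add y)
      simpa [Function.comp_def] using this
    have f2 : HasFDerivAt (fun w => F (z + w)) (fderiv ℂ F z) 0 := by
      have := e2.comp (0 : X) ((hasFDerivAt_id (𝕜 := ℂ) (0 : X)).const_add z)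
      simpa [Function.comp_def] using this
    exact f1.sub f2
  have hdiff : DifferentiableOn ℂ (fun w => F (y + w) - F (z + w)) (ball 0 (R' - 1)) := by
    intro w hw
    have e1 := (hF _ (hsub (hys w hw))).differentiableAt
    have e2 := (hF _ (hsub (hzs w hw))).differentiableAt
    have g1 : DifferentiableAt ℂ (fun w => F (y + w)) w :=
      e1.comp w ((differentiableAt_const y).add differentiableAt_id)
    have g2 : DifferentiableAt ℂ (fun w => F (z + w)) w :=
      e2.comp w ((differentiableAt_const z).add differentiableAt_id)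
    exact (g1.sub g2).differentiableWithinAt
  have hmaps : MapsTo (fun w => F (y + w) - F (z + w)) (ball 0 (R' - 1))
      (closedBall ((fun w => F (y + w) - F (z + w)) 0) (2 * L1 * ‖y - z‖)) := by
    intro w hw
    rw [mem_closedBall_iff_norm]
    refine (norm_sub_le _ _).trans ?_
    have g1 := hlip _ (hzs w hw) _ (hys w hw)
    have g2 := hlip _ (hzs 0 (mem_ball_self hd')) _ (hys 0 (mem_ball_self hd'))
    have g3 : y + w - (z + w) = y - z := by abel
    have g4 : y + 0 - (z + 0) = y - z := by abel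
    rw [g3] at g1
    rw [g4] at g2
    simp only at g1 g2 ⊢
    linarith
  have := Complex.norm_fderiv_le_div_of_mapsTo_ball hdiff hmaps hd'
  rw [hder.fderiv] at this
  refine this.trans (le_of_eq ?_)
  ring

/-- Riemann sums of the radial derivative. -/
lemma riemann_sum {F : X → ℂ} {R L : ℝ} (hR : 1 < R) (hF : AnalyticOnNhd ℂ F (ball 0 R))
    (hL0 : 0 ≤ L)
    (hL : ∀ y ∈ ball (0 : X) 1, ∀ z ∈ ball (0 : X) 1,
      ‖fderiv ℂ F y - fderiv ℂ F z‖ ≤ L * ‖y - z‖) {x : X} (hx : x ∈ ball (0 : X) 1)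
    {r₀ δ : ℝ} (hr₀ : 0 ≤ r₀) (hδ : 0 ≤ δ) (n : ℕ) (hn : r₀ + n * δ ≤ 1) :
    ‖∑ j ∈ Finset.range n, (δ : ℂ) * fderiv ℂ F (((r₀ + j * δ : ℝ) : ℂ) • x) x
      - (F (((r₀ + n * δ : ℝ) : ℂ) • x) - F ((r₀ : ℂ) • x))‖ ≤ n * (L * δ ^ 2 * ‖x‖ ^ 2) := by
  induction n with
  | zero => simp
  | succ n ih =>
    have hn' : r₀ + n * δ ≤ 1 := by
      push_cast at hn; nlinarith
    have h1 := ih hn'
    rw [Finset.sum_range_succ]
    set a : ℝ := r₀ + n * δ with ha
    have ha0 : 0 ≤ a := by positivity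
    have hb : r₀ + ((n + 1 : ℕ) : ℝ) * δ = a + δ := by push_cast; ring
    rw [hb] at hn ⊢
    have hxn : ‖x‖ < 1 := by simpa using hx
    have hmem : ∀ s : ℝ, s ∈ Icc a (a + δ) → (s : ℂ) • x ∈ ball (0 : X) 1 := by
      intro s hs
      have hs0 : 0 ≤ s := ha0.trans hs.1
      rw [mem_ball_zero_iff, norm_smul, Complex.norm_real, Real.norm_of_nonneg hs0]
      calc s * ‖x‖ ≤ 1 * ‖x‖ := by
            gcongr
            exact hs.2.trans hn
        _ < 1 := by linarith
    -- the local error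
    have hloc : ‖(δ : ℂ) * fderiv ℂ F ((a : ℂ) • x) x
        - (F (((a + δ : ℝ) : ℂ) • x) - F ((a : ℂ) • x))‖ ≤ L * δ ^ 2 * ‖x‖ ^ 2 := by
      set h : ℝ → ℂ := fun s => F ((s : ℂ) • x) - (s : ℂ) * fderiv ℂ F ((a : ℂ) • x) x with hh
      have hder : ∀ s ∈ Icc a (a + δ), HasDerivWithinAt h
          (fderiv ℂ F ((s : ℂ) • x) x - fderiv ℂ F ((a : ℂ) • x) x) (Icc a (a + δ)) s := by
        intro s hs
        have e1 : HasFDerivAt F (fderiv ℂ F ((s : ℂ) • x)) ((s : ℂ) • x) :=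
          (hF _ (ball_subset_ball hR.le (hmem s hs))).differentiableAt.hasFDerivAt
        have e2 : HasDerivAt (fun s : ℂ => s • x) x (s : ℂ) := by
          simpa using (hasDerivAt_id (s : ℂ)).smul_const x
        have e3 : HasDerivAt (fun s : ℂ => F (s • x)) (fderiv ℂ F ((s : ℂ) • x) x) (s : ℂ) :=
          e1.comp_hasDerivAt (s : ℂ) e2
        have e4 : HasDerivAt (fun s : ℂ => s * fderiv ℂ F ((a : ℂ) • x) x)
            (fderiv ℂ F ((a : ℂ) • x) x) (s : ℂ) := by
          simpa using (hasDerivAt_id (s : ℂ)).mul_const (fderiv ℂ F ((a : ℂ) • x) x)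
        exact (e3.sub e4).comp_ofReal.hasDerivWithinAt
      have hbd : ∀ s ∈ Icc a (a + δ),
          ‖fderiv ℂ F ((s : ℂ) • x) x - fderiv ℂ F ((a : ℂ) • x) x‖ ≤ L * δ * ‖x‖ ^ 2 := by
        intro s hs
        have e1 := hL _ (hmem s hs) _ (hmem a ⟨le_rfl, by linarith⟩)
        have e2 : ‖(s : ℂ) • x - (a : ℂ) • x‖ ≤ δ * ‖x‖ := by
          rw [← sub_smul, norm_smul, ← Complex.ofReal_sub, Complex.norm_real,
            Real.norm_of_nonneg (by linarith [hs.1])]
          gcongr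
          linarith [hs.2]
        rw [← _root_.sub_apply]
        refine (ContinuousLinearMap.le_opNorm _ _).trans ?_
        calc ‖fderiv ℂ F ((s : ℂ) • x) - fderiv ℂ F ((a : ℂ) • x)‖ * ‖x‖
            ≤ (L * (δ * ‖x‖)) * ‖x‖ := by
              gcongr
              exact e1.trans (by gcongr)
          _ = L * δ * ‖x‖ ^ 2 := by ring
      have hmv := (convex_Icc a (a + δ)).norm_image_sub_le_of_norm_hasDerivWithin_le hder hbd
        (left_mem_Icc.2 (by linarith : a ≤ a + δ)) (right_mem_Icc.2 (by linarith : a ≤ a + δ))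
      have e : (δ : ℂ) * fderiv ℂ F ((a : ℂ) • x) x
          - (F (((a + δ : ℝ) : ℂ) • x) - F ((a : ℂ) • x)) = -(h (a + δ) - h a) := by
        simp only [hh]; push_cast; ring
      rw [e, norm_neg]
      refine hmv.trans (le_of_eq ?_)
      rw [Real.norm_eq_abs, add_sub_cancel_left, abs_of_nonneg hδ]
      ring
    have e : ∑ j ∈ Finset.range n, (δ : ℂ) * fderiv ℂ F (((r₀ + j * δ : ℝ) : ℂ) • x) x
        + (δ : ℂ) * fderiv ℂ F ((a : ℂ) • x) x
        - (F (((a + δ : ℝ) : ℂ) • x) - F ((r₀ : ℂ) • x))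
        = (∑ j ∈ Finset.range n, (δ : ℂ) * fderiv ℂ F (((r₀ + j * δ : ℝ) : ℂ) • x) x
            - (F ((a : ℂ) • x) - F ((r₀ : ℂ) • x)))
          + ((δ : ℂ) * fderiv ℂ F ((a : ℂ) • x) x
            - (F (((a + δ : ℝ) : ℂ) • x) - F ((a : ℂ) • x))) := by ring
    rw [e]
    refine (norm_add_le _ _).trans ?_
    have e9 : ((n + 1 : ℕ) : ℝ) * (L * δ ^ 2 * ‖x‖ ^ 2)
        = n * (L * δ ^ 2 * ‖x‖ ^ 2) + L * δ ^ 2 * ‖x‖ ^ 2 := by push_cast; ring
    rw [e9]
    exact add_le_add h1 hloc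

/-- Telescoping bound with square roots. -/
lemma sum_sqrt_le {r₀ δ : ℝ} (hδ : 0 ≤ δ) (n : ℕ) (hn : r₀ + n * δ ≤ 1) :
    ∑ j ∈ Finset.range n, δ / √(1 - (r₀ + j * δ)) ≤ 2 * √(1 - r₀) - 2 * √(1 - (r₀ + n * δ)) := by
  induction n with
  | zero => simp
  | succ n ih =>
    have hn' : r₀ + n * δ ≤ 1 := by
      push_cast at hn; nlinarith
    have h1 := ih hn'
    rw [Finset.sum_range_succ]
    have hb : r₀ + ((n + 1 : ℕ) : ℝ) * δ = (r₀ + n * δ) + δ := by push_cast; ring
    rw [hb] at hn ⊢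
    set a : ℝ := 1 - (r₀ + n * δ) with ha
    have ha0 : 0 ≤ a := by linarith
    have e1 : 1 - (r₀ + n * δ + δ) = a - δ := by rw [ha]; ring
    rw [e1]
    have haδ : 0 ≤ a - δ := by linarith
    have key : δ / √a ≤ 2 * (√a - √(a - δ)) := by
      rcases eq_or_lt_of_le ha0 with h | h
      · rw [← h]
        have : δ = 0 := by linarith
        simp [this]
      · have h2 : 0 < √a := Real.sqrt_pos.2 h
        rw [div_le_iff₀ h2]
        have h3 : √a ^ 2 = a := Real.sq_sqrt ha0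
        have h4 : √(a - δ) ^ 2 = a - δ := Real.sq_sqrt haδ
        have h5 : √(a - δ) ≤ √a := Real.sqrt_le_sqrt (by linarith)
        nlinarith [Real.sqrt_nonneg (a - δ)]
    linarith

end

end Pool.Agent.helper68.Gl
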