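import Pool.Agent.helper68.Gl.Defs

set_option linter.unusedSectionVars false

namespace Pool.Agent.helper68.Gl

open Metric Set Filter Topology
open scoped ComplexConjugate

noncomputable section

variable {X : Type*} [NormedAddCommGroup X] [NormedSpace ℂ X]

/-- Element of `A_u(B)` from a function on the whole space. -/
def mkAu (f : X → ℂ) (h : Mem f) : Au X :=
  ⟨fun x => f x, (holOnBall_iff (f := f)).2 h.1, uniformContinuousOn_iff_restrict.1 h.2⟩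

@[simp] lemma mkAu_apply (f : X → ℂ) (h : Mem f) (x : ball (0 : X) 1) :
    (mkAu f h : ball (0 : X) 1 → ℂ) x = f x := rfl

lemma mem_ext (f : Au X) : Mem (extZ (f : ball (0 : X) 1 → ℂ)) := by
  refine ⟨f.2.1, ?_⟩
  rw [uniformContinuousOn_iff_restrict]
  have : (ball (0 : X) 1).domRestrict (extZ (f : ball (0 : X) 1 → ℂ))
      = (f : ball (0 : X) 1 → ℂ) := by
    funext x
    simp [domRestrict, extZ_coe]
  rw [this]
  exact f.2.2

/-- Characters are bounded by the sup norm. -/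
lemma char_bound (φ : Au X →ₐ[ℂ] ℂ) (f : Au X) {M : ℝ}
    (h : ∀ x, ‖(f : ball (0 : X) 1 → ℂ) x‖ ≤ M) : ‖φ f‖ ≤ M := by
  by_contra hcon
  push Not at hcon
  set l : ℂ := φ f with hl
  have hc : 0 < ‖l‖ - M := by linarith
  set F : X → ℂ := extZ (f : ball (0 : X) 1 → ℂ) with hF
  have hFm : Mem F := mem_ext f
  have hlow : ∀ x ∈ ball (0 : X) 1, ‖l‖ - M ≤ ‖l - F x‖ := by
    intro x hx
    have h1 : ‖F x‖ ≤ M := by
      rw [hF, extZ_of_mem hx]; exact h _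
    have h2 := norm_sub_norm_le l (F x)
    linarith
  have hne : ∀ x ∈ ball (0 : X) 1, l - F x ≠ 0 := by
    intro x hx h0
    have := hlow x hx
    rw [h0, norm_zero] at this
    linarith
  have hG : Mem (fun x => (l - F x)⁻¹) := by
    refine ⟨fun x hx => ?_, ?_⟩
    · exact (analyticAt_const.sub (hFm.1 x hx)).inv (hne x hx)
    · rw [Metric.uniformContinuousOn_iff]
      intro ε hε
      obtain ⟨δ, hδ, hd⟩ := Metric.uniformContinuousOn_iff.1 hFm.2 (ε * (‖l‖ - M) ^ 2)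
        (by positivity)
      refine ⟨δ, hδ, fun x hx y hy hxy => ?_⟩
      have h1 := hd x hx y hy hxy
      rw [dist_eq_norm] at h1 ⊢
      have e : (l - F x)⁻¹ - (l - F y)⁻¹ = (F x - F y) * ((l - F x)⁻¹ * (l - F y)⁻¹) := by
        have := hne x hx
        have := hne y hy
        field_simp
        ring
      rw [e, norm_mul, norm_mul, norm_inv, norm_inv]
      have b1 := hlow x hx
      have b2 := hlow y hy
      have c1 : ‖l - F x‖⁻¹ ≤ (‖l‖ - M)⁻¹ := by gcongr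
      have c2 : ‖l - F y‖⁻¹ ≤ (‖l‖ - M)⁻¹ := by gcongr
      calc ‖F x - F y‖ * (‖l - F x‖⁻¹ * ‖l - F y‖⁻¹)
          ≤ ‖F x - F y‖ * ((‖l‖ - M)⁻¹ * (‖l‖ - M)⁻¹) := by gcongr
        _ < (ε * (‖l‖ - M) ^ 2) * ((‖l‖ - M)⁻¹ * (‖l‖ - M)⁻¹) := by gcongr
        _ = ε := by field_simp
  have key : (algebraMap ℂ (Au X) l - f) * mkAu _ hG = 1 := by
    apply Subtype.ext
    funext x
    have h1 := hne x x.2
    have h2 : F x = (f : ball (0 : X) 1 → ℂ) x := by rw [hF, extZ_coe]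
    simp only [MulMemClass.coe_mul, Pi.mul_apply, mkAu_apply, AddSubgroupClass.coe_sub,
      Pi.sub_apply, OneMemClass.coe_one, Pi.one_apply]
    have h3 : ((algebraMap ℂ (Au X) l : Au X) : ball (0 : X) 1 → ℂ) x = l := rfl
    rw [h3, ← h2]
    exact mul_inv_cancel₀ h1
  have := congrArg φ key
  rw [map_mul, map_sub, map_one, AlgHom.commutes] at this
  simp only [Algebra.algebraMap_self, RingHom.id_apply] at this
  rw [← hl, sub_self, zero_mul] at this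
  exact zero_ne_one this

lemma char_sub_bound (φ : Au X →ₐ[ℂ] ℂ) (f g : Au X) {M : ℝ}
    (h : ∀ x, ‖(f : ball (0 : X) 1 → ℂ) x - (g : ball (0 : X) 1 → ℂ) x‖ ≤ M) :
    ‖φ f - φ g‖ ≤ M := by
  rw [← map_sub]
  exact char_bound φ _ (fun x => by simpa using h x)

/-- Elementary identity behind the pseudo-hyperbolic distance. -/
lemma pseudo_identity (a b : ℂ) :
    ‖1 - conj a * b‖ ^ 2 = ‖b - a‖ ^ 2 + (1 - ‖a‖ ^ 2) * (1 - ‖b‖ ^ 2) := by
  simp only [← Complex.normSq_eq_norm_sq, Complex.normSq_apply]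
  simp
  ring

/-- The Möbius transform of an element of norm at most one. -/
lemma moebius (f : Au X) (hf : ∀ x, ‖(f : ball (0 : X) 1 → ℂ) x‖ ≤ 1) (a : ℂ) (ha : ‖a‖ < 1) :
    ∃ g : Au X, (∀ x, ‖(g : ball (0 : X) 1 → ℂ) x‖ ≤ 1) ∧
      (∀ x, (g : ball (0 : X) 1 → ℂ) x * (1 - conj a * (f : ball (0 : X) 1 → ℂ) x)
        = (f : ball (0 : X) 1 → ℂ) x - a) ∧
      ∀ χ : Au X →ₐ[ℂ] ℂ, χ g * (1 - conj a * χ f) = χ f - a := by
  set F : X → ℂ := extZ (f : ball (0 : X) 1 → ℂ) with hF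
  have hFm : Mem F := mem_ext f
  have hF1 : ∀ x ∈ ball (0 : X) 1, ‖F x‖ ≤ 1 := by
    intro x hx
    rw [hF, extZ_of_mem hx]; exact hf _
  have hlow : ∀ x ∈ ball (0 : X) 1, 1 - ‖a‖ ≤ ‖1 - conj a * F x‖ := by
    intro x hx
    have h2 := norm_sub_norm_le (1 : ℂ) (conj a * F x)
    rw [norm_one, norm_mul, RCLike.norm_conj] at h2
    have h3 : ‖a‖ * ‖F x‖ ≤ ‖a‖ * 1 := by
      gcongr
      exact hF1 x hx
    linarith
  have ha' : 0 < 1 - ‖a‖ := by linarith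
  have hne : ∀ x ∈ ball (0 : X) 1, 1 - conj a * F x ≠ 0 := by
    intro x hx h0
    have := hlow x hx
    rw [h0, norm_zero] at this
    linarith
  have hG : Mem (fun x => (F x - a) / (1 - conj a * F x)) := by
    refine ⟨fun x hx => ?_, ?_⟩
    · exact ((hFm.1 x hx).sub analyticAt_const).div
        (analyticAt_const.sub (analyticAt_const.mul (hFm.1 x hx))) (hne x hx)
    · rw [Metric.uniformContinuousOn_iff]
      intro ε hε
      obtain ⟨δ, hδ, hd⟩ := Metric.uniformContinuousOn_iff.1 hFm.2 (ε * (1 - ‖a‖) ^ 2)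
        (by positivity)
      refine ⟨δ, hδ, fun x hx y hy hxy => ?_⟩
      have h1 := hd x hx y hy hxy
      rw [dist_eq_norm] at h1 ⊢
      have e : (F x - a) / (1 - conj a * F x) - (F y - a) / (1 - conj a * F y)
          = (F x - F y) * (1 - conj a * a) * ((1 - conj a * F x)⁻¹ * (1 - conj a * F y)⁻¹) := by
        rw [div_sub_div _ _ (hne x hx) (hne y hy), div_eq_mul_inv, mul_inv]
        ring
      rw [e, norm_mul, norm_mul, norm_mul, norm_inv, norm_inv]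
      have b1 := hlow x hx
      have b2 := hlow y hy
      have c1 : ‖1 - conj a * F x‖⁻¹ ≤ (1 - ‖a‖)⁻¹ := by gcongr
      have c2 : ‖1 - conj a * F y‖⁻¹ ≤ (1 - ‖a‖)⁻¹ := by gcongr
      have c3 : ‖1 - conj a * a‖ ≤ 1 := by
        have : (1 : ℂ) - conj a * a = ((1 - ‖a‖ ^ 2 : ℝ) : ℂ) := by
          rw [mul_comm, Complex.mul_conj, Complex.normSq_eq_norm_sq]; push_cast; ring
        rw [this, Complex.norm_real, Real.norm_of_nonneg (by nlinarith [norm_nonneg a])]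
        nlinarith [norm_nonneg a]
      calc ‖F x - F y‖ * ‖1 - conj a * a‖ * (‖1 - conj a * F x‖⁻¹ * ‖1 - conj a * F y‖⁻¹)
          ≤ ‖F x - F y‖ * 1 * ((1 - ‖a‖)⁻¹ * (1 - ‖a‖)⁻¹) := by gcongr
        _ < (ε * (1 - ‖a‖) ^ 2) * 1 * ((1 - ‖a‖)⁻¹ * (1 - ‖a‖)⁻¹) := by gcongr
        _ = ε := by field_simp
  have hpt : ∀ x : ball (0 : X) 1, (mkAu _ hG : ball (0 : X) 1 → ℂ) x *
      (1 - conj a * (f : ball (0 : X) 1 → ℂ) x) = (f : ball (0 : X) 1 → ℂ) x - a := by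
    intro x
    have h2 : F x = (f : ball (0 : X) 1 → ℂ) x := by rw [hF, extZ_coe]
    rw [mkAu_apply, ← h2]
    exact div_mul_cancel₀ _ (hne x x.2)
  refine ⟨mkAu _ hG, fun x => ?_, hpt, fun χ => ?_⟩
  · rw [mkAu_apply, norm_div]
    have h1 := hlow x x.2
    rw [div_le_one (by linarith)]
    have h2 := pseudo_identity a (F x)
    have h3 := hF1 x x.2
    have h4 : 0 ≤ (1 - ‖a‖ ^ 2) * (1 - ‖F x‖ ^ 2) := by
      apply mul_nonneg
      · nlinarith [norm_nonneg a]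
      · nlinarith [norm_nonneg (F x)]
    exact (pow_le_pow_iff_left₀ (norm_nonneg _) (norm_nonneg _) two_ne_zero).1 (by linarith)
  · have key : mkAu _ hG * (1 - algebraMap ℂ (Au X) (conj a) * f)
        = f - algebraMap ℂ (Au X) a := by
      apply Subtype.ext
      funext x
      exact hpt x
    have := congrArg χ key
    rw [map_mul, map_sub, map_sub, map_one, map_mul, AlgHom.commutes, AlgHom.commutes] at this
    simpa using this


lemma exists_unimod (z : ℂ) : ∃ θ : ℂ, ‖θ‖ = 1 ∧ θ * z = (‖z‖ : ℂ) := by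
  by_cases hz : z = 0
  · exact ⟨1, by simp, by simp [hz]⟩
  · refine ⟨conj z / ‖z‖, ?_, ?_⟩
    · rw [norm_div, RCLike.norm_conj, Complex.norm_real, norm_norm]
      exact div_self (norm_ne_zero_iff.2 hz)
    · have h : (‖z‖ : ℂ) ≠ 0 := by exact_mod_cast norm_ne_zero_iff.2 hz
      rw [div_mul_eq_mul_div, mul_comm, Complex.mul_conj, Complex.normSq_eq_norm_sq]
      field_simp
      push_cast
      ring

/-- Scalar multiples of elements of norm at most one. -/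
lemma smul_bound {f : Au X} (hf : ∀ x, ‖(f : ball (0 : X) 1 → ℂ) x‖ ≤ 1) {c : ℂ} {r : ℝ}
    (hc : ‖c‖ ≤ r) : ∀ x, ‖((c • f : Au X) : ball (0 : X) 1 → ℂ) x‖ ≤ r := by
  intro x
  have : ((c • f : Au X) : ball (0 : X) 1 → ℂ) x = c * (f : ball (0 : X) 1 → ℂ) x := rfl
  rw [this, norm_mul]
  calc ‖c‖ * ‖(f : ball (0 : X) 1 → ℂ) x‖ ≤ r * 1 := by
        gcongr
        · exact (norm_nonneg _).trans hc
        · exact hf x
    _ = r := mul_one r

/-- Two characters in the same part are at pseudo-hyperbolic distance less than one. -/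
lemma samePart_rho {φ ψ : Au X →ₐ[ℂ] ℂ} (h : SamePart φ ψ) :
    ∃ ρ : ℝ, 0 ≤ ρ ∧ ρ < 1 ∧ ∀ f : Au X, (∀ x, ‖(f : ball (0 : X) 1 → ℂ) x‖ ≤ 1) →
      ‖φ f - ψ f‖ ≤ ρ * ‖1 - conj (ψ f) * φ f‖ := by
  obtain ⟨c, hc, h⟩ := h
  have hc0 : 0 ≤ c := by
    have := h 0 (fun x => by simp)
    simpa using this
  set ρ : ℝ := c / (1 + c ^ 2 / 4) with hρ
  have hpos : (0 : ℝ) < 1 + c ^ 2 / 4 := by positivity
  have hρ1 : ρ < 1 := by
    rw [hρ, div_lt_one hpos]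
    nlinarith
  have hρ0 : 0 ≤ ρ := by positivity
  -- step 1: functions vanishing at ψ
  have step1 : ∀ g : Au X, (∀ x, ‖(g : ball (0 : X) 1 → ℂ) x‖ ≤ 1) → ψ g = 0 →
      ‖φ g‖ ≤ ρ := by
    intro g hg hψ
    obtain ⟨θ, hθ, hθφ⟩ := exists_unimod (φ g)
    set s : ℝ := ‖φ g‖ with hs
    have hs1 : s ≤ 1 := char_bound φ g hg
    have hg' := smul_bound (r := 1) hg hθ.le
    have ha : ‖((c / 2 : ℝ) : ℂ)‖ < 1 := by
      rw [Complex.norm_real, Real.norm_of_nonneg (by positivity)]; linarith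
    obtain ⟨m, hm, -, hmχ⟩ := moebius (θ • g) hg' ((c / 2 : ℝ) : ℂ) ha
    have e1 := hmχ φ
    have e2 := hmχ ψ
    rw [map_smul, smul_eq_mul, hθφ, Complex.conj_ofReal] at e1
    rw [map_smul, hψ, smul_zero, mul_zero, sub_zero, mul_one, zero_sub] at e2
    have h3 := h m hm
    rw [e2] at h3
    have hden : 0 < 1 - c / 2 * s := by nlinarith [norm_nonneg (φ g)]
    have e3 : φ m - ψ m = ((s * (1 - c ^ 2 / 4) / (1 - c / 2 * s) : ℝ) : ℂ) := by
      have hne : (1 : ℂ) - ((c / 2 : ℝ) : ℂ) * (s : ℂ) ≠ 0 := by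
        rw [← Complex.ofReal_mul, ← Complex.ofReal_one, ← Complex.ofReal_sub]
        exact_mod_cast hden.ne'
      rw [e2, Complex.ofReal_div (s * (1 - c ^ 2 / 4)) (1 - c / 2 * s),
        eq_div_iff (by exact_mod_cast hden.ne')]
      have : (φ m - -((c / 2 : ℝ) : ℂ)) * ((1 - c / 2 * s : ℝ) : ℂ)
          = φ m * (1 - ((c / 2 : ℝ) : ℂ) * (s : ℂ))
            + ((c / 2 : ℝ) : ℂ) * (1 - ((c / 2 : ℝ) : ℂ) * (s : ℂ)) := by
        push_cast; ring
      rw [this, e1]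
      push_cast; ring
    rw [← e2, e3, Complex.norm_real, Real.norm_eq_abs] at h3
    have h4 := (le_abs_self _).trans h3
    rw [div_le_iff₀ hden] at h4
    rw [hρ, le_div_iff₀ hpos]
    nlinarith
  refine ⟨ρ, hρ0, hρ1, fun f hf => ?_⟩
  -- step 2: general functions, by scaling and Möbius
  have hψ1 : ‖ψ f‖ ≤ 1 := char_bound ψ f hf
  have key : ∀ s ∈ Set.Ioo (0 : ℝ) 1,
      s * ‖φ f - ψ f‖ ≤ ρ * ‖1 - (s : ℂ) ^ 2 * (conj (ψ f) * φ f)‖ := by
    intro s hs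
    have hs' : ‖(s : ℂ)‖ ≤ 1 := by
      rw [Complex.norm_real, Real.norm_of_nonneg hs.1.le]; exact hs.2.le
    have hg' := smul_bound (r := 1) hf hs'
    have ha : ‖(s : ℂ) * ψ f‖ < 1 := by
      rw [norm_mul, Complex.norm_real, Real.norm_of_nonneg hs.1.le]
      calc s * ‖ψ f‖ ≤ s * 1 := by
            have := hs.1
            gcongr
        _ < 1 := by linarith [hs.2]
    obtain ⟨m, hm, -, hmχ⟩ := moebius ((s : ℂ) • f) hg' ((s : ℂ) * ψ f) ha
    have e1 := hmχ φ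
    have e2 := hmχ ψ
    rw [map_smul, smul_eq_mul] at e1 e2
    rw [sub_self] at e2
    have hne : (1 : ℂ) - conj ((s : ℂ) * ψ f) * ((s : ℂ) * ψ f) ≠ 0 := by
      intro h0
      have h1 : conj ((s : ℂ) * ψ f) * ((s : ℂ) * ψ f) = 1 := (sub_eq_zero.1 h0).symm
      have h2 := congrArg norm h1
      rw [norm_mul, RCLike.norm_conj, norm_one] at h2
      nlinarith [norm_nonneg ((s : ℂ) * ψ f)]
    have h0 : ψ m = 0 := by
      rcases mul_eq_zero.1 e2 with h | h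
      · exact h
      · exact absurd h hne
    have h1 := step1 m hm h0
    have h2 := congrArg norm e1
    rw [norm_mul, ← mul_sub, norm_mul, Complex.norm_real, Real.norm_of_nonneg hs.1.le] at h2
    rw [← h2]
    have h3 : (1 : ℂ) - conj ((s : ℂ) * ψ f) * ((s : ℂ) * φ f)
        = 1 - (s : ℂ) ^ 2 * (conj (ψ f) * φ f) := by
      rw [map_mul, Complex.conj_ofReal]; ring
    rw [h3]
    gcongr
  have hl : Tendsto (fun s : ℝ => s * ‖φ f - ψ f‖) (𝓝[<] 1) (𝓝 (1 * ‖φ f - ψ f‖)) :=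
    ((continuous_id.mul continuous_const).tendsto 1).mono_left nhdsWithin_le_nhds
  have hr : Tendsto (fun s : ℝ => ρ * ‖1 - (s : ℂ) ^ 2 * (conj (ψ f) * φ f)‖) (𝓝[<] 1)
      (𝓝 (ρ * ‖1 - ((1 : ℝ) : ℂ) ^ 2 * (conj (ψ f) * φ f)‖)) := by
    refine Tendsto.mono_left ?_ nhdsWithin_le_nhds
    exact Continuous.tendsto (by fun_prop) 1
  have hev : ∀ᶠ s in 𝓝[<] (1 : ℝ), s ∈ Set.Ioo (0 : ℝ) 1 := Ioo_mem_nhdsLT one_pos
  have := le_of_tendsto_of_tendsto hl hr (hev.mono key)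
  simpa using this

/-- Values near one are transferred within a part. -/
lemma samePart_transfer {φ ψ : Au X →ₐ[ℂ] ℂ} {ρ : ℝ} (hρ0 : 0 ≤ ρ) (hρ : ρ < 1)
    (h : ∀ f : Au X, (∀ x, ‖(f : ball (0 : X) 1 → ℂ) x‖ ≤ 1) →
      ‖φ f - ψ f‖ ≤ ρ * ‖1 - conj (ψ f) * φ f‖)
    (f : Au X) (hf : ∀ x, ‖(f : ball (0 : X) 1 → ℂ) x‖ ≤ 1) :
    ‖1 - ψ f‖ ≤ 2 / (1 - ρ) * ‖1 - φ f‖ := by
  have h1 := h f hf
  have hψ1 : ‖ψ f‖ ≤ 1 := char_bound ψ f hf
  have h2 : ‖1 - ψ f‖ ≤ ‖1 - φ f‖ + ‖φ f - ψ f‖ := by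
    have := norm_add_le (1 - φ f) (φ f - ψ f)
    simpa using this
  have h3 : ‖1 - conj (ψ f) * φ f‖ ≤ ‖1 - ψ f‖ + ‖1 - φ f‖ := by
    have e : 1 - conj (ψ f) * φ f = conj (1 - ψ f) + conj (ψ f) * (1 - φ f) := by
      rw [map_sub, map_one]; ring
    rw [e]
    refine (norm_add_le _ _).trans ?_
    rw [RCLike.norm_conj, norm_mul, RCLike.norm_conj]
    have : ‖ψ f‖ * ‖1 - φ f‖ ≤ 1 * ‖1 - φ f‖ := by gcongr
    linarith
  have h4 : ρ * ‖1 - conj (ψ f) * φ f‖ ≤ ρ * (‖1 - ψ f‖ + ‖1 - φ f‖) := by gcongr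
  have h5 : ρ * ‖1 - φ f‖ ≤ 1 * ‖1 - φ f‖ := by gcongr
  rw [div_mul_eq_mul_div, le_div_iff₀ (by linarith)]
  nlinarith

/-- If a character is not in the part of the evaluation at the centre, then there are norm one
functions vanishing at the centre on which the character is close to one. -/
lemma exists_peak {φ : Au X →ₐ[ℂ] ℂ} (h : ¬ SamePart φ (delta0 X)) {τ : ℝ} (hτ : 0 < τ) :
    ∃ f : Au X, (∀ x, ‖(f : ball (0 : X) 1 → ℂ) x‖ ≤ 1) ∧
      (f : ball (0 : X) 1 → ℂ) ⟨0, mem_ball_self one_pos⟩ = 0 ∧ ‖φ f - 1‖ ≤ τ := by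
  unfold SamePart at h
  push Not at h
  set κ : ℝ := min 1 (τ / 4) with hκ
  have hκ0 : 0 < κ := lt_min one_pos (by positivity)
  have hκ1 : κ ≤ 1 := min_le_left _ _
  have hκ2 : κ ≤ τ / 4 := min_le_right _ _
  obtain ⟨f, hf, hf2⟩ := h (2 - κ) (by linarith)
  have hd0 : ∀ g : Au X, delta0 X g = (g : ball (0 : X) 1 → ℂ) ⟨0, mem_ball_self one_pos⟩ :=
    fun g => rfl
  -- scale
  set D : ℝ := ‖φ f - delta0 X f‖ with hD
  have hDpos : 0 < D := by linarith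
  have hD0 : 0 < 2 - κ := by linarith
  set s : ℝ := (2 - κ) / D with hs
  have hs0 : 0 < s := by positivity
  have hs1 : s < 1 := by rw [hs, div_lt_one hDpos]; exact hf2
  have hsn : ‖(s : ℂ)‖ ≤ 1 := by
    rw [Complex.norm_real, Real.norm_of_nonneg hs0.le]; exact hs1.le
  have hg' := smul_bound (r := 1) hf hsn
  set a : ℂ := delta0 X ((s : ℂ) • f) with ha
  have ha1 : ‖a‖ < 1 := by
    rw [ha, map_smul, smul_eq_mul, norm_mul, Complex.norm_real, Real.norm_of_nonneg hs0.le]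
    calc s * ‖delta0 X f‖ ≤ s * 1 := by
          gcongr
          exact char_bound (delta0 X) f hf
      _ < 1 := by linarith
  obtain ⟨m, hm, -, hmχ⟩ := moebius ((s : ℂ) • f) hg' a ha1
  set b : ℂ := φ ((s : ℂ) • f) with hb
  have hb1 : ‖b‖ ≤ 1 := char_bound φ _ hg'
  have hba : ‖b - a‖ = 2 - κ := by
    rw [hb, ha, map_smul, map_smul, ← smul_sub, norm_smul, Complex.norm_real,
      Real.norm_of_nonneg hs0.le, ← hD, hs]
    field_simp
  have hm0 : delta0 X m = 0 := by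
    have e2 := hmχ (delta0 X)
    rw [← ha, sub_self] at e2
    rcases mul_eq_zero.1 e2 with h | h
    · exact h
    · exfalso
      have h1 : conj a * a = 1 := (sub_eq_zero.1 h).symm
      have h2 := congrArg norm h1
      rw [norm_mul, RCLike.norm_conj, norm_one] at h2
      nlinarith [norm_nonneg a]
  have e1 := hmχ φ
  rw [← hb] at e1
  have h2 := congrArg norm e1
  rw [norm_mul, hba] at h2
  have h3 := pseudo_identity a b
  rw [hba] at h3
  have ha2 : 1 - κ ≤ ‖a‖ := by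
    have := norm_sub_le b a
    rw [hba] at this
    linarith
  have hb2 : 1 - κ ≤ ‖b‖ := by
    have := norm_sub_le b a
    rw [hba] at this
    linarith
  have hA : 1 - ‖a‖ ^ 2 ≤ 2 * κ := by nlinarith [norm_nonneg a]
  have hB : 1 - ‖b‖ ^ 2 ≤ 2 * κ := by nlinarith [norm_nonneg b]
  have hA0 : 0 ≤ 1 - ‖a‖ ^ 2 := by nlinarith [norm_nonneg a]
  have hB0 : 0 ≤ 1 - ‖b‖ ^ 2 := by nlinarith [norm_nonneg b]
  have hAB : (1 - ‖a‖ ^ 2) * (1 - ‖b‖ ^ 2) ≤ 2 * κ * (2 * κ) :=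
    mul_le_mul hA hB hB0 (by positivity)
  have hAB0 : 0 ≤ (1 - ‖a‖ ^ 2) * (1 - ‖b‖ ^ 2) := mul_nonneg hA0 hB0
  have hφm1 : ‖φ m‖ ≤ 1 := char_bound φ m hm
  have hbig : 1 ≤ ‖1 - conj a * b‖ ^ 2 := by
    rw [h3]
    have : (1 : ℝ) ≤ (2 - κ) ^ 2 := by nlinarith
    linarith
  have hmain : 1 - ‖φ m‖ ≤ 4 * κ ^ 2 := by
    have h5 : ‖φ m‖ ^ 2 * ‖1 - conj a * b‖ ^ 2 = (2 - κ) ^ 2 := by
      rw [← h2]; ring
    have h6 : (1 - ‖φ m‖ ^ 2) * ‖1 - conj a * b‖ ^ 2 = (1 - ‖a‖ ^ 2) * (1 - ‖b‖ ^ 2) := by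
      rw [sub_mul, h5, one_mul, h3]; ring
    have h7 : 0 ≤ 1 - ‖φ m‖ ^ 2 := by nlinarith [norm_nonneg (φ m)]
    have h8 : 1 - ‖φ m‖ ^ 2 ≤ (1 - ‖φ m‖ ^ 2) * ‖1 - conj a * b‖ ^ 2 :=
      le_mul_of_one_le_right h7 hbig
    have h9 : ‖φ m‖ ^ 2 ≤ ‖φ m‖ := by
      rw [sq]
      exact mul_le_of_le_one_left (norm_nonneg _) hφm1
    rw [h6] at h8
    have h10 : 2 * κ * (2 * κ) = 4 * κ ^ 2 := by ring
    linarith
  obtain ⟨θ, hθ, hθφ⟩ := exists_unimod (φ m)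
  refine ⟨θ • m, smul_bound hm hθ.le, ?_, ?_⟩
  · have : ((θ • m : Au X) : ball (0 : X) 1 → ℂ) ⟨0, mem_ball_self one_pos⟩
        = θ * delta0 X m := rfl
    rw [this, hm0, mul_zero]
  · rw [map_smul, smul_eq_mul, hθφ]
    have : ((‖φ m‖ : ℂ) - 1) = ((‖φ m‖ - 1 : ℝ) : ℂ) := by push_cast; ring
    rw [this, Complex.norm_real, Real.norm_eq_abs, abs_sub_comm, abs_of_nonneg (by linarith)]
    have h11 : κ ^ 2 ≤ κ * 1 := by rw [sq]; gcongr
    linarith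

end

end Pool.Agent.helper68.Gl
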