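import Pool.Agent.helper68.Gl.Pompeiu

/-!
# Blocks of coordinates in `ℓ_p`
-/

set_option linter.unusedSectionVars false

namespace Pool.Agent.helper68.Gl

open Finset Function
open scoped ComplexConjugate ENNReal

noncomputable section

/-- Complex `ℓ_p`. -/
abbrev LP (p : ℝ≥0∞) := lp (fun _ : ℕ => ℂ) p

variable {p : ℝ≥0∞} [Fact (1 ≤ p)]

/-- Numbering of the coordinates. -/
def enc (N j i : ℕ) : ℕ := Nat.pair N (Nat.pair j i)

lemma enc_inj {N j i N' j' i' : ℕ} (h : enc N j i = enc N' j' i') : N = N' ∧ j = j' ∧ i = i' := by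
  unfold enc at h
  obtain ⟨h1, h2⟩ := Nat.pair_eq_pair.1 h
  obtain ⟨h3, h4⟩ := Nat.pair_eq_pair.1 h2
  exact ⟨h1, h3, h4⟩

lemma sum_single_eq {ι : Type*} (s : Finset ι) (c : ι → ℕ) (hc : Set.InjOn c s)
    (y : ι → ℂ) : ∃ Y : ℕ → ℂ, (∀ k ∈ s, Y (c k) = y k) ∧
      ∑ k ∈ s, (lp.single p (c k) (y k) : LP p) = ∑ m ∈ s.image c, lp.single p m (Y m) := by
  classical
  by_cases hs : Nonempty ι
  · refine ⟨fun m => y (Function.invFunOn c s m), fun k hk => ?_, ?_⟩
    · have := hc.leftInvOn_invFunOn hk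
      exact congrArg y this
    · rw [Finset.sum_image hc]
      refine Finset.sum_congr rfl fun k hk => ?_
      have := hc.leftInvOn_invFunOn hk
      exact congrArg (fun a => (lp.single p (c k) (y a) : LP p)) this.symm
  · have hse : s = ∅ := by
      rw [Finset.eq_empty_iff_forall_notMem]
      intro k _
      exact hs ⟨k⟩
    subst hse
    exact ⟨0, by simp, by simp⟩

lemma norm_comb (hp : 0 < p.toReal) {ι : Type*} (s : Finset ι) (c : ι → ℕ) (hc : Set.InjOn c s)
    (y : ι → ℂ) : ‖∑ k ∈ s, (lp.single p (c k) (y k) : LP p)‖ ^ p.toReal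
      = ∑ k ∈ s, ‖y k‖ ^ p.toReal := by
  classical
  obtain ⟨Y, hY, e⟩ := sum_single_eq (p := p) s c hc y
  rw [e, lp.norm_sum_single hp, Finset.sum_image hc]
  exact Finset.sum_congr rfl fun k hk => by rw [hY k hk]

lemma sum_rpow_le (hp : 0 < p.toReal) {ι : Type*} (s : Finset ι) (c : ι → ℕ)
    (hc : Set.InjOn c s) (x : LP p) :
    ∑ k ∈ s, ‖x (c k)‖ ^ p.toReal ≤ ‖x‖ ^ p.toReal := by
  classical
  have := lp.sum_rpow_le_norm_rpow hp x (s.image c)
  rwa [Finset.sum_image hc] at this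

lemma apply_comb {ι : Type*} (s : Finset ι) (c : ι → ℕ) (y : ι → ℂ) (m : ℕ) :
    (∑ k ∈ s, (lp.single p (c k) (y k) : LP p)) m = ∑ k ∈ s, if c k = m then y k else 0 := by
  rw [lp.coeFn_sum, Finset.sum_apply]
  refine Finset.sum_congr rfl fun k _ => ?_
  by_cases h : c k = m
  · subst h
    rw [lp.single_apply_self, if_pos rfl]
  · rw [lp.single_apply_ne _ _ _ (Ne.symm h), if_neg h]

variable {n : ℕ}

/-- The vector of `ℓ_p` with prescribed coordinates in the `N`-th group. -/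
def emb (p : ℝ≥0∞) [Fact (1 ≤ p)] (N : ℕ) (y : Fin N → Fin n → ℂ) : LP p :=
  ∑ k : Fin N × Fin n, lp.single p (enc N k.1 k.2) (y k.1 k.2)

lemma enc_injOn (N : ℕ) : Set.InjOn (fun k : Fin N × Fin n => enc N k.1 k.2)
    (Finset.univ : Finset (Fin N × Fin n)) := by
  rintro ⟨j, i⟩ _ ⟨j', i'⟩ _ h
  obtain ⟨-, h2, h3⟩ := enc_inj h
  exact Prod.ext (Fin.ext h2) (Fin.ext h3)

lemma norm_emb (hp : 0 < p.toReal) (N : ℕ) (y : Fin N → Fin n → ℂ) :
    ‖emb p N y‖ ^ p.toReal = ∑ j, ∑ i, ‖y j i‖ ^ p.toReal := by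
  unfold emb
  rw [norm_comb hp _ (fun k : Fin N × Fin n => enc N k.1 k.2) (enc_injOn N),
    Fintype.sum_prod_type]

lemma emb_apply (N : ℕ) (y : Fin N → Fin n → ℂ) (j : Fin N) (i : Fin n) :
    emb p N y (enc N j i) = y j i := by
  unfold emb
  rw [apply_comb _ (fun k : Fin N × Fin n => enc N k.1 k.2)
    (fun k : Fin N × Fin n => y k.1 k.2), Finset.sum_eq_single (j, i)]
  · simp
  · intro b _ hb
    rw [if_neg]
    intro h
    exact hb (enc_injOn N (by simp) (by simp) h)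
  · simp

lemma emb_apply_ne {N N' : ℕ} (h : N ≠ N') (y : Fin N → Fin n → ℂ) (j i : ℕ) :
    emb p N y (enc N' j i) = 0 := by
  unfold emb
  rw [apply_comb _ (fun k : Fin N × Fin n => enc N k.1 k.2)
    (fun k : Fin N × Fin n => y k.1 k.2)]
  refine Finset.sum_eq_zero fun k _ => ?_
  rw [if_neg]
  intro h'
  exact h (enc_inj h').1

lemma emb_add (N : ℕ) (y y' : Fin N → Fin n → ℂ) :
    emb p N (fun j i => y j i + y' j i) = emb p N y + emb p N y' := by
  unfold emb
  rw [← Finset.sum_add_distrib]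
  exact Finset.sum_congr rfl fun k _ => lp.single_add _ _ _ _

lemma emb_sub (N : ℕ) (y y' : Fin N → Fin n → ℂ) :
    emb p N (fun j i => y j i - y' j i) = emb p N y - emb p N y' := by
  unfold emb
  rw [← Finset.sum_sub_distrib]
  exact Finset.sum_congr rfl fun k _ => lp.single_sub _ _ _ _

lemma emb_smul (N : ℕ) (c : ℂ) (y : Fin N → Fin n → ℂ) :
    emb p N (fun j i => c * y j i) = c • emb p N y := by
  unfold emb
  rw [Finset.smul_sum]
  refine Finset.sum_congr rfl fun k _ => ?_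
  exact lp.single_smul (E := fun _ : ℕ => ℂ) p _ c (y k.1 k.2)

/-- The mass of a vector in the `N`-th group. -/
def mass (n : ℕ) (N : ℕ) (x : LP p) : ℝ := ∑ j : Fin N, ∑ i : Fin n, ‖x (enc N j i)‖ ^ p.toReal

lemma mass_nonneg (N : ℕ) (x : LP p) : 0 ≤ mass n N x :=
  Finset.sum_nonneg fun _ _ => Finset.sum_nonneg fun _ _ => by positivity

lemma sum_mass_le (hp : 0 < p.toReal) (S : Finset ℕ) (x : LP p) :
    ∑ N ∈ S, mass n N x ≤ ‖x‖ ^ p.toReal := by
  classical
  have h := sum_rpow_le hp (S.sigma fun N => (Finset.univ : Finset (Fin N × Fin n)))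
    (fun k => enc k.1 k.2.1 k.2.2) (by
      rintro ⟨N, j, i⟩ _ ⟨N', j', i'⟩ _ h
      obtain ⟨h1, h2, h3⟩ := enc_inj h
      simp only at h1
      subst h1
      have e2 : j = j' := Fin.ext h2
      have e3 : i = i' := Fin.ext h3
      rw [e2, e3]) x
  refine le_trans (le_of_eq ?_) h
  rw [Finset.sum_sigma]
  refine Finset.sum_congr rfl fun N _ => ?_
  rw [mass, Fintype.sum_prod_type]

lemma summable_mass (hp : 0 < p.toReal) (x : LP p) : Summable fun N => mass n N x :=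
  summable_of_sum_le (fun N => mass_nonneg N x) (fun S => sum_mass_le hp S x)

lemma tsum_mass_le (hp : 0 < p.toReal) (x : LP p) : ∑' N, mass n N x ≤ ‖x‖ ^ p.toReal :=
  Summable.tsum_le_of_sum_le (summable_mass hp x) (fun S => sum_mass_le hp S x)

lemma mass_le (hp : 0 < p.toReal) (N : ℕ) (x : LP p) : mass n N x ≤ ‖x‖ ^ p.toReal := by
  have := sum_mass_le (n := n) hp {N} x
  simpa using this

end

end Pool.Agent.helper68.Gl
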