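import Pool.Agent.helper68.Gl.Deriv

set_option linter.unusedSectionVars false

namespace Pool.Agent.helper68.Gl

open Metric Set Filter Topology
open scoped ComplexConjugate NNReal ENNReal InnerProductSpace

noncomputable section

section T

variable {X : Type*} [NormedAddCommGroup X] [NormedSpace ℂ X]

/-- The averaged derivative. -/
def avgD (F : X → ℂ) (r₀ δ : ℝ) (n : ℕ) (x : X) : X →L[ℂ] ℂ :=
  ∑ j ∈ Finset.range n, (δ : ℂ) • fderiv ℂ F (((r₀ + j * δ : ℝ) : ℂ) • x)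

lemma node_mem {r₀ δ : ℝ} (hr₀ : 0 ≤ r₀) (hδ : 0 ≤ δ) {n : ℕ} (hn : r₀ + n * δ ≤ 1) {j : ℕ}
    (hj : j < n) : 0 ≤ r₀ + j * δ ∧ r₀ + j * δ ≤ 1 - δ := by
  constructor
  · positivity
  · have : ((j + 1 : ℕ) : ℝ) ≤ n := by exact_mod_cast hj
    push_cast at this
    nlinarith

lemma scaled_mem {s : ℝ} (hs0 : 0 ≤ s) (hs1 : s ≤ 1) {x : X} (hx : x ∈ ball (0 : X) 1) :
    (s : ℂ) • x ∈ ball (0 : X) 1 := by
  rw [mem_ball_zero_iff] at hx ⊢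
  rw [norm_smul, Complex.norm_real, Real.norm_of_nonneg hs0]
  calc s * ‖x‖ ≤ 1 * ‖x‖ := by gcongr
    _ < 1 := by linarith

lemma avgD_analytic {F : X → ℂ} {R : ℝ} (hR : 1 < R) (hF : AnalyticOnNhd ℂ F (ball 0 R))
    {r₀ δ : ℝ} (hr₀ : 0 ≤ r₀) (hδ : 0 ≤ δ) {n : ℕ} (hn : r₀ + n * δ ≤ 1) :
    AnalyticOnNhd ℂ (avgD F r₀ δ n) (ball (0 : X) 1) := by
  intro x hx
  unfold avgD
  refine Finset.analyticAt_fun_sum _ (fun j hj => ?_)
  have hj' := node_mem hr₀ hδ hn (Finset.mem_range.1 hj)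
  have h1 : AnalyticAt ℂ (fun x : X => ((r₀ + j * δ : ℝ) : ℂ) • x) x :=
    (((r₀ + j * δ : ℝ) : ℂ) • ContinuousLinearMap.id ℂ X).analyticAt x
  have h2 : AnalyticAt ℂ (fderiv ℂ F) (((r₀ + j * δ : ℝ) : ℂ) • x) :=
    (hF _ (ball_subset_ball hR.le (scaled_mem hj'.1 (by linarith [hj'.2]) hx))).fderiv
  have h3 : AnalyticAt ℂ (fun y : X => fderiv ℂ F (((r₀ + j * δ : ℝ) : ℂ) • y)) x :=
    AnalyticAt.fun_comp (f := fun x : X => ((r₀ + j * δ : ℝ) : ℂ) • x) h2 h1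
  exact AnalyticAt.const_smul (c := (δ : ℂ)) h3

lemma avgD_lipschitz {F : X → ℂ} {L : ℝ} (hL0 : 0 ≤ L)
    (hL : ∀ y ∈ ball (0 : X) 1, ∀ z ∈ ball (0 : X) 1,
      ‖fderiv ℂ F y - fderiv ℂ F z‖ ≤ L * ‖y - z‖)
    {r₀ δ : ℝ} (hr₀ : 0 ≤ r₀) (hδ : 0 ≤ δ) {n : ℕ} (hn : r₀ + n * δ ≤ 1)
    {x y : X} (hx : x ∈ ball (0 : X) 1) (hy : y ∈ ball (0 : X) 1) :
    ‖avgD F r₀ δ n x - avgD F r₀ δ n y‖ ≤ L * ‖x - y‖ := by
  unfold avgD
  rw [← Finset.sum_sub_distrib]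
  have hnδ : (n : ℝ) * δ ≤ 1 := by linarith
  calc ‖∑ j ∈ Finset.range n, ((δ : ℂ) • fderiv ℂ F (((r₀ + j * δ : ℝ) : ℂ) • x)
          - (δ : ℂ) • fderiv ℂ F (((r₀ + j * δ : ℝ) : ℂ) • y))‖
      ≤ ∑ j ∈ Finset.range n, δ * (L * ‖x - y‖) := by
        refine norm_sum_le_of_le _ (fun j hj => ?_)
        have hj' := node_mem hr₀ hδ hn (Finset.mem_range.1 hj)
        have e0 : (δ : ℂ) • fderiv ℂ F (((r₀ + j * δ : ℝ) : ℂ) • x)
            - (δ : ℂ) • fderiv ℂ F (((r₀ + j * δ : ℝ) : ℂ) • y)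
            = (δ : ℂ) • (fderiv ℂ F (((r₀ + j * δ : ℝ) : ℂ) • x)
              - fderiv ℂ F (((r₀ + j * δ : ℝ) : ℂ) • y)) := (smul_sub _ _ _).symm
        rw [e0, norm_smul, Complex.norm_real, Real.norm_of_nonneg hδ]
        gcongr
        refine (hL _ (scaled_mem hj'.1 (by linarith [hj'.2]) hx) _
          (scaled_mem hj'.1 (by linarith [hj'.2]) hy)).trans ?_
        gcongr
        rw [← smul_sub, norm_smul, Complex.norm_real, Real.norm_of_nonneg hj'.1]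
        exact mul_le_of_le_one_left (norm_nonneg _) (by linarith [hj'.2])
    _ = (n * δ) * (L * ‖x - y‖) := by
        rw [Finset.sum_const, Finset.card_range, nsmul_eq_mul]; ring
    _ ≤ 1 * (L * ‖x - y‖) := by gcongr
    _ = L * ‖x - y‖ := one_mul _

lemma avgD_apply (F : X → ℂ) (r₀ δ : ℝ) (n : ℕ) (x v : X) :
    avgD F r₀ δ n x v
      = ∑ j ∈ Finset.range n, (δ : ℂ) * fderiv ℂ F (((r₀ + j * δ : ℝ) : ℂ) • x) v := by
  simp [avgD, sum_apply]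

end T

variable {H : Type*} [NormedAddCommGroup H] [InnerProductSpace ℂ H] [CompleteSpace H]

/-- Orthogonal directions: derivative bound in a Hilbert space. -/
lemma fderiv_orth {F : H → ℂ} {R : ℝ} (hR : 1 < R) (hF : AnalyticOnNhd ℂ F (ball 0 R))
    (hb : ∀ x ∈ ball (0 : H) R, ‖F x‖ ≤ 1) {x v : H} (hx : ‖x‖ ≤ 1) (hv : ⟪x, v⟫_ℂ = 0)
    {s : ℝ} (hs0 : 0 ≤ s) (hs1 : s < 1) :
    ‖fderiv ℂ F ((s : ℂ) • x) v‖ ≤ 2 * ‖v‖ / √(1 - s) := by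
  rcases eq_or_ne v 0 with h | h
  · subst h; simp
  have hvn : 0 < ‖v‖ := norm_pos_iff.2 h
  have hsq : 0 < √(1 - s) := Real.sqrt_pos.2 (by linarith)
  have h1 : 2 * ‖v‖ / √(1 - s) = 2 / (√(1 - s) / ‖v‖) := by field_simp
  rw [h1]
  refine fderiv_apply_le hF hb (by positivity) (fun t ht => ?_)
  rw [mem_ball_zero_iff]
  refine lt_of_le_of_lt ?_ hR
  have h2 : ‖(s : ℂ) • x + t • v‖ ^ 2 = (s * ‖x‖) ^ 2 + (‖t‖ * ‖v‖) ^ 2 := by
    have h3 : ⟪(s : ℂ) • x, t • v⟫_ℂ = 0 := by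
      rw [inner_smul_left, inner_smul_right, hv]; simp
    have := norm_add_sq_eq_norm_sq_add_norm_sq_of_inner_eq_zero _ _ h3
    rw [sq, this, norm_smul, norm_smul, Complex.norm_real, Real.norm_of_nonneg hs0]
    ring
  have h3 : ‖t‖ * ‖v‖ ≤ √(1 - s) := by
    rw [lt_div_iff₀ hvn] at ht; exact ht.le
  have h4 : (‖t‖ * ‖v‖) ^ 2 ≤ 1 - s := by
    calc (‖t‖ * ‖v‖) ^ 2 ≤ √(1 - s) ^ 2 := by gcongr
      _ = 1 - s := Real.sq_sqrt (by linarith)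
  have h5 : (s * ‖x‖) ^ 2 ≤ s := by
    have : s * ‖x‖ ≤ s * 1 := by gcongr
    nlinarith [norm_nonneg x, mul_nonneg hs0 (norm_nonneg x)]
  have h6 : ‖(s : ℂ) • x + t • v‖ ^ 2 ≤ 1 ^ 2 := by rw [h2]; linarith
  exact (pow_le_pow_iff_left₀ (norm_nonneg _) zero_le_one two_ne_zero).1 h6

lemma avgD_orth {F : H → ℂ} {R : ℝ} (hR : 1 < R) (hF : AnalyticOnNhd ℂ F (ball 0 R))
    (hb : ∀ x ∈ ball (0 : H) R, ‖F x‖ ≤ 1) {x v : H} (hx : ‖x‖ ≤ 1) (hv : ⟪x, v⟫_ℂ = 0)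
    {r₀ δ : ℝ} (hr₀ : 0 ≤ r₀) (hδ : 0 < δ) {n : ℕ} (hn : r₀ + n * δ ≤ 1) :
    ‖avgD F r₀ δ n x v‖ ≤ 4 * √(1 - r₀) * ‖v‖ := by
  rw [avgD_apply]
  calc ‖∑ j ∈ Finset.range n, (δ : ℂ) * fderiv ℂ F (((r₀ + j * δ : ℝ) : ℂ) • x) v‖
      ≤ ∑ j ∈ Finset.range n, (2 * ‖v‖) * (δ / √(1 - (r₀ + j * δ))) := by
        refine norm_sum_le_of_le _ (fun j hj => ?_)
        have hj' := node_mem hr₀ hδ.le hn (Finset.mem_range.1 hj)
        rw [norm_mul, Complex.norm_real, Real.norm_of_nonneg hδ.le]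
        have h1 := fderiv_orth hR hF hb hx hv hj'.1 (by linarith [hj'.2])
        calc δ * ‖fderiv ℂ F (((r₀ + j * δ : ℝ) : ℂ) • x) v‖
            ≤ δ * (2 * ‖v‖ / √(1 - (r₀ + j * δ))) := by gcongr
          _ = _ := by ring
    _ = (2 * ‖v‖) * ∑ j ∈ Finset.range n, (δ / √(1 - (r₀ + j * δ))) := by
        rw [Finset.mul_sum]
    _ ≤ (2 * ‖v‖) * (2 * √(1 - r₀)) := by
        gcongr
        have := sum_sqrt_le hδ.le n hn
        linarith [Real.sqrt_nonneg (1 - (r₀ + n * δ))]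
    _ = 4 * √(1 - r₀) * ‖v‖ := by ring

/-- Main estimate in the Hilbert space case. -/
lemma riesz_close {F : H → ℂ} {R : ℝ} (hR : 1 < R) (hF : AnalyticOnNhd ℂ F (ball 0 R))
    (hb : ∀ x ∈ ball (0 : H) R, ‖F x‖ ≤ 1) {x : H} (hx0 : x ≠ 0) (hx : ‖x‖ ≤ 1)
    {r₀ δ : ℝ} (hr₀ : 0 ≤ r₀) (hδ : 0 < δ) {n : ℕ} (hn : r₀ + n * δ ≤ 1) :
    ‖(InnerProductSpace.toDual ℂ H).symm (avgD F r₀ δ n x)
      - (conj (avgD F r₀ δ n x x) / (‖x‖ ^ 2 : ℝ)) • x‖ ≤ 4 * √(1 - r₀) := by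
  set T := avgD F r₀ δ n x with hT
  set w := (InnerProductSpace.toDual ℂ H).symm T with hw
  set a : ℂ := conj (T x) / (‖x‖ ^ 2 : ℝ) with ha
  have hxn : (‖x‖ : ℂ) ≠ 0 := by exact_mod_cast norm_ne_zero_iff.2 hx0
  set u := w - a • x with hu
  have h1 : ∀ v : H, ⟪u, v⟫_ℂ = T (v - (⟪x, v⟫_ℂ / (‖x‖ ^ 2 : ℝ)) • x) := by
    intro v
    rw [hu, inner_sub_left, hw, InnerProductSpace.toDual_symm_apply, inner_smul_left, map_sub,
      map_smul, ha, map_div₀, Complex.conj_conj, Complex.conj_ofReal, smul_eq_mul]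
    ring
  have h2 : ∀ v : H, ⟪x, v - (⟪x, v⟫_ℂ / (‖x‖ ^ 2 : ℝ)) • x⟫_ℂ = 0 := by
    intro v
    rw [inner_sub_right, inner_smul_right, inner_self_eq_norm_sq_to_K]
    push_cast
    field_simp
    simp
  have h3 : ∀ v : H, ‖v - (⟪x, v⟫_ℂ / (‖x‖ ^ 2 : ℝ)) • x‖ ≤ ‖v‖ := by
    intro v
    have h4 : ⟪v - (⟪x, v⟫_ℂ / (‖x‖ ^ 2 : ℝ)) • x, (⟪x, v⟫_ℂ / (‖x‖ ^ 2 : ℝ)) • x⟫_ℂ = 0 := by
      have h7 : ⟪v - (⟪x, v⟫_ℂ / (‖x‖ ^ 2 : ℝ)) • x, x⟫_ℂ = 0 := by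
        rw [← inner_conj_symm, h2 v, map_zero]
      rw [inner_smul_right, h7, mul_zero]
    have h5 := norm_add_sq_eq_norm_sq_add_norm_sq_of_inner_eq_zero _ _ h4
    rw [sub_add_cancel] at h5
    have h6 : ‖v - (⟪x, v⟫_ℂ / (‖x‖ ^ 2 : ℝ)) • x‖ * ‖v - (⟪x, v⟫_ℂ / (‖x‖ ^ 2 : ℝ)) • x‖
        ≤ ‖v‖ * ‖v‖ := by
      rw [h5]
      have := mul_self_nonneg ‖(⟪x, v⟫_ℂ / (‖x‖ ^ 2 : ℝ)) • x‖
      linarith
    exact (mul_self_le_mul_self_iff (norm_nonneg _) (norm_nonneg _)).2 h6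
  have h4 : ‖⟪u, u⟫_ℂ‖ ≤ 4 * √(1 - r₀) * ‖u‖ := by
    rw [h1 u]
    refine (avgD_orth hR hF hb hx (h2 u) hr₀ hδ hn).trans ?_
    gcongr
    exact h3 u
  rw [inner_self_eq_norm_sq_to_K] at h4
  have h5 : ‖(((‖u‖ : ℝ) : ℂ)) ^ 2‖ = ‖u‖ * ‖u‖ := by
    rw [norm_pow, Complex.norm_real, norm_norm, sq]
  rcases eq_or_lt_of_le (norm_nonneg u) with h | h
  · rw [← h]; positivity
  · refine le_of_mul_le_mul_right ?_ h
    rw [← h5]
    exact h4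

theorem conjApprox_hilbert (c : H ≃ₗᵢ⋆[ℂ] H) : ConjApprox H := by
  refine ⟨c, fun ε' hε' => ?_⟩
  set ε : ℝ := min ε' 1 with hε
  have hε0 : 0 < ε := lt_min hε' one_pos
  have hε1 : ε ≤ 1 := min_le_right _ _
  have hεε : ε ≤ ε' := min_le_left _ _
  set r₀ : ℝ := 1 - (ε / 16) ^ 2 with hr₀
  have hr₀0 : 0 < r₀ := by rw [hr₀]; nlinarith
  have hr₀1 : r₀ < 1 := by rw [hr₀]; nlinarith [sq_pos_of_pos (by positivity : 0 < ε / 16)]
  have hsq : √(1 - r₀) = ε / 16 := by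
    rw [hr₀, sub_sub_cancel, Real.sqrt_sq (by positivity)]
  obtain ⟨k, hk⟩ := exists_pow_lt_of_lt_one (by positivity : 0 < ε / 32) hr₀1
  refine ⟨ε / 64, by positivity, k + 1, fun F ⟨R, hR, hF, hb⟩ hFk => ?_⟩
  obtain ⟨L, hL0, hL⟩ := fderiv_lipschitz hR hF hb
  obtain ⟨n, hn⟩ := exists_nat_gt (32 * L / ε)
  have hn0 : (0 : ℝ) < n := lt_trans (by positivity) hn
  set δ : ℝ := (1 - r₀) / n with hδ
  have hδ0 : 0 < δ := div_pos (by linarith) hn0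
  have hnδ : r₀ + n * δ = 1 := by rw [hδ]; field_simp; ring
  have herr : n * (L * δ ^ 2) ≤ ε / 32 := by
    have h1 : n * (L * δ ^ 2) = L * (1 - r₀) ^ 2 / n := by rw [hδ]; field_simp
    rw [h1, div_le_iff₀ hn0]
    rw [div_lt_iff₀ hε0] at hn
    have h2 : (1 - r₀) ^ 2 ≤ 1 := by nlinarith
    have h3 : L * (1 - r₀) ^ 2 ≤ L * 1 := by gcongr
    nlinarith
  set Λ : (StrongDual ℂ H) ≃ₗᵢ[ℂ] H :=
    (InnerProductSpace.toDual ℂ H).symm.trans c.symm with hΛ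
  set U : H → H := fun x => Λ (avgD F r₀ δ n x) with hU
  have hUn : ∀ x, ‖U x‖ = ‖(InnerProductSpace.toDual ℂ H).symm (avgD F r₀ δ n x)‖ := by
    intro x
    rw [hU]
    simp only [LinearIsometryEquiv.norm_map]
  have hcU : ∀ x, c (U x) = (InnerProductSpace.toDual ℂ H).symm (avgD F r₀ δ n x) := by
    intro x
    simp [hU, hΛ]
  -- the value in the radial direction
  have hG : ∀ x ∈ ball (0 : H) 1, ‖avgD F r₀ δ n x x - (F x - F ((r₀ : ℂ) • x))‖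
      ≤ ε / 32 * ‖x‖ ^ 2 := by
    intro x hx
    have h1 := riemann_sum hR hF hL0.le hL hx hr₀0.le hδ0.le n hnδ.le
    rw [avgD_apply]
    rw [hnδ, Complex.ofReal_one, one_smul] at h1
    refine h1.trans ?_
    have h2 : (n : ℝ) * (L * δ ^ 2 * ‖x‖ ^ 2) = (n * (L * δ ^ 2)) * ‖x‖ ^ 2 := by ring
    rw [h2]
    gcongr
  have hF0 : ∀ x ∈ ball (0 : H) 1, ‖F ((r₀ : ℂ) • x)‖ ≤ ε / 32 * ‖x‖ := by
    intro x hx
    have hx1 : ‖x‖ ≤ 1 := by rw [mem_ball_zero_iff] at hx; exact hx.le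
    refine (hFk _ (scaled_mem hr₀0.le hr₀1.le hx)).trans ?_
    rw [norm_smul, Complex.norm_real, Real.norm_of_nonneg hr₀0.le, mul_pow, pow_succ]
    have h1 : ‖x‖ ^ (k + 1) ≤ ‖x‖ := by
      rw [pow_succ]
      exact mul_le_of_le_one_left (norm_nonneg _) (pow_le_one₀ (norm_nonneg _) hx1)
    have h2 : r₀ ^ k * r₀ ≤ ε / 32 := by
      calc r₀ ^ k * r₀ ≤ r₀ ^ k * 1 := by gcongr
        _ ≤ ε / 32 := by linarith
    exact mul_le_mul h2 h1 (by positivity) (by positivity)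
  have hFx : ∀ x ∈ ball (0 : H) 1, ‖F x‖ ≤ ‖x‖ := by
    intro x hx
    have hx1 : ‖x‖ ≤ 1 := by rw [mem_ball_zero_iff] at hx; exact hx.le
    refine (hFk x hx).trans ?_
    rw [pow_succ]
    exact mul_le_of_le_one_left (norm_nonneg _) (pow_le_one₀ (norm_nonneg _) hx1)
  have hmain : ∀ x ∈ ball (0 : H) 1, x ≠ 0 →
      ‖c (U x) - (conj (avgD F r₀ δ n x x) / (‖x‖ ^ 2 : ℝ)) • x‖ ≤ ε / 4 := by
    intro x hx hx0
    have hx1 : ‖x‖ ≤ 1 := by rw [mem_ball_zero_iff] at hx; exact hx.le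
    rw [hcU]
    refine (riesz_close hR hF hb hx0 hx1 hr₀0.le hδ0 hnδ.le).trans ?_
    rw [hsq]; linarith
  refine ⟨U, ?_, ?_, ?_, ?_⟩
  · intro x hx
    have h1 := avgD_analytic hR hF hr₀0.le hδ0.le hnδ.le x hx
    exact AnalyticAt.fun_comp
      ((Λ.toContinuousLinearEquiv : StrongDual ℂ H →L[ℂ] H).analyticAt _) h1
  · rw [Metric.uniformContinuousOn_iff]
    intro κ hκ
    refine ⟨κ / (L + 1), by positivity, fun x hx y hy hxy => ?_⟩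
    have h1 := avgD_lipschitz hL0.le hL hr₀0.le hδ0.le hnδ.le hx hy
    rw [dist_eq_norm] at hxy ⊢
    rw [hU]
    simp only [← map_sub, LinearIsometryEquiv.norm_map]
    rw [lt_div_iff₀ (by positivity)] at hxy
    nlinarith [norm_nonneg (x - y)]
  · intro x hx
    have hx1 : ‖x‖ ≤ 1 := by rw [mem_ball_zero_iff] at hx; exact hx.le
    rcases eq_or_ne x 0 with h0 | h0
    · subst h0
      rw [hUn, LinearIsometryEquiv.norm_map]
      have h1 : ‖avgD F r₀ δ n (0 : H)‖ ≤ (n * δ) * 2 := by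
        unfold avgD
        refine (norm_sum_le_of_le (Finset.range n) (f := fun j : ℕ =>
          (δ : ℂ) • fderiv ℂ F (((r₀ + j * δ : ℝ) : ℂ) • (0 : H)))
          (n := fun _ => δ * 2) (fun j hj => ?_)).trans ?_
        · rw [smul_zero, norm_smul, Complex.norm_real, Real.norm_of_nonneg hδ0.le]
          gcongr
          have := fderiv_le hF hb (y := (0 : H)) one_pos (by simpa using hR.le)
          simpa using this
        · rw [Finset.sum_const, Finset.card_range, nsmul_eq_mul]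
          exact le_of_eq (by ring)
      have h2 : (n : ℝ) * δ = 1 - r₀ := by linarith
      rw [h2] at h1
      have h3 : 1 - r₀ ≤ 1 / 2 := by rw [hr₀]; nlinarith
      linarith
    · have h1 := hmain x hx h0
      have hxn : 0 < ‖x‖ := norm_pos_iff.2 h0
      have h2 : ‖U x‖ = ‖c (U x)‖ := (c.norm_map _).symm
      rw [h2]
      have h3 : ‖(conj (avgD F r₀ δ n x x) / (‖x‖ ^ 2 : ℝ)) • x‖ ≤ 1 + ε / 16 := by
        rw [norm_smul, norm_div, RCLike.norm_conj, Complex.norm_real, Real.norm_of_nonneg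
          (by positivity)]
        have h4 : ‖avgD F r₀ δ n x x‖ ≤ ‖x‖ * (1 + ε / 16) := by
          have h5 := hG x hx
          have h6 := hF0 x hx
          have h7 := hFx x hx
          have h8 : ‖x‖ ^ 2 ≤ ‖x‖ := by nlinarith
          have h9 : ε / 32 * ‖x‖ ^ 2 ≤ ε / 32 * ‖x‖ := by gcongr
          have h10 : ‖F x - F ((r₀ : ℂ) • x)‖ ≤ ‖x‖ + ε / 32 * ‖x‖ :=
            (norm_sub_le _ _).trans (by linarith)
          have h11 := norm_sub_norm_le (avgD F r₀ δ n x x) (F x - F ((r₀ : ℂ) • x))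
          nlinarith
        rw [div_mul_eq_mul_div, div_le_iff₀ (by positivity)]
        nlinarith
      have h4 := norm_sub_norm_le (c (U x)) ((conj (avgD F r₀ δ n x x) / (‖x‖ ^ 2 : ℝ)) • x)
      linarith
  · intro x hx hFη
    have hx1 : ‖x‖ ≤ 1 := by rw [mem_ball_zero_iff] at hx; exact hx.le
    have h1 : 1 - ε / 64 ≤ ‖F x‖ := by
      have := norm_sub_norm_le (1 : ℂ) (F x)
      rw [norm_one, norm_sub_rev] at this
      linarith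
    have h2 : 1 - ε / 64 ≤ ‖x‖ := h1.trans (hFx x hx)
    have h0 : x ≠ 0 := by
      rintro rfl
      rw [norm_zero] at h2
      linarith
    have hxn : 0 < ‖x‖ := norm_pos_iff.2 h0
    have h3 := hmain x hx h0
    have h4 : ‖(conj (avgD F r₀ δ n x x) / (‖x‖ ^ 2 : ℝ)) • x - x‖ ≤ ε / 2 := by
      have e : (conj (avgD F r₀ δ n x x) / (‖x‖ ^ 2 : ℝ)) • x - x
          = (conj (avgD F r₀ δ n x x - (‖x‖ ^ 2 : ℝ)) / (‖x‖ ^ 2 : ℝ)) • x := by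
        have hne : (((‖x‖ ^ 2 : ℝ)) : ℂ) ≠ 0 := by
          rw [Complex.ofReal_ne_zero]; positivity
        have : conj (avgD F r₀ δ n x x - (‖x‖ ^ 2 : ℝ)) / (‖x‖ ^ 2 : ℝ)
            = conj (avgD F r₀ δ n x x) / (‖x‖ ^ 2 : ℝ) - 1 := by
          rw [map_sub, Complex.conj_ofReal, sub_div, div_self hne]
        rw [this, sub_smul, one_smul]
      rw [e, norm_smul, norm_div, RCLike.norm_conj, Complex.norm_real, Real.norm_of_nonneg
          (by positivity)]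
      have h5 := hG x hx
      have h6 := hF0 x hx
      have h8 : ‖x‖ ^ 2 ≤ 1 := pow_le_one₀ (norm_nonneg _) hx1
      have h9 : ε / 32 * ‖x‖ ^ 2 ≤ ε / 32 * 1 := by gcongr
      have h9' : ε / 32 * ‖x‖ ≤ ε / 32 * 1 := by gcongr
      have h10 : ‖avgD F r₀ δ n x x - (‖x‖ ^ 2 : ℝ)‖ ≤ 7 * ε / 64 := by
        have e2 : avgD F r₀ δ n x x - (‖x‖ ^ 2 : ℝ)
            = (avgD F r₀ δ n x x - (F x - F ((r₀ : ℂ) • x))) + (F x - 1)
              - F ((r₀ : ℂ) • x) + ((1 - ‖x‖ ^ 2 : ℝ) : ℂ) := by push_cast; ring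
        have h11 : ‖((1 - ‖x‖ ^ 2 : ℝ) : ℂ)‖ ≤ 2 * (ε / 64) := by
          rw [Complex.norm_real, Real.norm_of_nonneg (by linarith)]
          nlinarith
        rw [e2]
        refine (norm_add_le _ _).trans ?_
        have h12 := norm_sub_le ((avgD F r₀ δ n x x - (F x - F ((r₀ : ℂ) • x))) + (F x - 1))
          (F ((r₀ : ℂ) • x))
        have h13 := norm_add_le (avgD F r₀ δ n x x - (F x - F ((r₀ : ℂ) • x))) (F x - 1)
        linarith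
      have h14 : (7 / 8 : ℝ) ≤ ‖x‖ := by linarith
      rw [div_mul_eq_mul_div, div_le_iff₀ (by positivity)]
      have h15 : ‖avgD F r₀ δ n x x - (‖x‖ ^ 2 : ℝ)‖ * ‖x‖ ≤ 7 * ε / 64 * 1 := by gcongr
      have h16 : (49 / 64 : ℝ) ≤ ‖x‖ ^ 2 := by nlinarith
      have h17 : ε / 2 * (49 / 64) ≤ ε / 2 * ‖x‖ ^ 2 := by gcongr
      linarith
    have h5 := norm_sub_le_norm_sub_add_norm_sub (c (U x))
      ((conj (avgD F r₀ δ n x x) / (‖x‖ ^ 2 : ℝ)) • x) x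
    linarith

end

end Pool.Agent.helper68.Gl
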