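import Pool.Agent.helper68.Gl.Inst3

/-!
# The case `2 < p < 3`
-/

set_option linter.unusedSectionVars false

namespace Pool.Agent.helper68.Gl

open Finset Function
open scoped ComplexConjugate ENNReal

noncomputable section

/-- The cube root of unity. -/
def om : ℂ := ⟨-1 / 2, Real.sqrt 3 / 2⟩

lemma sqrt3_sq : Real.sqrt 3 * Real.sqrt 3 = 3 := Real.mul_self_sqrt (by norm_num)

lemma om_sq : om ^ 2 = ⟨-1 / 2, -(Real.sqrt 3 / 2)⟩ := by
  rw [pow_two]
  apply Complex.ext
  · simp only [Complex.mul_re, om]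
    linarith [sqrt3_sq]
  · simp only [Complex.mul_im, om]
    ring

lemma om_cube : om ^ 3 = 1 := by
  rw [pow_succ, om_sq]
  apply Complex.ext
  · simp only [Complex.mul_re, om, Complex.one_re]
    linarith [sqrt3_sq]
  · simp only [Complex.mul_im, om, Complex.one_im]
    ring

lemma om_sum : 1 + om + om ^ 2 = 0 := by
  rw [om_sq]
  apply Complex.ext
  · simp only [Complex.add_re, om, Complex.one_re, Complex.zero_re]
    norm_num
  · simp only [Complex.add_im, om, Complex.one_im, Complex.zero_im]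
    ring

lemma norm_om : ‖om‖ = 1 := by
  have h : ‖om‖ ^ 3 = 1 := by rw [← norm_pow, om_cube, norm_one]
  exact (pow_eq_one_iff_of_nonneg (norm_nonneg _) (by norm_num)).1 h

/-- The characters of the cyclic group of order three. -/
def ch (j : Fin 3) : ℂ := om ^ (j : ℕ)

lemma ch_zero : ch 0 = 1 := by simp [ch]
lemma ch_one : ch 1 = om := by simp [ch]
lemma ch_two : ch 2 = om ^ 2 := by simp [ch]

lemma norm_ch (j : Fin 3) : ‖ch j‖ = 1 := by simp [ch, norm_om]

lemma ch_ne (j : Fin 3) : ch j ≠ 0 := by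
  intro h
  have := norm_ch j
  rw [h, norm_zero] at this
  exact zero_ne_one this

lemma ch_add (j k : Fin 3) : ch (j + k) = ch j * ch k := by
  unfold ch
  rw [← pow_add]
  have h : (((j + k : Fin 3) : ℕ)) = ((j : ℕ) + k) % 3 := Fin.val_add j k
  rw [h]
  conv_rhs => rw [← Nat.div_add_mod ((j : ℕ) + k) 3, pow_add, pow_mul, om_cube, one_pow, one_mul]

lemma ch_sum : ∑ j, ch j = 0 := by
  rw [Fin.sum_univ_three, ch_zero, ch_one, ch_two]
  exact om_sum

lemma ch_sq_sum : ∑ j, ch j * ch j = 0 := by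
  rw [Fin.sum_univ_three, ch_zero, ch_one, ch_two]
  have h : om ^ 2 * om ^ 2 = om := by
    have : om ^ 2 * om ^ 2 = om ^ 3 * om := by ring
    rw [this, om_cube, one_mul]
  rw [h]
  have := om_sum
  linear_combination this

lemma ch_conj_mul (j : Fin 3) : conj (ch j) * ch j = 1 := by
  rw [mul_comm, Complex.mul_conj, Complex.normSq_eq_norm_sq, norm_ch]
  simp

/-- the functional to be maximised -/
def GG (q : ℝ) (u : ℂ × ℂ) : ℝ := ∑ j : Fin 3, ‖u.1 + ch j * u.2‖ ^ q

lemma exists_max {P q : ℝ} (hP : 0 < P) (hq : 0 < q) :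
    ∃ v : ℂ × ℂ, ‖v.1‖ ^ P + ‖v.2‖ ^ P = 1 ∧
      ∀ u : ℂ × ℂ, ‖u.1‖ ^ P + ‖u.2‖ ^ P = 1 → GG q u ≤ GG q v := by
  set S : Set (ℂ × ℂ) := {u | ‖u.1‖ ^ P + ‖u.2‖ ^ P = 1} with hS
  have hcont : Continuous fun u : ℂ × ℂ => ‖u.1‖ ^ P + ‖u.2‖ ^ P :=
    ((continuous_norm.comp continuous_fst).rpow_const fun _ => Or.inr hP.le).add
      ((continuous_norm.comp continuous_snd).rpow_const fun _ => Or.inr hP.le)
  have hclosed : IsClosed S := isClosed_eq hcont continuous_const
  have hb : Bornology.IsBounded S := by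
    rw [Metric.isBounded_iff_subset_closedBall 0]
    refine ⟨1, fun u hu => ?_⟩
    rw [mem_closedBall_zero_iff, Prod.norm_def]
    have hu' : ‖u.1‖ ^ P + ‖u.2‖ ^ P = 1 := hu
    have h1 : 0 ≤ ‖u.1‖ ^ P := by positivity
    have h2 : 0 ≤ ‖u.2‖ ^ P := by positivity
    apply max_le
    · by_contra hc
      push Not at hc
      have := Real.one_lt_rpow hc hP
      linarith
    · by_contra hc
      push Not at hc
      have := Real.one_lt_rpow hc hP
      linarith
  have hcompact : IsCompact S := Metric.isCompact_of_isClosed_isBounded hclosed hb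
  have hne : S.Nonempty := ⟨(1, 0), by simp [hS, Real.zero_rpow hP.ne']⟩
  have hGc : Continuous (GG q) := by
    unfold GG
    refine continuous_finsetSum _ fun j _ => ?_
    refine Continuous.rpow_const ?_ fun _ => Or.inr hq.le
    fun_prop
  obtain ⟨v, hv, hmax⟩ := hcompact.exists_isMaxOn hne hGc.continuousOn
  exact ⟨v, hv, fun u hu => hmax hu⟩

lemma norm_om_sub_one : ‖1 - om‖ ^ 2 = 3 := by
  rw [← Complex.normSq_eq_norm_sq, Complex.normSq_apply]
  simp only [om, Complex.sub_re, Complex.sub_im, Complex.one_re, Complex.one_im]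
  linarith [sqrt3_sq]

lemma norm_om2_sub_one : ‖1 - om ^ 2‖ ^ 2 = 3 := by
  rw [om_sq, ← Complex.normSq_eq_norm_sq, Complex.normSq_apply]
  simp only [Complex.sub_re, Complex.sub_im, Complex.one_re, Complex.one_im]
  linarith [sqrt3_sq]

/-- numerical inequality -/
lemma num_ineq {q : ℝ} (hq2 : q < 2) : 2 * (3 : ℝ) ^ (q / 2) < 2 ^ q + 2 := by
  set t : ℝ := 1 - q / 2 with ht
  have ht0 : 0 < t := by linarith
  have e1 : (2 : ℝ) ^ q = 4 * (4 : ℝ) ^ (-t) := by
    have : (2 : ℝ) ^ q = (4 : ℝ) ^ (q / 2) := by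
      rw [show (4 : ℝ) = 2 ^ (2 : ℝ) by norm_num, ← Real.rpow_mul (by norm_num)]
      congr 1
      ring
    rw [this, show q / 2 = 1 + -t by rw [ht]; ring, Real.rpow_add (by norm_num), Real.rpow_one]
  have e2 : (3 : ℝ) ^ (q / 2) = 3 * (3 : ℝ) ^ (-t) := by
    rw [show q / 2 = 1 + -t by rw [ht]; ring, Real.rpow_add (by norm_num), Real.rpow_one]
  rw [e1, e2]
  have h1 : 1 + -(t * Real.log (4 / 3)) ≤ (4 / 3 : ℝ) ^ (-t) := by
    rw [Real.rpow_def_of_pos (by norm_num)]
    have := Real.add_one_le_exp (Real.log (4 / 3) * -t)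
    linarith
  have h2 : 1 + t * Real.log 3 ≤ (3 : ℝ) ^ t := by
    rw [Real.rpow_def_of_pos (by norm_num)]
    have := Real.add_one_le_exp (Real.log 3 * t)
    linarith
  have h3 : 4 * Real.log (4 / 3) < 2 * Real.log 3 := by
    have a1 : 4 * Real.log (4 / 3) = Real.log ((4 / 3) ^ 4) := by
      rw [Real.log_pow]; norm_num
    have a2 : 2 * Real.log 3 = Real.log (3 ^ 2) := by
      rw [Real.log_pow]; norm_num
    rw [a1, a2]
    exact Real.log_lt_log (by norm_num) (by norm_num)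
  have h4 : 0 < 4 * (4 / 3 : ℝ) ^ (-t) + 2 * (3 : ℝ) ^ t - 6 := by nlinarith
  have h5 : 0 < (3 : ℝ) ^ (-t) := by positivity
  have e3 : (4 / 3 : ℝ) ^ (-t) * (3 : ℝ) ^ (-t) = (4 : ℝ) ^ (-t) := by
    rw [← Real.mul_rpow (by norm_num) (by norm_num)]
    norm_num
  have e4 : (3 : ℝ) ^ t * (3 : ℝ) ^ (-t) = 1 := by
    rw [← Real.rpow_add (by norm_num)]
    simp
  have h6 := mul_pos h4 h5
  have e5 : (4 * (4 / 3 : ℝ) ^ (-t) + 2 * (3 : ℝ) ^ t - 6) * (3 : ℝ) ^ (-t)
      = 4 * (4 : ℝ) ^ (-t) + 2 - 6 * (3 : ℝ) ^ (-t) := by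
    calc _ = 4 * ((4 / 3 : ℝ) ^ (-t) * (3 : ℝ) ^ (-t)) + 2 * ((3 : ℝ) ^ t * (3 : ℝ) ^ (-t))
          - 6 * (3 : ℝ) ^ (-t) := by ring
      _ = _ := by rw [e3, e4]; ring
  rw [e5] at h6
  linarith

/-- The value at the symmetric point. -/
lemma GG_diag {q : ℝ} {h : ℝ} (hh : 0 < h) :
    GG q ((h : ℂ), (h : ℂ)) = h ^ q * (2 ^ q + 2) := by
  unfold GG
  rw [Fin.sum_univ_three, ch_zero, ch_one, ch_two]
  have e0 : ‖(h : ℂ) + 1 * (h : ℂ)‖ = 2 * h := by
    rw [one_mul, ← two_mul, norm_mul, Complex.norm_real, Real.norm_of_nonneg hh.le]; simp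
  have e1 : ‖(h : ℂ) + om * (h : ℂ)‖ = h := by
    have : (h : ℂ) + om * h = -(om ^ 2) * h := by
      linear_combination (h : ℂ) * om_sum
    rw [this, norm_mul, norm_neg, norm_pow, norm_om, Complex.norm_real,
      Real.norm_of_nonneg hh.le]; simp
  have e2 : ‖(h : ℂ) + om ^ 2 * (h : ℂ)‖ = h := by
    have : (h : ℂ) + om ^ 2 * h = -om * h := by
      linear_combination (h : ℂ) * om_sum
    rw [this, norm_mul, norm_neg, norm_om, Complex.norm_real,
      Real.norm_of_nonneg hh.le]; simp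
  simp only [e0, e1, e2]
  rw [Real.mul_rpow (by norm_num) hh.le]
  ring

/-- Conjugate exponents and the maximiser: nondegeneracy. -/
lemma max_nondeg {P q : ℝ} (hP : 2 < P) (hPq : P.HolderConjugate q) {v : ℂ × ℂ}
    (hv : ‖v.1‖ ^ P + ‖v.2‖ ^ P = 1)
    (hmax : ∀ u : ℂ × ℂ, ‖u.1‖ ^ P + ‖u.2‖ ^ P = 1 → GG q u ≤ GG q v) :
    v.1 ≠ 0 ∧ v.2 ≠ 0 ∧ ∀ j, v.1 + ch j * v.2 ≠ 0 := by
  have hP0 : 0 < P := by linarith
  have hq1 : 1 < q := hPq.symm.lt
  have hq0 : 0 < q := by linarith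
  have hqP : q * P = P + q := by
    have := hPq.mul_eq_add
    linarith
  have hq2 : q < 2 := by
    by_contra hc
    push Not at hc
    nlinarith
  -- comparison point
  set h : ℝ := (1 / 2 : ℝ) ^ P⁻¹ with hh
  have hh0 : 0 < h := by positivity
  have hhP : h ^ P = 1 / 2 := Real.rpow_inv_rpow (by norm_num) hP0.ne'
  have hhq : h ^ q = 2 ^ (1 - q) := by
    rw [hh, ← Real.rpow_mul (by norm_num), one_div, Real.inv_rpow (by norm_num),
      ← Real.rpow_neg (by norm_num)]
    congr 1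
    field_simp
    linarith
  have hcomp : 2 ^ (1 - q) * (2 ^ q + 2) ≤ GG q v := by
    rw [← hhq, ← GG_diag hh0]
    apply hmax
    simp only [Complex.norm_real, Real.norm_of_nonneg hh0.le, hhP]
    norm_num
  have e2 : (2 : ℝ) ^ (1 - q) * (2 ^ q + 2) = 2 + 2 ^ (2 - q) := by
    rw [mul_add, ← Real.rpow_add (by norm_num)]
    have a1 : (2 : ℝ) ^ (1 - q + q) = 2 := by
      rw [show (1 - q + q) = 1 by ring, Real.rpow_one]
    have a2 : (2 : ℝ) ^ (1 - q) * 2 = 2 ^ (2 - q) := by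
      rw [show (2 - q) = (1 - q) + 1 by ring, Real.rpow_add (by norm_num), Real.rpow_one]
    rw [a1, a2]
  have h3 : 3 < GG q v := by
    have : (1 : ℝ) < 2 ^ (2 - q) := Real.one_lt_rpow (by norm_num) (by linarith)
    linarith
  refine ⟨?_, ?_, ?_⟩
  · intro h0
    rw [h0, norm_zero, Real.zero_rpow hP0.ne', zero_add] at hv
    have hv2 : ‖v.2‖ = 1 := by
      have := Real.rpow_rpow_inv (norm_nonneg v.2) hP0.ne'
      rw [hv, Real.one_rpow] at this
      exact this.symm
    have : GG q v = 3 := by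
      unfold GG
      simp only [h0, zero_add, norm_mul, norm_ch, hv2, one_mul, Real.one_rpow]
      simp
    linarith
  · intro h0
    rw [h0, norm_zero, Real.zero_rpow hP0.ne', add_zero] at hv
    have hv2 : ‖v.1‖ = 1 := by
      have := Real.rpow_rpow_inv (norm_nonneg v.1) hP0.ne'
      rw [hv, Real.one_rpow] at this
      exact this.symm
    have : GG q v = 3 := by
      unfold GG
      simp only [h0, mul_zero, add_zero, hv2, Real.one_rpow]
      simp
    linarith
  · intro j hj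
    have h1 : v.1 = -(ch j * v.2) := eq_neg_of_add_eq_zero_left hj
    have hn : ‖v.1‖ = ‖v.2‖ := by rw [h1, norm_neg, norm_mul, norm_ch, one_mul]
    have hv2P : ‖v.2‖ ^ P = 1 / 2 := by rw [hn] at hv; linarith
    have hv2 : ‖v.2‖ = h := by
      have := Real.rpow_rpow_inv (norm_nonneg v.2) hP0.ne'
      rw [hv2P] at this
      exact this.symm
    have hterm : ∀ i, i ≠ j → ‖v.1 + ch i * v.2‖ ^ q = 3 ^ (q / 2) * h ^ q := by
      intro i hij
      have a1 : ‖v.1 + ch i * v.2‖ = ‖ch i - ch j‖ * h := by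
        rw [h1, ← hv2, ← norm_mul]
        congr 1
        ring
      have a2 : ‖ch i - ch j‖ ^ 2 = 3 := by
        have b1 : ‖om‖ = 1 := norm_om
        fin_cases i <;> fin_cases j
        · exact absurd rfl hij
        · simp only [Fin.zero_eta, Fin.mk_one, ch_zero, ch_one]
          exact norm_om_sub_one
        · simp only [Fin.zero_eta, Fin.reduceFinMk, ch_zero, ch_two]
          exact norm_om2_sub_one
        · simp only [Fin.zero_eta, Fin.mk_one, ch_zero, ch_one]
          rw [norm_sub_rev]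
          exact norm_om_sub_one
        · exact absurd rfl hij
        · simp only [Fin.mk_one, Fin.reduceFinMk, ch_one, ch_two]
          have : om - om ^ 2 = om * (1 - om) := by ring
          rw [this, norm_mul, norm_om, one_mul]
          exact norm_om_sub_one
        · simp only [Fin.zero_eta, Fin.reduceFinMk, ch_zero, ch_two]
          rw [norm_sub_rev]
          exact norm_om2_sub_one
        · simp only [Fin.mk_one, Fin.reduceFinMk, ch_one, ch_two]
          have : om ^ 2 - om = -(om * (1 - om)) := by ring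
          rw [this, norm_neg, norm_mul, norm_om, one_mul]
          exact norm_om_sub_one
        · exact absurd rfl hij
      rw [a1, Real.mul_rpow (norm_nonneg _) hh0.le]
      congr 1
      rw [← a2, ← Real.rpow_natCast, ← Real.rpow_mul (norm_nonneg _)]
      congr 1
      push_cast
      ring
    have hG : GG q v = 2 * (3 ^ (q / 2) * h ^ q) := by
      unfold GG
      rw [← Finset.add_sum_erase _ _ (mem_univ j)]
      rw [Finset.sum_congr rfl fun i hi => hterm i (Finset.ne_of_mem_erase hi)]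
      rw [hj, norm_zero, Real.zero_rpow hq0.ne', zero_add, Finset.sum_const,
        Finset.card_erase_of_mem (mem_univ j), Finset.card_univ, Fintype.card_fin]
      simp
    have hlt : GG q v < 2 ^ (1 - q) * (2 ^ q + 2) := by
      rw [hG, hhq]
      have := num_ineq hq2
      have h2 : (0 : ℝ) < 2 ^ (1 - q) := by positivity
      nlinarith
    linarith

/-- A rigidity statement for triples of complex numbers with vanishing sum. -/
lemma triple_rigid {l : ℝ} (hl : l < 0) (t : Fin 3 → ℂ) (ht : ∀ i, t i ≠ 0)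
    (h0 : ∑ i, t i = 0) (h1 : ∑ i, ((‖t i‖ ^ l : ℝ) : ℂ) * t i = 0) : ∀ i j, ‖t i‖ = ‖t j‖ := by
  -- the index of the longest one
  obtain ⟨m, -, hm⟩ := Finset.exists_max_image Finset.univ (fun i => ‖t i‖) ⟨0, mem_univ _⟩
  have key : ∀ a b c : Fin 3, (∑ i, t i = t a + t b + t c) →
      (∑ i, ((‖t i‖ ^ l : ℝ) : ℂ) * t i = ((‖t a‖ ^ l : ℝ) : ℂ) * t a
        + ((‖t b‖ ^ l : ℝ) : ℂ) * t b + ((‖t c‖ ^ l : ℝ) : ℂ) * t c) →
      ‖t b‖ ≤ ‖t a‖ → ‖t c‖ ≤ ‖t a‖ → ‖t b‖ = ‖t a‖ := by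
    intro a b c e0 e1 hb hc
    rw [h0] at e0
    rw [h1] at e1
    by_contra hne
    have hb' : ‖t b‖ < ‖t a‖ := lt_of_le_of_ne hb hne
    have pa : 0 < ‖t a‖ := norm_pos_iff.2 (ht a)
    have pb : 0 < ‖t b‖ := norm_pos_iff.2 (ht b)
    have pc : 0 < ‖t c‖ := norm_pos_iff.2 (ht c)
    have hab : ‖t a‖ ^ l < ‖t b‖ ^ l := Real.rpow_lt_rpow_of_neg pb hb' hl
    have hac : ‖t a‖ ^ l ≤ ‖t c‖ ^ l := Real.rpow_le_rpow_of_nonpos pc hc hl.le
    set A := ‖t a‖ ^ l
    set B := ‖t b‖ ^ l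
    set C := ‖t c‖ ^ l
    set x : ℝ := (C - A) / (B - A) with hx
    have hBA : 0 < B - A := by linarith
    have hx0 : 0 ≤ x := div_nonneg (by linarith) hBA.le
    have hrel : t b = -((x : ℂ) * t c) := by
      have h2 : ((B - A : ℝ) : ℂ) * t b + ((C - A : ℝ) : ℂ) * t c = 0 := by
        push_cast
        linear_combination (A : ℂ) * e0 - e1
      have h3 : ((B - A : ℝ) : ℂ) ≠ 0 := by exact_mod_cast hBA.ne'
      have h4 : ((B - A : ℝ) : ℂ) * (x : ℂ) = ((C - A : ℝ) : ℂ) := by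
        rw [← Complex.ofReal_mul, hx, mul_div_cancel₀ _ hBA.ne']
      apply mul_left_cancel₀ h3
      rw [mul_neg, ← mul_assoc, h4]
      exact eq_neg_of_add_eq_zero_left h2
    have hta : t a = ((x - 1 : ℝ) : ℂ) * t c := by
      rw [hrel] at e0
      push_cast
      linear_combination -e0
    have na : ‖t a‖ = |x - 1| * ‖t c‖ := by
      rw [hta, norm_mul, Complex.norm_real, Real.norm_eq_abs]
    have nb : ‖t b‖ = x * ‖t c‖ := by
      rw [hrel, norm_neg, norm_mul, Complex.norm_real, Real.norm_of_nonneg hx0]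
    have hxpos : 0 < x := by
      rcases hx0.lt_or_eq with h | h
      · exact h
      · rw [← h, zero_mul] at nb; linarith
    rcases le_total x 1 with h | h
    · rw [abs_of_nonpos (by linarith)] at na
      nlinarith
    · rw [abs_of_nonneg (by linarith)] at na
      nlinarith
  have hm' : ∀ i, ‖t i‖ ≤ ‖t m‖ := fun i => hm i (mem_univ i)
  have hall : ∀ i, ‖t i‖ = ‖t m‖ := by
    intro i
    have hs := Fin.sum_univ_three (fun i => t i)
    have hs' := Fin.sum_univ_three (fun i => ((‖t i‖ ^ l : ℝ) : ℂ) * t i)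
    by_cases him : i = m
    · rw [him]
    have hc : ∃ c : Fin 3, (∑ i, t i = t m + t i + t c) ∧
        (∑ i, ((‖t i‖ ^ l : ℝ) : ℂ) * t i = ((‖t m‖ ^ l : ℝ) : ℂ) * t m
        + ((‖t i‖ ^ l : ℝ) : ℂ) * t i + ((‖t c‖ ^ l : ℝ) : ℂ) * t c) := by
      rw [hs, hs']
      fin_cases i <;> fin_cases m
      · exact absurd rfl him
      · exact ⟨2, by simp only [Fin.zero_eta, Fin.mk_one]; ring,
          by simp only [Fin.zero_eta, Fin.mk_one]; ring⟩
      · exact ⟨1, by simp only [Fin.zero_eta, Fin.reduceFinMk]; ring,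
          by simp only [Fin.zero_eta, Fin.reduceFinMk]; ring⟩
      · exact ⟨2, by simp only [Fin.zero_eta, Fin.mk_one],
          by simp only [Fin.zero_eta, Fin.mk_one]⟩
      · exact absurd rfl him
      · exact ⟨0, by simp only [Fin.mk_one, Fin.reduceFinMk]; ring,
          by simp only [Fin.mk_one, Fin.reduceFinMk]; ring⟩
      · exact ⟨1, by simp only [Fin.zero_eta, Fin.reduceFinMk]; ring,
          by simp only [Fin.zero_eta, Fin.reduceFinMk]; ring⟩
      · exact ⟨0, by simp only [Fin.mk_one, Fin.reduceFinMk]; ring,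
          by simp only [Fin.mk_one, Fin.reduceFinMk]; ring⟩
      · exact absurd rfl him
    obtain ⟨c, hc1, hc2⟩ := hc
    exact key m i c hc1 hc2 (hm' i) (hm' c)
  intro i j
  rw [hall i, hall j]

end

end Pool.Agent.helper68.Gl
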