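import Pool.Agent.helper68.Gl.Main

/-!
# The case `p ≥ 3`
-/

set_option linter.unusedSectionVars false

namespace Pool.Agent.helper68.Gl

open Finset Function
open scoped ComplexConjugate ENNReal

noncomputable section

lemma qev_single {d n : ℕ} (r₀ : Fin d → Fin n) (C : ℂ) (v : Fin n → ℂ) :
    qev (Pi.single r₀ C) v = C * ∏ s, v (r₀ s) := by
  unfold qev
  rw [Fintype.sum_eq_single r₀]
  · rw [Pi.single_eq_same]
  · intro r hr
    rw [Pi.single_eq_of_ne hr, zero_mul]

lemma sum_zpow_eq_zero {M : ℕ} {ξ : ℂ} (hξ : IsPrimitiveRoot ξ M) {E : ℤ}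
    (hE : ¬ (M : ℤ) ∣ E) : ∑ a : Fin M, (ξ ^ (a : ℕ)) ^ E = 0 := by
  have h1 : ∀ a : Fin M, (ξ ^ (a : ℕ)) ^ E = (ξ ^ E) ^ (a : ℕ) := by
    intro a
    rw [← zpow_natCast, ← zpow_natCast, ← zpow_mul, ← zpow_mul, mul_comm]
  simp only [h1]
  rw [Fin.sum_univ_eq_sum_range (fun i => (ξ ^ E) ^ i) M]
  have hne : ξ ^ E ≠ 1 := by
    intro h
    exact hE ((hξ.zpow_eq_one_iff_dvd E).1 h)
  have hpow : (ξ ^ E) ^ M = 1 := by
    rw [← zpow_natCast, ← zpow_mul, mul_comm, zpow_mul, zpow_natCast, hξ.pow_eq_one, one_zpow]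
  have h2 := mul_neg_geom_sum (ξ ^ E) M
  rw [hpow, sub_self] at h2
  rcases mul_eq_zero.1 h2 with h | h
  · exact absurd (sub_eq_zero.1 h).symm hne
  · exact h

/-- The criterion is satisfied for `p ≥ 3`. -/
theorem shared_three {p : ℝ≥0∞} [Fact (1 ≤ p)] (hp3 : 3 ≤ p.toReal) : Shared (LP p) := by
  set P : ℝ := p.toReal with hP
  have hP0 : 0 < P := by linarith
  set K : ℕ := ⌊P⌋₊ with hK
  have hKP : (K : ℝ) ≤ P := Nat.floor_le hP0.le
  have hK3 : 3 ≤ K := Nat.le_floor (by exact_mod_cast hp3)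
  set M : ℕ := 4 * K + 1 with hM
  have hM0 : M ≠ 0 := by omega
  have : NeZero M := ⟨hM0⟩
  obtain ⟨ξ, hξ⟩ : ∃ ξ : ℂ, IsPrimitiveRoot ξ M := ⟨_, Complex.isPrimitiveRoot_exp M hM0⟩
  have hξn : ‖ξ‖ = 1 := hξ.norm'_eq_one hM0
  set η : Fin M → ℂ := fun a => ξ ^ (a : ℕ) with hη
  have hηn : ∀ a, ‖η a‖ = 1 := fun a => by simp [hη, hξn]
  have hη0 : ∀ a, η a ≠ 0 := fun a h => by
    have := hηn a
    rw [h, norm_zero] at this
    exact zero_ne_one this
  have hηc : ∀ a, conj (η a) = (η a)⁻¹ := fun a => by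
    rw [Complex.inv_def, Complex.normSq_eq_norm_sq, hηn]
    simp
  set r1 : ℝ := (2 / 3 : ℝ) ^ P⁻¹ with hr1
  set r2 : ℝ := (1 / 3 : ℝ) ^ P⁻¹ with hr2
  have hr10 : 0 < r1 := by positivity
  have hr20 : 0 < r2 := by positivity
  have hr1P : r1 ^ P = 2 / 3 := Real.rpow_inv_rpow (by norm_num) hP0.ne'
  have hr2P : r2 ^ P = 1 / 3 := Real.rpow_inv_rpow (by norm_num) hP0.ne'
  set z : Fin M → Fin 2 → ℂ := fun a => ![(r1 : ℂ) * η a, (r2 : ℂ) * ((η a) ^ (-2 : ℤ))] with hz
  set σ : Fin M → ℂ := fun a => η a ^ (2 * K) with hσ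
  set R : Fin 2 → ℝ := ![r1, r2] with hR
  set ex : Fin 2 → ℤ := ![1, -2] with hex
  have hex1 : ex 1 = -2 := rfl
  have hR1 : R 1 = r2 := rfl
  have hzR : ∀ a i, z a i = (R i : ℂ) * (η a) ^ (ex i) := by
    intro a i
    fin_cases i
    · simp [hz, hR, hex]
    · simp [hz, hR, hex]
  have hzn : ∀ a i, ‖z a i‖ = R i := by
    intro a i
    rw [hzR, norm_mul, norm_zpow, hηn, one_zpow, mul_one, Complex.norm_real]
    fin_cases i
    · simp [hR, abs_of_pos hr10]
    · simp [hR, abs_of_pos hr20]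
  refine shared_of_data (z := z) (σ := σ) (d := 3) (m := K) (by linarith) ?_ ?_ ?_ (by norm_num)
    (by exact_mod_cast hp3) (Pi.single ![0, 0, 1] (((r1 ^ 2 * r2 : ℝ) : ℂ)⁻¹)) ?_ ?_
    (by omega) hKP (Pi.single (fun _ => 1) 1) ?_ ?_
  · intro a
    simp only [hzn]
    rw [Fin.sum_univ_two]
    simp only [hR, Matrix.cons_val_zero, Matrix.cons_val_one]
    rw [hr1P, hr2P]
    norm_num
  · intro a
    simp [hσ, hηn]
  · intro k hk r
    have hkK : k ≤ K := Nat.le_floor hk
    have hE1 : ∀ i, ex i ≤ 1 := by intro i; fin_cases i <;> simp [hex]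
    have hE2 : ∀ i, -2 ≤ ex i := by intro i; fin_cases i <;> simp [hex]
    have hs1 : ∑ l, ex (r l) ≤ k := by
      calc ∑ l, ex (r l) ≤ ∑ l : Fin k, (1 : ℤ) := Finset.sum_le_sum fun l _ => hE1 _
        _ = k := by simp
    have hs2 : -2 * (k : ℤ) ≤ ∑ l, ex (r l) := by
      calc -2 * (k : ℤ) = ∑ l : Fin k, (-2 : ℤ) := by simp; ring
        _ ≤ ∑ l, ex (r l) := Finset.sum_le_sum fun l _ => hE2 _
    have hterm : ∀ a, conj (σ a) * ∏ l, z a (r l)
        = (∏ l, (R (r l) : ℂ)) * (η a) ^ (-(2 * K : ℤ) + ∑ l, ex (r l)) := by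
      intro a
      simp only [hzR]
      rw [Finset.prod_mul_distrib, zpow_add₀ (hη0 a)]
      have h1 : conj (σ a) = (η a) ^ (-(2 * K : ℤ)) := by
        simp only [hσ]
        rw [map_pow, hηc, inv_pow, zpow_neg]
        norm_cast
      have h2 : ∏ l, (η a) ^ (ex (r l)) = (η a) ^ (∑ l, ex (r l)) := by
        have : ∀ s : Finset (Fin k), ∏ l ∈ s, (η a) ^ (ex (r l)) = (η a) ^ (∑ l ∈ s, ex (r l)) := by
          intro s
          induction s using Finset.induction with
          | empty => simp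
          | insert b s hb ih => rw [Finset.prod_insert hb, Finset.sum_insert hb, ih,
              zpow_add₀ (hη0 a)]
        exact this _
      rw [h1, h2]
      ring
    simp only [hterm]
    rw [← Finset.mul_sum, sum_zpow_eq_zero hξ, mul_zero]
    intro hdvd
    have hab : (M : ℤ) = 4 * K + 1 := by rw [hM]; push_cast; ring
    have hneg : -(2 * K : ℤ) + ∑ l, ex (r l) < 0 := by
      have : (k : ℤ) ≤ K := by exact_mod_cast hkK
      have : (3 : ℤ) ≤ K := by exact_mod_cast hK3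
      linarith
    have hbig : -(M : ℤ) < -(2 * K : ℤ) + ∑ l, ex (r l) := by
      have : (k : ℤ) ≤ K := by exact_mod_cast hkK
      rw [hab]
      linarith
    obtain ⟨t, ht⟩ := hdvd
    rw [ht] at hneg hbig
    have hMpos : (0 : ℤ) < M := by omega
    have t1 : t < 0 := by
      by_contra h
      push Not at h
      nlinarith
    have t2 : -1 < t := by
      by_contra h
      push Not at h
      nlinarith
    omega
  · -- the bound on Q
    intro v
    rw [qev_single, Fin.prod_univ_three, norm_mul, norm_mul, norm_mul, norm_inv,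
      Complex.norm_real, Real.norm_of_nonneg (by positivity), Fin.sum_univ_two]
    simp only [Matrix.cons_val_zero, Matrix.cons_val_one, Matrix.cons_val]
    set x := ‖v 0‖ with hx
    set y := ‖v 1‖ with hy
    have hx0 : 0 ≤ x := norm_nonneg _
    have hy0 : 0 ≤ y := norm_nonneg _
    set X := x / r1 with hX
    set Y := y / r2 with hY
    have hX0 : 0 ≤ X := by positivity
    have hY0 : 0 ≤ Y := by positivity
    have hxX : x ^ P = 2 / 3 * X ^ P := by
      rw [hX, Real.div_rpow hx0 hr10.le, hr1P]; ring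
    have hyY : y ^ P = 1 / 3 * Y ^ P := by
      rw [hY, Real.div_rpow hy0 hr20.le, hr2P]; ring
    have hag := Real.geom_mean_le_arith_mean2_weighted (w₁ := 2 / 3) (w₂ := 1 / 3)
      (p₁ := X ^ P) (p₂ := Y ^ P) (by norm_num) (by norm_num) (by positivity) (by positivity)
      (by norm_num)
    have e1 : (r1 ^ 2 * r2)⁻¹ * (x * x * y) = X ^ 2 * Y := by
      rw [hX, hY]; field_simp
    have e2 : X ^ 2 * Y = ((X ^ P) ^ (2 / 3 : ℝ) * (Y ^ P) ^ (1 / 3 : ℝ)) ^ (3 / P) := by
      rw [Real.mul_rpow (by positivity) (by positivity), ← Real.rpow_mul (by positivity),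
        ← Real.rpow_mul (by positivity), ← Real.rpow_mul (by positivity),
        ← Real.rpow_mul (by positivity)]
      have a1 : P * ((2 / 3) * (3 / P)) = ((2 : ℕ) : ℝ) := by push_cast; field_simp
      have a2 : P * ((1 / 3) * (3 / P)) = 1 := by field_simp
      rw [a1, a2, Real.rpow_one, Real.rpow_natCast]
    rw [e1, e2, hxX, hyY]
    have e3 : ((3 : ℕ) : ℝ) / P = 3 / P := by norm_num
    rw [e3]
    exact Real.rpow_le_rpow (by positivity) hag (by positivity)
  · intro a
    rw [qev_single, Fin.prod_univ_three]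
    simp only [Matrix.cons_val_zero, Matrix.cons_val_one, Matrix.cons_val, hz]
    have h1 : (r1 : ℂ) ≠ 0 := by exact_mod_cast hr10.ne'
    have h2 : (r2 : ℂ) ≠ 0 := by exact_mod_cast hr20.ne'
    have h3 := hη0 a
    have h4 : η a ^ (-2 : ℤ) = (η a ^ 2)⁻¹ := by rw [zpow_neg]; norm_cast
    rw [h4, Complex.ofReal_mul, Complex.ofReal_pow]
    field_simp
  · simp only [qev_single, Finset.prod_const, Finset.card_univ, Fintype.card_fin, one_mul, hzR,
      mul_pow]
    rw [← Finset.mul_sum]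
    have : ∀ a : Fin M, (η a ^ ex 1) ^ K = (ξ ^ (a : ℕ)) ^ (-2 * K : ℤ) := by
      intro a
      rw [hex1, zpow_mul, zpow_natCast]
    simp only [this]
    rw [sum_zpow_eq_zero hξ, mul_zero]
    intro hdvd
    have hab : (M : ℤ) = 4 * K + 1 := by rw [hM]; push_cast; ring
    obtain ⟨t, ht⟩ := hdvd
    rw [hab] at ht
    have hK' : (3 : ℤ) ≤ K := by exact_mod_cast hK3
    have t1 : t < 0 := by
      by_contra h
      push Not at h
      nlinarith
    have t2 : -1 < t := by
      by_contra h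
      push Not at h
      nlinarith
    omega
  · simp only [qev_single, Finset.prod_const, Finset.card_univ, Fintype.card_fin, one_mul, hzR,
      mul_pow]
    have : ∀ a : Fin M, σ a * ((R 1 : ℂ) ^ K * (η a ^ ex 1) ^ K) = (R 1 : ℂ) ^ K := by
      intro a
      have h3 := hη0 a
      rw [hex1, zpow_neg, inv_pow]
      have : (η a ^ (2 : ℤ)) ^ K = η a ^ (2 * K) := by
        rw [pow_mul]; norm_cast
      rw [this]
      simp only [hσ]
      field_simp
    simp only [this]
    rw [Finset.sum_const, Finset.card_univ, Fintype.card_fin, nsmul_eq_mul]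
    apply mul_ne_zero
    · exact_mod_cast hM0
    · apply pow_ne_zero
      rw [hR1]
      exact_mod_cast hr20.ne'

end

end Pool.Agent.helper68.Gl
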