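import Pool.Agent.helper68.Gl.Poly

/-!
# Averages of a holomorphic function which vanish to high order
-/

set_option linter.unusedSectionVars false

namespace Pool.Agent.helper68.Gl

open Finset Function Filter Topology Asymptotics Metric

noncomputable section

lemma multi_expand {X : Type*} [NormedAddCommGroup X] [NormedSpace ℂ X] {n k : ℕ}
    (T : ContinuousMultilinearMap ℂ (fun _ : Fin k => X) ℂ) (e : Fin n → X) (z : Fin n → ℂ) :
    T (fun _ => ∑ i, z i • e i) = ∑ r : Fin k → Fin n, (∏ l, z (r l)) * T (fun l => e (r l)) := by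
  have h := T.toMultilinearMap.map_sum (g := fun _ i => z i • e i)
  refine h.trans (Finset.sum_congr rfl fun r _ => ?_)
  have h2 := T.toMultilinearMap.map_smul_univ (fun l => z (r l)) (fun l => e (r l))
  exact h2

lemma kill_bound {X : Type*} [NormedAddCommGroup X] [NormedSpace ℂ X] {g : X → ℂ}
    (hg : AnalyticOnNhd ℂ g (ball 0 1)) (hb : ∀ x ∈ ball (0 : X) 1, ‖g x‖ ≤ 1)
    {Z : Type*} [Fintype Z] {n K : ℕ} (e : Fin n → X) (z : Z → Fin n → ℂ) (s : Z → ℂ)
    (hs : ∀ a, ‖s a‖ ≤ 1)
    (hkill : ∀ k ≤ K, ∀ r : Fin k → Fin n, ∑ a, s a * ∏ l, z a (r l) = 0)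
    (hu : ∀ a, ‖∑ i, z a i • e i‖ ≤ 1)
    {x : X} {r : ℝ} (hr : r < 1) (hx : ‖x‖ ≤ r) {τ : ℂ} (hτ : ‖τ‖ < 1 - r) :
    ‖∑ a, s a * g (x + τ • ∑ i, z a i • e i)‖ ≤ Fintype.card Z * (‖τ‖ / (1 - r)) ^ (K + 1) := by
  set u : Z → X := fun a => ∑ i, z a i • e i with hudef
  set G : ℂ → ℂ := fun τ => ∑ a, s a * g (x + τ • u a) with hG
  have hmem : ∀ τ ∈ ball (0 : ℂ) (1 - r), ∀ a, x + τ • u a ∈ ball (0 : X) 1 := by
    intro τ hτ a
    rw [mem_ball_zero_iff] at hτ ⊢
    calc ‖x + τ • u a‖ ≤ ‖x‖ + ‖τ‖ * ‖u a‖ := by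
          refine (norm_add_le _ _).trans ?_
          rw [norm_smul]
      _ ≤ r + ‖τ‖ * 1 := by
          have := hu a
          gcongr
      _ < 1 := by linarith
  have hs0 : ∑ a, s a = 0 := by
    have := hkill 0 (Nat.zero_le _) Fin.elim0
    simpa using this
  have hG0 : G 0 = 0 := by
    simp only [hG, zero_smul, add_zero, ← Finset.sum_mul, hs0, zero_mul]
  have hdiff : DifferentiableOn ℂ G (ball (0 : ℂ) (1 - r)) := by
    intro τ hτ
    apply DifferentiableAt.differentiableWithinAt
    apply DifferentiableAt.fun_sum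
    intro a _
    apply DifferentiableAt.const_mul
    have h1 : DifferentiableAt ℂ g (x + τ • u a) := (hg _ (hmem τ hτ a)).differentiableAt
    have h2 : DifferentiableAt ℂ (fun τ : ℂ => x + τ • u a) τ := by fun_prop
    exact h1.comp τ h2
  have hmaps : Set.MapsTo G (ball (0 : ℂ) (1 - r)) (closedBall (G 0) (Fintype.card Z)) := by
    intro τ hτ
    rw [hG0, mem_closedBall_zero_iff]
    refine (norm_sum_le _ _).trans ?_
    have : ∀ a ∈ (univ : Finset Z), ‖s a * g (x + τ • u a)‖ ≤ 1 := by
      intro a _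
      rw [norm_mul]
      calc ‖s a‖ * ‖g (x + τ • u a)‖ ≤ 1 * 1 := by
            have h1 := hs a
            have h2 := hb _ (hmem τ hτ a)
            gcongr
        _ = 1 := one_mul 1
    refine (Finset.sum_le_sum this).trans (le_of_eq ?_)
    simp
  have hxb : x ∈ ball (0 : X) 1 := by
    rw [mem_ball_zero_iff]; linarith
  obtain ⟨P, hP⟩ := hg x hxb
  have hO := hP.isBigO_sub_partialSum_pow (K + 1)
  have hGO : G =O[𝓝 0] fun τ : ℂ => ‖τ‖ ^ (K + 1) := by
    have e1 : G = fun τ => ∑ a, s a * (g (x + τ • u a) - P.partialSum (K + 1) (τ • u a)) := by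
      funext τ
      simp only [hG, mul_sub, Finset.sum_sub_distrib]
      have : ∑ a, s a * P.partialSum (K + 1) (τ • u a) = 0 := by
        have e2 : ∀ a, s a * P.partialSum (K + 1) (τ • u a)
            = ∑ k ∈ Finset.range (K + 1), ∑ q : Fin k → Fin n,
              τ ^ k * (s a * ∏ l, z a (q l)) * P k (fun l => e (q l)) := by
          intro a
          rw [FormalMultilinearSeries.partialSum, Finset.mul_sum]
          refine Finset.sum_congr rfl fun k _ => ?_
          have h1 : P k (fun _ => τ • u a) = τ ^ k * P k (fun _ => u a) := by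
            have := (P k).map_smul_univ (fun _ => τ) (fun _ => u a)
            simpa using this
          have h2 := multi_expand (P k) e (z a)
          rw [h1, hudef]
          simp only
          rw [h2, Finset.mul_sum, Finset.mul_sum]
          refine Finset.sum_congr rfl fun q _ => ?_
          ring
        simp only [e2]
        rw [Finset.sum_comm]
        refine Finset.sum_eq_zero fun k hk => ?_
        rw [Finset.sum_comm]
        refine Finset.sum_eq_zero fun q _ => ?_
        rw [← Finset.sum_mul, ← Finset.mul_sum,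
          hkill k (by rw [Finset.mem_range] at hk; omega) q, mul_zero, zero_mul]
      rw [this, sub_zero]
    rw [e1]
    suffices hA : ∀ a ∈ (univ : Finset Z), (fun τ : ℂ => s a * (g (x + τ • u a)
        - P.partialSum (K + 1) (τ • u a))) =O[𝓝 0] fun τ : ℂ => ‖τ‖ ^ (K + 1) from
      IsBigO.fun_sum hA
    intro a _
    refine IsBigO.const_mul_left ?_ _
    have ht : Tendsto (fun τ : ℂ => τ • u a) (𝓝 0) (𝓝 0) := by
      have : Continuous fun τ : ℂ => τ • u a := by fun_prop
      have h := this.tendsto 0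
      rwa [zero_smul] at h
    have h1 := hO.comp_tendsto ht
    refine h1.trans ?_
    refine isBigO_of_le _ fun τ => ?_
    simp only [comp_apply]
    rw [norm_pow, norm_norm, norm_smul, norm_pow, norm_norm]
    refine pow_le_pow_left₀ (by positivity) ?_ _
    calc ‖τ‖ * ‖u a‖ ≤ ‖τ‖ * 1 := by
          have := hu a
          gcongr
      _ = ‖τ‖ := mul_one _
  have hlo : (G · - G 0) =o[𝓝 (0 : ℂ)] fun w : ℂ => ‖w - 0‖ ^ K := by
    simp only [hG0, sub_zero]
    exact hGO.trans_isLittleO (isLittleO_norm_pow_norm_pow (Nat.lt_succ_self K))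
  have := Complex.dist_le_mul_div_pow_of_mapsTo_ball_of_isLittleO hdiff hmaps hlo
    (z := τ) (by rw [mem_ball_zero_iff]; exact hτ)
  rw [hG0, dist_zero_right, dist_zero_right] at this
  exact this

end

end Pool.Agent.helper68.Gl
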