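import Pool.Agent.helper68.Gl.Hilbert

set_option linter.unusedSectionVars false

namespace Pool.Agent.helper68.Gl

open Metric Set Filter Topology
open scoped ComplexConjugate NNReal ENNReal

noncomputable section

/-- The Banach space of absolutely summable complex sequences. -/
abbrev L1 : Type := lp (fun _ : ℕ => ℂ) 1

lemma l1_hasSum (x : L1) : HasSum (fun i => ‖x i‖) ‖x‖ := by
  have := lp.hasSum_norm (p := 1) (by simp) x
  simpa using this

lemma l1_summable (x : L1) : Summable (fun i => ‖x i‖) := (l1_hasSum x).summable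

lemma l1_norm (x : L1) : ‖x‖ = ∑' i, ‖x i‖ := (l1_hasSum x).tsum_eq.symm

lemma l1_le {y : L1} {C : ℝ} (hC : 0 ≤ C) (h : ∀ s : Finset ℕ, ∑ i ∈ s, ‖y i‖ ≤ C) : ‖y‖ ≤ C := by
  refine lp.norm_le_of_forall_sum_le (p := 1) (by simp) hC (fun s => ?_)
  simpa using h s

lemma l1_mem {f : ℕ → ℂ} (h : Summable fun i => ‖f i‖) : Memℓp f 1 := by
  apply memℓp_gen
  simpa using h

/-- Unit vectors. -/
def e1 (i : ℕ) : L1 := lp.single 1 i 1

lemma e1_norm (i : ℕ) : ‖e1 i‖ = 1 := by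
  unfold e1
  rw [lp.norm_single (by simp)]
  simp

lemma dual_e1_le (T : L1 →L[ℂ] ℂ) (i : ℕ) : ‖T (e1 i)‖ ≤ ‖T‖ := by
  simpa [e1_norm] using T.le_opNorm (e1 i)

lemma mulMem (T : L1 →L[ℂ] ℂ) (x : L1) : Memℓp (fun i => T (e1 i) * x i) 1 := by
  apply l1_mem
  refine Summable.of_nonneg_of_le (fun i => norm_nonneg _) (fun i => ?_)
    ((l1_summable x).mul_left ‖T‖)
  rw [norm_mul]
  gcongr
  exact dual_e1_le T i

/-- Diagonal multiplication by the coefficients of a functional. -/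
def diag : (L1 →L[ℂ] ℂ) →L[ℂ] L1 →L[ℂ] L1 :=
  LinearMap.mkContinuous₂
    (LinearMap.mk₂ ℂ (fun (T : L1 →L[ℂ] ℂ) (x : L1) =>
        (⟨fun i => T (e1 i) * x i, mulMem T x⟩ : L1))
      (by
        intro T S x
        apply lp.ext; funext i
        change (T + S) (e1 i) * x i = T (e1 i) * x i + S (e1 i) * x i
        rw [_root_.add_apply]; ring)
      (by
        intro c T x
        apply lp.ext; funext i
        change (c • T) (e1 i) * x i = c * (T (e1 i) * x i)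
        rw [_root_.smul_apply, smul_eq_mul]; ring)
      (by
        intro T x y
        apply lp.ext; funext i
        change T (e1 i) * (x i + y i) = T (e1 i) * x i + T (e1 i) * y i
        ring)
      (by
        intro c T x
        apply lp.ext; funext i
        change T (e1 i) * (c * x i) = c * (T (e1 i) * x i)
        ring)) 1
    (by
      intro T x
      rw [one_mul]
      refine l1_le (by positivity) (fun s => ?_)
      change ∑ i ∈ s, ‖T (e1 i) * x i‖ ≤ ‖T‖ * ‖x‖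
      calc ∑ i ∈ s, ‖T (e1 i) * x i‖ ≤ ∑ i ∈ s, ‖T‖ * ‖x i‖ := by
            refine Finset.sum_le_sum (fun i _ => ?_)
            rw [norm_mul]
            gcongr
            exact dual_e1_le T i
        _ = ‖T‖ * ∑ i ∈ s, ‖x i‖ := by rw [Finset.mul_sum]
        _ ≤ ‖T‖ * ‖x‖ := by
            gcongr
            exact (l1_summable x).sum_le_tsum s (fun i _ => norm_nonneg _) |>.trans
              (le_of_eq (l1_norm x).symm))

lemma diag_apply (T : L1 →L[ℂ] ℂ) (x : L1) (i : ℕ) : diag T x i = T (e1 i) * x i := rfl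

/-- Algebraic identity behind the main estimate. -/
lemma abel_identity (n : ℕ) (δ x u w R : ℂ) (a g e : ℕ → ℂ)
    (h : ∀ l, x * a l = (w / R) * g l + e l) (hu : u * x = w) :
    x * (∑ l ∈ Finset.range n, δ * a l) ^ 2
      = (u * w / R ^ 2) * (∑ l ∈ Finset.range n, δ * g l) ^ 2
        + (u / R) * (2 * (∑ l ∈ Finset.range n, δ * g l) * (∑ l ∈ Finset.range n, δ * e l)
          - ∑ l ∈ Finset.range n, ((∑ j ∈ Finset.range (l + 1), δ * g j)
              + ∑ j ∈ Finset.range l, δ * g j) * (δ * e l))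
        + ∑ l ∈ Finset.range n, (δ * e l) * ((∑ j ∈ Finset.range (l + 1), δ * a j)
              + ∑ j ∈ Finset.range l, δ * a j) := by
  induction n with
  | zero => simp
  | succ n ih =>
    have hS : ∀ m : ℕ, x * (∑ l ∈ Finset.range m, δ * a l)
        = (w / R) * (∑ l ∈ Finset.range m, δ * g l) + ∑ l ∈ Finset.range m, δ * e l := by
      intro m
      rw [Finset.mul_sum, Finset.mul_sum, ← Finset.sum_add_distrib]
      refine Finset.sum_congr rfl (fun l _ => ?_)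
      calc x * (δ * a l) = δ * (x * a l) := by ring
        _ = (w / R) * (δ * g l) + δ * e l := by rw [h l]; ring
    rw [Finset.sum_range_succ (f := fun l => ((∑ j ∈ Finset.range (l + 1), δ * g j)
              + ∑ j ∈ Finset.range l, δ * g j) * (δ * e l)),
      Finset.sum_range_succ (f := fun l => (δ * e l) * ((∑ j ∈ Finset.range (l + 1), δ * a j)
              + ∑ j ∈ Finset.range l, δ * a j))]
    simp only [Finset.sum_range_succ (f := fun l => δ * a l),
      Finset.sum_range_succ (f := fun l => δ * g l), Finset.sum_range_succ (f := fun l => δ * e l)]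
    simp only [Finset.sum_range_succ (f := fun l => δ * a l),
      Finset.sum_range_succ (f := fun l => δ * g l)] at ih
    set S := ∑ l ∈ Finset.range n, δ * a l with hSdef
    set Γ := ∑ l ∈ Finset.range n, δ * g l with hΓdef
    set E := ∑ l ∈ Finset.range n, δ * e l with hEdef
    have h1 := hS n
    rw [← hSdef, ← hΓdef, ← hEdef] at h1
    have h2 := h n
    have e1 : x * (S + δ * a n) ^ 2 = x * S ^ 2 + (x * (δ * a n)) * (2 * S + δ * a n) := by ring
    have e2 : (x * (δ * a n)) * (2 * S + δ * a n)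
        = (u / R) * (δ * g n) * (2 * (x * S) + δ * (x * a n)) + (δ * e n) * (2 * S + δ * a n) := by
      have : x * (δ * a n) = δ * (u * x / R * g n + e n) := by
        rw [hu, ← h2]; ring
      rw [this]; ring
    rw [e1, ih, e2, h1, h2]
    ring


lemma norm_add_le_re {s : ℝ} (hs : 0 < s) (z : ℂ) :
    ‖(s : ℂ) + z‖ ≤ s + z.re + ‖z‖ ^ 2 / (2 * s) := by
  have h1 : ‖(s : ℂ) + z‖ ^ 2 = s ^ 2 + 2 * s * z.re + ‖z‖ ^ 2 := by
    rw [← Complex.normSq_eq_norm_sq, ← Complex.normSq_eq_norm_sq, Complex.normSq_apply,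
      Complex.normSq_apply]
    simp
    ring
  have h2 : 2 * s * ‖(s : ℂ) + z‖ ≤ s ^ 2 + ‖(s : ℂ) + z‖ ^ 2 := by
    nlinarith [sq_nonneg (s - ‖(s : ℂ) + z‖)]
  have h3 : s + z.re + ‖z‖ ^ 2 / (2 * s) = (s ^ 2 + ‖(s : ℂ) + z‖ ^ 2) / (2 * s) := by
    rw [h1]; field_simp; ring
  rw [h3, le_div_iff₀ (by positivity)]
  linarith

/-- Tangential estimate in `ℓ₁`. -/
lemma l1_tangent {F : L1 → ℂ} {R : ℝ} (hR : 1 < R) (hF : AnalyticOnNhd ℂ F (ball 0 R))
    (hb : ∀ x ∈ ball (0 : L1) R, ‖F x‖ ≤ 1) {x : L1} (hx0 : x ≠ 0) (hx : ‖x‖ ≤ 1)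
    {s : ℝ} (hs0 : 1 / 2 ≤ s) (hs1 : s < 1) (S : Finset ℕ) :
    ∑ i ∈ S, ‖x i * fderiv ℂ F ((s : ℂ) • x) (e1 i)
      - ((‖x i‖ : ℂ) / ‖x‖) * fderiv ℂ F ((s : ℂ) • x) x‖ ≤ 4 / √(1 - s) := by
  classical
  set D := fderiv ℂ F ((s : ℂ) • x) with hD
  set e : ℕ → ℂ := fun i => x i * D (e1 i) - ((‖x i‖ : ℂ) / ‖x‖) * D x with he
  choose θ hθ hθe using fun i => exists_unimod (e i)
  have hxn : (‖x‖ : ℂ) ≠ 0 := by exact_mod_cast norm_ne_zero_iff.2 hx0
  have hxp : 0 < ‖x‖ := norm_pos_iff.2 hx0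
  set ab : ℂ := ∑ i ∈ S, θ i * ((‖x i‖ : ℂ) / ‖x‖) with hab
  set v : L1 := (∑ i ∈ S, (θ i * x i) • e1 i) - ab • x with hv
  have hDv : D v = ((∑ i ∈ S, ‖e i‖ : ℝ) : ℂ) := by
    rw [hv, map_sub, map_sum, map_smul, hab, smul_eq_mul, Finset.sum_mul,
      ← Finset.sum_sub_distrib]
    push_cast
    refine Finset.sum_congr rfl (fun i _ => ?_)
    rw [map_smul, smul_eq_mul, ← hθe i, he]
    ring
  have hsum0 : 0 ≤ ∑ i ∈ S, ‖e i‖ := Finset.sum_nonneg (fun i _ => norm_nonneg _)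
  have hn : ∑ i ∈ S, ‖e i‖ = ‖D v‖ := by
    rw [hDv, Complex.norm_real, Real.norm_of_nonneg hsum0]
  change ∑ i ∈ S, ‖e i‖ ≤ _
  rw [hn]
  have hsq : 0 < √(1 - s) := Real.sqrt_pos.2 (by linarith)
  have h1 : 4 / √(1 - s) = 2 / (√(1 - s) / 2) := by field_simp; norm_num
  rw [h1]
  refine fderiv_apply_le hF hb (by positivity) (fun t ht => ?_)
  rw [mem_ball_zero_iff]
  refine lt_of_le_of_lt ?_ hR
  set b : ℕ → ℂ := fun i => (if i ∈ S then θ i else 0) - ab with hbdef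
  have habn : ‖ab‖ ≤ 1 := by
    rw [hab]
    calc ‖∑ i ∈ S, θ i * ((‖x i‖ : ℂ) / ‖x‖)‖ ≤ ∑ i ∈ S, ‖x i‖ / ‖x‖ := by
          refine norm_sum_le_of_le _ (fun i _ => ?_)
          rw [norm_mul, hθ, one_mul, norm_div, Complex.norm_real, Complex.norm_real, norm_norm,
            norm_norm]
      _ = (∑ i ∈ S, ‖x i‖) / ‖x‖ := by rw [Finset.sum_div]
      _ ≤ 1 := by
          rw [div_le_one hxp, l1_norm x]
          exact (l1_summable x).sum_le_tsum S (fun i _ => norm_nonneg _)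
  have hbn : ∀ i, ‖b i‖ ≤ 2 := by
    intro i
    rw [hbdef]
    refine (norm_sub_le _ _).trans ?_
    have : ‖(if i ∈ S then θ i else 0 : ℂ)‖ ≤ 1 := by
      split_ifs
      · exact (hθ i).le
      · simp
    linarith
  have hcoord : ∀ i, ((s : ℂ) • x + t • v : L1) i = ((s : ℂ) + t * b i) * x i := by
    intro i
    have h2 : (v : L1) i = b i * x i := by
      have h3 : (v : L1) i = (∑ j ∈ S, (θ j * x j) * (e1 j : L1) i) - ab * x i := by
        rw [hv, lp.coeFn_sub, Pi.sub_apply, lp.coeFn_sum, Finset.sum_apply]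
        rfl
      rw [h3, hbdef]
      have h4 : ∑ j ∈ S, (θ j * x j) * (e1 j : L1) i = (if i ∈ S then θ i else 0) * x i := by
        have h5 : ∀ j, (e1 j : L1) i = if i = j then 1 else 0 := by
          intro j
          unfold e1
          rw [lp.single_apply]
          by_cases hij : i = j
          · subst hij; simp
          · simp [hij]
        simp only [h5, mul_ite, mul_one, mul_zero, Finset.sum_ite_eq]
        split_ifs <;> simp
      rw [h4]; ring
    have h6 : ((s : ℂ) • x + t • v : L1) i = (s : ℂ) * x i + t * (v : L1) i := rfl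
    rw [h6, h2]; ring
  have hs2 : HasSum (fun i => (if i ∈ S then θ i else 0) * (‖x i‖ : ℂ))
      (∑ i ∈ S, θ i * (‖x i‖ : ℂ)) := by
    have h3 : HasSum (fun i => (if i ∈ S then θ i else 0) * (‖x i‖ : ℂ))
        (∑ i ∈ S, (if i ∈ S then θ i else 0) * (‖x i‖ : ℂ)) :=
      hasSum_sum_of_ne_finset_zero (fun i hi => by simp [hi])
    have h4 : ∑ i ∈ S, (if i ∈ S then θ i else 0) * (‖x i‖ : ℂ) = ∑ i ∈ S, θ i * (‖x i‖ : ℂ) :=
      Finset.sum_congr rfl (fun i hi => by simp [hi])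
    rwa [h4] at h3
  have hs3 : HasSum (fun i => ((‖x i‖ : ℝ) : ℂ)) ((‖x‖ : ℝ) : ℂ) :=
    (Complex.hasSum_ofReal).2 (l1_hasSum x)
  have hs4 : HasSum (fun i => t * (b i * (‖x i‖ : ℂ))) 0 := by
    have h3 := (hs2.sub (hs3.mul_left ab)).mul_left t
    have h4 : t * (∑ i ∈ S, θ i * (‖x i‖ : ℂ) - ab * (‖x‖ : ℂ)) = 0 := by
      have : ab * (‖x‖ : ℂ) = ∑ i ∈ S, θ i * (‖x i‖ : ℂ) := by
        rw [hab, Finset.sum_mul]
        refine Finset.sum_congr rfl (fun i _ => ?_)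
        field_simp
      rw [this, sub_self, mul_zero]
    rw [h4] at h3
    refine h3.congr_fun (fun i => ?_)
    rw [hbdef]; ring
  have hs5 : HasSum (fun i => (t * (b i * (‖x i‖ : ℂ))).re) 0 := by
    simpa using Complex.hasSum_re hs4
  have hs6 : HasSum (fun i => (s + 4 * ‖t‖ ^ 2) * ‖x i‖ + (t * (b i * (‖x i‖ : ℂ))).re)
      ((s + 4 * ‖t‖ ^ 2) * ‖x‖ + 0) := ((l1_hasSum x).mul_left _).add hs5
  have hle : ‖((s : ℂ) • x + t • v : L1)‖ ≤ (s + 4 * ‖t‖ ^ 2) * ‖x‖ + 0 := by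
    refine hasSum_le (fun i => ?_) (l1_hasSum _) hs6
    rw [hcoord, norm_mul]
    have h7 := norm_add_le_re (by linarith : 0 < s) (t * b i)
    have h8 : ‖t * b i‖ ^ 2 / (2 * s) ≤ 4 * ‖t‖ ^ 2 := by
      rw [div_le_iff₀ (by linarith), norm_mul, mul_pow]
      have h9 : ‖b i‖ ^ 2 ≤ 4 := by
        have := hbn i
        nlinarith [norm_nonneg (b i)]
      calc ‖t‖ ^ 2 * ‖b i‖ ^ 2 ≤ ‖t‖ ^ 2 * 4 := by gcongr
        _ = 4 * ‖t‖ ^ 2 * 1 := by ring
        _ ≤ 4 * ‖t‖ ^ 2 * (2 * s) := by gcongr; linarith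
    have h10 : (t * (b i * (‖x i‖ : ℂ))).re = (t * b i).re * ‖x i‖ := by
      rw [← mul_assoc, Complex.re_mul_ofReal]
    rw [h10, ← add_mul]
    gcongr
    linarith
  have h11 : 4 * ‖t‖ ^ 2 ≤ 1 - s := by
    have h12 : ‖t‖ ^ 2 ≤ (√(1 - s) / 2) ^ 2 := by gcongr
    have h13 : √(1 - s) ^ 2 = 1 - s := Real.sq_sqrt (by linarith)
    nlinarith
  calc ‖((s : ℂ) • x + t • v : L1)‖ ≤ (s + 4 * ‖t‖ ^ 2) * ‖x‖ + 0 := hle
    _ ≤ 1 * 1 + 0 := by
        gcongr
        linarith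
    _ = 1 := by norm_num

end

end Pool.Agent.helper68.Gl
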