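import Pool.Agent.helper68.Gl.L1

set_option linter.unusedSectionVars false

namespace Pool.Agent.helper68.Gl

open Metric Set Filter Topology
open scoped ComplexConjugate NNReal ENNReal

noncomputable section

/-- Telescoping bound with fourth roots. -/
lemma sum_fourth_le {r₀ δ : ℝ} (hδ : 0 ≤ δ) (n : ℕ) (hn : r₀ + n * δ ≤ 1) :
    ∑ j ∈ Finset.range n, δ / √√(1 - (r₀ + j * δ)) ^ 3
      ≤ 4 * √√(1 - r₀) - 4 * √√(1 - (r₀ + n * δ)) := by
  induction n with
  | zero => simp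
  | succ n ih =>
    have hn' : r₀ + n * δ ≤ 1 := by
      push_cast at hn; nlinarith
    have h1 := ih hn'
    rw [Finset.sum_range_succ]
    have hb : r₀ + ((n + 1 : ℕ) : ℝ) * δ = (r₀ + n * δ) + δ := by push_cast; ring
    rw [hb] at hn ⊢
    set a : ℝ := 1 - (r₀ + n * δ) with ha
    have ha0 : 0 ≤ a := by linarith
    have e1 : 1 - (r₀ + n * δ + δ) = a - δ := by rw [ha]; ring
    rw [e1]
    have haδ : 0 ≤ a - δ := by linarith
    have key : δ / √√a ^ 3 ≤ 4 * (√√a - √√(a - δ)) := by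
      rcases eq_or_lt_of_le ha0 with h | h
      · rw [← h]
        have : δ = 0 := by linarith
        simp [this]
      · set p := √√a with hp
        set q := √√(a - δ) with hq
        have hp0 : 0 < p := Real.sqrt_pos.2 (Real.sqrt_pos.2 h)
        have hq0 : 0 ≤ q := Real.sqrt_nonneg _
        have hpq : q ≤ p := Real.sqrt_le_sqrt (Real.sqrt_le_sqrt (by linarith))
        have hp4 : p ^ 4 = a := by
          have : p ^ 4 = (p ^ 2) ^ 2 := by ring
          rw [this, hp, Real.sq_sqrt (Real.sqrt_nonneg _), Real.sq_sqrt ha0]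
        have hq4 : q ^ 4 = a - δ := by
          have : q ^ 4 = (q ^ 2) ^ 2 := by ring
          rw [this, hq, Real.sq_sqrt (Real.sqrt_nonneg _), Real.sq_sqrt haδ]
        rw [div_le_iff₀ (by positivity)]
        have h2 : δ = (p - q) * ((p + q) * (p ^ 2 + q ^ 2)) := by
          have : (p - q) * ((p + q) * (p ^ 2 + q ^ 2)) = p ^ 4 - q ^ 4 := by ring
          rw [this, hp4, hq4]; ring
        have h3 : (p + q) * (p ^ 2 + q ^ 2) ≤ (2 * p) * (2 * p ^ 2) := by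
          gcongr
          · linarith
          · nlinarith
        calc δ = (p - q) * ((p + q) * (p ^ 2 + q ^ 2)) := h2
          _ ≤ (p - q) * ((2 * p) * (2 * p ^ 2)) := by
              gcongr
          _ = 4 * (p - q) * p ^ 3 := by ring
    linarith

lemma sq_sqrt_sqrt {a : ℝ} : √√a ^ 2 = √a := Real.sq_sqrt (Real.sqrt_nonneg _)

/-- Main estimate in `ℓ₁`. -/
lemma l1_main {F : L1 → ℂ} {R : ℝ} (hR : 1 < R) (hF : AnalyticOnNhd ℂ F (ball 0 R))
    (hb : ∀ x ∈ ball (0 : L1) R, ‖F x‖ ≤ 1) {x : L1} (hx0 : x ≠ 0) (hx : ‖x‖ ≤ 1)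
    {r₀ δ : ℝ} (hr₀ : 1 / 2 ≤ r₀) (hδ : 0 < δ) {n : ℕ} (hn : r₀ + n * δ ≤ 1)
    (hΓ : ∀ m ≤ n, ‖∑ j ∈ Finset.range m, (δ : ℂ) *
      fderiv ℂ F (((r₀ + j * δ : ℝ) : ℂ) • x) x‖ ≤ 3 * ‖x‖) (S : Finset ℕ) :
    ∑ i ∈ S, ‖x i * (avgD F r₀ δ n x (e1 i)) ^ 2
      - (conj (x i) / (‖x‖ : ℂ) ^ 2) * (avgD F r₀ δ n x x) ^ 2‖ ≤ 352 * √(1 - r₀) := by
  have hxn : (‖x‖ : ℂ) ≠ 0 := by exact_mod_cast norm_ne_zero_iff.2 hx0
  have hxp : 0 < ‖x‖ := norm_pos_iff.2 hx0
  have hr₀' : 0 ≤ r₀ := by linarith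
  set nd : ℕ → ℝ := fun j => r₀ + j * δ with hnd
  set a : ℕ → ℕ → ℂ := fun i l => fderiv ℂ F ((nd l : ℂ) • x) (e1 i) with ha
  set g : ℕ → ℂ := fun l => fderiv ℂ F ((nd l : ℂ) • x) x with hg
  set e : ℕ → ℕ → ℂ := fun i l => x i * a i l - ((‖x i‖ : ℂ) / ‖x‖) * g l with he
  have hnode : ∀ j, j < n → 0 ≤ nd j ∧ nd j ≤ 1 - δ := fun j hj => node_mem hr₀' hδ.le hn hj
  have hndr : ∀ j, r₀ ≤ nd j := by
    intro j; rw [hnd]; simp only; nlinarith [(Nat.cast_nonneg j : (0 : ℝ) ≤ j)]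
  have hpos : ∀ j, j < n → 0 < 1 - nd j := fun j hj => by linarith [(hnode j hj).2]
  -- size of the coefficients
  have haB : ∀ i l, l < n → ‖a i l‖ ≤ 2 / (1 - nd l) := by
    intro i l hl
    refine (dual_e1_le _ i).trans (fderiv_le hF hb (hpos l hl) ?_)
    rw [norm_smul, Complex.norm_real, Real.norm_of_nonneg (hnode l hl).1]
    have := (hnode l hl).1
    have h1 : nd l * ‖x‖ ≤ nd l * 1 := by gcongr
    linarith
  have hB0 : 0 ≤ √√(1 - r₀) := Real.sqrt_nonneg _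
  have hΛ : ∀ i l m, l < n → m ≤ l + 1 →
      ‖∑ j ∈ Finset.range m, (δ : ℂ) * a i j‖ ≤ 8 * √√(1 - r₀) / √√(1 - nd l) := by
    intro i l m hl hm
    have hBl : 0 < √√(1 - nd l) := Real.sqrt_pos.2 (Real.sqrt_pos.2 (hpos l hl))
    calc ‖∑ j ∈ Finset.range m, (δ : ℂ) * a i j‖
        ≤ ∑ j ∈ Finset.range m, (2 / √√(1 - nd l)) * (δ / √√(1 - nd j) ^ 3) := by
          refine norm_sum_le_of_le _ (fun j hj => ?_)
          have hj' : j ≤ l := by have := Finset.mem_range.1 hj; omega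
          have hjn : j < n := by omega
          rw [norm_mul, Complex.norm_real, Real.norm_of_nonneg hδ.le]
          have hBj : 0 < √√(1 - nd j) := Real.sqrt_pos.2 (Real.sqrt_pos.2 (hpos j hjn))
          have hmono : √√(1 - nd l) ≤ √√(1 - nd j) := by
            apply Real.sqrt_le_sqrt; apply Real.sqrt_le_sqrt
            have : (j : ℝ) ≤ l := by exact_mod_cast hj'
            have : (j : ℝ) * δ ≤ l * δ := by gcongr
            rw [hnd]; simp only; linarith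
          have h4 : 1 - nd j = √√(1 - nd j) ^ 3 * √√(1 - nd j) := by
            have : √√(1 - nd j) ^ 3 * √√(1 - nd j) = (√√(1 - nd j) ^ 2) ^ 2 := by ring
            rw [this, sq_sqrt_sqrt, Real.sq_sqrt (hpos j hjn).le]
          calc δ * ‖a i j‖ ≤ δ * (2 / (1 - nd j)) := by
                gcongr
                exact haB i j hjn
            _ = δ * (2 / (√√(1 - nd j) ^ 3 * √√(1 - nd j))) := by rw [← h4]
            _ ≤ δ * (2 / (√√(1 - nd j) ^ 3 * √√(1 - nd l))) := by gcongr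
            _ = (2 / √√(1 - nd l)) * (δ / √√(1 - nd j) ^ 3) := by field_simp
      _ ≤ ∑ j ∈ Finset.range n, (2 / √√(1 - nd l)) * (δ / √√(1 - nd j) ^ 3) := by
          refine Finset.sum_le_sum_of_subset_of_nonneg ?_ (fun j _ _ => by positivity)
          intro j hj
          rw [Finset.mem_range] at hj ⊢
          omega
      _ = (2 / √√(1 - nd l)) * ∑ j ∈ Finset.range n, (δ / √√(1 - nd j) ^ 3) := by
          rw [Finset.mul_sum]
      _ ≤ (2 / √√(1 - nd l)) * (4 * √√(1 - r₀)) := by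
          gcongr
          have := sum_fourth_le hδ.le n hn
          linarith [Real.sqrt_nonneg √(1 - (r₀ + n * δ))]
      _ = 8 * √√(1 - r₀) / √√(1 - nd l) := by ring
  -- pointwise estimate
  have hpt : ∀ i, ‖x i * (avgD F r₀ δ n x (e1 i)) ^ 2
      - (conj (x i) / (‖x‖ : ℂ) ^ 2) * (avgD F r₀ δ n x x) ^ 2‖
      ≤ ∑ l ∈ Finset.range n, δ * ‖e i l‖ * (12 + 16 * √√(1 - r₀) / √√(1 - nd l)) := by
    intro i
    obtain ⟨u, hu, hux⟩ := exists_unimod (x i)
    have hconj : conj (x i) = u * (‖x i‖ : ℂ) := by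
      have h1 : u * conj u = 1 := by
        rw [Complex.mul_conj, Complex.normSq_eq_norm_sq, hu]; norm_num
      calc conj (x i) = u * conj u * conj (x i) := by rw [h1, one_mul]
        _ = u * conj (u * x i) := by rw [map_mul]; ring
        _ = u * (‖x i‖ : ℂ) := by rw [hux, Complex.conj_ofReal]
    have hid := abel_identity n (δ : ℂ) (x i) u (‖x i‖ : ℂ) (‖x‖ : ℂ) (a i) g (e i)
      (fun l => by rw [he]; ring) hux
    have hT1 : avgD F r₀ δ n x (e1 i) = ∑ l ∈ Finset.range n, (δ : ℂ) * a i l :=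
      avgD_apply F r₀ δ n x (e1 i)
    have hT2 : avgD F r₀ δ n x x = ∑ l ∈ Finset.range n, (δ : ℂ) * g l :=
      avgD_apply F r₀ δ n x x
    rw [hT1, hT2, hid, hconj]
    have e5 : u * (‖x i‖ : ℂ) / (‖x‖ : ℂ) ^ 2 * (∑ l ∈ Finset.range n, (δ : ℂ) * g l) ^ 2
        + (u / (‖x‖ : ℂ)) * (2 * (∑ l ∈ Finset.range n, (δ : ℂ) * g l)
            * (∑ l ∈ Finset.range n, (δ : ℂ) * e i l)
          - ∑ l ∈ Finset.range n, ((∑ j ∈ Finset.range (l + 1), (δ : ℂ) * g j)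
              + ∑ j ∈ Finset.range l, (δ : ℂ) * g j) * ((δ : ℂ) * e i l))
        + ∑ l ∈ Finset.range n, ((δ : ℂ) * e i l) * ((∑ j ∈ Finset.range (l + 1), (δ : ℂ) * a i j)
              + ∑ j ∈ Finset.range l, (δ : ℂ) * a i j)
        - u * (‖x i‖ : ℂ) / (‖x‖ : ℂ) ^ 2 * (∑ l ∈ Finset.range n, (δ : ℂ) * g l) ^ 2
        = (u / (‖x‖ : ℂ)) * (2 * (∑ l ∈ Finset.range n, (δ : ℂ) * g l)
            * (∑ l ∈ Finset.range n, (δ : ℂ) * e i l)
          - ∑ l ∈ Finset.range n, ((∑ j ∈ Finset.range (l + 1), (δ : ℂ) * g j)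
              + ∑ j ∈ Finset.range l, (δ : ℂ) * g j) * ((δ : ℂ) * e i l))
        + ∑ l ∈ Finset.range n, ((δ : ℂ) * e i l) * ((∑ j ∈ Finset.range (l + 1), (δ : ℂ) * a i j)
              + ∑ j ∈ Finset.range l, (δ : ℂ) * a i j) := by ring
    rw [e5]
    have hδe : ∀ l, ‖(δ : ℂ) * e i l‖ = δ * ‖e i l‖ := by
      intro l
      rw [norm_mul, Complex.norm_real, Real.norm_of_nonneg hδ.le]
    have b1 : ‖2 * (∑ l ∈ Finset.range n, (δ : ℂ) * g l)
            * (∑ l ∈ Finset.range n, (δ : ℂ) * e i l)‖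
        ≤ 6 * ‖x‖ * ∑ l ∈ Finset.range n, δ * ‖e i l‖ := by
      rw [norm_mul, norm_mul]
      have h1 := hΓ n le_rfl
      have h2 : ‖∑ l ∈ Finset.range n, (δ : ℂ) * e i l‖ ≤ ∑ l ∈ Finset.range n, δ * ‖e i l‖ :=
        norm_sum_le_of_le _ (fun l _ => (hδe l).le)
      have h3 : ‖(2 : ℂ)‖ = 2 := by norm_num
      rw [h3]
      calc 2 * ‖∑ l ∈ Finset.range n, (δ : ℂ) * g l‖ * ‖∑ l ∈ Finset.range n, (δ : ℂ) * e i l‖
          ≤ 2 * (3 * ‖x‖) * (∑ l ∈ Finset.range n, δ * ‖e i l‖) := by gcongr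
        _ = _ := by ring
    have b2 : ‖∑ l ∈ Finset.range n, ((∑ j ∈ Finset.range (l + 1), (δ : ℂ) * g j)
              + ∑ j ∈ Finset.range l, (δ : ℂ) * g j) * ((δ : ℂ) * e i l)‖
        ≤ 6 * ‖x‖ * ∑ l ∈ Finset.range n, δ * ‖e i l‖ := by
      rw [Finset.mul_sum]
      refine norm_sum_le_of_le _ (fun l hl => ?_)
      have hl' := Finset.mem_range.1 hl
      rw [norm_mul, hδe]
      have h1 := hΓ (l + 1) (by omega)
      have h2 := hΓ l (by omega)
      have h3 := norm_add_le (∑ j ∈ Finset.range (l + 1), (δ : ℂ) * g j)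
        (∑ j ∈ Finset.range l, (δ : ℂ) * g j)
      have h4 : ‖(∑ j ∈ Finset.range (l + 1), (δ : ℂ) * g j)
        + ∑ j ∈ Finset.range l, (δ : ℂ) * g j‖ ≤ 6 * ‖x‖ := by
        refine h3.trans ?_
        have h5 : ‖∑ j ∈ Finset.range (l + 1), (δ : ℂ) * g j‖ ≤ 3 * ‖x‖ := h1
        have h6 : ‖∑ j ∈ Finset.range l, (δ : ℂ) * g j‖ ≤ 3 * ‖x‖ := h2
        linarith
      gcongr
    have b3 : ‖∑ l ∈ Finset.range n, ((δ : ℂ) * e i l)
          * ((∑ j ∈ Finset.range (l + 1), (δ : ℂ) * a i j)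
              + ∑ j ∈ Finset.range l, (δ : ℂ) * a i j)‖
        ≤ ∑ l ∈ Finset.range n, δ * ‖e i l‖ * (16 * √√(1 - r₀) / √√(1 - nd l)) := by
      refine norm_sum_le_of_le _ (fun l hl => ?_)
      have hl' := Finset.mem_range.1 hl
      rw [norm_mul, hδe]
      have h1 := hΛ i l (l + 1) hl' le_rfl
      have h2 := hΛ i l l hl' (by omega)
      have h3 := norm_add_le (∑ j ∈ Finset.range (l + 1), (δ : ℂ) * a i j)
        (∑ j ∈ Finset.range l, (δ : ℂ) * a i j)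
      have h4 : ‖(∑ j ∈ Finset.range (l + 1), (δ : ℂ) * a i j)
        + ∑ j ∈ Finset.range l, (δ : ℂ) * a i j‖ ≤ 16 * √√(1 - r₀) / √√(1 - nd l) := by
        refine h3.trans ?_
        have h5 : 16 * √√(1 - r₀) / √√(1 - nd l) = 8 * √√(1 - r₀) / √√(1 - nd l)
          + 8 * √√(1 - r₀) / √√(1 - nd l) := by ring
        rw [h5]
        exact add_le_add h1 h2
      gcongr
    have b4 : ‖(u / (‖x‖ : ℂ)) * (2 * (∑ l ∈ Finset.range n, (δ : ℂ) * g l)
            * (∑ l ∈ Finset.range n, (δ : ℂ) * e i l)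
          - ∑ l ∈ Finset.range n, ((∑ j ∈ Finset.range (l + 1), (δ : ℂ) * g j)
              + ∑ j ∈ Finset.range l, (δ : ℂ) * g j) * ((δ : ℂ) * e i l))‖
        ≤ 12 * ∑ l ∈ Finset.range n, δ * ‖e i l‖ := by
      rw [norm_mul, norm_div, hu, Complex.norm_real, norm_norm]
      have h1 := (norm_sub_le (2 * (∑ l ∈ Finset.range n, (δ : ℂ) * g l)
            * (∑ l ∈ Finset.range n, (δ : ℂ) * e i l))
          (∑ l ∈ Finset.range n, ((∑ j ∈ Finset.range (l + 1), (δ : ℂ) * g j)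
              + ∑ j ∈ Finset.range l, (δ : ℂ) * g j) * ((δ : ℂ) * e i l))).trans (add_le_add b1 b2)
      rw [one_div, inv_mul_le_iff₀ hxp]
      refine h1.trans (le_of_eq ?_)
      ring
    refine (norm_add_le _ _).trans ((add_le_add b4 b3).trans (le_of_eq ?_))
    rw [Finset.mul_sum, ← Finset.sum_add_distrib]
    refine Finset.sum_congr rfl (fun l _ => ?_)
    ring
  -- summation over the coordinates
  calc ∑ i ∈ S, ‖x i * (avgD F r₀ δ n x (e1 i)) ^ 2
      - (conj (x i) / (‖x‖ : ℂ) ^ 2) * (avgD F r₀ δ n x x) ^ 2‖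
      ≤ ∑ i ∈ S, ∑ l ∈ Finset.range n,
          δ * ‖e i l‖ * (12 + 16 * √√(1 - r₀) / √√(1 - nd l)) :=
        Finset.sum_le_sum (fun i _ => hpt i)
    _ = ∑ l ∈ Finset.range n, δ * (12 + 16 * √√(1 - r₀) / √√(1 - nd l))
          * ∑ i ∈ S, ‖e i l‖ := by
        rw [Finset.sum_comm]
        refine Finset.sum_congr rfl (fun l _ => ?_)
        rw [Finset.mul_sum]
        refine Finset.sum_congr rfl (fun i _ => ?_)
        ring
    _ ≤ ∑ l ∈ Finset.range n, (48 * (δ / √(1 - nd l))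
          + 64 * √√(1 - r₀) * (δ / √√(1 - nd l) ^ 3)) := by
        refine Finset.sum_le_sum (fun l hl => ?_)
        have hl' := Finset.mem_range.1 hl
        have h1 : ∑ i ∈ S, ‖e i l‖ ≤ 4 / √(1 - nd l) :=
          l1_tangent hR hF hb hx0 hx (hr₀.trans (hndr l)) (by linarith [hpos l hl']) S
        have hBl : 0 < √√(1 - nd l) := Real.sqrt_pos.2 (Real.sqrt_pos.2 (hpos l hl'))
        calc δ * (12 + 16 * √√(1 - r₀) / √√(1 - nd l)) * ∑ i ∈ S, ‖e i l‖
            ≤ δ * (12 + 16 * √√(1 - r₀) / √√(1 - nd l)) * (4 / √(1 - nd l)) := by gcongr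
          _ = 48 * (δ / √(1 - nd l)) + 64 * √√(1 - r₀) * (δ / √√(1 - nd l) ^ 3) := by
              have h3 : ∀ B : ℝ, 0 < B → δ * (12 + 16 * √√(1 - r₀) / B) * (4 / B ^ 2)
                  = 48 * (δ / B ^ 2) + 64 * √√(1 - r₀) * (δ / B ^ 3) := by
                intro B hB
                field_simp
                ring
              have h4 := h3 _ hBl
              rw [sq_sqrt_sqrt] at h4
              exact h4
    _ = 48 * ∑ l ∈ Finset.range n, (δ / √(1 - nd l))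
          + 64 * √√(1 - r₀) * ∑ l ∈ Finset.range n, (δ / √√(1 - nd l) ^ 3) := by
        rw [Finset.mul_sum, Finset.mul_sum, ← Finset.sum_add_distrib]
    _ ≤ 48 * (2 * √(1 - r₀)) + 64 * √√(1 - r₀) * (4 * √√(1 - r₀)) := by
        gcongr
        · have := sum_sqrt_le hδ.le n hn
          linarith [Real.sqrt_nonneg (1 - (r₀ + n * δ))]
        · have := sum_fourth_le hδ.le n hn
          linarith [Real.sqrt_nonneg √(1 - (r₀ + n * δ))]
    _ = 352 * √(1 - r₀) := by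
        have : √√(1 - r₀) ^ 2 = √(1 - r₀) := sq_sqrt_sqrt
        linear_combination 256 * this

end

end Pool.Agent.helper68.Gl
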