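import Pool.Agent.helper68.Gl.L1b

set_option linter.unusedSectionVars false

namespace Pool.Agent.helper68.Gl

open Metric Set Filter Topology
open scoped ComplexConjugate NNReal ENNReal

noncomputable section

theorem conjApprox_l1 : ConjApprox L1 := by
  refine ⟨starₗᵢ ℂ, fun ε' hε' => ?_⟩
  set c : L1 ≃ₗᵢ⋆[ℂ] L1 := starₗᵢ ℂ with hc
  have hcc : ∀ x : L1, c (c x) = x := fun x => star_star x
  have hci : ∀ (x : L1) (i : ℕ), (c x) i = conj (x i) := fun x i => rfl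
  set ε : ℝ := min ε' 1 with hε
  have hε0 : 0 < ε := lt_min hε' one_pos
  have hε1 : ε ≤ 1 := min_le_right _ _
  have hεε : ε ≤ ε' := min_le_left _ _
  set r₀ : ℝ := 1 - (ε / 2816) ^ 2 with hr₀
  have hsmall : (ε / 2816) ^ 2 ≤ 1 / 2 := by
    have : ε / 2816 ≤ 1 / 2 := by linarith
    nlinarith
  have hr₀h : 1 / 2 ≤ r₀ := by rw [hr₀]; linarith
  have hr₀0 : 0 < r₀ := by linarith
  have hr₀1 : r₀ < 1 := by
    rw [hr₀]
    have : 0 < (ε / 2816) ^ 2 := by positivity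
    linarith
  have hsq : √(1 - r₀) = ε / 2816 := by
    rw [hr₀, sub_sub_cancel, Real.sqrt_sq (by positivity)]
  obtain ⟨k, hk⟩ := exists_pow_lt_of_lt_one (by positivity : 0 < ε / 64) hr₀1
  refine ⟨ε / 64, by positivity, k + 1, fun F ⟨R, hR, hF, hb⟩ hFk => ?_⟩
  obtain ⟨L, hL0, hL⟩ := fderiv_lipschitz hR hF hb
  obtain ⟨n, hn⟩ := exists_nat_gt (64 * L / ε)
  have hn0 : (0 : ℝ) < n := lt_trans (by positivity) hn
  set δ : ℝ := (1 - r₀) / n with hδ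
  have hδ0 : 0 < δ := div_pos (by linarith) hn0
  have hnδ : r₀ + n * δ = 1 := by rw [hδ]; field_simp; ring
  have herr : n * (L * δ ^ 2) ≤ ε / 64 := by
    have h1 : n * (L * δ ^ 2) = L * (1 - r₀) ^ 2 / n := by rw [hδ]; field_simp
    rw [h1, div_le_iff₀ hn0]
    rw [div_lt_iff₀ hε0] at hn
    have h2 : (1 - r₀) ^ 2 ≤ 1 := by nlinarith
    have h3 : L * (1 - r₀) ^ 2 ≤ L * 1 := by gcongr
    nlinarith
  set T : L1 → (L1 →L[ℂ] ℂ) := avgD F r₀ δ n with hT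
  set U : L1 → L1 := fun x => diag (T x) (diag (T x) x) with hU
  have hUi : ∀ (x : L1) (i : ℕ), (U x) i = x i * (T x (e1 i)) ^ 2 := by
    intro x i
    change T x (e1 i) * (T x (e1 i) * x i) = _
    ring
  have hFx : ∀ x ∈ ball (0 : L1) 1, ‖F x‖ ≤ ‖x‖ := by
    intro x hx
    have hx1 : ‖x‖ ≤ 1 := by rw [mem_ball_zero_iff] at hx; exact hx.le
    refine (hFk x hx).trans ?_
    rw [pow_succ]
    exact mul_le_of_le_one_left (norm_nonneg _) (pow_le_one₀ (norm_nonneg _) hx1)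
  have hF0 : ∀ x ∈ ball (0 : L1) 1, ‖F ((r₀ : ℂ) • x)‖ ≤ ε / 64 * ‖x‖ := by
    intro x hx
    have hx1 : ‖x‖ ≤ 1 := by rw [mem_ball_zero_iff] at hx; exact hx.le
    refine (hFk _ (scaled_mem hr₀0.le hr₀1.le hx)).trans ?_
    rw [norm_smul, Complex.norm_real, Real.norm_of_nonneg hr₀0.le, mul_pow, pow_succ]
    have h1 : ‖x‖ ^ (k + 1) ≤ ‖x‖ := by
      rw [pow_succ]
      exact mul_le_of_le_one_left (norm_nonneg _) (pow_le_one₀ (norm_nonneg _) hx1)
    have h2 : r₀ ^ k * r₀ ≤ ε / 64 := by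
      calc r₀ ^ k * r₀ ≤ r₀ ^ k * 1 := by gcongr
        _ ≤ ε / 64 := by linarith
    exact mul_le_mul h2 h1 (by positivity) (by positivity)
  have hG : ∀ x ∈ ball (0 : L1) 1, ‖T x x - (F x - F ((r₀ : ℂ) • x))‖
      ≤ ε / 64 * ‖x‖ ^ 2 := by
    intro x hx
    have h1 := riemann_sum hR hF hL0.le hL hx hr₀0.le hδ0.le n hnδ.le
    rw [hT, avgD_apply]
    rw [hnδ, Complex.ofReal_one, one_smul] at h1
    refine h1.trans ?_
    have h2 : (n : ℝ) * (L * δ ^ 2 * ‖x‖ ^ 2) = (n * (L * δ ^ 2)) * ‖x‖ ^ 2 := by ring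
    rw [h2]
    gcongr
  have hΓ : ∀ x ∈ ball (0 : L1) 1, ∀ m ≤ n, ‖∑ j ∈ Finset.range m, (δ : ℂ) *
      fderiv ℂ F (((r₀ + j * δ : ℝ) : ℂ) • x) x‖ ≤ 3 * ‖x‖ := by
    intro x hx m hm
    have hx1 : ‖x‖ ≤ 1 := by rw [mem_ball_zero_iff] at hx; exact hx.le
    have hmn : (m : ℝ) ≤ n := by exact_mod_cast hm
    have hmδ : r₀ + m * δ ≤ 1 := by
      have : (m : ℝ) * δ ≤ n * δ := by gcongr
      linarith
    have h1 := riemann_sum hR hF hL0.le hL hx hr₀0.le hδ0.le m hmδ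
    have h2 : (m : ℝ) * (L * δ ^ 2 * ‖x‖ ^ 2) ≤ ‖x‖ := by
      calc (m : ℝ) * (L * δ ^ 2 * ‖x‖ ^ 2) ≤ n * (L * δ ^ 2 * ‖x‖ ^ 2) := by gcongr
        _ = (n * (L * δ ^ 2)) * ‖x‖ ^ 2 := by ring
        _ ≤ 1 * ‖x‖ := by
            have h3 : ‖x‖ ^ 2 ≤ ‖x‖ := by nlinarith [norm_nonneg x]
            have h4 : n * (L * δ ^ 2) ≤ 1 := by linarith
            gcongr
        _ = ‖x‖ := one_mul _
    have hm0 : 0 ≤ r₀ + m * δ := by positivity
    have h3 : ‖F (((r₀ + m * δ : ℝ) : ℂ) • x)‖ ≤ ‖x‖ := by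
      refine (hFx _ (scaled_mem hm0 hmδ hx)).trans ?_
      rw [norm_smul, Complex.norm_real, Real.norm_of_nonneg hm0]
      exact mul_le_of_le_one_left (norm_nonneg _) hmδ
    have h4 := hF0 x hx
    have h5 : ε / 64 * ‖x‖ ≤ 1 * ‖x‖ := by gcongr; linarith
    have h6 := norm_sub_le (F (((r₀ + m * δ : ℝ) : ℂ) • x)) (F ((r₀ : ℂ) • x))
    have h7 := norm_sub_norm_le (∑ j ∈ Finset.range m, (δ : ℂ) *
      fderiv ℂ F (((r₀ + j * δ : ℝ) : ℂ) • x) x)
      (F (((r₀ + m * δ : ℝ) : ℂ) • x) - F ((r₀ : ℂ) • x))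
    linarith
  have hmain : ∀ x ∈ ball (0 : L1) 1, x ≠ 0 →
      ‖U x - ((T x x) ^ 2 / (‖x‖ : ℂ) ^ 2) • c x‖ ≤ ε / 8 := by
    intro x hx hx0
    have hx1 : ‖x‖ ≤ 1 := by rw [mem_ball_zero_iff] at hx; exact hx.le
    refine l1_le (by positivity) (fun S => ?_)
    have h1 := l1_main hR hF hb hx0 hx1 hr₀h hδ0 hnδ.le (hΓ x hx) S
    rw [hsq] at h1
    refine le_trans (le_of_eq ?_) (h1.trans (by linarith))
    refine Finset.sum_congr rfl (fun i _ => ?_)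
    have h2 : (U x - ((T x x) ^ 2 / (‖x‖ : ℂ) ^ 2) • c x : L1) i
        = (U x) i - ((T x x) ^ 2 / (‖x‖ : ℂ) ^ 2) * (c x) i := rfl
    rw [h2, hUi, hci]
    congr 1
    ring
  have hGn : ∀ x ∈ ball (0 : L1) 1, ‖T x x‖ ≤ ‖x‖ * (1 + ε / 32) := by
    intro x hx
    have hx1 : ‖x‖ ≤ 1 := by rw [mem_ball_zero_iff] at hx; exact hx.le
    have h5 := hG x hx
    have h6 := hF0 x hx
    have h7 := hFx x hx
    have h8 : ‖x‖ ^ 2 ≤ ‖x‖ := by nlinarith [norm_nonneg x]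
    have h9 : ε / 64 * ‖x‖ ^ 2 ≤ ε / 64 * ‖x‖ := by gcongr
    have h10 : ‖F x - F ((r₀ : ℂ) • x)‖ ≤ ‖x‖ + ε / 64 * ‖x‖ :=
      (norm_sub_le _ _).trans (by linarith)
    have h11 := norm_sub_norm_le (T x x) (F x - F ((r₀ : ℂ) • x))
    linarith
  have hTan : AnalyticOnNhd ℂ T (ball (0 : L1) 1) := avgD_analytic hR hF hr₀0.le hδ0.le hnδ.le
  have hTlip : ∀ x ∈ ball (0 : L1) 1, ∀ y ∈ ball (0 : L1) 1, ‖T x - T y‖ ≤ L * ‖x - y‖ :=
    fun x hx y hy => avgD_lipschitz hL0.le hL hr₀0.le hδ0.le hnδ.le hx hy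
  refine ⟨U, ?_, ?_, ?_, ?_⟩
  · intro x hx
    have h2 : AnalyticAt ℂ (fun y => diag (T y) y) x :=
      AnalyticAt.comp₂ (h := fun p : (L1 →L[ℂ] ℂ) × L1 => diag p.1 p.2)
        (diag.analyticAt_bilinear _) (hTan x hx) analyticAt_id
    exact AnalyticAt.comp₂ (h := fun p : (L1 →L[ℂ] ℂ) × L1 => diag p.1 p.2)
        (diag.analyticAt_bilinear _) (hTan x hx) h2
  · -- Lipschitz
    have hTb : ∀ x ∈ ball (0 : L1) 1, ‖T x‖ ≤ ‖T 0‖ + L := by
      intro x hx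
      have h1 := hTlip x hx 0 (mem_ball_self one_pos)
      have h2 := norm_sub_norm_le (T x) (T 0)
      rw [mem_ball_zero_iff] at hx
      rw [sub_zero] at h1
      nlinarith [norm_nonneg x]
    set B : ℝ := ‖T 0‖ + L with hB
    have hB0 : 0 < B := by positivity
    have hdn : ∀ (S : L1 →L[ℂ] ℂ) (y : L1), ‖diag S y‖ ≤ ‖S‖ * ‖y‖ := by
      intro S y
      refine l1_le (by positivity) (fun s => ?_)
      calc ∑ i ∈ s, ‖diag S y i‖ ≤ ∑ i ∈ s, ‖S‖ * ‖y i‖ := by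
            refine Finset.sum_le_sum (fun i _ => ?_)
            rw [diag_apply, norm_mul]
            gcongr
            exact dual_e1_le S i
        _ = ‖S‖ * ∑ i ∈ s, ‖y i‖ := by rw [Finset.mul_sum]
        _ ≤ ‖S‖ * ‖y‖ := by
            gcongr
            exact (l1_summable y).sum_le_tsum s (fun i _ => norm_nonneg _) |>.trans
              (le_of_eq (l1_norm y).symm)
    rw [Metric.uniformContinuousOn_iff]
    intro κ hκ
    refine ⟨κ / (2 * B * L + B ^ 2 + 1), by positivity, fun x hx y hy hxy => ?_⟩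
    have hx1 : ‖x‖ ≤ 1 := by rw [mem_ball_zero_iff] at hx; exact hx.le
    have h1 := hTlip x hx y hy
    have h2 := hTb x hx
    have h3 := hTb y hy
    rw [dist_eq_norm] at hxy ⊢
    have e : U x - U y = diag (T x - T y) (diag (T x) x) + diag (T y) (diag (T x - T y) x)
        + diag (T y) (diag (T y) (x - y)) := by
      rw [hU]
      simp only [map_sub, _root_.sub_apply]
      abel
    have b1 : ‖diag (T x - T y) (diag (T x) x)‖ ≤ (L * ‖x - y‖) * (B * 1) := by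
      refine (hdn _ _).trans ?_
      gcongr
      exact (hdn _ _).trans (by gcongr)
    have b2 : ‖diag (T y) (diag (T x - T y) x)‖ ≤ B * ((L * ‖x - y‖) * 1) := by
      refine (hdn _ _).trans ?_
      gcongr
      exact (hdn _ _).trans (by gcongr)
    have b3 : ‖diag (T y) (diag (T y) (x - y))‖ ≤ B * (B * ‖x - y‖) := by
      refine (hdn _ _).trans ?_
      gcongr
      exact (hdn _ _).trans (by gcongr)
    rw [e]
    refine lt_of_le_of_lt (norm_add₃_le.trans (add_le_add (add_le_add b1 b2) b3)) ?_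
    rw [lt_div_iff₀ (by positivity)] at hxy
    nlinarith [norm_nonneg (x - y)]
  · intro x hx
    have hx1 : ‖x‖ ≤ 1 := by rw [mem_ball_zero_iff] at hx; exact hx.le
    rcases eq_or_ne x 0 with h0 | h0
    · subst h0
      have : U 0 = 0 := by
        rw [hU]; simp
      rw [this, norm_zero]; positivity
    · have h1 := hmain x hx h0
      have hxn : 0 < ‖x‖ := norm_pos_iff.2 h0
      have h3 : ‖((T x x) ^ 2 / (‖x‖ : ℂ) ^ 2) • c x‖ ≤ 1 + ε / 8 := by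
        rw [norm_smul, norm_div, norm_pow, norm_pow, Complex.norm_real, norm_norm, c.norm_map,
          div_mul_eq_mul_div, div_le_iff₀ (by positivity)]
        have h4 := hGn x hx
        have h5 : ‖T x x‖ ^ 2 ≤ (‖x‖ * (1 + ε / 32)) ^ 2 := by gcongr
        have h6 : (1 + ε / 32) ^ 2 ≤ 1 + ε / 8 := by nlinarith
        calc ‖T x x‖ ^ 2 * ‖x‖ ≤ (‖x‖ * (1 + ε / 32)) ^ 2 * 1 := by gcongr
          _ = (1 + ε / 32) ^ 2 * ‖x‖ ^ 2 := by ring
          _ ≤ (1 + ε / 8) * ‖x‖ ^ 2 := by gcongr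
      have h4 := norm_sub_norm_le (U x) (((T x x) ^ 2 / (‖x‖ : ℂ) ^ 2) • c x)
      linarith
  · intro x hx hFη
    have hx1 : ‖x‖ ≤ 1 := by rw [mem_ball_zero_iff] at hx; exact hx.le
    have h1 : 1 - ε / 64 ≤ ‖F x‖ := by
      have := norm_sub_norm_le (1 : ℂ) (F x)
      rw [norm_one, norm_sub_rev] at this
      linarith
    have h2 : 1 - ε / 64 ≤ ‖x‖ := h1.trans (hFx x hx)
    have h0 : x ≠ 0 := by
      rintro rfl
      rw [norm_zero] at h2
      linarith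
    have hxn : 0 < ‖x‖ := norm_pos_iff.2 h0
    have h3 := hmain x hx h0
    have hstep : ‖c (U x) - x‖ = ‖U x - c x‖ := by
      have : c (U x) - x = c (U x - c x) := by rw [map_sub, hcc]
      rw [this, c.norm_map]
    rw [hstep]
    have h4 : ‖((T x x) ^ 2 / (‖x‖ : ℂ) ^ 2) • c x - c x‖ ≤ ε / 4 := by
      have hne : ((‖x‖ : ℂ)) ^ 2 ≠ 0 := by
        have : (‖x‖ : ℂ) ≠ 0 := by exact_mod_cast hxn.ne'
        positivity
      have e : ((T x x) ^ 2 / (‖x‖ : ℂ) ^ 2) • c x - c x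
          = (((T x x - ‖x‖) * (T x x + ‖x‖)) / (‖x‖ : ℂ) ^ 2) • c x := by
        have : ((T x x - ‖x‖) * (T x x + ‖x‖)) / (‖x‖ : ℂ) ^ 2
            = (T x x) ^ 2 / (‖x‖ : ℂ) ^ 2 - 1 := by
          rw [eq_sub_iff_add_eq, ← div_self hne, ← add_div]
          congr 1
          ring
        rw [this, sub_smul, one_smul]
      rw [e, norm_smul, norm_div, norm_mul, norm_pow, Complex.norm_real, norm_norm, c.norm_map,
          div_mul_eq_mul_div, div_le_iff₀ (by positivity)]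
      have h5 := hG x hx
      have h6 := hF0 x hx
      have h8 : ‖x‖ ^ 2 ≤ 1 := pow_le_one₀ (norm_nonneg _) hx1
      have h9 : ε / 64 * ‖x‖ ^ 2 ≤ ε / 64 * 1 := by gcongr
      have h9' : ε / 64 * ‖x‖ ≤ ε / 64 * 1 := by gcongr
      have h10 : ‖T x x - (‖x‖ : ℂ)‖ ≤ ε / 16 := by
        have e2 : T x x - (‖x‖ : ℂ)
            = (T x x - (F x - F ((r₀ : ℂ) • x))) + (F x - 1)
              - F ((r₀ : ℂ) • x) + ((1 - ‖x‖ : ℝ) : ℂ) := by push_cast; ring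
        have h11 : ‖((1 - ‖x‖ : ℝ) : ℂ)‖ ≤ ε / 64 := by
          rw [Complex.norm_real, Real.norm_of_nonneg (by linarith)]
          linarith
        rw [e2]
        refine (norm_add_le _ _).trans ?_
        have h12 := norm_sub_le ((T x x - (F x - F ((r₀ : ℂ) • x))) + (F x - 1))
          (F ((r₀ : ℂ) • x))
        have h13 := norm_add_le (T x x - (F x - F ((r₀ : ℂ) • x))) (F x - 1)
        linarith
      have h14 : ‖T x x + (‖x‖ : ℂ)‖ ≤ 3 * ‖x‖ := by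
        refine (norm_add_le _ _).trans ?_
        rw [Complex.norm_real, norm_norm]
        have := hGn x hx
        nlinarith
      calc ‖T x x - (‖x‖ : ℂ)‖ * ‖T x x + (‖x‖ : ℂ)‖ * ‖x‖
          ≤ (ε / 16) * (3 * ‖x‖) * ‖x‖ := by gcongr
        _ ≤ ε / 4 * ‖x‖ ^ 2 := by nlinarith [sq_nonneg ‖x‖]
    have h5 := norm_sub_le_norm_sub_add_norm_sub (U x)
      (((T x x) ^ 2 / (‖x‖ : ℂ) ^ 2) • c x) (c x)
    linarith

end

end Pool.Agent.helper68.Gl
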