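import Pool.Agent.helper68.Gl.Same

/-!
# Values of the characters; the main criterion
-/

set_option linter.unusedSectionVars false

namespace Pool.Agent.helper68.Gl

open Finset Function Filter Topology Metric
open scoped ComplexConjugate ENNReal

noncomputable section

variable {p : ℝ≥0∞} [Fact (1 ≤ p)] {Z : Type} [Fintype Z] [Nonempty Z] [DecidableEq Z] {n : ℕ}
  {z : Z → Fin n → ℂ} {σ : Z → ℂ}

/-- The values of a homogeneous polynomial. -/
def qev {d n : ℕ} (c : (Fin d → Fin n) → ℂ) (v : Fin n → ℂ) : ℂ := ∑ r, c r * ∏ s, v (r s)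

lemma QM_xx_ne {d : ℕ} (c : (Fin d → Fin n) → ℂ) (hd : 1 ≤ d) {N N' : ℕ} (h : N ≠ N')
    (ω : Fin N → Z) : QM p c N' (fun _ => xx z p N ω) = 0 := by
  rw [QM_apply, Finset.sum_eq_zero, mul_zero]
  intro j _
  refine Finset.sum_eq_zero fun r _ => ?_
  have h0 : (∏ s, (xx z p N ω) (enc N' j (r s))) = 0 := by
    apply Finset.prod_eq_zero (mem_univ (⟨0, hd⟩ : Fin d))
    rw [xx, lp.coeFn_smul, Pi.smul_apply, emb_apply_ne h, smul_zero]
  rw [h0, mul_zero]

lemma QM_xx {d : ℕ} (c : (Fin d → Fin n) → ℂ) (hp : 0 < p.toReal) {N : ℕ} (hN : N ≠ 0)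
    (ω : Fin N → Z) :
    QM p c N (fun _ => xx z p N ω) = ((rho N : ℝ) : ℂ) ^ d * avg N (fun a => qev c (z a)) ω := by
  have _ := hp
  have hN' : (0 : ℝ) < N := by exact_mod_cast Nat.pos_of_ne_zero hN
  have h1 : ∀ (j : Fin N) (r : Fin d → Fin n), ∏ s, (xx z p N ω) (enc N j (r s))
      = ((cc p N : ℝ) : ℂ) ^ d * ∏ s, z (ω j) (r s) := by
    intro j r
    have : ∀ s, (xx z p N ω) (enc N j (r s)) = ((cc p N : ℝ) : ℂ) * z (ω j) (r s) := by
      intro s
      rw [xx, lp.coeFn_smul, Pi.smul_apply, emb_apply, smul_eq_mul]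
    simp only [this]
    rw [Finset.prod_mul_distrib, Finset.prod_const, Finset.card_univ, Fintype.card_fin]
  rw [QM_apply]
  simp only [h1]
  have h2 : ∑ j : Fin N, ∑ r : Fin d → Fin n, c r * (((cc p N : ℝ) : ℂ) ^ d * ∏ s, z (ω j) (r s))
      = ((cc p N : ℝ) : ℂ) ^ d * ∑ j, qev c (z (ω j)) := by
    unfold qev
    simp only [Finset.mul_sum]
    refine Finset.sum_congr rfl fun j _ => Finset.sum_congr rfl fun r _ => ?_
    ring
  rw [h2, avg, ← mul_assoc, ← Complex.ofReal_pow, ← Complex.ofReal_mul, ← Complex.ofReal_pow]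
  have h3 : (N : ℝ) ^ ((d : ℝ) / p.toReal - 1) * cc p N ^ d = rho N ^ d * (1 / N) := by
    have e1 : cc p N ^ d = rho N ^ d * (N : ℝ) ^ (-((d : ℝ) / p.toReal)) := by
      unfold cc
      rw [mul_pow, ← Real.rpow_natCast ((N : ℝ) ^ (-p.toReal⁻¹)), ← Real.rpow_mul hN'.le]
      congr 2
      ring
    rw [e1, mul_left_comm, ← Real.rpow_add hN']
    have e2 : (d : ℝ) / p.toReal - 1 + -((d : ℝ) / p.toReal) = -1 := by ring
    rw [e2, Real.rpow_neg_one, one_div]
  rw [h3]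
  push_cast
  ring

lemma pol_xx {d : ℕ} (c : (Fin d → Fin n) → ℂ) (hp : 0 < p.toReal) (hd : 1 ≤ d) {k : ℕ}
    (hk : k ≠ 0) {N : ℕ} (hN : N ≠ 0) (ω : Fin N → Z) :
    pol p c k (xx z p N ω) = (((rho N : ℝ) : ℂ) ^ d) ^ k * (avg N (fun a => qev c (z a)) ω) ^ k := by
  rw [pol, tsum_eq_single N, QM_xx c hp hN, mul_pow]
  intro N' hN'
  rw [QM_xx_ne c hd (Ne.symm hN'), zero_pow hk]

lemma pol_zero {d : ℕ} (c : (Fin d → Fin n) → ℂ) (hd : 1 ≤ d) {k : ℕ}
    (hk : k ≠ 0) : pol p c k 0 = 0 := by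
  have : ∀ N, (QM p c N (fun _ => (0 : LP p))) ^ k = 0 := by
    intro N
    rw [ContinuousMultilinearMap.map_coord_zero _ (⟨0, hd⟩ : Fin d) rfl, zero_pow hk]
  rw [pol]
  simp only [this, tsum_zero]

lemma norm_avg_le {N : ℕ} {g : Z → ℂ} {C : ℝ} (hC : 0 ≤ C) (hg : ∀ a, ‖g a‖ ≤ C)
    (ω : Fin N → Z) : ‖avg N g ω‖ ≤ C := by
  rw [avg, norm_div, Complex.norm_natCast]
  rcases Nat.eq_zero_or_pos N with rfl | hN
  · simpa using hC
  · have hN' : (0 : ℝ) < N := by exact_mod_cast hN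
    rw [div_le_iff₀ hN']
    refine (norm_sum_le _ _).trans ?_
    refine (Finset.sum_le_sum fun j _ => hg (ω j)).trans (le_of_eq ?_)
    simp [mul_comm]

lemma EC_avg_pow {w : Z → ℝ} (hw : ∀ a, 0 ≤ w a) (hw1 : ∑ a, w a = 1) (g : Z → ℂ) (k : ℕ) :
    Tendsto (fun N => EC (PW w N) (fun ω => (avg N g ω) ^ k)) atTop (𝓝 ((EC w g) ^ k)) := by
  obtain ⟨C, hC⟩ : ∃ C : ℝ, ∀ a, ‖g a‖ ≤ C := by
    refine ⟨∑ a, ‖g a‖, fun a => ?_⟩
    exact Finset.single_le_sum (f := fun a => ‖g a‖) (fun _ _ => norm_nonneg _) (mem_univ a)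
  have hC0 : 0 ≤ C := (norm_nonneg _).trans (hC (Classical.arbitrary Z))
  induction k with
  | zero =>
    simp only [pow_zero]
    refine tendsto_const_nhds.congr fun N => ?_
    rw [EC_const (PW_sum hw1 N)]
  | succ k ih =>
    have h1 : Tendsto (fun N => EC (PW w N) (fun ω => avg N g ω * (avg N g ω) ^ k)
        - EC (PW w N) (avg N g) * EC (PW w N) (fun ω => (avg N g ω) ^ k)) atTop (𝓝 0) := by
      have hlim : Tendsto (fun N : ℕ => C ^ k * ((1 + 16 * C ^ 2) * (N : ℝ) ^ (-(1 / 2 : ℝ))))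
          atTop (𝓝 0) := by
        have := ((tendsto_rpow_neg_atTop (show (0 : ℝ) < 1 / 2 by norm_num)).comp
          (tendsto_natCast_atTop_atTop (R := ℝ))).const_mul (1 + 16 * C ^ 2) |>.const_mul (C ^ k)
        rw [mul_zero, mul_zero] at this
        exact this
      apply squeeze_zero_norm' _ hlim
      filter_upwards [eventually_gt_atTop 0] with N hN
      have hN' : (0 : ℝ) < N := by exact_mod_cast hN
      have hv := avg_var hw hw1 hN.ne' hC0 hC
      rw [← EC_avg hw1 hN.ne' g] at hv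
      have hη : (0 : ℝ) < (N : ℝ) ^ (-(1 / 2 : ℝ)) := by positivity
      have hc := cov_le (PW_nonneg hw N) (PW_sum hw1 N) (avg N g) (fun ω => (avg N g ω) ^ k)
        (M := C ^ k) (fun ω => by
          rw [norm_pow]
          exact pow_le_pow_left₀ (norm_nonneg _) (norm_avg_le hC0 hC ω) k) hv hη
      refine hc.trans (le_of_eq ?_)
      congr 1
      have e : 16 * C ^ 2 / (N : ℝ) / (N : ℝ) ^ (-(1 / 2 : ℝ))
          = 16 * C ^ 2 * (N : ℝ) ^ (-(1 / 2 : ℝ)) := by
        have e1 : (N : ℝ) ^ (-(1 / 2 : ℝ)) * (N : ℝ) ^ (-(1 / 2 : ℝ)) = (N : ℝ)⁻¹ := by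
          rw [← Real.rpow_add hN', ← Real.rpow_neg_one]
          norm_num
        rw [div_div, div_eq_iff (by positivity)]
        have : 16 * C ^ 2 * (N : ℝ) ^ (-(1 / 2 : ℝ)) * (N * (N : ℝ) ^ (-(1 / 2 : ℝ)))
            = 16 * C ^ 2 * N * ((N : ℝ) ^ (-(1 / 2 : ℝ)) * (N : ℝ) ^ (-(1 / 2 : ℝ))) := by ring
        rw [this, e1]
        field_simp
      rw [e]; ring
    have h2 : Tendsto (fun N => EC (PW w N) (avg N g) * EC (PW w N) (fun ω => (avg N g ω) ^ k))
        atTop (𝓝 (EC w g * (EC w g) ^ k)) := by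
      refine Tendsto.mul ?_ ih
      refine tendsto_const_nhds.congr' ?_
      filter_upwards [eventually_gt_atTop 0] with N hN
      rw [EC_avg hw1 hN.ne']
    have h3 := h1.add h2
    rw [zero_add, ← pow_succ'] at h3
    refine h3.congr fun N => ?_
    rw [sub_add_cancel]
    simp only [pow_succ']

/-- Values of the characters at the polynomials. -/
lemma chr_pol (hp : 0 < p.toReal) (hz : ∀ a, ∑ i, ‖z a i‖ ^ p.toReal = 1)
    {w : Z → ℝ} (hw : ∀ a, 0 ≤ w a) (hw1 : ∑ a, w a = 1) {d : ℕ} (c : (Fin d → Fin n) → ℂ)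
    (hd : 1 ≤ d) {k : ℕ} (hk : k ≠ 0) (f : AuBall (LP p)) (hf : ∀ x, f.1 x = pol p c k x) :
    (chr hp hz hw hw1).val f = (EC w (fun a => qev c (z a))) ^ k := by
  rw [chr_val]
  apply ulim_eq_of_atTop
  have h1 := EC_avg_pow hw hw1 (fun a => qev c (z a)) k
  have h2 : Tendsto (fun N => (((rho N : ℝ) : ℂ) ^ d) ^ k) atTop (𝓝 1) := by
    have := ((Complex.continuous_ofReal.tendsto 1).comp tendsto_rho).pow d |>.pow k
    simpa using this
  have h3 := h2.mul h1
  rw [one_mul] at h3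
  refine h3.congr' ?_
  filter_upwards [eventually_gt_atTop 0] with N hN
  unfold ME
  rw [← EC_mul_left]
  congr 1
  funext ω
  rw [extZ_of_mem (xx_mem hp hz N ω), hf, pol_xx c hp hd hk hN.ne']

/-- Vectors with disjoint supports tend weakly to zero. -/
lemma weak_null (hp : 1 < p.toReal) (m : Fin n → ℂ) (hm : ∀ i, ‖m i‖ ≤ 1) (ℓ : LP p →L[ℂ] ℂ) :
    Tendsto (fun N => ℓ (((cc p N : ℝ) : ℂ) • emb p N (fun _ => m))) atTop (𝓝 0) := by
  have hp0 : 0 < p.toReal := by linarith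
  set v : ℕ → LP p := fun N => ((cc p N : ℝ) : ℂ) • emb p N (fun _ => m) with hv
  by_contra hcon
  rw [Metric.tendsto_atTop] at hcon
  push Not at hcon
  obtain ⟨ε, hε, hfr⟩ := hcon
  have hinf : Set.Infinite {N : ℕ | ε ≤ ‖ℓ (v N)‖} := by
    rw [← Nat.frequently_atTop_iff_infinite, Filter.frequently_atTop]
    intro N
    obtain ⟨N', h1, h2⟩ := hfr N
    exact ⟨N', h1, by rw [dist_zero_right] at h2; exact h2⟩
  have hkey : ∀ t : ℕ, (t : ℝ) * ε ≤ ‖ℓ‖ * ((t : ℝ) * n) ^ (p.toReal⁻¹) := by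
    intro t
    obtain ⟨S, hS, hcard⟩ := hinf.exists_subset_card_eq t
    choose θ hθ1 hθ2 using fun N => exists_unimod (ℓ (v N))
    set x : LP p := ∑ N ∈ S, θ N • v N with hx
    have e1 : x = ∑ k ∈ S.sigma fun N => (Finset.univ : Finset (Fin N × Fin n)),
        (lp.single p (enc k.1 k.2.1 k.2.2) (θ k.1 * (((cc p k.1 : ℝ) : ℂ) * m k.2.2)) : LP p) := by
      rw [Finset.sum_sigma, hx]
      refine Finset.sum_congr rfl fun N _ => ?_
      rw [hv]
      simp only
      rw [← emb_smul, ← emb_smul]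
      rfl
    have hn : ‖x‖ ^ p.toReal ≤ (t : ℝ) * n := by
      rw [e1, norm_comb hp0 _ (fun k : (N : ℕ) × (Fin N × Fin n) => enc k.1 k.2.1 k.2.2)
        (by
          rintro ⟨N, j, i⟩ _ ⟨N', j', i'⟩ _ h
          obtain ⟨h1, h2, h3⟩ := enc_inj h
          simp only at h1
          subst h1
          have e2 : j = j' := Fin.ext h2
          have e3 : i = i' := Fin.ext h3
          rw [e2, e3]), Finset.sum_sigma]
      have hN : ∀ N ∈ S, ∑ k : Fin N × Fin n, ‖θ N * (((cc p N : ℝ) : ℂ) * m k.2)‖ ^ p.toReal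
          ≤ n := by
        intro N _
        have ht : ∀ k ∈ (Finset.univ : Finset (Fin N × Fin n)),
            ‖θ N * (((cc p N : ℝ) : ℂ) * m k.2)‖ ^ p.toReal ≤ (N : ℝ)⁻¹ := by
          intro k _
          rw [norm_mul, norm_mul, hθ1, one_mul, Complex.norm_real,
            Real.norm_of_nonneg (cc_nonneg N)]
          calc (cc p N * ‖m k.2‖) ^ p.toReal ≤ ((N : ℝ) ^ (-p.toReal⁻¹) * 1) ^ p.toReal := by
                gcongr
                · exact mul_nonneg (cc_nonneg N) (norm_nonneg _)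
                · exact cc_le N
                · exact hm _
            _ = (N : ℝ)⁻¹ := by
                rw [mul_one, ← Real.rpow_mul (Nat.cast_nonneg N), neg_mul,
                  inv_mul_cancel₀ hp0.ne', Real.rpow_neg_one]
        refine (Finset.sum_le_sum ht).trans ?_
        rw [Finset.sum_const, Finset.card_univ, Fintype.card_prod, Fintype.card_fin,
          Fintype.card_fin, nsmul_eq_mul]
        push_cast
        rcases Nat.eq_zero_or_pos N with rfl | hN0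
        · simp
        · have : (N : ℝ) ≠ 0 := by positivity
          apply le_of_eq
          field_simp
      refine (Finset.sum_le_sum hN).trans (le_of_eq ?_)
      rw [Finset.sum_const, hcard, nsmul_eq_mul]
    have hxn : ‖x‖ ≤ ((t : ℝ) * n) ^ (p.toReal⁻¹) := by
      rw [Real.le_rpow_inv_iff_of_pos (norm_nonneg _) (by positivity) hp0]
      exact hn
    have e2 : ℓ x = ((∑ N ∈ S, ‖ℓ (v N)‖ : ℝ) : ℂ) := by
      rw [hx, map_sum, Complex.ofReal_sum]
      refine Finset.sum_congr rfl fun N _ => ?_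
      rw [map_smul, smul_eq_mul, hθ2]
    calc (t : ℝ) * ε = ∑ N ∈ S, ε := by rw [Finset.sum_const, hcard, nsmul_eq_mul]
      _ ≤ ∑ N ∈ S, ‖ℓ (v N)‖ := Finset.sum_le_sum fun N hN => hS hN
      _ = ‖ℓ x‖ := by
          rw [e2, Complex.norm_real, Real.norm_of_nonneg]
          exact Finset.sum_nonneg fun _ _ => norm_nonneg _
      _ ≤ ‖ℓ‖ * ‖x‖ := ℓ.le_opNorm x
      _ ≤ _ := by gcongr
  -- growth
  have hexp : 0 < 1 - p.toReal⁻¹ := by
    rw [sub_pos]
    exact inv_lt_one_of_one_lt₀ hp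
  have hgrow : Tendsto (fun t : ℕ => (t : ℝ) ^ (1 - p.toReal⁻¹)) atTop atTop :=
    (tendsto_rpow_atTop hexp).comp tendsto_natCast_atTop_atTop
  obtain ⟨t, ht1, ht2⟩ := ((hgrow.eventually_gt_atTop (‖ℓ‖ * (n : ℝ) ^ (p.toReal⁻¹) / ε)).and
    (eventually_gt_atTop 0)).exists
  have ht0 : (0 : ℝ) < t := by exact_mod_cast ht2
  have h := hkey t
  rw [Real.mul_rpow ht0.le (Nat.cast_nonneg n)] at h
  rw [div_lt_iff₀ hε, Real.rpow_sub ht0, Real.rpow_one] at ht1
  have hpow : 0 < (t : ℝ) ^ (p.toReal⁻¹) := by positivity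
  rw [div_mul_eq_mul_div, lt_div_iff₀ hpow] at ht1
  linarith

/-- The fibre of the characters. -/
lemma chr_fibre (hp : 1 < p.toReal) (hp0 : 0 < p.toReal)
    (hz : ∀ a, ∑ i, ‖z a i‖ ^ p.toReal = 1)
    {w : Z → ℝ} (hw : ∀ a, 0 ≤ w a) (hw1 : ∑ a, w a = 1) (ℓ : LP p →L[ℂ] ℂ)
    (f : AuBall (LP p)) (hf : ∀ x, f.1 x = ℓ x) :
    (chr hp0 hz hw hw1).val f = 0 := by
  rw [chr_val]
  apply ulim_eq_of_atTop
  set m : Fin n → ℂ := fun i => EC w (fun a => z a i) with hm
  have hz1 : ∀ a i, ‖z a i‖ ≤ 1 := by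
    intro a i
    have h1 : ‖z a i‖ ^ p.toReal ≤ 1 := by
      rw [← hz a]
      exact Finset.single_le_sum (f := fun i => ‖z a i‖ ^ p.toReal) (fun _ _ => by positivity)
        (mem_univ i)
    by_contra hc
    push Not at hc
    have := Real.one_lt_rpow hc hp0
    linarith
  have hm1 : ∀ i, ‖m i‖ ≤ 1 := fun i => norm_EC_le_of_le hw hw1 fun a => hz1 a i
  refine (weak_null hp m hm1 ℓ).congr fun N => ?_
  unfold ME
  have e1 : ∀ ω : Fin N → Z, extZ f.1 (xx z p N ω)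
      = ((cc p N : ℝ) : ℂ) * ∑ k : Fin N × Fin n, z (ω k.1) k.2 *
        ℓ (lp.single p (enc N k.1 k.2) 1) := by
    intro ω
    have e0 : extZ f.1 (xx z p N ω) = ℓ (xx z p N ω) := by
      rw [extZ_of_mem (xx_mem hp0 hz N ω), hf]
    rw [e0, xx, map_smul, smul_eq_mul, emb, map_sum]
    congr 1
    refine Finset.sum_congr rfl fun k _ => ?_
    have := lp.single_smul (E := fun _ : ℕ => ℂ) p (enc N k.1 k.2) (z (ω k.1) k.2) (1 : ℂ)
    rw [smul_eq_mul, mul_one] at this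
    rw [this, map_smul, smul_eq_mul]
  simp only [e1]
  rw [EC_mul_left, EC_sum, map_smul, smul_eq_mul, emb, map_sum]
  congr 1
  refine Finset.sum_congr rfl fun k _ => ?_
  have := lp.single_smul (E := fun _ : ℕ => ℂ) p (enc N k.1 k.2) (m k.2) (1 : ℂ)
  rw [smul_eq_mul, mul_one] at this
  rw [this, map_smul, smul_eq_mul, hm]
  simp only
  rw [← EC_coord hw1 N k.1 (fun a => z a k.2), mul_comm (EC _ _), ← EC_mul_left]
  congr 1
  funext ω
  ring

/-- A point of the spectrum lies in the fibre over zero. -/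
def InFibreZero {X : Type} [NormedAddCommGroup X] [NormedSpace ℂ X] (φ : SpecAu X) : Prop :=
  ∀ (l : X →L[ℂ] ℂ) (f : AuBall X), (∀ x, f.1 x = l x) → φ.val f = 0

/-- There is a part, not the part of the evaluation at the centre, which contains two points of
the fibre over zero. -/
def Shared (X : Type) [NormedAddCommGroup X] [NormedSpace ℂ X] : Prop :=
  ∃ φ ψ : SpecAu X, φ ≠ ψ ∧ InFibreZero φ ∧ InFibreZero ψ ∧ SameGleason φ ψ ∧
    ¬ SameGleason φ (evalZero X)

/-- The main criterion. -/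
theorem shared_of_data (hp : 1 < p.toReal) (hz : ∀ a, ∑ i, ‖z a i‖ ^ p.toReal = 1)
    (hσ : ∀ a, ‖σ a‖ ≤ 1)
    (hkill : ∀ k : ℕ, (k : ℝ) ≤ p.toReal → ∀ r : Fin k → Fin n,
      ∑ a, conj (σ a) * ∏ l, z a (r l) = 0)
    {d : ℕ} (hd : 1 ≤ d) (hdp : (d : ℝ) ≤ p.toReal) (c : (Fin d → Fin n) → ℂ)
    (hQ : ∀ v : Fin n → ℂ, ‖qev c v‖ ≤ (∑ i, ‖v i‖ ^ p.toReal) ^ ((d : ℝ) / p.toReal))
    (hQ1 : ∀ a, qev c (z a) = 1)
    {m : ℕ} (hm : 1 ≤ m) (hmp : (m : ℝ) ≤ p.toReal) (q : (Fin m → Fin n) → ℂ)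
    (hq0 : ∑ a, qev q (z a) = 0) (hq1 : ∑ a, σ a * qev q (z a) ≠ 0) :
    Shared (LP p) := by
  have hp0 : 0 < p.toReal := by linarith
  have hσ0 : ∑ a, σ a = 0 := by
    have h := hkill 0 (by simp [hp0.le]) Fin.elim0
    simp only [Finset.univ_eq_empty, Finset.prod_empty, mul_one] at h
    have h2 := congrArg (starRingEnd ℂ) h
    rw [map_sum, map_zero] at h2
    simp only [Complex.conj_conj] at h2
    exact h2
  set ζ : ℂ := 1 / 8 with hζ
  have hζn : ‖ζ‖ ≤ 1 / 8 := by rw [hζ]; norm_num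
  have hζn2 : ‖ζ‖ ≤ 1 / 2 := hζn.trans (by norm_num)
  have h0n : ‖(0 : ℂ)‖ ≤ 1 / 2 := by norm_num
  have hw := wt_nonneg σ hσ hζn2
  have hw1 := wt_sum σ hσ0 ζ
  have hw' := wt_nonneg σ hσ h0n
  have hw1' := wt_sum σ hσ0 0
  set φ : SpecAu (LP p) := chr hp0 hz hw hw1 with hφ
  set ψ : SpecAu (LP p) := chr hp0 hz hw' hw1' with hψ
  obtain ⟨k, hk⟩ := exists_nat_gt p.toReal
  have hk0 : k ≠ 0 := by
    rintro rfl
    simp at hk
    linarith
  have hkd : p.toReal ≤ k * d := by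
    have : (1 : ℝ) ≤ d := by exact_mod_cast hd
    have h2 : (k : ℝ) * 1 ≤ k * d := by gcongr
    linarith
  have hkm : p.toReal ≤ k * m := by
    have : (1 : ℝ) ≤ m := by exact_mod_cast hm
    have h2 : (k : ℝ) * 1 ≤ k * m := by gcongr
    linarith
  refine ⟨φ, ψ, ?_, ?_, ?_, ?_, ?_⟩
  · -- the characters are different
    intro heq
    set fR : AuBall (LP p) := mkAu (pol p q k) (mem_pol q hm hmp hkm) with hfR
    have v1 := chr_pol hp0 hz hw hw1 q hm hk0 fR (fun x => rfl)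
    have v2 := chr_pol hp0 hz hw' hw1' q hm hk0 fR (fun x => rfl)
    have e2 : EC (wt σ 0) (fun a => qev q (z a)) = 0 := by
      unfold EC
      have : ∀ a, (wt σ 0 a : ℂ) = 1 / Fintype.card Z := by
        intro a; rw [wt_cast]; simp
      simp only [this]
      rw [← Finset.mul_sum, hq0, mul_zero]
    have hkq : ∑ a, conj (σ a) * qev q (z a) = 0 := by
      unfold qev
      have : ∀ a, conj (σ a) * ∑ r, q r * ∏ s, z a (r s)
          = ∑ r, q r * (conj (σ a) * ∏ s, z a (r s)) := by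
        intro a
        rw [Finset.mul_sum]
        exact Finset.sum_congr rfl fun r _ => by ring
      simp only [this]
      rw [Finset.sum_comm]
      refine Finset.sum_eq_zero fun r _ => ?_
      rw [← Finset.mul_sum, hkill m hmp r, mul_zero]
    have e1 : EC (wt σ ζ) (fun a => qev q (z a))
        = ζ * (∑ a, σ a * qev q (z a)) / Fintype.card Z := by
      unfold EC
      have : ∀ a, (wt σ ζ a : ℂ) * qev q (z a) = (qev q (z a) + (ζ * (σ a * qev q (z a))
          + conj ζ * (conj (σ a) * qev q (z a)))) / Fintype.card Z := by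
        intro a; rw [wt_cast]; ring
      simp only [this]
      rw [← Finset.sum_div, Finset.sum_add_distrib, Finset.sum_add_distrib, ← Finset.mul_sum,
        ← Finset.mul_sum, hq0, hkq]
      ring
    rw [e1] at v1
    rw [e2, zero_pow hk0] at v2
    rw [← hφ, heq, ← hψ] at *
    rw [v2] at v1
    have hne : (ζ * (∑ a, σ a * qev q (z a)) / Fintype.card Z) ^ k ≠ 0 := by
      apply pow_ne_zero
      apply div_ne_zero
      · exact mul_ne_zero (by rw [hζ]; norm_num) hq1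
      · exact_mod_cast Fintype.card_ne_zero
    exact hne v1.symm
  · exact fun l f hf => chr_fibre hp hp0 hz hw hw1 l f hf
  · exact fun l f hf => chr_fibre hp hp0 hz hw' hw1' l f hf
  · exact same_part hp0 hz hσ hkill hζn hw hw1 hw' hw1'
  · -- not in the part of the evaluation at the centre
    intro hs
    rw [sameGleason_iff, evalZero_toAlg] at hs
    obtain ⟨ρ, hρ0, hρ1, hρ⟩ := samePart_rho hs
    set fP : Au (LP p) := mkAu (pol p c k) (mem_pol c hd hdp hkd) with hfP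
    have hb : ∀ x, ‖(fP : ball (0 : LP p) 1 → ℂ) x‖ ≤ 1 := by
      intro x
      have hx := x.2
      rw [mem_ball_zero_iff] at hx
      exact norm_pol_le c hd hdp hkd hQ hx.le
    have ht := samePart_transfer hρ0 hρ1 hρ fP hb
    have v1 : φ.toAlg fP = 1 := by
      have h1 := chr_pol hp0 hz hw hw1 c hd hk0 (⟨fP.1, fP.2⟩ : AuBall (LP p)) (fun x => rfl)
      simp only [hQ1] at h1
      rw [EC_const hw1, one_pow] at h1
      exact h1
    have v2 : delta0 (LP p) fP = 0 := pol_zero c hd hk0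
    rw [v1, v2, sub_self, norm_zero, mul_zero, sub_zero, norm_one] at ht
    linarith

end

end Pool.Agent.helper68.Gl
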