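import Pool.Agent.helper68.Gl.Dbar

/-!
# A quantitative Schwarz lemma for almost holomorphic functions
-/

set_option linter.unusedSectionVars false

namespace Pool.Agent.helper68.Gl

open MeasureTheory intervalIntegral Real
open scoped ComplexConjugate

noncomputable section

variable {h a b : ℂ → ℂ} (hd : ∀ w, HasFDerivAt (𝕜 := ℝ) h (LL (a w) (b w)) w)
  (ha : Continuous a) (hb : Continuous b)

/-- the circle -/
def cw (θ : ℝ) : ℂ := circleMap 0 (1 / 2) θ

lemma norm_cw (θ : ℝ) : ‖cw θ‖ = 1 / 2 := by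
  unfold cw
  rw [norm_circleMap_zero]
  norm_num

lemma continuous_cw : Continuous cw := continuous_circleMap _ _

lemma hasDerivAt_cw (θ : ℝ) : HasDerivAt cw (cw θ * Complex.I) θ := hasDerivAt_circleMap _ _ _

lemma cw_period : cw (2 * π) = cw 0 := by
  have := periodic_circleMap 0 (1 / 2) 0
  rw [zero_add] at this
  exact this

include hd ha hb in
lemma circ_int_eq {s : ℝ} (hs : s ≠ 0) (ζ : ℂ) :
    ∫ θ in (0 : ℝ)..(2 * π), a (ζ + s * (cw θ - ζ)) * cw θ
      = ∫ θ in (0 : ℝ)..(2 * π), b (ζ + s * (cw θ - ζ)) * conj (cw θ) := by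
  have hcw := continuous_cw
  have hγ : Continuous fun θ : ℝ => ζ + s * (cw θ - ζ) := by fun_prop
  have hA : Continuous fun θ : ℝ => a (ζ + s * (cw θ - ζ)) * cw θ := (ha.comp hγ).mul hcw
  have hB : Continuous fun θ : ℝ => b (ζ + s * (cw θ - ζ)) * conj (cw θ) :=
    (hb.comp hγ).mul (Complex.continuous_conj.comp hcw)
  have hder : ∀ θ : ℝ, HasDerivAt (fun θ : ℝ => h (ζ + s * (cw θ - ζ)))
      ((s * Complex.I) * (a (ζ + s * (cw θ - ζ)) * cw θ - b (ζ + s * (cw θ - ζ)) * conj (cw θ)))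
      θ := by
    intro θ
    have h1 : HasDerivAt (fun θ : ℝ => ζ + s * (cw θ - ζ)) (s * (cw θ * Complex.I)) θ :=
      (((hasDerivAt_cw θ).sub_const ζ).const_mul (s : ℂ)).const_add ζ
    have h2 := (hd (ζ + s * (cw θ - ζ))).comp_hasDerivAt θ h1
    refine h2.congr_deriv ?_
    rw [LL_apply]
    simp only [map_mul, Complex.conj_ofReal, Complex.conj_I]
    ring
  have hftc := integral_eq_sub_of_hasDerivAt (a := 0) (b := 2 * π) (fun θ _ => hder θ)
    ((continuous_const.mul (hA.sub hB)).intervalIntegrable _ _)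
  rw [cw_period, sub_self, intervalIntegral.integral_const_mul] at hftc
  have hne : (s : ℂ) * Complex.I ≠ 0 :=
    mul_ne_zero (by exact_mod_cast hs) Complex.I_ne_zero
  have := (mul_eq_zero.1 hftc).resolve_left hne
  rw [intervalIntegral.integral_sub (hA.intervalIntegrable _ _) (hB.intervalIntegrable _ _)] at this
  exact sub_eq_zero.1 this

include hd ha hb in
lemma pompeiu_aux {ε : ℝ} (hε : ∀ w, ‖w‖ ≤ 1 / 2 → ‖b w‖ ≤ ε) {ζ : ℂ} (hζ : ‖ζ‖ < 1 / 2) :
    ‖∫ θ in (0 : ℝ)..(2 * π), (h (cw θ) - h ζ) * (cw θ / (cw θ - ζ))‖ ≤ 2 * π * ε := by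
  have hcw := continuous_cw
  have hne : ∀ θ, cw θ - ζ ≠ 0 := by
    intro θ h0
    have := norm_cw θ
    rw [sub_eq_zero.1 h0] at this
    linarith
  have hK : Continuous fun θ => cw θ / (cw θ - ζ) :=
    hcw.div (hcw.sub continuous_const) hne
  set F : ℝ → ℝ → ℂ := fun θ s => a (ζ + s * (cw θ - ζ)) * cw θ
    + b (ζ + s * (cw θ - ζ)) * (conj (cw θ - ζ) * (cw θ / (cw θ - ζ))) with hF
  have hγ2 : Continuous fun x : ℝ × ℝ => ζ + (x.2 : ℂ) * (cw x.1 - ζ) := by fun_prop
  have hFc : Continuous (Function.uncurry F) := by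
    have e : Function.uncurry F = fun x : ℝ × ℝ => a (ζ + (x.2 : ℂ) * (cw x.1 - ζ)) * cw x.1
      + b (ζ + (x.2 : ℂ) * (cw x.1 - ζ)) * (conj (cw x.1 - ζ) * (cw x.1 / (cw x.1 - ζ))) := by
      funext ⟨θ, s⟩; rfl
    rw [e]
    have c1 : Continuous fun x : ℝ × ℝ => cw x.1 := hcw.comp continuous_fst
    have c2 : Continuous fun x : ℝ × ℝ => cw x.1 / (cw x.1 - ζ) := hK.comp continuous_fst
    have c3 : Continuous fun x : ℝ × ℝ => conj (cw x.1 - ζ) :=
      Complex.continuous_conj.comp (c1.sub continuous_const)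
    exact ((ha.comp hγ2).mul c1).add ((hb.comp hγ2).mul (c3.mul c2))
  have hstep : ∀ θ : ℝ, (h (cw θ) - h ζ) * (cw θ / (cw θ - ζ)) = ∫ s in (0 : ℝ)..1, F θ s := by
    intro θ
    have hder : ∀ s : ℝ, HasDerivAt (fun s : ℝ => h (ζ + s * (cw θ - ζ)) * (cw θ / (cw θ - ζ)))
        (F θ s) s := by
      intro s
      have h1 : HasDerivAt (fun s : ℝ => ζ + (s : ℂ) * (cw θ - ζ)) (cw θ - ζ) s := by
        have := ((Complex.ofRealCLM.hasDerivAt (x := s)).mul_const (cw θ - ζ)).const_add ζ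
        simpa using this
      have h2 := ((hd (ζ + s * (cw θ - ζ))).comp_hasDerivAt s h1).mul_const (cw θ / (cw θ - ζ))
      refine h2.congr_deriv ?_
      rw [LL_apply, hF]
      simp only
      have h3 := hne θ
      have h4 : (cw θ - ζ) * (cw θ / (cw θ - ζ)) = cw θ := by field_simp
      rw [add_mul, mul_assoc, mul_assoc, h4]
    have hint : IntervalIntegrable (fun s => F θ s) volume 0 1 := by
      apply Continuous.intervalIntegrable
      exact hFc.comp (by fun_prop : Continuous fun s : ℝ => ((θ, s) : ℝ × ℝ))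
    rw [integral_eq_sub_of_hasDerivAt (fun s _ => hder s) hint]
    simp only [Complex.ofReal_one, one_mul, Complex.ofReal_zero, zero_mul, add_zero]
    rw [show ζ + (cw θ - ζ) = cw θ by ring]
    ring
  simp_rw [hstep]
  rw [intervalIntegral_intervalIntegral_swap]
  swap
  · have hcomp : IsCompact (Set.uIcc (0 : ℝ) (2 * π) ×ˢ Set.uIcc (0 : ℝ) 1) :=
      isCompact_uIcc.prod isCompact_uIcc
    exact (hFc.continuousOn.integrableOn_compact hcomp).mono_set
      (Set.prod_mono Set.uIoc_subset_uIcc Set.uIoc_subset_uIcc)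
  have hbound : ∀ s ∈ Set.uIoc (0 : ℝ) 1,
      ‖∫ θ in (0 : ℝ)..(2 * π), F θ s‖ ≤ 2 * π * ε := by
    intro s hs
    rw [Set.uIoc_of_le zero_le_one] at hs
    have hγ : Continuous fun θ : ℝ => ζ + s * (cw θ - ζ) := by fun_prop
    have hA : Continuous fun θ : ℝ => a (ζ + s * (cw θ - ζ)) * cw θ := (ha.comp hγ).mul hcw
    have hB : Continuous fun θ : ℝ => b (ζ + s * (cw θ - ζ)) * conj (cw θ) :=
      (hb.comp hγ).mul (Complex.continuous_conj.comp hcw)
    have hC : Continuous fun θ : ℝ =>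
        b (ζ + s * (cw θ - ζ)) * (conj (cw θ - ζ) * (cw θ / (cw θ - ζ))) :=
      (hb.comp hγ).mul ((Complex.continuous_conj.comp (hcw.sub continuous_const)).mul hK)
    have e1 : ∫ θ in (0 : ℝ)..(2 * π), F θ s = ∫ θ in (0 : ℝ)..(2 * π),
        b (ζ + s * (cw θ - ζ)) * (conj (cw θ) + conj (cw θ - ζ) * (cw θ / (cw θ - ζ))) := by
      rw [hF]
      simp only
      rw [intervalIntegral.integral_add (hA.intervalIntegrable _ _) (hC.intervalIntegrable _ _),
        circ_int_eq hd ha hb hs.1.ne' ζ,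
        ← intervalIntegral.integral_add (hB.intervalIntegrable _ _) (hC.intervalIntegrable _ _)]
      refine intervalIntegral.integral_congr fun θ _ => ?_
      ring
    rw [e1]
    have e2 := norm_integral_le_of_norm_le_const (a := 0) (b := 2 * π) (C := ε)
      (f := fun θ => b (ζ + s * (cw θ - ζ)) * (conj (cw θ) + conj (cw θ - ζ) *
        (cw θ / (cw θ - ζ)))) ?_
    · refine e2.trans (le_of_eq ?_)
      rw [sub_zero, abs_of_pos (by positivity)]
      ring
    · intro θ _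
      rw [norm_mul]
      have n1 : ‖ζ + s * (cw θ - ζ)‖ ≤ 1 / 2 := by
        have : ζ + s * (cw θ - ζ) = (1 - s : ℝ) * ζ + s * cw θ := by push_cast; ring
        rw [this]
        refine (norm_add_le _ _).trans ?_
        rw [norm_mul, norm_mul, Complex.norm_real, Complex.norm_real, norm_cw,
          Real.norm_of_nonneg (by linarith [hs.2]), Real.norm_of_nonneg hs.1.le]
        have := hs.1
        have := hs.2
        nlinarith
      have n2 : ‖conj (cw θ) + conj (cw θ - ζ) * (cw θ / (cw θ - ζ))‖ ≤ 1 := by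
        refine (norm_add_le _ _).trans ?_
        rw [norm_mul, norm_div, RCLike.norm_conj, RCLike.norm_conj, norm_cw]
        have h3 : ‖cw θ - ζ‖ ≠ 0 := norm_ne_zero_iff.2 (hne θ)
        rw [mul_div_cancel₀ _ h3]
        norm_num
      calc ‖b (ζ + s * (cw θ - ζ))‖ * _ ≤ ε * 1 := by
            gcongr
            · exact (norm_nonneg _).trans (hε _ n1)
            · exact hε _ n1
        _ = ε := mul_one ε
  have := norm_integral_le_of_norm_le_const hbound
  simpa using this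

lemma integral_kernel {ζ : ℂ} (hζ : ‖ζ‖ < 1 / 2) :
    ∫ θ in (0 : ℝ)..(2 * π), (cw θ / (cw θ - ζ)) = 2 * π := by
  have h1 := circleIntegral.integral_sub_inv_of_mem_ball (c := 0) (w := ζ) (R := 1 / 2)
    (by rw [Metric.mem_ball, dist_zero_right]; exact hζ)
  rw [circleIntegral] at h1
  simp only [deriv_circleMap, smul_eq_mul] at h1
  have h2 : ∫ θ in (0 : ℝ)..(2 * π), circleMap 0 (1 / 2) θ * Complex.I * (circleMap 0 (1 / 2) θ - ζ)⁻¹
      = Complex.I * ∫ θ in (0 : ℝ)..(2 * π), (cw θ / (cw θ - ζ)) := by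
    rw [← intervalIntegral.integral_const_mul]
    refine intervalIntegral.integral_congr fun θ _ => ?_
    simp only [cw, div_eq_mul_inv]
    ring
  rw [h2] at h1
  have h3 : (2 * π * Complex.I : ℂ) = Complex.I * (2 * π) := by ring
  rw [h3] at h1
  exact mul_left_cancel₀ Complex.I_ne_zero h1

include hd ha hb in
/-- An almost holomorphic function bounded by one moves little near the centre. -/
theorem pompeiu {ε : ℝ} (hε : ∀ w, ‖w‖ ≤ 1 / 2 → ‖b w‖ ≤ ε)
    (h1 : ∀ w, ‖w‖ ≤ 1 / 2 → ‖h w‖ ≤ 1) {ζ : ℂ} (hζ : ‖ζ‖ ≤ 1 / 8) :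
    ‖h ζ - h 0‖ ≤ 1 / 3 + 2 * ε := by
  have hcw := continuous_cw
  have hhc : Continuous h := continuous_iff_continuousAt.2 fun w => (hd w).continuousAt
  have hne : ∀ {ζ : ℂ}, ‖ζ‖ < 1 / 2 → ∀ θ, cw θ - ζ ≠ 0 := by
    intro ζ hζ θ h0
    have := norm_cw θ
    rw [sub_eq_zero.1 h0] at this
    linarith
  have key : ∀ {ζ : ℂ}, ‖ζ‖ < 1 / 2 →
      ‖(∫ θ in (0 : ℝ)..(2 * π), h (cw θ) * (cw θ / (cw θ - ζ))) - 2 * π * h ζ‖ ≤ 2 * π * ε := by
    intro ζ hζ
    have hK : Continuous fun θ => cw θ / (cw θ - ζ) :=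
      hcw.div (hcw.sub continuous_const) (hne hζ)
    have e := pompeiu_aux hd ha hb hε hζ
    have e2 : ∫ θ in (0 : ℝ)..(2 * π), (h (cw θ) - h ζ) * (cw θ / (cw θ - ζ))
        = (∫ θ in (0 : ℝ)..(2 * π), h (cw θ) * (cw θ / (cw θ - ζ))) - 2 * π * h ζ := by
      have i1 : Continuous fun θ => h (cw θ) * (cw θ / (cw θ - ζ)) := (hhc.comp hcw).mul hK
      have i2 : Continuous fun θ => h ζ * (cw θ / (cw θ - ζ)) := continuous_const.mul hK
      simp only [sub_mul]
      rw [intervalIntegral.integral_sub (i1.intervalIntegrable _ _)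
        (i2.intervalIntegrable _ _), intervalIntegral.integral_const_mul,
        integral_kernel hζ]
      ring
    rwa [e2] at e
  have hζ' : ‖ζ‖ < 1 / 2 := lt_of_le_of_lt hζ (by norm_num)
  have k1 := key hζ'
  have k2 := key (ζ := 0) (by norm_num)
  have hK : Continuous fun θ => cw θ / (cw θ - ζ) :=
    hcw.div (hcw.sub continuous_const) (hne hζ')
  have hK0 : Continuous fun θ => cw θ / (cw θ - 0) :=
    hcw.div (hcw.sub continuous_const) (hne (by norm_num))
  have k3 : ‖(∫ θ in (0 : ℝ)..(2 * π), h (cw θ) * (cw θ / (cw θ - ζ)))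
      - ∫ θ in (0 : ℝ)..(2 * π), h (cw θ) * (cw θ / (cw θ - 0))‖ ≤ 2 * π * (1 / 3) := by
    have i1 : Continuous fun θ => h (cw θ) * (cw θ / (cw θ - ζ)) := (hhc.comp hcw).mul hK
    have i2 : Continuous fun θ => h (cw θ) * (cw θ / (cw θ - 0)) := (hhc.comp hcw).mul hK0
    rw [← intervalIntegral.integral_sub (i1.intervalIntegrable _ _)
      (i2.intervalIntegrable _ _)]
    have := norm_integral_le_of_norm_le_const (a := 0) (b := 2 * π) (C := 1 / 3)
      (f := fun θ => h (cw θ) * (cw θ / (cw θ - ζ)) - h (cw θ) * (cw θ / (cw θ - 0))) ?_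
    · refine this.trans (le_of_eq ?_)
      rw [sub_zero, abs_of_pos (by positivity)]
      ring
    · intro θ _
      have hn := hne hζ' θ
      have hn0 : cw θ ≠ 0 := by
        intro h0
        have := norm_cw θ
        rw [h0] at this
        norm_num at this
      have e : h (cw θ) * (cw θ / (cw θ - ζ)) - h (cw θ) * (cw θ / (cw θ - 0))
          = h (cw θ) * (ζ / (cw θ - ζ)) := by
        rw [sub_zero, div_self hn0]
        field_simp
        ring
      rw [e, norm_mul, norm_div]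
      have b1 : 3 / 8 ≤ ‖cw θ - ζ‖ := by
        have := norm_sub_norm_le (cw θ) ζ
        rw [norm_cw] at this
        linarith
      have b2 : ‖ζ‖ / ‖cw θ - ζ‖ ≤ 1 / 3 := by
        rw [div_le_iff₀ (by linarith)]
        linarith
      calc ‖h (cw θ)‖ * (‖ζ‖ / ‖cw θ - ζ‖) ≤ 1 * (1 / 3) := by
            gcongr
            exact h1 _ (norm_cw θ).le
        _ = 1 / 3 := one_mul _
  set A := ∫ θ in (0 : ℝ)..(2 * π), h (cw θ) * (cw θ / (cw θ - ζ))
  set B := ∫ θ in (0 : ℝ)..(2 * π), h (cw θ) * (cw θ / (cw θ - 0))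
  have e : 2 * π * (h ζ - h 0) = -(A - 2 * π * h ζ) + (A - B) + (B - 2 * π * h 0) := by ring
  have n : ‖(2 * π * (h ζ - h 0) : ℂ)‖ = 2 * π * ‖h ζ - h 0‖ := by
    rw [norm_mul, norm_mul, Complex.norm_real, Real.norm_of_nonneg pi_pos.le]
    simp
  have t : 2 * π * ‖h ζ - h 0‖ ≤ 2 * π * (1 / 3 + 2 * ε) := by
    rw [← n, e]
    refine (norm_add₃_le).trans ?_
    rw [norm_neg]
    linarith
  exact le_of_mul_le_mul_left t (by positivity)

end

end Pool.Agent.helper68.Gl
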