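import Pool.Agent.helper68.Gl.Conj

set_option linter.unusedSectionVars false

namespace Pool.Agent.helper68.Gl

open Metric Set Filter Topology
open scoped ComplexConjugate NNReal ENNReal

noncomputable section

variable {X : Type*} [NormedAddCommGroup X] [NormedSpace ℂ X]

lemma norm_one_add_I_mul_le (y t : ℝ) : ‖(1 : ℂ) + Complex.I * ((t * y : ℝ) : ℂ)‖
    ≤ 1 + t ^ 2 * y ^ 2 / 2 := by
  have h : ‖(1 : ℂ) + Complex.I * ((t * y : ℝ) : ℂ)‖ ^ 2 = 1 + (t * y) ^ 2 := by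
    rw [← Complex.normSq_eq_norm_sq, Complex.normSq_apply]
    simp
    ring
  have h2 : 1 + (t * y) ^ 2 ≤ (1 + t ^ 2 * y ^ 2 / 2) ^ 2 := by
    nlinarith [sq_nonneg (t ^ 2 * y ^ 2)]
  rw [← h] at h2
  exact (pow_le_pow_iff_left₀ (norm_nonneg _) (by positivity) two_ne_zero).1 h2

lemma stepI (χ : Au X →ₐ[ℂ] ℂ) (E γ γs : Au X) {t : ℝ} (ht0 : 0 < t) (ht : t ≤ 1 / 8)
    (hE : ∀ x, ‖(E : ball (0 : X) 1 → ℂ) x‖ ≤ 1)
    (hγ : ∀ x, ‖(γ : ball (0 : X) 1 → ℂ) x‖ ≤ 1)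
    (hγs : ∀ x, ‖(γs : ball (0 : X) 1 → ℂ) x‖ ≤ 1)
    (hpt : ∀ x, ‖(γs : ball (0 : X) 1 → ℂ) x - conj ((γ : ball (0 : X) 1 → ℂ) x)‖ ≤ t ^ 2 ∨
      ‖(E : ball (0 : X) 1 → ℂ) x‖ ≤ t ^ 2)
    (hχ : ‖χ E - 1‖ ≤ t ^ 2) : ‖χ γs - conj (χ γ)‖ ≤ 5 * t := by
  set d : ℂ := χ γs - conj (χ γ) with hd
  obtain ⟨θ, hθ, hθd⟩ := exists_unimod (Complex.I * d)
  have hdn : ‖Complex.I * d‖ = ‖d‖ := by simp
  rw [hdn] at hθd
  set S : Au X := E * (1 + (Complex.I * t) • ((conj θ) • γ + θ • γs)) with hS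
  have hbound : ∀ x, ‖(S : ball (0 : X) 1 → ℂ) x‖ ≤ 1 + 3 * t ^ 2 := by
    intro x
    set e := (E : ball (0 : X) 1 → ℂ) x with he
    set a := (γ : ball (0 : X) 1 → ℂ) x with ha
    set b := (γs : ball (0 : X) 1 → ℂ) x with hb
    have hSx : (S : ball (0 : X) 1 → ℂ) x = e * (1 + (Complex.I * t) * (conj θ * a + θ * b)) := rfl
    have ha1 : ‖a‖ ≤ 1 := hγ x
    have hb1 : ‖b‖ ≤ 1 := hγs x
    have he1 : ‖e‖ ≤ 1 := hE x
    rw [hSx, norm_mul]
    rcases hpt x with h | h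
    · have e1 : (1 : ℂ) + (Complex.I * t) * (conj θ * a + θ * b)
          = (1 + Complex.I * ((t * (2 * (conj θ * a).re) : ℝ) : ℂ))
            + (Complex.I * t * θ) * (b - conj a) := by
        have h1 : ((2 * (conj θ * a).re : ℝ) : ℂ) = conj θ * a + conj (conj θ * a) := by
          rw [Complex.add_conj]
        rw [Complex.ofReal_mul, h1, map_mul, Complex.conj_conj]
        ring
      have h2 := norm_one_add_I_mul_le (2 * (conj θ * a).re) t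
      have h3 : |(conj θ * a).re| ≤ 1 := by
        refine (Complex.abs_re_le_norm _).trans ?_
        rw [norm_mul, RCLike.norm_conj, hθ, one_mul]; exact ha1
      have h3' : (conj θ * a).re ^ 2 ≤ 1 := by
        rw [← sq_abs]
        nlinarith [abs_nonneg (conj θ * a).re]
      have h4 : ‖(Complex.I * t * θ) * (b - conj a)‖ ≤ t * t ^ 2 := by
        rw [norm_mul, norm_mul, norm_mul, Complex.norm_I, hθ, Complex.norm_real,
          Real.norm_of_nonneg ht0.le, one_mul, mul_one]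
        gcongr
      calc ‖e‖ * ‖(1 : ℂ) + (Complex.I * t) * (conj θ * a + θ * b)‖
          ≤ 1 * ‖(1 : ℂ) + (Complex.I * t) * (conj θ * a + θ * b)‖ := by gcongr
        _ ≤ (1 + t ^ 2 * (2 * (conj θ * a).re) ^ 2 / 2) + t * t ^ 2 := by
            rw [one_mul, e1]
            exact (norm_add_le _ _).trans (add_le_add h2 h4)
        _ ≤ 1 + 3 * t ^ 2 := by
            have : t ^ 2 * (2 * (conj θ * a).re) ^ 2 / 2 ≤ 2 * t ^ 2 := by
              have e5 : t ^ 2 * (2 * (conj θ * a).re) ^ 2 / 2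
                  = 2 * t ^ 2 * (conj θ * a).re ^ 2 := by ring
              rw [e5]
              exact mul_le_of_le_one_right (by positivity) h3'
            have h6 : t * t ^ 2 ≤ 1 * t ^ 2 := by gcongr; linarith
            linarith
    · have h2 : ‖(1 : ℂ) + (Complex.I * t) * (conj θ * a + θ * b)‖ ≤ 1 + t * 2 := by
        refine (norm_add_le _ _).trans ?_
        rw [norm_one, norm_mul, norm_mul, Complex.norm_I, one_mul, Complex.norm_real,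
          Real.norm_of_nonneg ht0.le]
        gcongr
        refine (norm_add_le _ _).trans ?_
        rw [norm_mul, norm_mul, RCLike.norm_conj, hθ, one_mul, one_mul]
        linarith
      calc ‖e‖ * ‖(1 : ℂ) + (Complex.I * t) * (conj θ * a + θ * b)‖
          ≤ t ^ 2 * (1 + t * 2) := by gcongr
        _ ≤ 1 + 3 * t ^ 2 := by nlinarith
  have h1 := char_bound χ S hbound
  have h2 : χ S = χ E * (1 + (Complex.I * t) * (conj θ * χ γ + θ * χ γs)) := by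
    rw [hS, map_mul, map_add, map_one, map_smul, map_add, map_smul, map_smul]
    simp only [smul_eq_mul]
  have h3 : (1 : ℂ) + (Complex.I * t) * (conj θ * χ γ + θ * χ γs)
      = (1 + t * ‖d‖ : ℝ) + Complex.I * ((t * (2 * (conj θ * χ γ).re) : ℝ) : ℂ) := by
    have h1 : ((2 * (conj θ * χ γ).re : ℝ) : ℂ) = conj θ * χ γ + conj (conj θ * χ γ) := by
      rw [Complex.add_conj]
    have h5 : χ γs = d + conj (χ γ) := by rw [hd]; ring
    rw [Complex.ofReal_mul, h1, map_mul, Complex.conj_conj, h5]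
    push_cast
    rw [← hθd]
    ring
  have h4 : 1 + t * ‖d‖ ≤ ‖(1 : ℂ) + (Complex.I * t) * (conj θ * χ γ + θ * χ γs)‖ := by
    refine le_trans ?_ (Complex.re_le_norm _)
    rw [h3]
    simp
  have h5 : 1 - t ^ 2 ≤ ‖χ E‖ := by
    have := norm_sub_norm_le (1 : ℂ) (χ E)
    rw [norm_one, norm_sub_rev] at this
    linarith
  have ht2 : t ^ 2 ≤ 1 / 64 := by nlinarith
  have h6 : (1 - t ^ 2) * (1 + t * ‖d‖) ≤ 1 + 3 * t ^ 2 := by
    refine le_trans ?_ h1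
    rw [h2, norm_mul]
    gcongr
  have h7 : (1 - t ^ 2) * (t * ‖d‖) ≤ 4 * t ^ 2 := by nlinarith
  have h8 : (63 / 64 : ℝ) * (t * ‖d‖) ≤ (1 - t ^ 2) * (t * ‖d‖) := by
    gcongr
    linarith
  have h9 : t * ((63 / 64 : ℝ) * ‖d‖) ≤ t * (4 * t) := by nlinarith
  have h10 := le_of_mul_le_mul_left h9 ht0
  linarith

lemma stepII (φ ψ : Au X →ₐ[ℂ] ℂ) (E γ γs : Au X) {t C : ℝ} (ht0 : 0 < t) (ht : t ≤ 1 / 8)
    (hC : 0 ≤ C)
    (hE : ∀ x, ‖(E : ball (0 : X) 1 → ℂ) x‖ ≤ 1)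
    (hγ : ∀ x, ‖(γ : ball (0 : X) 1 → ℂ) x‖ ≤ 1)
    (hγs : ∀ x, ‖(γs : ball (0 : X) 1 → ℂ) x‖ ≤ 1)
    (hpt : ∀ x, ‖(γs : ball (0 : X) 1 → ℂ) x - conj ((γ : ball (0 : X) 1 → ℂ) x)‖ ≤ t ^ 2 ∨
      ‖(E : ball (0 : X) 1 → ℂ) x‖ ≤ t ^ 2)
    (hφ : ‖φ E - 1‖ ≤ t ^ 2) (hψ : ‖ψ E - 1‖ ≤ t ^ 2)
    (htr : ∀ f : Au X, (∀ x, ‖(f : ball (0 : X) 1 → ℂ) x‖ ≤ 1) → ‖1 - ψ f‖ ≤ C * ‖1 - φ f‖) :
    ‖φ γ - ψ γ‖ ^ 2 ≤ 20 * (1 + C) * t := by
  have dφ := stepI φ E γ γs ht0 ht hE hγ hγs hpt hφ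
  have dψ := stepI ψ E γ γs ht0 ht hE hγ hγs hpt hψ
  have ht2 : t ^ 2 ≤ t := by nlinarith
  set α : ℂ := φ γ with hα
  set α' : ℂ := φ γs with hα'
  have hα1 : ‖α‖ ≤ 1 := char_bound φ γ hγ
  have hα'1 : ‖α'‖ ≤ 1 := char_bound φ γs hγs
  set P : Au X := (γ - algebraMap ℂ (Au X) α) * (γs - algebraMap ℂ (Au X) α') with hP
  set G : Au X := E * (1 - (1 / 8 : ℂ) • P) with hG
  have hbound : ∀ x, ‖(G : ball (0 : X) 1 → ℂ) x‖ ≤ 1 + 3 / 2 * t := by
    intro x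
    set e := (E : ball (0 : X) 1 → ℂ) x with he
    set a := (γ : ball (0 : X) 1 → ℂ) x with ha
    set b := (γs : ball (0 : X) 1 → ℂ) x with hb
    have hGx : (G : ball (0 : X) 1 → ℂ) x = e * (1 - (1 / 8) * ((a - α) * (b - α'))) := rfl
    have ha1 : ‖a‖ ≤ 1 := hγ x
    have hb1 : ‖b‖ ≤ 1 := hγs x
    have he1 : ‖e‖ ≤ 1 := hE x
    have haα : ‖a - α‖ ≤ 2 := (norm_sub_le _ _).trans (by linarith)
    have hbα : ‖b - α'‖ ≤ 2 := (norm_sub_le _ _).trans (by linarith)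
    rw [hGx, norm_mul]
    rcases hpt x with h | h
    · have e1 : (1 : ℂ) - (1 / 8) * ((a - α) * (b - α'))
          = ((1 - ‖a - α‖ ^ 2 / 8 : ℝ) : ℂ)
            - (1 / 8) * ((a - α) * ((b - conj a) - (α' - conj α))) := by
        have h1 : ((‖a - α‖ ^ 2 : ℝ) : ℂ) = (a - α) * conj (a - α) := by
          rw [Complex.mul_conj, Complex.normSq_eq_norm_sq]
        push_cast at h1 ⊢
        rw [h1, map_sub]
        ring
      have h2 : ‖((1 - ‖a - α‖ ^ 2 / 8 : ℝ) : ℂ)‖ ≤ 1 := by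
        rw [Complex.norm_real, Real.norm_of_nonneg]
        · nlinarith [sq_nonneg ‖a - α‖]
        · nlinarith [norm_nonneg (a - α)]
      have h3 : ‖(b - conj a) - (α' - conj α)‖ ≤ 6 * t := by
        refine (norm_sub_le _ _).trans ?_
        linarith
      have h4 : ‖(1 / 8 : ℂ) * ((a - α) * ((b - conj a) - (α' - conj α)))‖ ≤ 3 / 2 * t := by
        rw [norm_mul, norm_mul]
        have : ‖(1 / 8 : ℂ)‖ = 1 / 8 := by norm_num
        rw [this]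
        calc (1 / 8 : ℝ) * (‖a - α‖ * ‖(b - conj a) - (α' - conj α)‖)
            ≤ (1 / 8 : ℝ) * (2 * (6 * t)) := by gcongr
          _ = 3 / 2 * t := by ring
      calc ‖e‖ * ‖(1 : ℂ) - (1 / 8) * ((a - α) * (b - α'))‖
          ≤ 1 * ‖(1 : ℂ) - (1 / 8) * ((a - α) * (b - α'))‖ := by gcongr
        _ ≤ 1 + 3 / 2 * t := by
            rw [one_mul, e1]
            exact (norm_sub_le _ _).trans (add_le_add h2 h4)
    · have h2 : ‖(1 : ℂ) - (1 / 8) * ((a - α) * (b - α'))‖ ≤ 1 + 1 / 2 := by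
        refine (norm_sub_le _ _).trans ?_
        rw [norm_one, norm_mul, norm_mul]
        have : ‖(1 / 8 : ℂ)‖ = 1 / 8 := by norm_num
        rw [this]
        have h5 : ‖a - α‖ * ‖b - α'‖ ≤ 2 * 2 := by gcongr
        linarith
      calc ‖e‖ * ‖(1 : ℂ) - (1 / 8) * ((a - α) * (b - α'))‖
          ≤ t ^ 2 * (1 + 1 / 2) := by gcongr
        _ ≤ 1 + 3 / 2 * t := by nlinarith
  -- values at the two characters
  have hPφ : φ P = 0 := by
    rw [hP, map_mul, map_sub, AlgHom.commutes]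
    simp [hα]
  have hGφ : φ G = φ E := by
    rw [hG, map_mul, map_sub, map_smul, hPφ, map_one]
    simp
  have hGψ : ψ G = ψ E * (1 - (1 / 8) * ((ψ γ - α) * (ψ γs - α'))) := by
    rw [hG, hP, map_mul, map_sub, map_smul, map_one, map_mul, map_sub, map_sub,
      AlgHom.commutes, AlgHom.commutes]
    simp
  set D : ℝ := ‖φ γ - ψ γ‖ with hD
  have hψγ : ‖ψ γ‖ ≤ 1 := char_bound ψ γ hγ
  have hD2 : D ≤ 2 := (norm_sub_le _ _).trans (by linarith)
  have hD0 : 0 ≤ D := norm_nonneg _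
  have hDα : ‖ψ γ - α‖ = D := by rw [hD, norm_sub_rev]
  have hψG : ‖ψ G‖ ≤ 1 - D ^ 2 / 8 + 5 / 2 * t := by
    have e1 : (1 : ℂ) - (1 / 8) * ((ψ γ - α) * (ψ γs - α'))
        = ((1 - D ^ 2 / 8 : ℝ) : ℂ)
          - (1 / 8) * ((ψ γ - α) * ((ψ γs - conj (ψ γ)) - (α' - conj α))) := by
      have h1 : ((D ^ 2 : ℝ) : ℂ) = (ψ γ - α) * conj (ψ γ - α) := by
        rw [Complex.mul_conj, Complex.normSq_eq_norm_sq, hDα]
      push_cast at h1 ⊢
      rw [h1, map_sub]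
      ring
    have h2 : ‖((1 - D ^ 2 / 8 : ℝ) : ℂ)‖ = 1 - D ^ 2 / 8 := by
      rw [Complex.norm_real, Real.norm_of_nonneg]
      nlinarith
    have h3 : ‖(ψ γs - conj (ψ γ)) - (α' - conj α)‖ ≤ 10 * t := by
      refine (norm_sub_le _ _).trans ?_
      linarith
    have h4 : ‖(1 / 8 : ℂ) * ((ψ γ - α) * ((ψ γs - conj (ψ γ)) - (α' - conj α)))‖
        ≤ 5 / 2 * t := by
      rw [norm_mul, norm_mul, hDα]
      have : ‖(1 / 8 : ℂ)‖ = 1 / 8 := by norm_num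
      rw [this]
      calc (1 / 8 : ℝ) * (D * ‖(ψ γs - conj (ψ γ)) - (α' - conj α)‖)
          ≤ (1 / 8 : ℝ) * (2 * (10 * t)) := by gcongr
        _ = 5 / 2 * t := by ring
    rw [hGψ, norm_mul, e1]
    have hψE : ‖ψ E‖ ≤ 1 := char_bound ψ E hE
    calc ‖ψ E‖ * ‖((1 - D ^ 2 / 8 : ℝ) : ℂ)
          - (1 / 8) * ((ψ γ - α) * ((ψ γs - conj (ψ γ)) - (α' - conj α)))‖
        ≤ 1 * ‖((1 - D ^ 2 / 8 : ℝ) : ℂ)
          - (1 / 8) * ((ψ γ - α) * ((ψ γs - conj (ψ γ)) - (α' - conj α)))‖ := by gcongr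
      _ ≤ 1 - D ^ 2 / 8 + 5 / 2 * t := by
          rw [one_mul]
          refine (norm_sub_le _ _).trans ?_
          rw [h2]
          linarith
  -- normalise
  set M : ℝ := 1 + 3 / 2 * t with hM
  have hM1 : 1 ≤ M := by rw [hM]; linarith
  have hM0 : 0 < M := by linarith
  set G' : Au X := ((M⁻¹ : ℝ) : ℂ) • G with hG'
  have hG'1 : ∀ x, ‖(G' : ball (0 : X) 1 → ℂ) x‖ ≤ 1 := by
    intro x
    have : (G' : ball (0 : X) 1 → ℂ) x = ((M⁻¹ : ℝ) : ℂ) * (G : ball (0 : X) 1 → ℂ) x := rfl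
    rw [this, norm_mul, Complex.norm_real, Real.norm_of_nonneg (by positivity)]
    calc M⁻¹ * ‖(G : ball (0 : X) 1 → ℂ) x‖ ≤ M⁻¹ * M := by
          gcongr
          exact hbound x
      _ = 1 := inv_mul_cancel₀ hM0.ne'
  have hMi : M⁻¹ ≤ 1 := inv_le_one_of_one_le₀ hM1
  have hMi2 : 1 - M⁻¹ ≤ 3 / 2 * t := by
    have : 1 - M⁻¹ = (M - 1) / M := by field_simp
    rw [this, div_le_iff₀ hM0, hM]
    nlinarith
  have h1 := htr G' hG'1
  have h2 : ‖1 - φ G'‖ ≤ 5 / 2 * t := by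
    have e : 1 - φ G' = ((1 - M⁻¹ : ℝ) : ℂ) - ((M⁻¹ : ℝ) : ℂ) * (φ E - 1) := by
      rw [hG', map_smul, hGφ, smul_eq_mul]
      push_cast; ring
    rw [e]
    refine (norm_sub_le _ _).trans ?_
    rw [norm_mul, Complex.norm_real, Complex.norm_real, Real.norm_of_nonneg (by linarith),
      Real.norm_of_nonneg (by positivity)]
    have : M⁻¹ * ‖φ E - 1‖ ≤ 1 * t ^ 2 := by gcongr
    linarith
  have h3 : D ^ 2 / 8 - 5 / 2 * t ≤ ‖1 - ψ G'‖ := by
    have h4 := norm_sub_norm_le (1 : ℂ) (ψ G')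
    have h5 : ‖ψ G'‖ ≤ ‖ψ G‖ := by
      rw [hG', map_smul, norm_smul, Complex.norm_real, Real.norm_of_nonneg (by positivity)]
      exact mul_le_of_le_one_left (norm_nonneg _) hMi
    rw [norm_one] at h4
    linarith
  have h4 : C * ‖1 - φ G'‖ ≤ C * (5 / 2 * t) := by gcongr
  nlinarith


/-- The space has good conjugation approximants near maximum points of holomorphic
functions. -/
def ConjApprox (X : Type*) [NormedAddCommGroup X] [NormedSpace ℂ X] : Prop :=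
  ∃ c : X ≃ₗᵢ⋆[ℂ] X, ∀ ε : ℝ, 0 < ε → ∃ η : ℝ, 0 < η ∧ ∃ k : ℕ, ∀ F : X → ℂ,
    (∃ R : ℝ, 1 < R ∧ AnalyticOnNhd ℂ F (ball 0 R) ∧ ∀ x ∈ ball (0 : X) R, ‖F x‖ ≤ 1) →
    (∀ x ∈ ball (0 : X) 1, ‖F x‖ ≤ ‖x‖ ^ k) →
    ∃ U : X → X, AnalyticOnNhd ℂ U (ball 0 1) ∧ UniformContinuousOn U (ball 0 1) ∧
      (∀ x ∈ ball (0 : X) 1, ‖U x‖ ≤ 1 + ε) ∧
      (∀ x ∈ ball (0 : X) 1, ‖F x - 1‖ ≤ η → ‖c (U x) - x‖ ≤ ε)

lemma norm_pow_sub_one_le {z : ℂ} (hz : ‖z‖ ≤ 1) (n : ℕ) : ‖z ^ n - 1‖ ≤ n * ‖z - 1‖ := by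
  induction n with
  | zero => simp
  | succ n ih =>
    have e : z ^ (n + 1) - 1 = z ^ n * (z - 1) + (z ^ n - 1) := by ring
    rw [e]
    refine (norm_add_le _ _).trans ?_
    rw [norm_mul, norm_pow]
    have : ‖z‖ ^ n ≤ 1 := pow_le_one₀ (norm_nonneg _) hz
    have h2 : ‖z‖ ^ n * ‖z - 1‖ ≤ 1 * ‖z - 1‖ := by gcongr
    push_cast
    linarith

/-- Schwarz lemma for elements of the algebra. -/
lemma schwarz_Au {f : Au X} (hf : ∀ x, ‖(f : ball (0 : X) 1 → ℂ) x‖ ≤ 1)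
    (h0 : (f : ball (0 : X) 1 → ℂ) ⟨0, mem_ball_self one_pos⟩ = 0) {x : X}
    (hx : x ∈ ball (0 : X) 1) : ‖extZ (f : ball (0 : X) 1 → ℂ) x‖ ≤ ‖x‖ := by
  refine Complex.norm_le_norm_of_mapsTo_ball (R := 1) ?_ ?_ ?_ (by simpa using hx)
  · exact fun y hy => ((mem_ext f).1 y hy).differentiableAt.differentiableWithinAt
  · intro y hy
    rw [mem_closedBall_zero_iff, extZ_of_mem hy]
    exact hf _
  · rw [extZ_of_mem (mem_ball_self one_pos)]
    exact h0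

theorem singleton_of_conjApprox (hX : ConjApprox X) {φ ψ : Au X →ₐ[ℂ] ℂ}
    (hφψ : SamePart φ ψ) (hφ0 : ¬ SamePart φ (delta0 X)) : φ = ψ := by
  by_contra hne
  obtain ⟨c, hc⟩ := hX
  obtain ⟨ρ, hρ0, hρ1, hρ⟩ := samePart_rho hφψ
  set C : ℝ := 2 / (1 - ρ) with hC
  have hρ' : 0 < 1 - ρ := by linarith
  have hC2 : 2 ≤ C := by
    rw [hC, le_div_iff₀ hρ']; nlinarith
  have htr : ∀ f : Au X, (∀ x, ‖(f : ball (0 : X) 1 → ℂ) x‖ ≤ 1) →
      ‖1 - ψ f‖ ≤ C * ‖1 - φ f‖ := fun f hf => samePart_transfer hρ0 hρ1 hρ f hf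
  -- a function of norm at most one separating the characters
  obtain ⟨f1, hf1⟩ : ∃ f : Au X, φ f ≠ ψ f := by
    by_contra h
    push Not at h
    exact hne (AlgHom.ext h)
  obtain ⟨g, hg, hgne⟩ : ∃ g : Au X, (∀ x, ‖(g : ball (0 : X) 1 → ℂ) x‖ ≤ 1) ∧ φ g ≠ ψ g := by
    obtain ⟨B, hB⟩ := bounded_of_uc f1.2.2
    have hB0 : 0 ≤ B := (norm_nonneg _).trans (hB ⟨0, by simp⟩)
    refine ⟨(((B + 1)⁻¹ : ℝ) : ℂ) • f1, fun x => ?_, ?_⟩
    · have : (((((B + 1)⁻¹ : ℝ) : ℂ) • f1 : Au X) : ball (0 : X) 1 → ℂ) x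
          = (((B + 1)⁻¹ : ℝ) : ℂ) * (f1 : ball (0 : X) 1 → ℂ) x := rfl
      rw [this, norm_mul, Complex.norm_real, Real.norm_of_nonneg (by positivity)]
      calc (B + 1)⁻¹ * ‖(f1 : ball (0 : X) 1 → ℂ) x‖ ≤ (B + 1)⁻¹ * (B + 1) := by
            gcongr
            exact (hB x).trans (by linarith)
        _ = 1 := inv_mul_cancel₀ (by positivity)
    · rw [map_smul, map_smul]
      intro h
      apply hf1
      have h2 : (((B + 1)⁻¹ : ℝ) : ℂ) ≠ 0 := by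
        rw [Complex.ofReal_ne_zero]; positivity
      exact smul_right_injective ℂ h2 h
  set G : X → ℂ := extZ (g : ball (0 : X) 1 → ℂ) with hGdef
  have hGm : Mem G := mem_ext g
  have hG1 : ∀ x ∈ ball (0 : X) 1, ‖G x‖ ≤ 1 := by
    intro x hx; rw [hGdef, extZ_of_mem hx]; exact hg _
  have hD0 : 0 < ‖φ g - ψ g‖ := norm_pos_iff.2 (sub_ne_zero.2 hgne)
  obtain ⟨r, hr0, hr1, hrc⟩ := dilate_close hGm (ε := ‖φ g - ψ g‖ / 4) (by positivity)
  set γ : Au X := mkAu _ (mem_dilate hGm hr0.le hr1.le) with hγdef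
  have hmapr : ∀ x ∈ ball (0 : X) 1, (r : ℂ) • x ∈ ball (0 : X) 1 := by
    intro x hx
    rw [mem_ball_zero_iff] at hx ⊢
    rw [norm_smul, Complex.norm_real, Real.norm_of_nonneg hr0.le]
    calc r * ‖x‖ ≤ 1 * ‖x‖ := by gcongr
      _ < 1 := by simpa using hx
  have hγ1 : ∀ x, ‖(γ : ball (0 : X) 1 → ℂ) x‖ ≤ 1 := by
    intro x
    exact hG1 _ (hmapr x x.2)
  have hγg : ∀ x, ‖(γ : ball (0 : X) 1 → ℂ) x - (g : ball (0 : X) 1 → ℂ) x‖
      ≤ ‖φ g - ψ g‖ / 4 := by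
    intro x
    have := hrc x x.2
    rwa [hGdef, extZ_coe] at this
  have h1 := char_sub_bound φ γ g hγg
  have h2 := char_sub_bound ψ γ g hγg
  set D : ℝ := ‖φ γ - ψ γ‖ with hD
  have hDpos : 0 < D := by
    have h3 : ‖φ g - ψ g‖ ≤ ‖φ γ - φ g‖ + D + ‖ψ γ - ψ g‖ := by
      have e : φ g - ψ g = -(φ γ - φ g) + (φ γ - ψ γ) + (ψ γ - ψ g) := by ring
      calc ‖φ g - ψ g‖ = ‖-(φ γ - φ g) + (φ γ - ψ γ) + (ψ γ - ψ g)‖ := by rw [← e]
        _ ≤ ‖-(φ γ - φ g)‖ + ‖φ γ - ψ γ‖ + ‖ψ γ - ψ g‖ := norm_add₃_le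
        _ = _ := by rw [norm_neg]
    linarith
  -- the key inequality for all small t
  have key : ∀ t : ℝ, 0 < t → t ≤ 1 / 8 → D ^ 2 ≤ 20 * (1 + C) * t := by
    intro t ht0 ht
    obtain ⟨δ, hδ, hδG⟩ := Metric.uniformContinuousOn_iff.1 hGm.2 (t ^ 2) (by positivity)
    set ε : ℝ := min (δ / 2) ((1 - r) / 2) with hε
    have hε0 : 0 < ε := lt_min (by positivity) (by linarith)
    have hε1 : ε ≤ δ / 2 := min_le_left _ _
    have hε2 : ε ≤ (1 - r) / 2 := min_le_right _ _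
    obtain ⟨η, hη, k, hk⟩ := hc ε hε0
    set η' : ℝ := min η 1 with hη'
    have hη'0 : 0 < η' := lt_min hη one_pos
    have hη'1 : η' ≤ 1 := min_le_right _ _
    have hη'2 : η' ≤ η := min_le_left _ _
    obtain ⟨j, hj⟩ : ∃ j : ℕ, (1 - η' ^ 2 / 8) ^ j < t ^ 2 := by
      refine exists_pow_lt_of_lt_one (by positivity) ?_
      nlinarith
    set N : ℝ := (j + 1) * ((k + 1) * C) with hN
    have hN0 : 0 < N := by positivity
    set τ : ℝ := t ^ 2 / N with hτ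
    have hτ0 : 0 < τ := by positivity
    obtain ⟨f0, hf0, hf00, hf0τ⟩ := exists_peak hφ0 hτ0
    have hf0ψ : ‖ψ f0 - 1‖ ≤ C * τ := by
      have h3 := htr f0 hf0
      rw [norm_sub_rev] at h3
      rw [norm_sub_rev (φ f0)] at hf0τ
      exact h3.trans (by gcongr)
    have hf0φ : ‖φ f0 - 1‖ ≤ C * τ := hf0τ.trans (by nlinarith)
    -- the dilated power
    have hpm : Mem (extZ ((f0 ^ k : Au X) : ball (0 : X) 1 → ℂ)) := mem_ext _
    obtain ⟨s, hs0, hs1, hsc⟩ := dilate_close hpm hτ0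
    set F : X → ℂ := fun x => extZ (f0 : ball (0 : X) 1 → ℂ) ((s : ℂ) • x) ^ k with hF
    have hmaps : ∀ x ∈ ball (0 : X) (1 / s), (s : ℂ) • x ∈ ball (0 : X) 1 := by
      intro x hx
      rw [mem_ball_zero_iff] at hx ⊢
      rw [norm_smul, Complex.norm_real, Real.norm_of_nonneg hs0.le]
      rw [lt_div_iff₀ hs0] at hx
      linarith
    have hR : 1 < 1 / s := by rw [lt_div_iff₀ hs0]; linarith
    have hsub : ball (0 : X) 1 ⊆ ball (0 : X) (1 / s) := ball_subset_ball hR.le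
    have hFan : AnalyticOnNhd ℂ F (ball 0 (1 / s)) := by
      intro x hx
      have h3 : AnalyticAt ℂ (fun x : X => (s : ℂ) • x) x :=
        ((s : ℂ) • ContinuousLinearMap.id ℂ X).analyticAt x
      exact (AnalyticAt.fun_comp (f := fun x : X => (s : ℂ) • x)
        ((mem_ext f0).1 _ (hmaps x hx)) h3).pow k
    have hFb : ∀ x ∈ ball (0 : X) (1 / s), ‖F x‖ ≤ 1 := by
      intro x hx
      rw [hF, norm_pow]
      refine pow_le_one₀ (norm_nonneg _) ?_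
      rw [extZ_of_mem (hmaps x hx)]
      exact hf0 _
    have hFk : ∀ x ∈ ball (0 : X) 1, ‖F x‖ ≤ ‖x‖ ^ k := by
      intro x hx
      rw [hF, norm_pow]
      have h3 := schwarz_Au hf0 hf00 (hmaps x (hsub hx))
      have h4 : ‖(s : ℂ) • x‖ ≤ ‖x‖ := by
        rw [norm_smul, Complex.norm_real, Real.norm_of_nonneg hs0.le]
        exact mul_le_of_le_one_left (norm_nonneg _) hs1.le
      gcongr
      exact h3.trans h4
    obtain ⟨U, hUan, hUuc, hUb, hUc⟩ := hk F ⟨1 / s, hR, hFan, hFb⟩ hFk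
    have hFmem : Mem F := by
      have h3 := mem_dilate hpm hs0.le hs1.le
      have h4 : Mem F ↔ Mem (fun x => extZ ((f0 ^ k : Au X) : ball (0 : X) 1 → ℂ)
          ((s : ℂ) • x)) := by
        have h5 : ∀ x ∈ ball (0 : X) 1, F x = extZ ((f0 ^ k : Au X) : ball (0 : X) 1 → ℂ)
            ((s : ℂ) • x) := by
          intro x hx
          have h6 := hmaps x (hsub hx)
          simp only [hF, extZ_of_mem h6]
          rfl
        constructor
        · rintro ⟨-, -⟩; exact h3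
        · rintro ⟨ha, hb⟩
          refine ⟨fun x hx => (hFan x (hsub hx)), ?_⟩
          exact hb.congr (fun x hx => (h5 x hx).symm)
      exact h4.2 h3
    set Fa : Au X := mkAu F hFmem with hFa
    have hFaclose : ∀ x, ‖(Fa : ball (0 : X) 1 → ℂ) x
        - ((f0 ^ k : Au X) : ball (0 : X) 1 → ℂ) x‖ ≤ τ := by
      intro x
      have h3 := hsc x x.2
      rw [extZ_coe] at h3
      have h6 := hmaps x (hsub x.2)
      have h5 : F x = extZ ((f0 ^ k : Au X) : ball (0 : X) 1 → ℂ) ((s : ℂ) • (x : X)) := by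
        simp only [hF, extZ_of_mem h6]
        rfl
      rw [hFa, mkAu_apply, h5]
      exact h3
    have hχF : ∀ χ : Au X →ₐ[ℂ] ℂ, ‖χ f0 - 1‖ ≤ C * τ → ‖χ Fa - 1‖ ≤ (k + 1) * (C * τ) := by
      intro χ hχ
      have h3 := char_sub_bound χ Fa (f0 ^ k) hFaclose
      have h4 : ‖χ (f0 ^ k) - 1‖ ≤ k * (C * τ) := by
        rw [map_pow]
        refine (norm_pow_sub_one_le (char_bound χ f0 hf0) k).trans ?_
        gcongr
      have h5 : χ Fa - 1 = (χ Fa - χ (f0 ^ k)) + (χ (f0 ^ k) - 1) := by ring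
      rw [h5]
      refine (norm_add_le _ _).trans ?_
      have : τ ≤ C * τ := by nlinarith
      linarith
    -- the localising function
    set E : Au X := ((1 / 2 : ℂ) • (1 + Fa)) ^ j with hE
    have hEx : ∀ x, (E : ball (0 : X) 1 → ℂ) x = ((1 / 2 : ℂ) * (1 + F x)) ^ j := fun x => rfl
    have hhalf : ∀ x ∈ ball (0 : X) 1, ‖(1 / 2 : ℂ) * (1 + F x)‖ ≤ 1 := by
      intro x hx
      rw [norm_mul]
      have h3 : ‖(1 / 2 : ℂ)‖ = 1 / 2 := by norm_num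
      have h4 : ‖1 + F x‖ ≤ 2 := by
        refine (norm_add_le _ _).trans ?_
        rw [norm_one]
        linarith [hFb x (hsub hx)]
      rw [h3]; linarith
    have hE1 : ∀ x, ‖(E : ball (0 : X) 1 → ℂ) x‖ ≤ 1 := by
      intro x
      rw [hEx, norm_pow]
      exact pow_le_one₀ (norm_nonneg _) (hhalf x x.2)
    have hχE : ∀ χ : Au X →ₐ[ℂ] ℂ, ‖χ f0 - 1‖ ≤ C * τ → ‖χ E - 1‖ ≤ t ^ 2 := by
      intro χ hχ
      have h3 := hχF χ hχ
      have h4 : χ E = ((1 / 2 : ℂ) * (1 + χ Fa)) ^ j := by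
        rw [hE, map_pow, map_smul, map_add, map_one, smul_eq_mul]
      have hFa1 : ‖χ Fa‖ ≤ 1 := char_bound χ Fa (fun x => hFb x (hsub x.2))
      have h5 : ‖(1 / 2 : ℂ) * (1 + χ Fa)‖ ≤ 1 := by
        rw [norm_mul]
        have h3 : ‖(1 / 2 : ℂ)‖ = 1 / 2 := by norm_num
        have h4 : ‖1 + χ Fa‖ ≤ 2 := by
          refine (norm_add_le _ _).trans ?_
          rw [norm_one]
          linarith
        rw [h3]; linarith
      rw [h4]
      refine (norm_pow_sub_one_le h5 j).trans ?_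
      have h6 : (1 / 2 : ℂ) * (1 + χ Fa) - 1 = (1 / 2 : ℂ) * (χ Fa - 1) := by ring
      have h7 : ‖(1 / 2 : ℂ)‖ = 1 / 2 := by norm_num
      rw [h6, norm_mul, h7]
      calc (j : ℝ) * (1 / 2 * ‖χ Fa - 1‖) ≤ (j : ℝ) * (1 * ((k + 1) * (C * τ))) := by
            gcongr
            norm_num
        _ ≤ (j + 1) * ((k + 1) * (C * τ)) := by
            rw [one_mul]
            gcongr
            linarith
        _ = N * τ := by rw [hN]; ring
        _ = t ^ 2 := by rw [hτ]; field_simp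
    -- the conjugate of γ
    have hrU : ∀ x ∈ ball (0 : X) 1, r * ‖U x‖ < 1 := by
      intro x hx
      have h3 := hUb x hx
      calc r * ‖U x‖ ≤ r * (1 + ε) := by gcongr
        _ ≤ r * (1 + (1 - r) / 2) := by gcongr
        _ < 1 := by nlinarith
    set γs : Au X := mkAu _ (mem_conj_comp c hGm hUan hUuc hr0.le hr1.le hrU) with hγs
    have hmapc : ∀ x ∈ ball (0 : X) 1, (r : ℂ) • c (U x) ∈ ball (0 : X) 1 := by
      intro x hx
      rw [mem_ball_zero_iff, norm_smul, Complex.norm_real, Real.norm_of_nonneg hr0.le, c.norm_map]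
      exact hrU x hx
    have hγs1 : ∀ x, ‖(γs : ball (0 : X) 1 → ℂ) x‖ ≤ 1 := by
      intro x
      rw [hγs, mkAu_apply, RCLike.norm_conj]
      exact hG1 _ (hmapc x x.2)
    have hpt : ∀ x, ‖(γs : ball (0 : X) 1 → ℂ) x - conj ((γ : ball (0 : X) 1 → ℂ) x)‖ ≤ t ^ 2 ∨
        ‖(E : ball (0 : X) 1 → ℂ) x‖ ≤ t ^ 2 := by
      intro x
      by_cases hx : ‖F x - 1‖ ≤ η'
      · left
        have h3 := hUc x x.2 (hx.trans hη'2)
        rw [hγs, mkAu_apply, hγdef, mkAu_apply, ← map_sub, RCLike.norm_conj]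
        have h4 := hδG _ (hmapc x x.2) _ (hmapr x x.2) ?_
        · rw [dist_eq_norm] at h4; exact h4.le
        · rw [dist_eq_norm, ← smul_sub, norm_smul, Complex.norm_real,
            Real.norm_of_nonneg hr0.le]
          calc r * ‖c (U x) - x‖ ≤ 1 * (δ / 2) := by
                gcongr
                exact h3.trans hε1
            _ < δ := by linarith
      · right
        push Not at hx
        rw [hEx, norm_pow]
        have h3 : ‖(1 / 2 : ℂ) * (1 + F x)‖ ≤ 1 - η' ^ 2 / 8 := by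
          have h4 : ‖1 + F x‖ ^ 2 + ‖F x - 1‖ ^ 2 = 2 + 2 * ‖F x‖ ^ 2 := by
            simp only [← Complex.normSq_eq_norm_sq, Complex.normSq_apply]
            simp
            ring
          have h5 : ‖F x‖ ≤ 1 := hFb x (hsub x.2)
          have h6 : ‖F x‖ ^ 2 ≤ 1 := by nlinarith [norm_nonneg (F x)]
          have h7 : η' ^ 2 ≤ ‖F x - 1‖ ^ 2 := by gcongr
          have h8 : ‖1 + F x‖ ^ 2 ≤ (2 - η' ^ 2 / 4) ^ 2 := by
            have e8 : (2 - η' ^ 2 / 4) ^ 2 = 4 - η' ^ 2 + (η' ^ 2) ^ 2 / 16 := by ring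
            have e9 : 0 ≤ (η' ^ 2) ^ 2 / 16 := by positivity
            rw [e8]
            linarith
          have hη'sq : η' ^ 2 ≤ 1 := pow_le_one₀ hη'0.le hη'1
          have h9 : ‖1 + F x‖ ≤ 2 - η' ^ 2 / 4 :=
            (pow_le_pow_iff_left₀ (norm_nonneg _) (by linarith) two_ne_zero).1 h8
          rw [norm_mul]
          have h10 : ‖(1 / 2 : ℂ)‖ = 1 / 2 := by norm_num
          rw [h10]; linarith
        calc ‖(1 / 2 : ℂ) * (1 + F x)‖ ^ j ≤ (1 - η' ^ 2 / 8) ^ j := by gcongr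
          _ ≤ t ^ 2 := hj.le
    exact stepII φ ψ E γ γs ht0 ht (by linarith) hE1 hγ1 hγs1 hpt (hχE φ hf0φ) (hχE ψ hf0ψ) htr
  have hCp : 0 < 40 * (1 + C) := by positivity
  set t : ℝ := min (1 / 8) (D ^ 2 / (40 * (1 + C))) with ht
  have ht0 : 0 < t := lt_min (by norm_num) (by positivity)
  have h3 := key t ht0 (min_le_left _ _)
  have h4 : t ≤ D ^ 2 / (40 * (1 + C)) := min_le_right _ _
  rw [le_div_iff₀ hCp] at h4
  have : 0 < D ^ 2 := by positivity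
  nlinarith

end

end Pool.Agent.helper68.Gl
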