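import Pool.Agent.helper68.Gl.Char

/-!
# The characters lie in one part
-/

set_option linter.unusedSectionVars false

namespace Pool.Agent.helper68.Gl

open Finset Function Filter Topology Metric
open scoped ComplexConjugate ENNReal

noncomputable section

variable {p : ℝ≥0∞} [Fact (1 ≤ p)] {Z : Type} [Fintype Z] [Nonempty Z] [DecidableEq Z] {n : ℕ}
  {z : Z → Fin n → ℂ} {σ : Z → ℂ}

lemma resample_bound (hp : 0 < p.toReal) (hz : ∀ a, ∑ i, ‖z a i‖ ^ p.toReal = 1)
    (hσ : ∀ a, ‖σ a‖ ≤ 1) {K : ℕ}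
    (hkill : ∀ k ≤ K, ∀ r : Fin k → Fin n, ∑ a, conj (σ a) * ∏ l, z a (r l) = 0)
    {g : LP p → ℂ} (hg : AnalyticOnNhd ℂ g (ball 0 1)) (hb : ∀ x ∈ ball (0 : LP p) 1, ‖g x‖ ≤ 1)
    {s : ℝ} (hs0 : 0 ≤ s) (hs1 : s < 1) {N : ℕ} (hN : (N : ℝ) ^ (-p.toReal⁻¹) < 1 - s)
    (ω : Fin N → Z) (j : Fin N) :
    ‖∑ a, conj (σ a) * g ((s : ℂ) • xx z p N (update ω j a))‖
      ≤ Fintype.card Z * ((N : ℝ) ^ (-p.toReal⁻¹) / (1 - s)) ^ (K + 1) := by
  set y₀ : Fin N → Fin n → ℂ := fun j' i => if j' = j then 0 else z (ω j') i with hy₀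
  set e : Fin n → LP p := fun i => lp.single p (enc N j i) 1 with he
  set x : LP p := (s : ℂ) • (((cc p N : ℝ) : ℂ) • emb p N y₀) with hx
  set τ : ℂ := ((s * cc p N : ℝ) : ℂ) with hτ
  have hcc := cc_le (p := p) N
  have hcc0 := cc_nonneg (p := p) N
  have hu : ∀ a, ∑ i : Fin n, z a i • e i
      = ∑ i : Fin n, (lp.single p (enc N j i) (z a i) : LP p) := by
    intro a
    refine Finset.sum_congr rfl fun i _ => ?_
    have := lp.single_smul (E := fun _ : ℕ => ℂ) p (enc N j i) (z a i) (1 : ℂ)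
    rw [smul_eq_mul, mul_one] at this
    exact this.symm
  have hinj : Set.InjOn (fun i : Fin n => enc N j i) (Finset.univ : Finset (Fin n)) := by
    intro i _ i' _ h
    exact Fin.ext (enc_inj h).2.2
  have hun : ∀ a, ‖∑ i, z a i • e i‖ ≤ 1 := by
    intro a
    rw [hu a]
    have h1 := norm_comb hp Finset.univ (fun i : Fin n => enc N j i) hinj (z a)
    rw [hz a] at h1
    by_contra hc
    push Not at hc
    have := Real.one_lt_rpow hc hp
    linarith
  have hemb : ∀ a, emb p N (fun j' => z (update ω j a j')) = emb p N y₀ + ∑ i, z a i • e i := by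
    intro a
    have h1 : (fun j' i => z (update ω j a j') i)
        = fun j' i => y₀ j' i + (if j' = j then z a i else 0) := by
      funext j' i
      by_cases h : j' = j
      · subst h; simp [hy₀]
      · simp [hy₀, h]
    have h2 : emb p N (fun j' i => if j' = j then z a i else 0) = ∑ i, z a i • e i := by
      rw [hu a]
      unfold emb
      rw [Fintype.sum_prod_type, Finset.sum_eq_single j]
      · simp
      · intro b _ hb
        refine Finset.sum_eq_zero fun i _ => ?_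
        simp [hb]
      · simp
    change emb p N (fun j' i => z (update ω j a j') i) = _
    rw [h1, emb_add, h2]
  have hpt : ∀ a, (s : ℂ) • xx z p N (update ω j a) = x + τ • ∑ i, z a i • e i := by
    intro a
    rw [xx, hemb a, smul_add, smul_add, hx, hτ, Complex.ofReal_mul, ← smul_smul (s : ℂ)]
  have hxn : ‖x‖ ≤ s := by
    have h1 : ‖emb p N y₀‖ ≤ (N : ℝ) ^ (p.toReal⁻¹) := by
      apply norm_emb_le hp
      have : ∀ j' ∈ (univ : Finset (Fin N)), ∑ i, ‖y₀ j' i‖ ^ p.toReal ≤ 1 := by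
        intro j' _
        by_cases h : j' = j
        · simp [hy₀, h, Real.zero_rpow hp.ne']
        · simp only [hy₀, h, if_false]
          exact (hz _).le
      refine (Finset.sum_le_sum this).trans (le_of_eq ?_)
      simp
    rw [hx, norm_smul, norm_smul, Complex.norm_real, Complex.norm_real,
      Real.norm_of_nonneg hs0, Real.norm_of_nonneg hcc0]
    calc s * (cc p N * ‖emb p N y₀‖) ≤ s * ((N : ℝ) ^ (-p.toReal⁻¹) * (N : ℝ) ^ (p.toReal⁻¹)) := by
          gcongr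
      _ = s * ((N : ℝ) / N) ^ (p.toReal⁻¹) := by rw [scale_mul _ _ _ (Nat.cast_nonneg N)]
      _ ≤ s * 1 := by
          gcongr
          exact Real.rpow_le_one (by positivity) (div_self_le_one _) (by positivity)
      _ = s := mul_one _
  have hτn : ‖τ‖ ≤ (N : ℝ) ^ (-p.toReal⁻¹) := by
    rw [hτ, Complex.norm_real, Real.norm_of_nonneg (by positivity)]
    calc s * cc p N ≤ 1 * (N : ℝ) ^ (-p.toReal⁻¹) := by gcongr
      _ = _ := one_mul _
  have h := kill_bound hg hb e z (fun a => conj (σ a))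
    (fun a => by rw [RCLike.norm_conj]; exact hσ a) hkill hun hs1 hxn (hτn.trans_lt hN)
  simp only [hpt]
  refine h.trans ?_
  have : 0 < 1 - s := by linarith
  gcongr

/-- The two characters lie in one Gleason part. -/
lemma same_part (hp : 0 < p.toReal) (hz : ∀ a, ∑ i, ‖z a i‖ ^ p.toReal = 1)
    (hσ : ∀ a, ‖σ a‖ ≤ 1)
    (hkill : ∀ k : ℕ, (k : ℝ) ≤ p.toReal → ∀ r : Fin k → Fin n,
      ∑ a, conj (σ a) * ∏ l, z a (r l) = 0)
    {ζ : ℂ} (hζ : ‖ζ‖ ≤ 1 / 8)
    (hw : ∀ a, 0 ≤ wt σ ζ a) (hw1 : ∑ a, wt σ ζ a = 1)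
    (hw' : ∀ a, 0 ≤ wt σ 0 a) (hw1' : ∑ a, wt σ 0 a = 1) :
    SameGleason (chr hp hz hw hw1) (chr hp hz hw' hw1') := by
  have hσ0 : ∑ a, σ a = 0 := by
    have h := hkill 0 (by simpa using hp.le) Fin.elim0
    simp only [Finset.univ_eq_empty, Finset.prod_empty, mul_one] at h
    have h2 := congrArg (starRingEnd ℂ) h
    rw [map_sum, map_zero] at h2
    simp at h2; exact h2
  set K : ℕ := ⌊p.toReal⌋₊ with hK
  have hkill' : ∀ k ≤ K, ∀ r : Fin k → Fin n, ∑ a, conj (σ a) * ∏ l, z a (r l) = 0 := by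
    intro k hk r
    exact hkill k ((Nat.le_floor_iff hp.le).1 hk) r
  have hKP : p.toReal < K + 1 := Nat.lt_floor_add_one _
  refine ⟨2 / 3, by norm_num, fun f hf => ?_⟩
  rw [chr_val, chr_val]
  set g : LP p → ℂ := extZ f.1 with hg
  have hgm : Mem g := mem_ext (⟨f.1, f.2⟩ : Au (LP p))
  have hgb : ∀ x ∈ ball (0 : LP p) 1, ‖g x‖ ≤ 1 := by
    intro x hx
    rw [hg, extZ_of_mem hx]; exact hf _
  obtain ⟨s, hs0, hs1, hclose⟩ := dilate_close hgm (ε := 1 / 12) (by norm_num)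
  have h1s : 0 < 1 - s := by linarith
  -- decay of the error
  have hdecay : Tendsto (fun N : ℕ => (N : ℝ) * ((N : ℝ) ^ (-p.toReal⁻¹) / (1 - s)) ^ (K + 1))
      atTop (𝓝 0) := by
    have h1 : Tendsto (fun N : ℕ => ((1 - s) ^ (K + 1))⁻¹ *
        (N : ℝ) ^ (-(((K : ℝ) + 1) / p.toReal - 1))) atTop
        (𝓝 (((1 - s) ^ (K + 1))⁻¹ * 0)) := by
      apply Tendsto.const_mul
      apply (tendsto_rpow_neg_atTop _).comp tendsto_natCast_atTop_atTop
      rw [sub_pos, one_lt_div hp]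
      exact hKP
    rw [mul_zero] at h1
    refine h1.congr' ?_
    filter_upwards [eventually_gt_atTop 0] with N hN
    have hN' : (0 : ℝ) < N := by exact_mod_cast hN
    rw [div_pow, ← Real.rpow_natCast ((N : ℝ) ^ (-p.toReal⁻¹)), ← Real.rpow_mul hN'.le]
    have e : -(((K : ℝ) + 1) / p.toReal - 1) = 1 + -p.toReal⁻¹ * ((K + 1 : ℕ) : ℝ) := by
      push_cast; ring
    rw [e, Real.rpow_add hN', Real.rpow_one]
    ring
  have hsmall : Tendsto (fun N : ℕ => (N : ℝ) ^ (-p.toReal⁻¹)) atTop (𝓝 0) :=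
    (tendsto_rpow_neg_atTop (inv_pos.2 hp)).comp tendsto_natCast_atTop_atTop
  have hev : ∀ᶠ N : ℕ in atTop, ‖ME z (wt σ ζ) g N - ME z (wt σ 0) g N‖ ≤ 2 / 3 := by
    filter_upwards [hsmall.eventually_lt_const h1s,
      hdecay.eventually_le_const (show (0 : ℝ) < 1 / 12 by norm_num)] with N hN1 hN2
    set F : (Fin N → Z) → ℂ := fun ω => g ((s : ℂ) • xx z p N ω) with hF
    have hFb : ∀ ω, ‖F ω‖ ≤ 1 := by
      intro ω
      apply hgb
      have h1 := norm_xx_le hp hz N ω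
      rw [mem_ball_zero_iff, norm_smul, Complex.norm_real, Real.norm_of_nonneg hs0.le]
      calc s * ‖xx z p N ω‖ ≤ s * 1 := by
            gcongr
            exact h1.trans (rho_lt_one N).le
        _ < 1 := by linarith
    have hbb : ∀ w, ‖w‖ ≤ 1 / 2 → ‖hd σ (fun a => conj (σ a)) N F w‖ ≤ 1 / 12 := by
      intro w hw
      have h1 := norm_hd_le σ hσ hσ0 hw (fun a => conj (σ a)) N F
        (fun ω j => resample_bound hp hz hσ hkill' hgm.1 hgb hs0.le hs1 hN1 ω j)
      refine h1.trans ?_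
      have hcard : (0 : ℝ) < Fintype.card Z := by exact_mod_cast Fintype.card_pos
      refine le_trans (le_of_eq ?_) hN2
      field_simp
    have h1 : ∀ w, ‖w‖ ≤ 1 / 2 → ‖hh σ N F w‖ ≤ 1 := by
      intro w hw
      exact norm_EC_le_of_le (PW_nonneg (wt_nonneg σ hσ hw) N) (PW_sum (wt_sum σ hσ0 w) N) hFb
    have hP := pompeiu (hasFDerivAt_hh σ N F) (continuous_hd σ _ N F) (continuous_hd σ _ N F)
      hbb h1 hζ
    have hdiff : ∀ {w : Z → ℝ}, (∀ a, 0 ≤ w a) → (∑ a, w a = 1) →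
        ‖EC (PW w N) F - ME z w g N‖ ≤ 1 / 12 := by
      intro w hw hw1
      unfold ME
      rw [← EC_sub]
      exact norm_EC_le_of_le (PW_nonneg hw N) (PW_sum hw1 N)
        fun ω => hclose _ (xx_mem hp hz N ω)
    have d1 := hdiff hw hw1
    have d2 := hdiff hw' hw1'
    have e : ME z (wt σ ζ) g N - ME z (wt σ 0) g N
        = -(EC (PW (wt σ ζ) N) F - ME z (wt σ ζ) g N) + (hh σ N F ζ - hh σ N F 0)
          + (EC (PW (wt σ 0) N) F - ME z (wt σ 0) g N) := by
      unfold hh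
      ring
    rw [e]
    refine (norm_add₃_le).trans ?_
    rw [norm_neg]
    linarith
  have t1 := ulim_spec (norm_ME_le hp hz hw hw1 hgb)
  have t2 := ulim_spec (norm_ME_le hp hz hw' hw1' hgb)
  exact le_of_tendsto (t1.sub t2).norm (hev.filter_mono Nat.hyperfilter_le_atTop)

end

end Pool.Agent.helper68.Gl
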